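import Pool.Agent.H98.TQ.Defs

/-!
# Project TQ (MP_a3214d): the exponents of the limit superior
-/

set_option autoImplicit false

namespace Pool.Agent.H98.TQ

open Pool.Agent.H92.SQ2 (gg WW DD)

/-- the exponent obtained if `s` independent integers of trace zero are short -/
noncomputable def eL (n s : ℕ) : ℝ :=
  (WW n - DD n * WW n / (WW n - s)) / min ((n : ℝ) * (n - 1) - 2 * DD n) (2 * (gg n s : ℝ))

end Pool.Agent.H98.TQ
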