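import Pool.Agent.H98.TQ.Defs
import Pool.Agent.H20.ML.Mertens

/-! # Project TQ, row TQ-1: prime ideals whose norms are distinct rational primes -/

set_option autoImplicit false

open Polynomial IsDedekindDomain NumberField Pool.Agent.H35.AN
open Pool.Agent.H67.MU (Bdd)
open Pool.Agent.H92.SQ2 (gg WW DD mu ee)

namespace Pool.Agent.H98.TQ

section

variable (k : Type) [Field k] [NumberField k]

theorem exists_ps (j : ℕ) (hj : 1 ≤ j) : ∃ h0 : ℕ, ∀ h ≥ h0,
    ∃ S : Finset (HeightOneSpectrum (𝓞 k)), PS h j S ∧ h ^ (j - 1) ≤ S.card := by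
  classical
  have hj0 : (0 : ℝ) < j := by exact_mod_cast hj
  have hev := Pool.Agent.H20.ML.many_primes k (1 / (j : ℝ)) (by positivity)
  rw [Filter.eventually_atTop] at hev
  obtain ⟨X0, hX0⟩ := hev
  refine ⟨max X0 1, fun h hh => ?_⟩
  have hh0 : X0 ≤ h := le_trans (le_max_left _ _) hh
  have hh1 : 1 ≤ h := le_trans (le_max_right _ _) hh
  have hX : X0 ≤ h ^ j := by
    calc X0 ≤ h := hh0
      _ = h ^ 1 := (pow_one h).symm
      _ ≤ h ^ j := Nat.pow_le_pow_right hh1 hj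
  obtain ⟨S, hS1, hS2⟩ := hX0 (h ^ j) hX
  have hpow : (((h ^ j : ℕ) : ℝ)) ^ (1 - 1 / (j : ℝ)) = ((h ^ (j - 1) : ℕ) : ℝ) := by
    have hnn : (0 : ℝ) ≤ (h : ℝ) := Nat.cast_nonneg h
    rw [Nat.cast_pow, Nat.cast_pow, ← Real.rpow_natCast (h : ℝ) j, ← Real.rpow_mul hnn,
      ← Real.rpow_natCast (h : ℝ) (j - 1)]
    congr 1
    rw [Nat.cast_sub hj]
    push_cast
    field_simp
  rw [hpow] at hS1
  have key : ∀ p : S, ∃ v : HeightOneSpectrum (𝓞 k), Ideal.absNorm v.asIdeal = (p : ℕ) := by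
    rintro ⟨p, hp⟩
    obtain ⟨hpp, -, -, I, hI⟩ := hS2 p hp
    have hirr : Irreducible (Ideal.absNorm I) := by
      rw [hI]
      exact hpp
    have hprime : I.IsPrime := Ideal.isPrime_of_irreducible_absNorm hirr
    have hne : I ≠ ⊥ := by
      rintro rfl
      rw [Ideal.absNorm_bot] at hI
      exact hpp.ne_zero hI.symm
    exact ⟨⟨I, hprime, hne⟩, hI⟩
  choose v hv using key
  have hinj : Function.Injective v := by
    intro p q hpq
    apply Subtype.ext
    rw [← hv p, ← hv q, hpq]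
  refine ⟨Finset.univ.image v, ⟨?_, ?_, ?_, ?_⟩, ?_⟩
  · intro w hw
    obtain ⟨p, -, rfl⟩ := Finset.mem_image.1 hw
    rw [hv p]
    exact (hS2 p p.2).1
  · intro w hw
    obtain ⟨p, -, rfl⟩ := Finset.mem_image.1 hw
    rw [hv p]
    have h1 := (hS2 p p.2).2.1
    rw [hpow] at h1
    exact_mod_cast h1
  · intro w hw
    obtain ⟨p, -, rfl⟩ := Finset.mem_image.1 hw
    rw [hv p]
    exact (hS2 p p.2).2.2.1
  · intro w hw w' hw' h1
    obtain ⟨p, -, rfl⟩ := Finset.mem_image.1 hw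
    obtain ⟨q, -, rfl⟩ := Finset.mem_image.1 hw'
    rw [hv p, hv q] at h1
    rw [Subtype.ext h1]
  · rw [Finset.card_image_of_injective _ hinj, Finset.card_univ, Fintype.card_coe]
    exact_mod_cast hS1

end

end Pool.Agent.H98.TQ
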