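import Pool.Agent.H35.AN.Defs
import Pool.Agent.H67.MU.Defs
import Pool.Agent.H92.SQ2.DefsF

/-!
# Project TQ (MP_a3214d): definitions

A lower bound for Malle's counting function `N(k, S_n; B)` over every number field `k`, with an
exponent larger than `1/2 + 1/(n-1)` for all `n ≥ 28`.
-/

set_option autoImplicit false

open Polynomial IsDedekindDomain NumberField

namespace Pool.Agent.H98.TQ

open Pool.Agent.H67.MU (Bdd)

section

variable {k : Type} [Field k] [NumberField k]

/-- A polynomial over the ring of integers as a polynomial over the field. -/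
noncomputable def FK (f : (𝓞 k)[X]) : k[X] := f.map (algebraMap (𝓞 k) k)

/-- The image of a polynomial over the ring of integers under a complex embedding. -/
noncomputable def FC (σ : k →+* ℂ) (f : (𝓞 k)[X]) : ℂ[X] := (FK f).map σ

/-- A set of prime ideals whose norms are distinct rational primes in `(h^(j-1), h^j]`. -/
structure PS (h j : ℕ) (S : Finset (HeightOneSpectrum (𝓞 k))) : Prop where
  prime : ∀ p ∈ S, (Ideal.absNorm p.asIdeal).Prime
  lo : ∀ p ∈ S, h ^ (j - 1) < Ideal.absNorm p.asIdeal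
  hi : ∀ p ∈ S, Ideal.absNorm p.asIdeal ≤ h ^ j
  inj : ∀ p ∈ S, ∀ q ∈ S, Ideal.absNorm p.asIdeal = Ideal.absNorm q.asIdeal → p = q

/-- `g` has degree at most `d` and all conjugates of `g_j` have size at most
`h ^ (ρ + b (d - j))`. -/
def InBox (h b d ρ : ℕ) (g : (𝓞 k)[X]) : Prop :=
  g.natDegree ≤ d ∧ ∀ j ≤ d, Bdd ((h : ℝ) ^ (ρ + b * (d - j))) (g.coeff j)

/-- `g (x)` lies in `q²` and `g' (x)` in `q`. -/
def Dbl (q : Ideal (𝓞 k)) (x : 𝓞 k) (g : (𝓞 k)[X]) : Prop :=
  g.eval x ∈ q ^ 2 ∧ g.derivative.eval x ∈ q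

/-- The family: monic polynomials `f` of degree `n`, congruent to `s` modulo `N0`, with the same
second coefficient as `s` and all conjugates of `f_i` of size at most `h ^ (b (n - i))` for
`i ≤ n - 2`. -/
structure Fam (n N0 : ℕ) (s : (𝓞 k)[X]) (b h : ℕ) (f : (𝓞 k)[X]) : Prop where
  deg : f.natDegree = n
  monic : f.Monic
  snd : f.coeff (n - 1) = s.coeff (n - 1)
  ht : ∀ i ≤ n - 2, Bdd ((h : ℝ) ^ (b * (n - i))) (f.coeff i)
  cong : ∀ i, (N0 : 𝓞 k) ∣ f.coeff i - s.coeff i

/-- `f` has a double root at `x` modulo `m` and modulo `l`, with `f (x)` in `m²` and not in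
`l²`. -/
structure Pl (f : (𝓞 k)[X]) (m l : Ideal (𝓞 k)) (x : 𝓞 k) : Prop where
  m2 : f.eval x ∈ m ^ 2
  m1 : f.derivative.eval x ∈ m
  l1 : f.eval x ∈ l
  l2 : f.eval x ∉ l ^ 2
  l3 : f.derivative.eval x ∈ l

/-- `g` is monic, irreducible over `k`, of degree `n`, with second coefficient `a` and all complex
roots (for every embedding of `k`) of size at most `R`. -/
structure Mb (n : ℕ) (R : ℝ) (a : 𝓞 k) (g : (𝓞 k)[X]) : Prop where
  deg : g.natDegree = n
  monic : g.Monic
  snd : g.coeff (n - 1) = a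
  irr : Irreducible (FK g)
  rt : ∀ (σ : k →+* ℂ) (z : ℂ), (FC σ g).eval z = 0 → ‖z‖ ≤ R

/-- Monic polynomials of degree `n` over the integers of `k`, with second coefficient `0` and all
complex roots (for every embedding of `k`) of size at most `L`. -/
structure ShP (n : ℕ) (L : ℝ) (P : (𝓞 k)[X]) : Prop where
  deg : P.natDegree = n
  monic : P.Monic
  snd : P.coeff (n - 1) = 0
  sz : ∀ (σ : k →+* ℂ) (z : ℂ), (FC σ P).eval z = 0 → ‖z‖ ≤ L

/-- The fields `k[X]/(f)` and `k[X]/(g)` are isomorphic: some extension of degree `n` has a root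
of `f` and a root of `g`. -/
def Iso (n : ℕ) (f g : (𝓞 k)[X]) : Prop :=
  ∃ (K : Type) (_ : Field K) (_ : NumberField K) (_ : Algebra k K) (x y : K),
    Module.finrank k K = n ∧ aeval x (FK f) = 0 ∧ aeval y (FK g) = 0

end

/-- `M` is a field of degree `n` over `k` whose Galois closure has the group `S_n`. -/
def IsSymF (k : Type) [Field k] (n : ℕ) (M : IntermediateField k (AlgebraicClosure k)) : Prop :=
  Module.finrank k M = n ∧
    ∃ e : (M →ₐ[k] AlgebraicClosure k) ≃ Fin n, ∀ π : Equiv.Perm (Fin n),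
      ∃ σ : AlgebraicClosure k ≃ₐ[k] AlgebraicClosure k,
        ∀ φ : M →ₐ[k] AlgebraicClosure k, e (σ.toAlgHom.comp φ) = π (e φ)

/-- The extension `K` of `k` has degree `n` and its Galois closure has the group `S_n`. -/
def SymK (k : Type) [Field k] (n : ℕ) (K : Type) [Field K] [Algebra k K] : Prop :=
  Module.finrank k K = n ∧
    ∃ e : (K →ₐ[k] AlgebraicClosure k) ≃ Fin n, ∀ π : Equiv.Perm (Fin n),
      ∃ σ : AlgebraicClosure k ≃ₐ[k] AlgebraicClosure k,
        ∀ φ : K →ₐ[k] AlgebraicClosure k, e (σ.toAlgHom.comp φ) = π (e φ)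

/-- An integral element of relative trace zero with all conjugates of size at most `R`. -/
structure Sh (k : Type) [Field k] {K : Type} [Field K] [Algebra k K] (R : ℝ) (z : K) : Prop where
  int : IsIntegral ℤ z
  tr : Algebra.trace k K z = 0
  sz : ∀ φ : K →+* ℂ, ‖φ z‖ ≤ R

/-- Any `r + 1` integral elements of trace zero and size at most `R` are dependent over `k`. -/
def Thin (k : Type) [Field k] (r : ℕ) (R : ℝ) (K : Type) [Field K] [Algebra k K] : Prop :=
  ∀ z : Fin (r + 1) → K, (∀ i, Sh k R (z i)) → ¬ LinearIndependent k z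

end Pool.Agent.H98.TQ
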