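import Pool.Agent.H35.AN.Count
import Pool.Agent.H98.TQ.Defs

/-!
# Project TQ, row TQ-30: the number of fields from the multiplicity
-/

set_option autoImplicit false

open Polynomial IsDedekindDomain NumberField Pool.Agent.H35.AN
open Pool.Agent.H67.MU (Bdd)
open Pool.Agent.H92.SQ2 (gg WW DD mu ee)

namespace Pool.Agent.H98.TQ

section

variable (k : Type) [Field k] [NumberField k]

/-- an isomorphism of the fields gives `Iso` -/
private theorem tq30_iso {n : ℕ} {f g : (𝓞 k)[X]} {x y : AlgebraicClosure k}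
    (hx : aeval x (FK f) = 0) (hy : aeval y (FK g) = 0)
    (hn : Module.finrank k (IntermediateField.adjoin k {x}) = n)
    (hnf : NumberField (IntermediateField.adjoin k {x}))
    (e : IntermediateField.adjoin k {y} ≃ₐ[k] IntermediateField.adjoin k {x}) : Iso n f g := by
  refine ⟨IntermediateField.adjoin k {x}, inferInstance, hnf, inferInstance,
    ⟨x, IntermediateField.mem_adjoin_simple_self k x⟩,
    e ⟨y, IntermediateField.mem_adjoin_simple_self k y⟩, hn, ?_, ?_⟩
  · exact (aeval_algebraMap_eq_zero_iff (AlgebraicClosure k)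
      (⟨x, IntermediateField.mem_adjoin_simple_self k x⟩ : IntermediateField.adjoin k {x})
      (FK f)).1 hx
  · have h1 : aeval (⟨y, IntermediateField.mem_adjoin_simple_self k y⟩ :
        IntermediateField.adjoin k {y}) (FK g) = 0 :=
      (aeval_algebraMap_eq_zero_iff (AlgebraicClosure k)
        (⟨y, IntermediateField.mem_adjoin_simple_self k y⟩ : IntermediateField.adjoin k {y})
        (FK g)).1 hy
    have h2 := Polynomial.aeval_algHom_apply (e : IntermediateField.adjoin k {y} →ₐ[k]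
      IntermediateField.adjoin k {x}) (⟨y, IntermediateField.mem_adjoin_simple_self k y⟩ :
        IntermediateField.adjoin k {y}) (FK g)
    rw [h1, map_zero] at h2
    exact h2

theorem class_sym (n : ℕ) (B : ℝ) (T : Finset (𝓞 k)[X]) (N : ℕ)
    (hT : ∀ f ∈ T, f.natDegree = n ∧ Irreducible (FK f) ∧
      ∃ x : AlgebraicClosure k, aeval x (FK f) = 0 ∧
        IsSymF k n (IntermediateField.adjoin k {x}) ∧
        ∃ _ : NumberField (IntermediateField.adjoin k {x}),
          |(NumberField.discr (IntermediateField.adjoin k {x}) : ℝ)| ≤ B)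
    (hN : ∀ f ∈ T, ∀ G : Finset (𝓞 k)[X], G ⊆ T → (∀ g ∈ G, Iso n f g) → G.card ≤ N) :
    T.card ≤ N * malleCount k n ⊤ B := by
  classical
  have hT' := fun f hf => (hT f hf).2.2
  choose! x hx hsym hnf hdisc using hT'
  have hd1 : (1 : ℝ) ≤ ((|NumberField.discr k| : ℤ) : ℝ) := by
    have : (1 : ℤ) ≤ |NumberField.discr k| := Int.one_le_abs (NumberField.discr_ne_zero k)
    exact_mod_cast this
  have hX : ∀ f (hf : f ∈ T), Module.finrank k (IntermediateField.adjoin k {x f}) = n ∧
      (∃ e : ((IntermediateField.adjoin k {x f}) →ₐ[k] AlgebraicClosure k) ≃ Fin n,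
        ∀ π : Equiv.Perm (Fin n),
        π ∈ (⊤ : Subgroup (Equiv.Perm (Fin n))) ↔
          ∃ σ : AlgebraicClosure k ≃ₐ[k] AlgebraicClosure k,
          ∀ φ : (IntermediateField.adjoin k {x f}) →ₐ[k] AlgebraicClosure k,
            e (σ.toAlgHom.comp φ) = π (e φ)) ∧
      ∃ h : NumberField (IntermediateField.adjoin k {x f}),
        ((|@NumberField.discr (IntermediateField.adjoin k {x f}) _ h| : ℤ) : ℝ) ≤
          B * ((|NumberField.discr k| : ℤ) : ℝ) ^ n := by
    intro f hf
    obtain ⟨h1, e, he⟩ := hsym f hf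
    refine ⟨h1, ⟨e, fun π => ⟨fun _ => he π, fun _ => Subgroup.mem_top π⟩⟩, hnf f hf, ?_⟩
    have h2 := hdisc f hf
    have h3 : 0 ≤ B := (abs_nonneg _).trans h2
    have h4 : (1 : ℝ) ≤ ((|NumberField.discr k| : ℤ) : ℝ) ^ n := one_le_pow₀ hd1
    calc ((|@NumberField.discr (IntermediateField.adjoin k {x f}) _ (hnf f hf)| : ℤ) : ℝ)
        = |(@NumberField.discr (IntermediateField.adjoin k {x f}) _ (hnf f hf) : ℝ)| := by
          push_cast; rfl
      _ ≤ B := h2
      _ = B * 1 := (mul_one B).symm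
      _ ≤ B * ((|NumberField.discr k| : ℤ) : ℝ) ^ n := mul_le_mul_of_nonneg_left h4 h3
  let F : {f // f ∈ T} → an35_X k n ⊤ B := fun f => ⟨IntermediateField.adjoin k {x f.1}, hX f.1 f.2⟩
  have hfin := an35_finite k n ⊤ B
  have hr : Equivalence (fun L L' : an35_X k n ⊤ B => Nonempty (L.1 ≃ₐ[k] L'.1)) :=
    ⟨fun L => ⟨AlgEquiv.refl⟩, fun ⟨e⟩ => ⟨e.symm⟩, fun ⟨e⟩ ⟨f⟩ => ⟨e.trans f⟩⟩
  have key := an35_fibres (fun L L' : an35_X k n ⊤ B => Nonempty (L.1 ≃ₐ[k] L'.1)) hr T.attach F N ?_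
  · rw [Finset.card_attach] at key
    exact key
  · intro f₀ _ S' _ hS'
    have h1 : (S'.image Subtype.val).card = S'.card :=
      Finset.card_image_of_injective _ Subtype.val_injective
    rw [← h1]
    apply hN f₀.1 f₀.2
    · intro g hg
      obtain ⟨g', _, rfl⟩ := Finset.mem_image.1 hg
      exact g'.2
    · intro g hg
      obtain ⟨g', hg', rfl⟩ := Finset.mem_image.1 hg
      obtain ⟨e⟩ := hS' g' hg'
      exact tq30_iso k (hx f₀.1 f₀.2) (hx g'.1 g'.2) (hsym f₀.1 f₀.2).1 (hnf f₀.1 f₀.2) e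

end

end Pool.Agent.H98.TQ
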