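import Pool.Agent.H98.TQ.MonoDim

/-!
# Project TQ, row TQ-22: a basis of monomials
-/

set_option autoImplicit false

open Polynomial IsDedekindDomain NumberField Pool.Agent.H35.AN
open Pool.Agent.H67.MU (Bdd)
open Pool.Agent.H92.SQ2 (gg WW DD mu ee)

namespace Pool.Agent.H98.TQ

section

variable {k : Type} [Field k] [NumberField k]

theorem tq22_step {n u : ℕ} (hu : 1 ≤ u) {K : Type} [Field K] [NumberField K] [Algebra k K]
    (hK : SymK k n K) (z : Fin u → K)
    (hz : LinearIndependent k (Fin.cons 1 z : Fin (u + 1) → K)) :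
    ∀ m : ℕ, m ≤ n → ∃ w : Fin m → (Fin u → ℕ),
      (∀ i : Fin m, ∑ j, w i j ≤ ((i : ℕ) + u - 1) / u) ∧
      LinearIndependent k (fun i => ∏ j, z j ^ w i j) := by
  intro m
  induction m with
  | zero =>
    intro _
    exact ⟨fun i => i.elim0, fun i => i.elim0, linearIndependent_empty_type⟩
  | succ m ih =>
    intro hm
    obtain ⟨w, hw, hli⟩ := ih (by omega)
    set t := (m + u - 1) / u with ht
    have hmk : m ≤ t * u := by
      have h1 := Nat.div_add_mod (m + u - 1) u
      have h2 := Nat.mod_lt (m + u - 1) (show 0 < u by omega)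
      rw [← ht] at h1
      have h3 : t * u = u * t := mul_comm _ _
      omega
    have hdim := mono_dim hu hK z hz t m hmk (by omega)
    have hex : ∃ w' : Fin u → ℕ, ∑ j, w' j ≤ t ∧
        ∏ j, z j ^ w' j ∉ Submodule.span k (Set.range fun i => ∏ j, z j ^ w i j) := by
      by_contra hcon
      have hle : Submodule.span k {x : K | ∃ w : Fin u → ℕ, ∑ j, w j ≤ t ∧ x = ∏ j, z j ^ w j} ≤
          Submodule.span k (Set.range fun i => ∏ j, z j ^ w i j) := by
        rw [Submodule.span_le]
        rintro x ⟨w', hw', rfl⟩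
        by_contra hx
        exact hcon ⟨w', hw', hx⟩
      have h1 := Submodule.finrank_mono hle
      rw [finrank_span_eq_card hli, Fintype.card_fin] at h1
      omega
    obtain ⟨w', hw', hx⟩ := hex
    refine ⟨(Fin.snoc w w' : Fin (m + 1) → (Fin u → ℕ)), fun i => ?_, ?_⟩
    · refine Fin.lastCases ?_ (fun i => ?_) i
      · rw [Fin.snoc_last]
        exact hw'
      · rw [Fin.snoc_castSucc]
        exact hw i
    · have h2 : (fun i => ∏ j, z j ^ (Fin.snoc w w' : Fin (m + 1) → (Fin u → ℕ)) i j) =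
          (Fin.snoc (fun i => ∏ j, z j ^ w i j) (∏ j, z j ^ w' j) : Fin (m + 1) → K) := by
        funext i
        refine Fin.lastCases ?_ (fun i => ?_) i
        · simp only [Fin.snoc_last]
        · simp only [Fin.snoc_castSucc]
      rw [h2, linearIndependent_finSnoc]
      exact ⟨hli, hx⟩

theorem gp_basis {n u : ℕ} (hu : 1 ≤ u) {K : Type} [Field K] [NumberField K] [Algebra k K]
    (hK : SymK k n K) (z : Fin u → K)
    (hz : LinearIndependent k (Fin.cons 1 z : Fin (u + 1) → K)) :
    ∃ w : Fin n → (Fin u → ℕ), (∀ i : Fin n, ∑ j, w i j ≤ ((i : ℕ) + u - 1) / u) ∧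
      LinearIndependent k (fun i => ∏ j, z j ^ w i j) :=
  tq22_step hu hK z hz n le_rfl

end

end Pool.Agent.H98.TQ
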