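import Pool.Agent.H35.AN.DiscLe
import Pool.Agent.H98.TQ.Basis

/-!
# Project TQ (MP_a3214d), row TQ-23: the discriminant of a field with many small elements
-/

set_option autoImplicit false

open Polynomial IsDedekindDomain NumberField Pool.Agent.H35.AN
open Pool.Agent.H67.MU (Bdd)
open Pool.Agent.H92.SQ2 (gg WW DD mu ee)

namespace Pool.Agent.H98.TQ

section

variable (k : Type) [Field k] [NumberField k]

private theorem tq23_cons {n u : ℕ} {K : Type} [Field K] [NumberField K] [Algebra k K]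
    (hK : Module.finrank k K = n) {R : ℝ} (z : Fin u → K) (hz : ∀ i, Sh k R (z i))
    (hli : LinearIndependent k z) :
    LinearIndependent k (Fin.cons 1 z : Fin (u + 1) → K) := by
  haveI : FiniteDimensional k K := Module.Finite.of_restrictScalars_finite ℚ k K
  rw [linearIndependent_finCons]
  refine ⟨hli, fun h => ?_⟩
  have h1 : Submodule.span k (Set.range z) ≤ LinearMap.ker (Algebra.trace k K) := by
    rw [Submodule.span_le]
    rintro _ ⟨i, rfl⟩
    exact (hz i).tr
  have h2 : Algebra.trace k K 1 = 0 := h1 h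
  have h3 : Algebra.trace k K 1 = (n : k) := by
    have := Algebra.trace_algebraMap (R := k) (S := K) (1 : k)
    rw [map_one] at this
    rw [this, hK, nsmul_eq_mul, mul_one]
  have h4 : 0 < n := by
    rw [← hK]
    exact Module.finrank_pos
  rw [h3] at h2
  have : n = 0 := by exact_mod_cast h2
  omega

theorem disc_small (n u : ℕ) (hu : 1 ≤ u) : ∃ C : ℝ, 0 < C ∧
    ∀ (K : Type) [Field K] [NumberField K] [Algebra k K], SymK k n K → ∀ R : ℝ, 1 ≤ R →
      ∀ z : Fin u → K, (∀ i, Sh k R (z i)) → LinearIndependent k z →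
      |(NumberField.discr K : ℝ)| ≤ C * R ^ (Module.finrank ℚ k * (2 * gg n u)) := by
  obtain ⟨C, hC, hle⟩ := discr_le_rel k n
  refine ⟨C, hC, ?_⟩
  intro K _ _ _ hK R hR z hz hli
  obtain ⟨w, hw, hwli⟩ := gp_basis hu hK z (tq23_cons k hK.1 z hz hli)
  have hint : ∀ i, IsIntegral ℤ (∏ j, z j ^ w i j) := fun i =>
    IsIntegral.prod _ fun j _ => (hz j).int.pow _
  have hB : ∀ (φ : K →+* ℂ) (i : Fin n),
      ‖φ (∏ j, z j ^ w i j)‖ ≤ R ^ (((i : ℕ) + u - 1) / u) := by
    intro φ i
    rw [map_prod, norm_prod]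
    calc ∏ j, ‖φ (z j ^ w i j)‖ ≤ ∏ j, R ^ w i j := by
          refine Finset.prod_le_prod (fun j _ => norm_nonneg _) fun j _ => ?_
          rw [map_pow, norm_pow]
          exact pow_le_pow_left₀ (norm_nonneg _) ((hz j).sz φ) _
      _ = R ^ ∑ j, w i j := Finset.prod_pow_eq_pow_sum _ _ _
      _ ≤ R ^ (((i : ℕ) + u - 1) / u) := pow_le_pow_right₀ hR (hw i)
  have h1 := hle K hK.1 _ hint hwli _ hB
  rw [Finset.prod_pow_eq_pow_sum, ← pow_mul, ← Finset.sum_range (fun i => (i + u - 1) / u)] at h1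
  have h2 : (∑ i ∈ Finset.range n, (i + u - 1) / u) * (2 * Module.finrank ℚ k) =
      Module.finrank ℚ k * (2 * gg n u) := by
    rw [Pool.Agent.H92.SQ2.gg]
    ring
  rw [h2] at h1
  exact h1

end

end Pool.Agent.H98.TQ
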