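import Pool.Agent.H98.TQ.Fixed
import Pool.Agent.H41.RG.Boxes
import Pool.Agent.H67.MU.Bdd

/-!
# Project TQ (MP_a3214d), row TQ-3: bad triples (union bound)
-/

set_option autoImplicit false

open Polynomial IsDedekindDomain NumberField Pool.Agent.H35.AN
open Pool.Agent.H67.MU (Bdd)
open Pool.Agent.H92.SQ2 (gg WW DD mu ee)

namespace Pool.Agent.H98.TQ

section

variable (k : Type) [Field k] [NumberField k]

theorem tq3_fin (T : ℝ) : {y : 𝓞 k | Bdd T y}.Finite := by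
  obtain ⟨C, -, hC⟩ := Pool.Agent.H67.MU.bdd_mem_count k
  refine (hC (max T 0) (le_max_right _ _) ⊤ top_ne_bot).1.subset ?_
  intro y hy
  exact ⟨fun φ => (hy φ).trans (le_max_left _ _), Submodule.mem_top⟩

variable {k} in
/-- the polynomial with the given coefficients -/
noncomputable def tq3_pol (d : ℕ) (c : Fin (d + 1) → 𝓞 k) : (𝓞 k)[X] :=
  ∑ i : Fin (d + 1), C (c i) * X ^ (i : ℕ)

variable {k} in
theorem tq3_pol_coeff (d : ℕ) (g : (𝓞 k)[X]) (hg : g.natDegree ≤ d) :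
    tq3_pol d (fun i => g.coeff i) = g := by
  unfold tq3_pol
  rw [Fin.sum_univ_eq_sum_range (fun i => C (g.coeff i) * X ^ i) (d + 1)]
  exact (g.as_sum_range_C_mul_X_pow' (Nat.lt_succ_of_le hg)).symm

theorem tq3_exp (d ρ b : ℕ) :
    2 * ∑ j ∈ Finset.range (d + 1), (ρ + b * (d - j)) = 2 * ρ * (d + 1) + b * d * (d + 1) := by
  have h1 : ∑ j ∈ Finset.range (d + 1), (d - j) = ∑ j ∈ Finset.range (d + 1), j := by
    have := Finset.sum_range_reflect (fun i => i) (d + 1)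
    simpa using this
  have h2 := Finset.sum_range_id_mul_two (d + 1)
  rw [Finset.sum_add_distrib, ← Finset.mul_sum, h1]
  simp only [Finset.sum_const, Finset.card_range, smul_eq_mul, Nat.add_sub_cancel] at *
  nlinarith

/-- a finite set which contains the nonzero polynomials of the box -/
theorem tq3_box (d ρ b : ℕ) : ∃ K : ℕ, ∀ h : ℕ, 1 ≤ h → ∃ B : Finset (𝓞 k)[X],
    (∀ g : (𝓞 k)[X], g ≠ 0 → InBox h b d ρ g → g ∈ B) ∧
    (∀ g ∈ B, g ≠ 0 ∧ InBox h b d ρ g) ∧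
    B.card ≤ K * h ^ (Module.finrank ℚ k * ∑ j ∈ Finset.range (d + 1), (ρ + b * (d - j))) := by
  classical
  obtain ⟨C0, -, hC0⟩ := Pool.Agent.H41.RG.box_upper k
    (fun j : Fin (d + 1) => ρ + b * (d - (j : ℕ))) one_pos
  refine ⟨⌈C0⌉₊, fun h hh => ?_⟩
  have hfin : {c : Fin (d + 1) → 𝓞 k |
      ∀ i : Fin (d + 1), c i ∈ {y : 𝓞 k | Bdd ((h : ℝ) ^ (ρ + b * (d - (i : ℕ)))) y}}.Finite :=
    Set.Finite.pi' fun i => tq3_fin k _
  have hS := hC0 (h : ℝ) (by exact_mod_cast hh) hfin.toFinset (by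
    intro u hu i φ
    rw [Set.Finite.mem_toFinset] at hu
    rw [one_mul]
    exact hu i φ)
  refine ⟨(hfin.toFinset.image (tq3_pol d)).filter fun g => g ≠ 0 ∧ InBox h b d ρ g, ?_, ?_, ?_⟩
  · intro g hg0 hg
    rw [Finset.mem_filter, Finset.mem_image]
    refine ⟨⟨fun i => g.coeff i, ?_, tq3_pol_coeff d g hg.1⟩, hg0, hg⟩
    rw [Set.Finite.mem_toFinset]
    intro i
    exact hg.2 i (Nat.lt_succ_iff.mp i.2)
  · intro g hg
    exact (Finset.mem_filter.mp hg).2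
  · refine (Finset.card_filter_le _ _).trans (Finset.card_image_le.trans ?_)
    have h1 : (∑ i : Fin (d + 1), (ρ + b * (d - (i : ℕ)))) =
        ∑ j ∈ Finset.range (d + 1), (ρ + b * (d - j)) :=
      Fin.sum_univ_eq_sum_range (fun j => ρ + b * (d - j)) (d + 1)
    rw [h1] at hS
    have h2 : C0 * (h : ℝ) ^ (Module.finrank ℚ k *
        ∑ j ∈ Finset.range (d + 1), (ρ + b * (d - j))) ≤
        (⌈C0⌉₊ : ℝ) * (h : ℝ) ^ (Module.finrank ℚ k *
          ∑ j ∈ Finset.range (d + 1), (ρ + b * (d - j))) :=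
      mul_le_mul_of_nonneg_right (Nat.le_ceil C0) (by positivity)
    exact_mod_cast hS.trans h2

open scoped Classical in
theorem bad_triples (d ρ b u v : ℕ) (hu : 2 ≤ u) (hv : 2 ≤ v) (huv : u ≠ v)
    (hc : Module.finrank ℚ k * (2 * ρ * (d + 1) + b * d * (d + 1)) + 16 ≤ 2 * (u + v)) :
    ∃ h0 : ℕ, ∀ h ≥ h0, ∀ S T : Finset (HeightOneSpectrum (𝓞 k)), PS h u S → PS h v T →
      (∑ m ∈ S, ∑ l ∈ T, ((Finset.range (Ideal.absNorm m.asIdeal *
        Ideal.absNorm l.asIdeal)).filter fun x : ℕ => ∃ g : (𝓞 k)[X], g ≠ 0 ∧ InBox h b d ρ g ∧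
          g.eval (x : 𝓞 k) ∈ m.asIdeal * l.asIdeal).card) ≤ h ^ (2 * (u + v) - 7) := by
  obtain ⟨K, h0, hK⟩ := pairs_fixed (k := k) d ρ b u v hu hv huv
  obtain ⟨K', hK'⟩ := tq3_box k d ρ b
  refine ⟨max h0 (max 1 (K' * K)), fun h hh S T hS hT => ?_⟩
  have hh0 : h0 ≤ h := (le_max_left _ _).trans hh
  have hh1 : 1 ≤ h := ((le_max_left _ _).trans (le_max_right _ _)).trans hh
  have hh2 : K' * K ≤ h := ((le_max_right _ _).trans (le_max_right _ _)).trans hh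
  obtain ⟨B, hB1, hB2, hB3⟩ := hK' h hh1
  set m0 := Module.finrank ℚ k with hm0
  set E := ∑ j ∈ Finset.range (d + 1), (ρ + b * (d - j)) with hE
  have hE2 : m0 * E + 8 ≤ u + v := by
    have h1 : m0 * (2 * ρ * (d + 1) + b * d * (d + 1)) = 2 * (m0 * E) := by
      rw [← tq3_exp d ρ b, ← hE]; ring
    rw [h1] at hc
    omega
  have step : ∀ m l : HeightOneSpectrum (𝓞 k),
      ((Finset.range (Ideal.absNorm m.asIdeal * Ideal.absNorm l.asIdeal)).filter
        fun x : ℕ => ∃ g : (𝓞 k)[X], g ≠ 0 ∧ InBox h b d ρ g ∧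
          g.eval (x : 𝓞 k) ∈ m.asIdeal * l.asIdeal).card ≤
        ∑ g ∈ B, ((Finset.range (Ideal.absNorm m.asIdeal * Ideal.absNorm l.asIdeal)).filter
          fun x : ℕ => g.eval (x : 𝓞 k) ∈ m.asIdeal * l.asIdeal).card := by
    intro m l
    refine (Finset.card_le_card ?_).trans Finset.card_biUnion_le
    intro x hx
    rw [Finset.mem_filter] at hx
    obtain ⟨hx1, g, hg0, hg1, hg2⟩ := hx
    rw [Finset.mem_biUnion]
    exact ⟨g, hB1 g hg0 hg1, Finset.mem_filter.mpr ⟨hx1, hg2⟩⟩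
  calc (∑ m ∈ S, ∑ l ∈ T, ((Finset.range (Ideal.absNorm m.asIdeal *
        Ideal.absNorm l.asIdeal)).filter fun x : ℕ => ∃ g : (𝓞 k)[X], g ≠ 0 ∧ InBox h b d ρ g ∧
          g.eval (x : 𝓞 k) ∈ m.asIdeal * l.asIdeal).card)
      ≤ ∑ m ∈ S, ∑ l ∈ T, ∑ g ∈ B, ((Finset.range (Ideal.absNorm m.asIdeal *
          Ideal.absNorm l.asIdeal)).filter
            fun x : ℕ => g.eval (x : 𝓞 k) ∈ m.asIdeal * l.asIdeal).card :=
        Finset.sum_le_sum fun m _ => Finset.sum_le_sum fun l _ => step m l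
    _ = ∑ g ∈ B, ∑ m ∈ S, ∑ l ∈ T, ((Finset.range (Ideal.absNorm m.asIdeal *
          Ideal.absNorm l.asIdeal)).filter
            fun x : ℕ => g.eval (x : 𝓞 k) ∈ m.asIdeal * l.asIdeal).card := by
        rw [Finset.sum_congr rfl fun m _ => Finset.sum_comm]
        exact Finset.sum_comm
    _ ≤ ∑ _g ∈ B, K * h ^ (u + v) := by
        refine Finset.sum_le_sum fun g hg => ?_
        exact hK h hh0 S T hS hT g (hB2 g hg).1 (hB2 g hg).2
    _ = B.card * (K * h ^ (u + v)) := by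
        rw [Finset.sum_const, smul_eq_mul]
    _ ≤ K' * h ^ (m0 * E) * (K * h ^ (u + v)) :=
        Nat.mul_le_mul_right _ hB3
    _ = K' * K * h ^ (m0 * E + (u + v)) := by rw [pow_add]; ring
    _ ≤ h * h ^ (2 * (u + v) - 8) :=
        Nat.mul_le_mul hh2 (Nat.pow_le_pow_right hh1 (by omega))
    _ = h ^ (2 * (u + v) - 7) := by
        rw [← pow_succ']
        congr 1
        omega

end

end Pool.Agent.H98.TQ
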