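import Pool.Agent.H98.TQ.Defs

/-!
# Project TQ (MP_a3214d), row TQ-5: independent small products

If `v` spans the polynomials of degree at most `d1` and `w` those of degree at most `d2` (over the
field `k`), then `n - 1` of the products `v i * w j` are independent, `d1 + d2 = n - 2`.
-/

set_option autoImplicit false

open Polynomial IsDedekindDomain NumberField Pool.Agent.H35.AN
open Pool.Agent.H67.MU (Bdd)
open Pool.Agent.H92.SQ2 (gg WW DD mu ee)

namespace Pool.Agent.H98.TQ

section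

variable (k : Type) [Field k] [NumberField k]

variable {k} in
private theorem tq5_FK_mul (g g' : (𝓞 k)[X]) : FK (g * g') = FK g * FK g' := by
  unfold FK
  exact Polynomial.map_mul _

private noncomputable def tq5_L : (𝓞 k)[X] →ₗ[𝓞 k] k[X] where
  toFun g := FK g
  map_add' g g' := by
    unfold FK
    exact Polynomial.map_add _
  map_smul' c g := by
    unfold FK
    rw [RingHom.id_apply, Polynomial.smul_eq_C_mul, Polynomial.map_mul, Polynomial.map_C,
      algebra_compatible_smul k c, Polynomial.smul_eq_C_mul]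

private theorem tq5_L_inj : Function.Injective (tq5_L k) := by
  intro g g' h
  exact Polynomial.map_injective (algebraMap (𝓞 k) k) (FaithfulSMul.algebraMap_injective _ _) h

variable {k} in
private theorem tq5_indep {ι : Type} {v : ι → (𝓞 k)[X]} (hv : LinearIndependent (𝓞 k) v) :
    LinearIndependent k (fun i => FK (v i)) := by
  have h1 : LinearIndependent (𝓞 k) (tq5_L k ∘ v) :=
    hv.map' (tq5_L k) (LinearMap.ker_eq_bot.mpr (tq5_L_inj k))
  exact (LinearIndependent.iff_fractionRing (𝓞 k) k).mp h1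

variable {k} in
private theorem tq5_indep' {ι : Type} {v : ι → (𝓞 k)[X]}
    (hv : LinearIndependent k (fun i => FK (v i))) : LinearIndependent (𝓞 k) v := by
  have h1 : LinearIndependent (𝓞 k) (tq5_L k ∘ v) :=
    (LinearIndependent.iff_fractionRing (𝓞 k) k).mpr hv
  exact LinearIndependent.of_comp (tq5_L k) h1

variable {k} in
private theorem tq5_span {d : ℕ} {v : Fin (d + 1) → (𝓞 k)[X]} (hv : LinearIndependent (𝓞 k) v)
    (hd : ∀ i, (v i).natDegree ≤ d) :
    Submodule.span k (Set.range fun i => FK (v i)) = degreeLT k (d + 1) := by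
  have hle : Submodule.span k (Set.range fun i => FK (v i)) ≤ degreeLT k (d + 1) := by
    rw [Submodule.span_le]
    rintro _ ⟨i, rfl⟩
    rw [SetLike.mem_coe, mem_degreeLT]
    have h1 : (FK (v i)).natDegree ≤ d := natDegree_map_le.trans (hd i)
    refine lt_of_le_of_lt degree_le_natDegree ?_
    exact_mod_cast Nat.lt_succ_of_le h1
  have hfin : Module.finrank k (degreeLT k (d + 1)) = d + 1 := by
    rw [LinearEquiv.finrank_eq (degreeLTEquiv k (d + 1)), Module.finrank_fin_fun]
  have : FiniteDimensional k (degreeLT k (d + 1)) :=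
    Module.Finite.of_surjective _ (degreeLTEquiv k (d + 1)).symm.surjective
  apply Submodule.eq_of_le_of_finrank_eq hle
  rw [hfin, finrank_span_eq_card (tq5_indep hv), Fintype.card_fin]

variable {k} in
/-- the products span -/
private theorem tq5_top {n d1 d2 : ℕ} (hn : 4 ≤ n) (hd : d1 + d2 = n - 2)
    {v : Fin (d1 + 1) → (𝓞 k)[X]} {w : Fin (d2 + 1) → (𝓞 k)[X]}
    (hv : LinearIndependent (𝓞 k) v) (hw : LinearIndependent (𝓞 k) w)
    (hdv : ∀ i, (v i).natDegree ≤ d1) (hdw : ∀ i, (w i).natDegree ≤ d2) :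
    Submodule.span k (Set.range fun ij : Fin (d1 + 1) × Fin (d2 + 1) =>
      FK (v ij.1 * w ij.2)) = degreeLT k (n - 1) := by
  classical
  apply le_antisymm
  · rw [Submodule.span_le]
    rintro _ ⟨ij, rfl⟩
    rw [SetLike.mem_coe, mem_degreeLT]
    have h1 : (FK (v ij.1 * w ij.2)).natDegree ≤ n - 2 := by
      refine natDegree_map_le.trans (natDegree_mul_le.trans ?_)
      have := hdv ij.1
      have := hdw ij.2
      omega
    refine lt_of_le_of_lt degree_le_natDegree ?_
    have h2 : (FK (v ij.1 * w ij.2)).natDegree < n - 1 := by omega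
    exact_mod_cast h2
  · have hmul : ∀ p ∈ degreeLT k (d1 + 1), ∀ r ∈ degreeLT k (d2 + 1),
        p * r ∈ Submodule.span k (Set.range fun ij : Fin (d1 + 1) × Fin (d2 + 1) =>
          FK (v ij.1 * w ij.2)) := by
      intro p hp r hr
      rw [← tq5_span hv hdv] at hp
      rw [← tq5_span hw hdw] at hr
      have h3 := Submodule.mul_mem_mul hp hr
      rw [Submodule.span_mul_span] at h3
      refine Submodule.span_mono ?_ h3
      rintro _ ⟨_, ⟨i, rfl⟩, _, ⟨j, rfl⟩, rfl⟩
      exact ⟨(i, j), tq5_FK_mul _ _⟩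
    rw [degreeLT_eq_span_X_pow, Submodule.span_le]
    rintro _ hx
    rw [Finset.mem_coe, Finset.mem_image] at hx
    obtain ⟨m, hm, rfl⟩ := hx
    rw [Finset.mem_range] at hm
    have hm1 : min m d1 + (m - min m d1) = m := by omega
    have h4 : (X : k[X]) ^ m = X ^ (min m d1) * X ^ (m - min m d1) := by
      rw [← pow_add, hm1]
    rw [SetLike.mem_coe, h4]
    apply hmul
    · rw [mem_degreeLT, degree_X_pow]
      have : min m d1 < d1 + 1 := by omega
      exact_mod_cast this
    · rw [mem_degreeLT, degree_X_pow]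
      have : m - min m d1 < d2 + 1 := by omega
      exact_mod_cast this

variable {k} in
private theorem tq5_box {h b d1 d2 R1 R2 n : ℕ} (hh : n ≤ h) (hn : 4 ≤ n) (hd : d1 + d2 = n - 2)
    {g g' : (𝓞 k)[X]} (hg : InBox h b d1 R1 g) (hk : InBox h b d2 R2 g') :
    InBox h b (n - 2) (R1 + R2 + 1) (g * g') := by
  refine ⟨natDegree_mul_le.trans (by have := hg.1; have := hk.1; omega), ?_⟩
  intro j hj φ
  set ψ : 𝓞 k →+* ℂ := φ.comp (algebraMap (𝓞 k) k) with hψ
  change ‖ψ ((g * g').coeff j)‖ ≤ _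
  rw [coeff_mul, map_sum]
  have hh1 : (1 : ℝ) ≤ h := by exact_mod_cast (by omega : 1 ≤ h)
  have hterm : ∀ p ∈ Finset.HasAntidiagonal.antidiagonal j,
      ‖ψ (g.coeff p.1 * g'.coeff p.2)‖ ≤ (h : ℝ) ^ (R1 + R2 + b * (n - 2 - j)) := by
    intro p hp
    rw [Finset.HasAntidiagonal.mem_antidiagonal] at hp
    by_cases h1 : p.1 ≤ d1
    · by_cases h2 : p.2 ≤ d2
      · rw [map_mul, norm_mul]
        calc ‖ψ (g.coeff p.1)‖ * ‖ψ (g'.coeff p.2)‖
            ≤ (h : ℝ) ^ (R1 + b * (d1 - p.1)) * (h : ℝ) ^ (R2 + b * (d2 - p.2)) :=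
              mul_le_mul (hg.2 _ h1 φ) (hk.2 _ h2 φ) (norm_nonneg _) (by positivity)
          _ = (h : ℝ) ^ (R1 + R2 + b * (n - 2 - j)) := by
              rw [← pow_add]
              congr 1
              have h3 : n - 2 - j = (d1 - p.1) + (d2 - p.2) := by omega
              rw [h3]
              ring
      · rw [coeff_eq_zero_of_natDegree_lt (lt_of_le_of_lt hk.1 (not_le.mp h2)), mul_zero,
          map_zero, norm_zero]
        positivity
    · rw [coeff_eq_zero_of_natDegree_lt (lt_of_le_of_lt hg.1 (not_le.mp h1)), zero_mul, map_zero,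
        norm_zero]
      positivity
  calc ‖∑ p ∈ Finset.HasAntidiagonal.antidiagonal j, ψ (g.coeff p.1 * g'.coeff p.2)‖
      ≤ ∑ p ∈ Finset.HasAntidiagonal.antidiagonal j,
          ‖ψ (g.coeff p.1 * g'.coeff p.2)‖ := norm_sum_le _ _
    _ ≤ ∑ _p ∈ Finset.HasAntidiagonal.antidiagonal j, (h : ℝ) ^ (R1 + R2 + b * (n - 2 - j)) :=
        Finset.sum_le_sum hterm
    _ = ((j + 1 : ℕ) : ℝ) * (h : ℝ) ^ (R1 + R2 + b * (n - 2 - j)) := by
        rw [Finset.sum_const, Finset.Nat.card_antidiagonal, nsmul_eq_mul]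
    _ ≤ (h : ℝ) * (h : ℝ) ^ (R1 + R2 + b * (n - 2 - j)) := by
        apply mul_le_mul_of_nonneg_right _ (by positivity)
        exact_mod_cast (by omega : j + 1 ≤ h)
    _ = (h : ℝ) ^ (R1 + R2 + 1 + b * (n - 2 - j)) := by
        rw [← pow_succ']
        congr 1
        ring

variable {k} in
private theorem tq5_dbl {q : Ideal (𝓞 k)} {x : 𝓞 k} {g g' : (𝓞 k)[X]} (hg : g.eval x ∈ q)
    (hk : g'.eval x ∈ q) : Dbl q x (g * g') := by
  constructor
  · rw [eval_mul, sq]
    exact Ideal.mul_mem_mul hg hk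
  · rw [derivative_mul, eval_add, eval_mul, eval_mul]
    exact q.add_mem (q.mul_mem_left _ hk) (q.mul_mem_right _ hg)

theorem products (n b d1 d2 R1 R2 : ℕ) (hn : 4 ≤ n) (hd : d1 + d2 = n - 2) :
    ∃ h0 : ℕ, ∀ h ≥ h0, ∀ (q : Ideal (𝓞 k)) (x : 𝓞 k) (v : Fin (d1 + 1) → (𝓞 k)[X])
      (w : Fin (d2 + 1) → (𝓞 k)[X]), LinearIndependent (𝓞 k) v → LinearIndependent (𝓞 k) w →
      (∀ i, InBox h b d1 R1 (v i) ∧ (v i).eval x ∈ q) →
      (∀ i, InBox h b d2 R2 (w i) ∧ (w i).eval x ∈ q) →
      ∃ y : Fin (n - 1) → (𝓞 k)[X], LinearIndependent (𝓞 k) y ∧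
        ∀ i, InBox h b (n - 2) (R1 + R2 + 1) (y i) ∧ Dbl q x (y i) := by
  refine ⟨n, ?_⟩
  intro h hh q x v w hv hw hv1 hw1
  have hspan := tq5_top hn hd hv hw (fun i => (hv1 i).1.1) (fun i => (hw1 i).1.1)
  set S : Set k[X] := Set.range fun ij : Fin (d1 + 1) × Fin (d2 + 1) => FK (v ij.1 * w ij.2)
    with hS
  obtain ⟨B, hBS, hBspan, hBind⟩ := exists_linearIndependent k S
  have hSfin : S.Finite := Set.finite_range _
  have : Finite B := (hSfin.subset hBS).to_subtype
  have := Fintype.ofFinite B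
  have hcard : Fintype.card B = n - 1 := by
    have h1 := finrank_span_eq_card hBind
    rw [Subtype.range_coe, hBspan, hspan, LinearEquiv.finrank_eq (degreeLTEquiv k (n - 1)),
      Module.finrank_fin_fun] at h1
    exact h1.symm
  let e : Fin (n - 1) ≃ B := (Fintype.equivFinOfCardEq hcard).symm
  have hex : ∀ m : Fin (n - 1), ∃ ij : Fin (d1 + 1) × Fin (d2 + 1),
      FK (v ij.1 * w ij.2) = (e m : k[X]) := fun m => hBS (e m).2
  choose ij hij using hex
  refine ⟨fun m => v (ij m).1 * w (ij m).2, ?_, ?_⟩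
  · apply tq5_indep'
    have h2 : (fun m => FK (v (ij m).1 * w (ij m).2)) = fun m => ((e m : B) : k[X]) :=
      funext hij
    rw [h2]
    exact hBind.comp e e.injective
  · intro m
    exact ⟨tq5_box hh hn hd (hv1 _).1 (hw1 _).1, tq5_dbl (hv1 _).2 (hw1 _).2⟩

end

end Pool.Agent.H98.TQ
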