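import Pool.Agent.H98.TQ.Defs
import Pool.Agent.H41.RG.Boxes

/-!
# Project TQ (MP_a3214d), row TQ-4: full rank by pigeonhole and packing
-/

set_option autoImplicit false

open Polynomial IsDedekindDomain NumberField Pool.Agent.H35.AN
open Pool.Agent.H67.MU (Bdd)
open Pool.Agent.H92.SQ2 (gg WW DD mu ee)

namespace Pool.Agent.H98.TQ

section

variable (k : Type) [Field k] [NumberField k]

/-- many integers with small conjugates -/
private theorem tq4_one : ∃ c : ℝ, 0 < c ∧ ∀ T : ℝ, 0 ≤ T → ∃ S : Finset (𝓞 k),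
    (∀ a ∈ S, Bdd (T / 2) a) ∧ c * T ^ Module.finrank ℚ k ≤ (S.card : ℝ) := by
  classical
  obtain ⟨C0, hC0, hb⟩ := Pool.Agent.H41.RG.box_lower k (s := 1) (fun _ => 1) (M := 1) one_pos
    (fun _ => 0)
  refine ⟨(1 / (2 * C0)) ^ Module.finrank ℚ k, by positivity, ?_⟩
  intro T hT
  have he : (1 / (2 * C0)) ^ Module.finrank ℚ k * T ^ Module.finrank ℚ k =
      (T / (2 * C0)) ^ Module.finrank ℚ k := by
    rw [← mul_pow]
    congr 1
    ring
  rw [he]
  by_cases h1 : 1 ≤ T / (2 * C0)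
  · obtain ⟨S, hS1, hS2⟩ := hb (T / (2 * C0)) h1
    refine ⟨S.image (fun u => u 0), ?_, ?_⟩
    · intro a ha
      obtain ⟨u, hu, rfl⟩ := Finset.mem_image.mp ha
      intro φ
      have h2 := (hS1 u hu 0).2 φ
      refine h2.trans (le_of_eq ?_)
      field_simp
    · rw [Finset.card_image_of_injective]
      · simpa using hS2
      · intro u v huv
        funext i
        rw [Subsingleton.elim i 0]
        exact huv
  · refine ⟨{0}, ?_, ?_⟩
    · intro a ha
      rw [Finset.mem_singleton] at ha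
      subst ha
      intro φ
      simp only [map_zero, norm_zero]
      positivity
    · rw [Finset.card_singleton, Nat.cast_one]
      exact pow_le_one₀ (by positivity) (not_le.mp h1).le

variable {k} in
/-- the polynomial with given coefficients -/
private noncomputable def tq4_P (d : ℕ) (g : Fin (d + 1) → 𝓞 k) : (𝓞 k)[X] :=
  ∑ j : Fin (d + 1), C (g j) * X ^ (j : ℕ)

omit [NumberField k] in
variable {k} in
private theorem tq4_coeff (d : ℕ) (g : Fin (d + 1) → 𝓞 k) (i : Fin (d + 1)) :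
    (tq4_P d g).coeff (i : ℕ) = g i := by
  unfold tq4_P
  rw [finsetSum_coeff, Finset.sum_eq_single i]
  · simp
  · intro j _ hj
    rw [coeff_C_mul, coeff_X_pow, if_neg, mul_zero]
    intro h
    exact hj (Fin.ext h.symm)
  · intro h
    exact absurd (Finset.mem_univ i) h

omit [NumberField k] in
variable {k} in
private theorem tq4_deg (d : ℕ) (g : Fin (d + 1) → 𝓞 k) : (tq4_P d g).natDegree ≤ d := by
  unfold tq4_P
  refine natDegree_sum_le_of_forall_le _ _ (fun j _ => ?_)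
  exact (natDegree_C_mul_X_pow_le _ _).trans (by omega)

private theorem tq4_sum (d a b : ℕ) :
    2 * ∑ j : Fin (d + 1), (a + b * (d - (j : ℕ))) = 2 * a * (d + 1) + b * d * (d + 1) := by
  rw [Fin.sum_univ_eq_sum_range (fun j => a + b * (d - j)) (d + 1), Finset.sum_add_distrib,
    Finset.sum_const, Finset.card_range, smul_eq_mul, ← Finset.mul_sum]
  have h1 : ∑ j ∈ Finset.range (d + 1), (d - j) = ∑ j ∈ Finset.range (d + 1), j := by
    have h2 := Finset.sum_range_reflect (fun j => j) (d + 1)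
    rw [← h2]
    refine Finset.sum_congr rfl (fun j _ => ?_)
    omega
  rw [h1]
  have h3 := Finset.sum_range_id_mul_two (d + 1)
  simp only [Nat.add_sub_cancel] at h3
  calc 2 * ((d + 1) * a + b * ∑ j ∈ Finset.range (d + 1), j)
      = 2 * a * (d + 1) + b * ((∑ j ∈ Finset.range (d + 1), j) * 2) := by ring
    _ = _ := by rw [h3]; ring

/-- the coefficient vector -/
private noncomputable def tq4_vec (d : ℕ) : (𝓞 k)[X] →ₗ[𝓞 k] (Fin (d + 1) → k) :=
  LinearMap.pi fun j => (Algebra.linearMap (𝓞 k) k) ∘ₗ (lcoeff (𝓞 k) (j : ℕ))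

omit [NumberField k] in
private theorem tq4_vec_apply (d : ℕ) (g : (𝓞 k)[X]) (j : Fin (d + 1)) :
    tq4_vec k d g j = ((g.coeff (j : ℕ) : 𝓞 k) : k) := rfl

/-- the scaled conjugates of a vector -/
private noncomputable def tq4_psi (d ρ b h : ℕ) :
    (Fin (d + 1) → k) →+ (Fin (d + 1) × (k →+* ℂ) → ℂ) where
  toFun z := fun p => p.2 (z p.1) / (h : ℂ) ^ (ρ + b * (d - (p.1 : ℕ)))
  map_zero' := by
    funext p
    simp
  map_add' z w := by
    funext p
    simp [add_div]

private theorem tq4_psi_norm (d ρ b h : ℕ) (g : (𝓞 k)[X]) (j : Fin (d + 1)) (φ : k →+* ℂ) :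
    ‖tq4_psi k d ρ b h (tq4_vec k d g) (j, φ)‖ =
      ‖φ ((g.coeff (j : ℕ) : 𝓞 k) : k)‖ / (h : ℝ) ^ (ρ + b * (d - (j : ℕ))) := by
  show ‖φ ((g.coeff (j : ℕ) : 𝓞 k) : k) / (h : ℂ) ^ (ρ + b * (d - (j : ℕ)))‖ = _
  rw [norm_div, norm_pow, Complex.norm_natCast]

private theorem tq4_box {d ρ b h : ℕ} (hh : 0 < h) {g : (𝓞 k)[X]} (hd : g.natDegree ≤ d)
    (hg : ‖tq4_psi k d ρ b h (tq4_vec k d g)‖ ≤ 1) : InBox h b d ρ g := by
  refine ⟨hd, fun j hj φ => ?_⟩
  have hpos : (0 : ℝ) < (h : ℝ) ^ (ρ + b * (d - j)) := by positivity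
  have h1 : ‖tq4_psi k d ρ b h (tq4_vec k d g) (⟨j, by omega⟩, φ)‖ ≤ 1 :=
    (norm_le_pi_norm _ _).trans hg
  rw [tq4_psi_norm, div_le_one hpos] at h1
  exact h1

/-! ### TQ-4 Rank.lean -/

theorem full_rank (d ρ κ b : ℕ) : ∃ h0 : ℕ, ∀ h ≥ h0, ∀ (q : Ideal (𝓞 k)) (x : 𝓞 k), q ≠ ⊥ →
    (∀ g : (𝓞 k)[X], g ≠ 0 → InBox h b d ρ g → g.eval x ∉ q) →
    Ideal.absNorm q ^ 2 * h ^ (2 * (Module.finrank ℚ k * (κ * d) + 1)) ≤
      h ^ (Module.finrank ℚ k * (2 * (ρ + κ) * (d + 1) + b * d * (d + 1))) →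
    ∃ v : Fin (d + 1) → (𝓞 k)[X], LinearIndependent (𝓞 k) v ∧
      ∀ i, InBox h b d (ρ + κ) (v i) ∧ (v i).eval x ∈ q := by
  classical
  obtain ⟨c, hc, hbox1⟩ := tq4_one k
  set m := Module.finrank ℚ k with hm
  refine ⟨⌊3 ^ (m * d) / c ^ (d + 1)⌋₊ + 1, fun h hh q x hq hno hle => ?_⟩
  have hh0 : 0 < h := by omega
  have hh1' : (1 : ℝ) ≤ h := by exact_mod_cast hh0
  have hbig : (3 : ℝ) ^ (m * d) < c ^ (d + 1) * h := by
    have h1 := Nat.lt_floor_add_one ((3 : ℝ) ^ (m * d) / c ^ (d + 1))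
    have h2 : ((⌊(3 : ℝ) ^ (m * d) / c ^ (d + 1)⌋₊ + 1 : ℕ) : ℝ) ≤ h := by exact_mod_cast hh
    push_cast at h2
    have h3 : (3 : ℝ) ^ (m * d) / c ^ (d + 1) < h := h1.trans_le h2
    rw [div_lt_iff₀ (by positivity)] at h3
    rwa [mul_comm (c ^ (d + 1)) (h : ℝ)]
  let r : Fin (d + 1) → ℕ := fun j => ρ + κ + b * (d - (j : ℕ))
  have hsum : 2 * ∑ j, r j = 2 * (ρ + κ) * (d + 1) + b * d * (d + 1) := tq4_sum d (ρ + κ) b
  choose B hB1 hB2 using fun T : {T : ℝ // 0 ≤ T} => hbox1 T.1 T.2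
  let A : Finset (Fin (d + 1) → 𝓞 k) :=
    Fintype.piFinset fun j => B ⟨(h : ℝ) ^ r j, by positivity⟩
  have hA : c ^ (d + 1) * (h : ℝ) ^ (m * ∑ j, r j) ≤ (A.card : ℝ) := by
    have h1 : c ^ (d + 1) * (h : ℝ) ^ (m * ∑ j, r j) =
        ∏ j : Fin (d + 1), (c * ((h : ℝ) ^ r j) ^ m) := by
      rw [Finset.prod_mul_distrib, Finset.prod_const, Finset.card_univ, Fintype.card_fin,
        Finset.mul_sum, ← Finset.prod_pow_eq_pow_sum]
      congr 1
      refine Finset.prod_congr rfl (fun j _ => ?_)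
      rw [← pow_mul, mul_comm]
    rw [h1, Fintype.card_piFinset]
    push_cast
    exact Finset.prod_le_prod (fun j _ => by positivity)
      (fun j _ => hB2 ⟨(h : ℝ) ^ r j, by positivity⟩)
  have hq1 : Ideal.absNorm q * h ^ (m * (κ * d) + 1) ≤ h ^ (m * ∑ j, r j) := by
    have h2 : m * (2 * (ρ + κ) * (d + 1) + b * d * (d + 1)) = (m * ∑ j, r j) * 2 := by
      rw [← hsum]
      ring
    rw [h2, mul_comm 2 (m * (κ * d) + 1), pow_mul, pow_mul, ← mul_pow] at hle
    exact (Nat.pow_le_pow_iff_left (by norm_num)).mp hle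
  have hN1 : 1 ≤ Ideal.absNorm q := by
    rw [Nat.one_le_iff_ne_zero, Ne, Ideal.absNorm_eq_zero_iff]
    exact hq
  have hN1' : (1 : ℝ) ≤ Ideal.absNorm q := by exact_mod_cast hN1
  have : Finite (𝓞 k ⧸ q) := Ideal.finiteQuotientOfFreeOfNeBot q hq
  have : Fintype (𝓞 k ⧸ q) := Fintype.ofFinite _
  have hcardq : Fintype.card (𝓞 k ⧸ q) = Ideal.absNorm q := by
    rw [Ideal.absNorm_apply, Submodule.cardQuot_apply, Nat.card_eq_fintype_card]
  have hlt : Ideal.absNorm q * (3 ^ (m * d) * h ^ (m * (κ * d))) < A.card := by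
    have h3 : ((Ideal.absNorm q * h ^ (m * (κ * d) + 1) : ℕ) : ℝ) ≤ (h : ℝ) ^ (m * ∑ j, r j) := by
      exact_mod_cast hq1
    have h4 : ((Ideal.absNorm q * (3 ^ (m * d) * h ^ (m * (κ * d))) : ℕ) : ℝ) < A.card := by
      push_cast at h3 ⊢
      calc (Ideal.absNorm q : ℝ) * (3 ^ (m * d) * (h : ℝ) ^ (m * (κ * d)))
          < (Ideal.absNorm q : ℝ) * ((c ^ (d + 1) * h) * (h : ℝ) ^ (m * (κ * d))) := by
            have h5 : (0 : ℝ) < (h : ℝ) ^ (m * (κ * d)) := by positivity
            have h6 := mul_lt_mul_of_pos_right hbig h5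
            exact mul_lt_mul_of_pos_left h6 (by linarith)
        _ = c ^ (d + 1) * ((Ideal.absNorm q : ℝ) * (h : ℝ) ^ (m * (κ * d) + 1)) := by ring
        _ ≤ c ^ (d + 1) * (h : ℝ) ^ (m * ∑ j, r j) :=
            mul_le_mul_of_nonneg_left h3 (by positivity)
        _ ≤ A.card := hA
    exact_mod_cast h4
  let f : (Fin (d + 1) → 𝓞 k) → 𝓞 k ⧸ q := fun g => Ideal.Quotient.mk q ((tq4_P d g).eval x)
  obtain ⟨cl, _, hcl⟩ := Finset.exists_lt_card_fiber_of_mul_lt_card_of_maps_to (s := A)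
    (t := (Finset.univ : Finset (𝓞 k ⧸ q))) (f := f) (n := 3 ^ (m * d) * h ^ (m * (κ * d)))
    (fun _ _ => Finset.mem_univ _) (by
      rw [Finset.card_univ, hcardq]
      exact hlt)
  set S0 := A.filter (fun g => f g = cl) with hS0
  have hS0ne : S0.Nonempty := by
    rw [← Finset.card_pos]
    omega
  obtain ⟨g0, hg0⟩ := hS0ne
  -- the differences
  let δ : (Fin (d + 1) → 𝓞 k) → (𝓞 k)[X] := fun g => tq4_P d g - tq4_P d g0
  have hdeg : ∀ g g' : Fin (d + 1) → 𝓞 k, (tq4_P d g - tq4_P d g').natDegree ≤ d := fun g g' =>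
    (natDegree_sub_le _ _).trans (max_le (tq4_deg d g) (tq4_deg d g'))
  have hmem : ∀ g ∈ S0, (δ g).eval x ∈ q := by
    intro g hg
    have h1 : f g = f g0 := by
      rw [(Finset.mem_filter.mp hg).2, (Finset.mem_filter.mp hg0).2]
    show (tq4_P d g - tq4_P d g0).eval x ∈ q
    rw [eval_sub]
    exact (Ideal.Quotient.eq).mp h1
  have hcoef : ∀ g : Fin (d + 1) → 𝓞 k, ∀ j : Fin (d + 1), (δ g).coeff (j : ℕ) = g j - g0 j := by
    intro g j
    show (tq4_P d g - tq4_P d g0).coeff (j : ℕ) = _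
    rw [coeff_sub, tq4_coeff, tq4_coeff]
  have hsz : ∀ g ∈ S0, ∀ j : Fin (d + 1), Bdd ((h : ℝ) ^ r j / 2) (g j) := by
    intro g hg j
    exact hB1 _ _ ((Fintype.mem_piFinset.mp (Finset.mem_filter.mp hg).1) j)
  have hsz2 : ∀ g ∈ S0, ∀ j : Fin (d + 1), Bdd ((h : ℝ) ^ r j) ((δ g).coeff (j : ℕ)) := by
    intro g hg j φ
    rw [hcoef]
    have h1 := hsz g hg j φ
    have h2 := hsz g0 hg0 j φ
    have h3 : ((g j - g0 j : 𝓞 k) : k) = (g j : k) - (g0 j : k) := rfl
    rw [h3, map_sub]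
    exact (norm_sub_le _ _).trans (by linarith)
  have hbox : ∀ g ∈ S0, InBox h b d (ρ + κ) (δ g) := by
    intro g hg
    refine ⟨hdeg g g0, fun j hj => ?_⟩
    exact hsz2 g hg ⟨j, by omega⟩
  let Ψ : (Fin (d + 1) → 𝓞 k) → (Fin (d + 1) → k) := fun g => tq4_vec k d (δ g)
  have hinj : Function.Injective Ψ := by
    intro g g' hgg
    funext j
    have h1 := congrFun hgg j
    simp only [Ψ, tq4_vec_apply, hcoef] at h1
    have h2 : g j - g0 j = g' j - g0 j := by exact_mod_cast h1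
    exact sub_left_injective h2
  set S := S0.image Ψ with hS
  have hScard : S.card = S0.card := Finset.card_image_of_injective _ hinj
  obtain ⟨bs, hbS, hbspan, hbli⟩ := exists_linearIndependent k (S : Set (Fin (d + 1) → k))
  have hbfin : bs.Finite := S.finite_toSet.subset hbS
  have hbcard : d + 1 ≤ hbfin.toFinset.card := by
    by_contra hlt2
    have hbd : hbfin.toFinset.card ≤ d := by omega
    let W : Submodule k (Fin (d + 1) → k) :=
      Submodule.span k (hbfin.toFinset : Set (Fin (d + 1) → k))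
    have hWr : Module.finrank k W ≤ d := (finrank_span_finset_le_card _).trans hbd
    have hSW : ∀ z ∈ S, z ∈ W := by
      intro z hz
      have h1 : z ∈ Submodule.span k bs := by
        rw [hbspan]; exact Submodule.subset_span hz
      show z ∈ Submodule.span k _
      rw [hbfin.coe_toFinset]
      exact h1
    have hWQ : Module.finrank ℚ W ≤ m * d := by
      rw [hm, ← Module.finrank_mul_finrank ℚ k W]
      exact Nat.mul_le_mul le_rfl hWr
    have hclos : ∀ z ∈ AddSubgroup.closure (S : Set (Fin (d + 1) → k)),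
        z ∈ W ∧ ∃ g : (𝓞 k)[X], g.natDegree ≤ d ∧ g.eval x ∈ q ∧ tq4_vec k d g = z := by
      intro z hz
      induction hz using AddSubgroup.closure_induction with
      | mem z hz =>
        refine ⟨hSW z hz, ?_⟩
        obtain ⟨g, hg, rfl⟩ := Finset.mem_image.mp (Finset.mem_coe.mp hz)
        exact ⟨δ g, hdeg g g0, hmem g hg, rfl⟩
      | zero => exact ⟨W.zero_mem, 0, by simp, by simp, map_zero _⟩
      | add z w _ _ hz hw =>
        obtain ⟨hz1, g, hz2, hz3, hz4⟩ := hz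
        obtain ⟨hw1, g', hw2, hw3, hw4⟩ := hw
        refine ⟨W.add_mem hz1 hw1, g + g', ?_, ?_, ?_⟩
        · exact (natDegree_add_le _ _).trans (max_le hz2 hw2)
        · rw [eval_add]
          exact q.add_mem hz3 hw3
        · rw [map_add, hz4, hw4]
      | neg z _ hz =>
        obtain ⟨hz1, g, hz2, hz3, hz4⟩ := hz
        refine ⟨W.neg_mem hz1, -g, ?_, ?_, ?_⟩
        · rwa [natDegree_neg]
        · rw [eval_neg]
          exact q.neg_mem hz3
        · rw [map_neg, hz4]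
    have key := Pool.Agent.H41.RG.card_le_pack (G := Fin (d + 1) → k)
      (fun z => ‖tq4_psi k d ρ b h z‖)
      (fun z w => by rw [map_sub]; exact norm_sub_le _ _)
      (fun N z => by
        show ‖tq4_psi k d ρ b h (N • z)‖ = N * ‖tq4_psi k d ρ b h z‖
        rw [map_nsmul, ← Nat.cast_smul_eq_nsmul ℝ, norm_smul, Real.norm_natCast])
      (lam := 1) (T := (h : ℝ) ^ κ) one_pos (by positivity) S
      (fun z hz hz0 => by
        by_contra hlt3
        rw [not_le] at hlt3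
        obtain ⟨-, g, hg1, hg2, hg3⟩ := hclos z hz
        refine hno g ?_ (tq4_box k hh0 hg1 ?_) hg2
        · intro h0
          apply hz0
          rw [← hg3, h0, map_zero]
        · rw [hg3]
          exact hlt3.le)
      (fun z hz => by
        show ‖tq4_psi k d ρ b h z‖ ≤ (h : ℝ) ^ κ
        obtain ⟨g, hg, rfl⟩ := Finset.mem_image.mp hz
        rw [pi_norm_le_iff_of_nonneg (by positivity)]
        rintro ⟨j, φ⟩
        show ‖tq4_psi k d ρ b h (tq4_vec k d (δ g)) (j, φ)‖ ≤ _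
        rw [tq4_psi_norm]
        have hpos : (0 : ℝ) < (h : ℝ) ^ (ρ + b * (d - (j : ℕ))) := by positivity
        rw [div_le_iff₀ hpos, ← pow_add]
        have h3 : κ + (ρ + b * (d - (j : ℕ))) = r j := by
          show _ = ρ + κ + b * (d - (j : ℕ))
          ring
        rw [h3]
        exact hsz2 g hg j φ)
      (m * d)
      (fun n v hv hli => by
        have h1 : LinearIndependent ℚ v := by
          rw [← LinearIndependent.iff_fractionRing ℤ ℚ]
          exact hli
        let v' : Fin n → W := fun i => ⟨v i, (hclos _ (hv i)).1⟩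
        have h2 : LinearIndependent ℚ v' := by
          have h3 : v = (W.restrictScalars ℚ).subtype ∘ v' := by
            funext i; rfl
          rw [h3] at h1
          exact h1.of_comp _
        have h5 : Module.Finite ℚ W := Module.Finite.trans k W
        have h4 := h2.fintype_card_le_finrank
        rw [Fintype.card_fin] at h4
        exact h4.trans hWQ)
    have h6 : (1 + 2 * (h : ℝ) ^ κ / 1) ^ (m * d) ≤
        ((3 ^ (m * d) * h ^ (m * (κ * d)) : ℕ) : ℝ) := by
      have h7 : (1 : ℝ) ≤ (h : ℝ) ^ κ := one_le_pow₀ hh1'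
      calc (1 + 2 * (h : ℝ) ^ κ / 1) ^ (m * d) ≤ (3 * (h : ℝ) ^ κ) ^ (m * d) :=
            pow_le_pow_left₀ (by positivity) (by rw [div_one]; linarith) _
        _ = ((3 ^ (m * d) * h ^ (m * (κ * d)) : ℕ) : ℝ) := by
            push_cast
            rw [mul_pow, ← pow_mul]
            congr 2
            ring
    have h8 : S.card ≤ 3 ^ (m * d) * h ^ (m * (κ * d)) := by exact_mod_cast key.trans h6
    omega
  -- conclusion
  have : Fintype bs := hbfin.fintype
  have hcle : Fintype.card (Fin (d + 1)) ≤ Fintype.card bs := by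
    rw [Fintype.card_fin]
    have h1 : Fintype.card bs = hbfin.toFinset.card := by
      rw [← Set.toFinset_card]; congr 1; ext z; simp
    omega
  obtain ⟨e⟩ := Function.Embedding.nonempty_of_card_le hcle
  have hGe : ∀ i, ∃ g ∈ S0, Ψ g = ((e i : bs) : Fin (d + 1) → k) := by
    intro i
    obtain ⟨g, hg, hgw⟩ := Finset.mem_image.mp (Finset.mem_coe.mp (hbS (e i).2))
    exact ⟨g, hg, hgw⟩
  choose G hG hGw using hGe
  refine ⟨fun i => δ (G i), ?_, fun i => ⟨hbox _ (hG i), hmem _ (hG i)⟩⟩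
  have h1 : LinearIndependent k (fun i => ((e i : bs) : Fin (d + 1) → k)) :=
    hbli.comp e e.injective
  have h2 : LinearIndependent (𝓞 k) (fun i => ((e i : bs) : Fin (d + 1) → k)) := by
    refine h1.restrict_scalars ?_
    intro a a' haa
    have h3 : ((a : 𝓞 k) : k) = ((a' : 𝓞 k) : k) := by
      simpa [Algebra.smul_def] using haa
    exact_mod_cast h3
  refine LinearIndependent.of_comp (tq4_vec k d) ?_
  have h4 : (tq4_vec k d) ∘ (fun i => δ (G i)) = fun i => ((e i : bs) : Fin (d + 1) → k) := by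
    funext i
    exact hGw i
  rw [h4]
  exact h2

end

end Pool.Agent.H98.TQ
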