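import Pool.Agent.H98.TQ.Primes
import Pool.Agent.H98.TQ.BadT
import Pool.Agent.H98.TQ.Rank
import Pool.Agent.H98.TQ.Prod
import Pool.Agent.H98.TQ.ClassC

/-!
# Project TQ, row TQ-7: the size of the family

Triples (m, l, x) with no small polynomial vanishing at x modulo m l carry a full lattice of small
doubly vanishing polynomials, so every residue class has its share of the family; double counting
over the triples.
-/

set_option autoImplicit false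

open Polynomial IsDedekindDomain NumberField Pool.Agent.H35.AN
open Pool.Agent.H67.MU (Bdd)
open Pool.Agent.H92.SQ2 (gg WW DD mu ee)

namespace Pool.Agent.H98.TQ

section

variable (k : Type) [Field k] [NumberField k]

variable {k} in
private theorem tq7_mono {h b d r r' : ℕ} {g : (𝓞 k)[X]} (hh : 1 ≤ h) (hr : r ≤ r')
    (hg : InBox h b d r g) : InBox h b d r' g := by
  refine ⟨hg.1, fun j hj φ => (hg.2 j hj φ).trans ?_⟩
  exact pow_le_pow_right₀ (by exact_mod_cast hh) (by omega)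

private theorem tq7_rho (D d b U : ℕ) (hD : 1 ≤ D) (h : D * (b * d * (d + 1)) + 16 ≤ 2 * U) :
    ∃ r : ℕ, D * (2 * r * (d + 1) + b * d * (d + 1)) + 16 ≤ 2 * U ∧
      2 * U < D * (2 * r * (d + 1) + 2 * (d + 1) + b * d * (d + 1)) + 16 := by
  set t := 2 * U - (D * (b * d * (d + 1)) + 16) with ht
  have hpos : 0 < 2 * (D * (d + 1)) := by positivity
  have h1 := Nat.div_add_mod t (2 * (D * (d + 1)))
  have h2 := Nat.mod_lt t hpos
  refine ⟨t / (2 * (D * (d + 1))), ?_, ?_⟩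
  · have h3 : D * (2 * (t / (2 * (D * (d + 1)))) * (d + 1) + b * d * (d + 1)) =
      2 * (D * (d + 1)) * (t / (2 * (D * (d + 1)))) + D * (b * d * (d + 1)) := by ring
    omega
  · have h3 : D * (2 * (t / (2 * (D * (d + 1)))) * (d + 1) + 2 * (d + 1) + b * d * (d + 1)) =
      2 * (D * (d + 1)) * (t / (2 * (D * (d + 1)))) + 2 * (D * (d + 1)) +
        D * (b * d * (d + 1)) := by ring
    omega

/-- one degree: the lattice has full rank in the box -/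
private theorem tq7_rank (d b u v : ℕ)
    (hc : Module.finrank ℚ k * (b * d * (d + 1)) + 16 ≤ 2 * (u + v)) :
    ∃ r : ℕ, Module.finrank ℚ k * (2 * r * (d + 1) + b * d * (d + 1)) + 16 ≤ 2 * (u + v) ∧
    ∃ h0 : ℕ, ∀ h ≥ h0, ∀ q : Ideal (𝓞 k), q ≠ ⊥ → Ideal.absNorm q ≤ h ^ (u + v) → ∀ x : 𝓞 k,
    (∀ g : (𝓞 k)[X], g ≠ 0 → InBox h b d r g → g.eval x ∉ q) →
      ∃ w : Fin (d + 1) → (𝓞 k)[X], LinearIndependent (𝓞 k) w ∧
      ∀ i, InBox h b d (r + (d + 10)) (w i) ∧ (w i).eval x ∈ q := by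
  have hD : 1 ≤ Module.finrank ℚ k := Module.finrank_pos
  obtain ⟨r, hr1, hr2⟩ := tq7_rho (Module.finrank ℚ k) d b (u + v) hD hc
  refine ⟨r, hr1, ?_⟩
  obtain ⟨h0, H⟩ := full_rank k d r (d + 10) b
  refine ⟨max h0 1, fun h hh q hq hqn x hg => ?_⟩
  have hh1 : 1 ≤ h := le_trans (le_max_right _ _) hh
  refine H h (le_trans (le_max_left _ _) hh) q x hq hg ?_
  generalize Module.finrank ℚ k = D at *
  calc Ideal.absNorm q ^ 2 * h ^ (2 * (D * ((d + 10) * d) + 1))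
      ≤ (h ^ (u + v)) ^ 2 * h ^ (2 * (D * ((d + 10) * d) + 1)) :=
        Nat.mul_le_mul_right _ (Nat.pow_le_pow_left hqn 2)
    _ = h ^ (2 * (u + v) + 2 * (D * ((d + 10) * d) + 1)) := by
        rw [← pow_mul, ← pow_add]; ring_nf
    _ ≤ _ := Nat.pow_le_pow_right (by omega) ?_
  have e1 : D * (2 * (r + (d + 10)) * (d + 1) + b * d * (d + 1)) =
      D * (2 * r * (d + 1) + b * d * (d + 1)) + 2 * (D * ((d + 10) * d)) + 2 * (D * (d + 1)) +
        18 * D := by ring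
  have e2 : D * (2 * r * (d + 1) + 2 * (d + 1) + b * d * (d + 1)) =
      D * (2 * r * (d + 1) + b * d * (d + 1)) + 2 * (D * (d + 1)) := by ring
  rw [e1]
  rw [e2] at hr2
  omega

/-- good triples have a full lattice of doubly vanishing polynomials -/
private theorem tq7_good (n b u v d1 d2 : ℕ) (hn : 4 ≤ n) (hs : d1 + d2 = n - 2)
    (h12 : d1 ≤ d2) (hc1 : Module.finrank ℚ k * (b * d2 * (d2 + 1)) + 16 ≤ 2 * (u + v))
    (hc2 : 2 * n * (u + v) + 2 * (n + 20) * (Module.finrank ℚ k * ((d1 + 1) * (d2 + 1))) ≤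
      b * (n + 2) * (Module.finrank ℚ k * ((d1 + 1) * (d2 + 1)))) :
    ∃ r1 r2 : ℕ,
    Module.finrank ℚ k * (2 * r1 * (d1 + 1) + b * d1 * (d1 + 1)) + 16 ≤ 2 * (u + v) ∧
    Module.finrank ℚ k * (2 * r2 * (d2 + 1) + b * d2 * (d2 + 1)) + 16 ≤ 2 * (u + v) ∧
    ∃ h0 : ℕ, ∀ h ≥ h0, ∀ q : Ideal (𝓞 k), q ≠ ⊥ → Ideal.absNorm q ≤ h ^ (u + v) → ∀ x : 𝓞 k,
    (¬ ∃ g : (𝓞 k)[X], g ≠ 0 ∧ InBox h b d1 r1 g ∧ g.eval x ∈ q) →
    (¬ ∃ g : (𝓞 k)[X], g ≠ 0 ∧ InBox h b d2 r2 g ∧ g.eval x ∈ q) →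
    ∃ y : Fin (n - 1) → (𝓞 k)[X], LinearIndependent (𝓞 k) y ∧
      ∀ i, InBox h b (n - 2) (2 * b - 1) (y i) ∧ Dbl q x (y i) := by
  have hD : 1 ≤ Module.finrank ℚ k := Module.finrank_pos
  have hc1' : Module.finrank ℚ k * (b * d1 * (d1 + 1)) + 16 ≤ 2 * (u + v) := by
    refine le_trans ?_ hc1
    have : Module.finrank ℚ k * (b * d1 * (d1 + 1)) ≤
      Module.finrank ℚ k * (b * d2 * (d2 + 1)) := by gcongr
    omega
  obtain ⟨r1, hr1, h01, H1⟩ := tq7_rank k d1 b u v hc1'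
  obtain ⟨r2, hr2, h02, H2⟩ := tq7_rank k d2 b u v hc1
  obtain ⟨h03, H3⟩ := products k n b d1 d2 (r1 + (d1 + 10)) (r2 + (d2 + 10)) hn hs
  refine ⟨r1, r2, hr1, hr2, max (max h01 h02) (max h03 1), fun h hh q hq hqn x hg1 hg2 => ?_⟩
  have a1 : h01 ≤ h := le_trans (le_trans (le_max_left _ _) (le_max_left _ _)) hh
  have a2 : h02 ≤ h := le_trans (le_trans (le_max_right _ _) (le_max_left _ _)) hh
  have a3 : h03 ≤ h := le_trans (le_trans (le_max_left _ _) (le_max_right _ _)) hh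
  have a4 : 1 ≤ h := le_trans (le_trans (le_max_right _ _) (le_max_right _ _)) hh
  obtain ⟨w1, hw1, hw1'⟩ := H1 h a1 q hq hqn x (fun g hg0 hgb hgd => hg1 ⟨g, hg0, hgb, hgd⟩)
  obtain ⟨w2, hw2, hw2'⟩ := H2 h a2 q hq hqn x (fun g hg0 hgb hgd => hg2 ⟨g, hg0, hgb, hgd⟩)
  obtain ⟨y, hy, hy'⟩ := H3 h a3 q x w1 w2 hw1 hw2 hw1' hw2'
  refine ⟨y, hy, fun i => ⟨tq7_mono a4 ?_ (hy' i).1, (hy' i).2⟩⟩
  -- the scale
  clear hy hy' hw1 hw1' hw2 hw2' H1 H2 H3 hg1 hg2 hqn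
  generalize Module.finrank ℚ k = D at *
  have hn' : n = d1 + d2 + 2 := by omega
  have hP : 0 < D * ((d1 + 1) * (d2 + 1)) := by positivity
  have e1 : (D * (2 * r1 * (d1 + 1) + b * d1 * (d1 + 1)) + 16) * (d2 + 1) ≤
      2 * (u + v) * (d2 + 1) := Nat.mul_le_mul_right _ hr1
  have e2 : (D * (2 * r2 * (d2 + 1) + b * d2 * (d2 + 1)) + 16) * (d1 + 1) ≤
      2 * (u + v) * (d1 + 1) := Nat.mul_le_mul_right _ hr2
  have key : r1 + r2 + n + 20 ≤ 2 * b := by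
    by_contra hcon
    push Not at hcon
    have hcon' : 2 * b ≤ r1 + r2 + n + 20 := by omega
    have e3 : 2 * b * (D * ((d1 + 1) * (d2 + 1))) ≤
        (r1 + r2 + n + 20) * (D * ((d1 + 1) * (d2 + 1))) :=
      Nat.mul_le_mul_right _ hcon'
    subst hn'
    nlinarith [e1, e2, e3, hc2, hP]
  omega

variable {k} in
/-- an integer prime to the norm can be cancelled -/
private theorem tq7_cancel {p : Ideal (𝓞 k)} (hp : (Ideal.absNorm p).Prime) {e : ℕ} {a : 𝓞 k}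
    {j : ℤ} (hj : ¬ ((Ideal.absNorm p : ℕ) : ℤ) ∣ j) (h : a * (j : 𝓞 k) ∈ p ^ e) :
    a ∈ p ^ e := by
  have hN : ((Ideal.absNorm p : ℕ) : 𝓞 k) ∈ p := Ideal.absNorm_mem p
  have hNe : ((Ideal.absNorm p : ℕ) : 𝓞 k) ^ e ∈ p ^ e := Ideal.pow_mem_pow hN e
  have hpp : Prime ((Ideal.absNorm p : ℕ) : ℤ) := Nat.prime_iff_prime_int.mp hp
  have hco : IsCoprime j (((Ideal.absNorm p : ℕ) : ℤ) ^ e) :=
    (((Prime.coprime_iff_not_dvd hpp).mpr hj).symm).pow_right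
  obtain ⟨s, t, hst⟩ := hco
  have h1 : a = s * (a * (j : 𝓞 k)) + t * a * ((Ideal.absNorm p : ℕ) : 𝓞 k) ^ e := by
    have h2 : ((s * j + t * ((Ideal.absNorm p : ℕ) : ℤ) ^ e : ℤ) : 𝓞 k) = 1 := by
      rw [hst]; exact Int.cast_one
    push_cast at h2
    calc a = a * 1 := (mul_one a).symm
      _ = a * ((s : 𝓞 k) * j + t * ((Ideal.absNorm p : ℕ) : 𝓞 k) ^ e) := by rw [h2]
      _ = _ := by ring
  rw [h1]
  exact (p ^ e).add_mem ((p ^ e).mul_mem_left _ h) ((p ^ e).mul_mem_left _ hNe)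

variable {k} in
/-- a large prime is coprime to `N0` -/
private theorem tq7_coprime {p : Ideal (𝓞 k)} (hp : (Ideal.absNorm p).Prime) {N0 : ℕ}
    (hN0 : 0 < N0) (hlt : N0 < Ideal.absNorm p) :
    IsCoprime p (Ideal.span {(N0 : 𝓞 k)}) := by
  have hco : Nat.Coprime (Ideal.absNorm p) N0 :=
    (Nat.Prime.coprime_iff_not_dvd hp).mpr fun hd => by
      have := Nat.le_of_dvd hN0 hd
      omega
  have h1 : IsCoprime ((Ideal.absNorm p : ℕ) : ℤ) (N0 : ℤ) := Nat.isCoprime_iff_coprime.mpr hco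
  obtain ⟨s, t, hst⟩ := h1
  rw [Ideal.isCoprime_iff_exists]
  refine ⟨(s : 𝓞 k) * ((Ideal.absNorm p : ℕ) : 𝓞 k),
    p.mul_mem_left _ (Ideal.absNorm_mem p), (t : 𝓞 k) * (N0 : 𝓞 k),
    Ideal.mul_mem_left _ _ (Ideal.mem_span_singleton_self _), ?_⟩
  have h2 : ((s * ((Ideal.absNorm p : ℕ) : ℤ) + t * (N0 : ℤ) : ℤ) : 𝓞 k) = 1 := by
    rw [hst]; exact Int.cast_one
  push_cast at h2
  exact h2

variable {k} in
/-- an element of `m² l` outside `l²` -/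
private theorem tq7_elt {m l : HeightOneSpectrum (𝓞 k)}
    (hne : Ideal.absNorm m.asIdeal ≠ Ideal.absNorm l.asIdeal) :
    ∃ a : 𝓞 k, a ∈ m.asIdeal ^ 2 * l.asIdeal ∧ a ∉ l.asIdeal ^ 2 := by
  by_contra hcon
  push Not at hcon
  have h1 : m.asIdeal ^ 2 * l.asIdeal ≤ l.asIdeal ^ 2 := fun a ha => hcon a ha
  have h2 := Ideal.dvd_iff_le.mpr h1
  rw [pow_two l.asIdeal] at h2
  have h3 := (mul_dvd_mul_iff_right l.ne_bot).mp h2
  have h4 : l.asIdeal ∣ m.asIdeal := l.prime.dvd_of_dvd_pow h3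
  have h5 := Ideal.dvd_iff_le.mp h4
  have h6 : m.asIdeal = l.asIdeal := m.isMaximal.eq_of_le l.isPrime.ne_top h5
  exact hne (by rw [h6])

private theorem tq7_arith {E H : ℝ} {M L u v : ℕ} (hE0 : 0 ≤ E) (hL : 2 ≤ L)
    (hmR : (M : ℝ) ≤ H ^ u) (hlR : (L : ℝ) ≤ H ^ v) (t : ℕ → ℕ)
    (ht : ∀ j, E ≤ ((M * L : ℕ) : ℝ) ^ 3 * (t j : ℝ)) :
    E ≤ 2 * H ^ (3 * u + 2 * v) * ((∑ j ∈ Finset.Ico 1 L, t j : ℕ) : ℝ) := by
  have h1 : ((L : ℝ) - 1) * E ≤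
      ((M * L : ℕ) : ℝ) ^ 3 * ((∑ j ∈ Finset.Ico 1 L, t j : ℕ) : ℝ) := by
    have h2 : ∑ j ∈ Finset.Ico 1 L, E ≤
        ∑ j ∈ Finset.Ico 1 L, ((M * L : ℕ) : ℝ) ^ 3 * (t j : ℝ) :=
      Finset.sum_le_sum fun j _ => ht j
    rw [Finset.sum_const, Nat.card_Ico, nsmul_eq_mul, ← Finset.mul_sum,
      Nat.cast_sub (by omega), Nat.cast_one] at h2
    push_cast at h2 ⊢
    exact h2
  set S : ℝ := ((∑ j ∈ Finset.Ico 1 L, t j : ℕ) : ℝ) with hS
  have hS0 : 0 ≤ S := Nat.cast_nonneg _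
  have hl2' : (2 : ℝ) ≤ L := by exact_mod_cast hL
  have hm0' : (0 : ℝ) ≤ M := Nat.cast_nonneg _
  have hl0' : (0 : ℝ) < L := by linarith
  have h3 : (L : ℝ) * E ≤ (L : ℝ) * (2 * (M : ℝ) ^ 3 * (L : ℝ) ^ 2 * S) := by
    have h4 : (L : ℝ) * E ≤ 2 * (((L : ℝ) - 1) * E) := by nlinarith
    refine h4.trans ?_
    have h5 : (L : ℝ) * (2 * (M : ℝ) ^ 3 * (L : ℝ) ^ 2 * S) =
        2 * (((M * L : ℕ) : ℝ) ^ 3 * S) := by push_cast; ring
    rw [h5]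
    linarith
  have h6 : E ≤ 2 * (M : ℝ) ^ 3 * (L : ℝ) ^ 2 * S := le_of_mul_le_mul_left h3 hl0'
  refine h6.trans ?_
  have h7 : (M : ℝ) ^ 3 ≤ (H ^ u) ^ 3 := pow_le_pow_left₀ hm0' hmR 3
  have h8 : (L : ℝ) ^ 2 ≤ (H ^ v) ^ 2 := pow_le_pow_left₀ hl0'.le hlR 2
  have h9 : (0 : ℝ) ≤ (H ^ u) ^ 3 := le_trans (pow_nonneg hm0' 3) h7
  calc 2 * (M : ℝ) ^ 3 * (L : ℝ) ^ 2 * S
      ≤ 2 * (H ^ u) ^ 3 * (H ^ v) ^ 2 * S := by gcongr
    _ = 2 * H ^ (3 * u + 2 * v) * S := by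
        rw [pow_add, pow_mul', pow_mul']; ring

omit [NumberField k] in
variable {k} in
private theorem tq7_split {I J : Ideal (𝓞 k)} {a : 𝓞 k} (h : a ∈ I * J) : a ∈ I ∧ a ∈ J := by
  have h1 : I * J ≤ I := Ideal.mul_le_left
  have h2 : I * J ≤ J := Ideal.mul_le_right
  exact ⟨h1 h, h2 h⟩

omit [NumberField k] in
variable {k} in
private theorem tq7_sq {I : Ideal (𝓞 k)} {a : 𝓞 k} (h : a ∈ I ^ 2) : a ∈ I := by
  rw [pow_two] at h
  exact (tq7_split h).1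

variable {k} in
/-- the planted conditions from a residue class -/
private theorem tq7_pl {m l : HeightOneSpectrum (𝓞 k)} (hll : (Ideal.absNorm l.asIdeal).Prime)
    {a : 𝓞 k} (ha1 : a ∈ m.asIdeal ^ 2 * l.asIdeal) (ha2 : a ∉ l.asIdeal ^ 2)
    {f : (𝓞 k)[X]} {x : 𝓞 k} {j : ℕ} (hj1 : 1 ≤ j) (hj : j < Ideal.absNorm l.asIdeal)
    (hA : f.eval x - a * ((j : ℤ) : 𝓞 k) ∈ (m.asIdeal * l.asIdeal) ^ 2)
    (hB : f.derivative.eval x ∈ m.asIdeal * l.asIdeal) : Pl f m.asIdeal l.asIdeal x := by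
  obtain ⟨ham, hal⟩ := tq7_split ha1
  rw [mul_pow] at hA
  obtain ⟨hAm, hAl⟩ := tq7_split hA
  obtain ⟨hBm, hBl⟩ := tq7_split hB
  have hAl1 : f.eval x - a * ((j : ℤ) : 𝓞 k) ∈ l.asIdeal := tq7_sq hAl
  refine ⟨?_, hBm, ?_, ?_, hBl⟩
  · have h1 := (m.asIdeal ^ 2).add_mem hAm ((m.asIdeal ^ 2).mul_mem_right ((j : ℤ) : 𝓞 k) ham)
    rwa [sub_add_cancel] at h1
  · have h1 := (l.asIdeal).add_mem hAl1 ((l.asIdeal).mul_mem_right ((j : ℤ) : 𝓞 k) hal)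
    rwa [sub_add_cancel] at h1
  · intro hcon
    have h1 := (l.asIdeal ^ 2).sub_mem hcon hAl
    rw [sub_sub_cancel] at h1
    refine ha2 (tq7_cancel hll ?_ h1)
    intro hd
    have h2 : Ideal.absNorm l.asIdeal ∣ j := by exact_mod_cast hd
    have := Nat.le_of_dvd (by omega) h2
    omega

variable {k} in
/-- different multiples of `a` are in different classes -/
private theorem tq7_dis {m l : HeightOneSpectrum (𝓞 k)} (hll : (Ideal.absNorm l.asIdeal).Prime)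
    {a : 𝓞 k} (ha2 : a ∉ l.asIdeal ^ 2) {z : 𝓞 k} {i j : ℕ} (hi : i < Ideal.absNorm l.asIdeal)
    (hj : j < Ideal.absNorm l.asIdeal)
    (hA : z - a * ((j : ℤ) : 𝓞 k) ∈ (m.asIdeal * l.asIdeal) ^ 2)
    (hA' : z - a * ((i : ℤ) : 𝓞 k) ∈ (m.asIdeal * l.asIdeal) ^ 2) : i = j := by
  by_contra hij
  rw [mul_pow] at hA hA'
  have h1 := (l.asIdeal ^ 2).sub_mem (tq7_split hA).2 (tq7_split hA').2
  have h3 : z - a * ((j : ℤ) : 𝓞 k) - (z - a * ((i : ℤ) : 𝓞 k)) =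
      a * (((i : ℤ) - (j : ℤ) : ℤ) : 𝓞 k) := by
    push_cast; ring
  rw [h3] at h1
  refine ha2 (tq7_cancel hll ?_ h1)
  intro hd
  have h6 := Int.eq_zero_of_abs_lt_dvd hd (by rw [abs_lt]; constructor <;> omega)
  exact hij (by omega)

/-- the members of the family planted at a good triple -/
private theorem tq7_sets (n N0 b u v : ℕ) (s : (𝓞 k)[X]) (hn : 4 ≤ n) (hN0 : 0 < N0)
    (hs : s.Monic) (hsn : s.natDegree = n) (hb : 1 ≤ b) :
    ∃ c : ℝ, 0 < c ∧ ∃ h0 : ℕ, ∀ h ≥ h0, ∀ m l : HeightOneSpectrum (𝓞 k),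
    (Ideal.absNorm m.asIdeal).Prime → (Ideal.absNorm l.asIdeal).Prime →
    Ideal.absNorm m.asIdeal ≠ Ideal.absNorm l.asIdeal →
    h < Ideal.absNorm m.asIdeal → h < Ideal.absNorm l.asIdeal →
    Ideal.absNorm m.asIdeal ≤ h ^ u → Ideal.absNorm l.asIdeal ≤ h ^ v → ∀ x : 𝓞 k,
    ∀ y : Fin (n - 1) → (𝓞 k)[X], LinearIndependent (𝓞 k) y →
      (∀ i, InBox h b (n - 2) (2 * b - 1) (y i) ∧ Dbl (m.asIdeal * l.asIdeal) x (y i)) →
      ∃ T : Finset (𝓞 k)[X], (∀ f ∈ T, Fam n N0 s b h f ∧ Pl f m.asIdeal l.asIdeal x) ∧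
        c * (h : ℝ) ^ (Module.finrank ℚ k * (b * (n * (n + 1) / 2 - 1))) ≤
          2 * (h : ℝ) ^ (3 * u + 2 * v) * T.card := by
  classical
  obtain ⟨c, hc, h0, H⟩ := class_count k n N0 b s hn hN0 hs hsn hb
  refine ⟨c, hc, max h0 N0, fun h hh m l hmm hll hne hmh hlh hmu hlv x y hy hy' => ?_⟩
  have a1 : h0 ≤ h := le_trans (le_max_left _ _) hh
  have a3 : N0 ≤ h := le_trans (le_max_right _ _) hh
  have hcop : IsCoprime (m.asIdeal * l.asIdeal) (Ideal.span {(N0 : 𝓞 k)}) :=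
    (tq7_coprime hmm hN0 (lt_of_le_of_lt a3 hmh)).mul_left
      (tq7_coprime hll hN0 (lt_of_le_of_lt a3 hlh))
  have hq0 : m.asIdeal * l.asIdeal ≠ ⊥ := mul_ne_zero m.ne_bot l.ne_bot
  obtain ⟨a, ha1, ha2⟩ := tq7_elt hne
  have hnorm : Ideal.absNorm (m.asIdeal * l.asIdeal) =
      Ideal.absNorm m.asIdeal * Ideal.absNorm l.asIdeal := map_mul _ _ _
  have HT : ∀ j : ℕ, ∃ T : Finset (𝓞 k)[X], (∀ f ∈ T, Fam n N0 s b h f ∧
      f.eval x - a * ((j : ℤ) : 𝓞 k) ∈ (m.asIdeal * l.asIdeal) ^ 2 ∧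
      f.derivative.eval x ∈ m.asIdeal * l.asIdeal) ∧
      c * (h : ℝ) ^ (Module.finrank ℚ k * (b * (n * (n + 1) / 2 - 1))) ≤
        ((Ideal.absNorm m.asIdeal * Ideal.absNorm l.asIdeal : ℕ) : ℝ) ^ 3 * T.card := by
    intro j
    obtain ⟨T, hT1, hT2⟩ := H h a1 (m.asIdeal * l.asIdeal) x (a * ((j : ℤ) : 𝓞 k)) 0 hq0 hcop y
      hy hy'
    rw [hnorm] at hT2
    refine ⟨T, fun f hf => ?_, hT2⟩
    obtain ⟨h1, h2, h3⟩ := hT1 f hf
    rw [sub_zero] at h3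
    exact ⟨h1, h2, h3⟩
  choose T hT1 hT2 using HT
  refine ⟨(Finset.Ico 1 (Ideal.absNorm l.asIdeal)).biUnion T, ?_, ?_⟩
  · intro f hf
    rw [Finset.mem_biUnion] at hf
    obtain ⟨j, hj, hf⟩ := hf
    rw [Finset.mem_Ico] at hj
    obtain ⟨hF, hA, hB⟩ := hT1 j f hf
    exact ⟨hF, tq7_pl hll ha1 ha2 hj.1 hj.2 hA hB⟩
  · rw [Finset.card_biUnion]
    · exact tq7_arith (mul_nonneg hc.le (pow_nonneg (Nat.cast_nonneg _) _)) hll.two_le
        (by exact_mod_cast hmu) (by exact_mod_cast hlv) (fun j => (T j).card) hT2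
    · intro j hj i hi hji
      rw [Function.onFun, Finset.disjoint_left]
      intro f hfj hfi
      rw [Finset.mem_coe, Finset.mem_Ico] at hj hi
      exact hji (tq7_dis hll ha2 hi.2 hj.2 (hT1 j f hfj).2.1 (hT1 i f hfi).2.1).symm

/-- double counting -/
private theorem tq7_double {α β : Type} [DecidableEq α] (G : Finset β) (T : β → Finset α)
    (c K : ℝ) (hk : ∀ i ∈ G, c ≤ ((T i).card : ℝ))
    (hK : ∀ f ∈ G.biUnion T, ((G.filter fun i => f ∈ T i).card : ℝ) ≤ K) :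
    c * G.card ≤ K * (G.biUnion T).card := by
  have h1 : ∑ i ∈ G, (T i).card = ∑ f ∈ G.biUnion T, (G.filter fun i => f ∈ T i).card := by
    calc ∑ i ∈ G, (T i).card
        = ∑ i ∈ G, ∑ f ∈ G.biUnion T, (if f ∈ T i then 1 else 0) := by
          refine Finset.sum_congr rfl fun i hi => ?_
          rw [Finset.sum_boole, Nat.cast_id]
          congr 1
          ext f
          rw [Finset.mem_filter]
          exact ⟨fun hf => ⟨Finset.mem_biUnion.mpr ⟨i, hi, hf⟩, hf⟩, fun hf => hf.2⟩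
      _ = ∑ f ∈ G.biUnion T, ∑ i ∈ G, (if f ∈ T i then 1 else 0) := Finset.sum_comm
      _ = _ := by
          refine Finset.sum_congr rfl fun f _ => ?_
          rw [Finset.sum_boole, Nat.cast_id]
  have h2 : c * G.card ≤ ∑ i ∈ G, ((T i).card : ℝ) := by
    rw [mul_comm, ← nsmul_eq_mul, ← Finset.sum_const]
    exact Finset.sum_le_sum hk
  have h3 : (∑ i ∈ G, ((T i).card : ℝ)) =
      ∑ f ∈ G.biUnion T, ((G.filter fun i => f ∈ T i).card : ℝ) := by exact_mod_cast h1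
  rw [h3] at h2
  refine h2.trans ((Finset.sum_le_sum hK).trans (le_of_eq ?_))
  rw [Finset.sum_const, nsmul_eq_mul, mul_comm]

variable {k} in
/-- naturals below the norm are different residues -/
private theorem tq7_inj {p : Ideal (𝓞 k)} (hp : (Ideal.absNorm p).Prime) {x y : ℕ}
    (hx : x < Ideal.absNorm p) (hy : y < Ideal.absNorm p) (hxy : (x : 𝓞 k) - (y : 𝓞 k) ∈ p) :
    x = y := by
  by_contra hne
  have hd : ¬ ((Ideal.absNorm p : ℕ) : ℤ) ∣ ((x : ℤ) - (y : ℤ)) := by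
    intro hd
    have h6 := Int.eq_zero_of_abs_lt_dvd hd (by rw [abs_lt]; constructor <;> omega)
    exact hne (by omega)
  have h1 : (1 : 𝓞 k) * (((x : ℤ) - (y : ℤ) : ℤ) : 𝓞 k) ∈ p ^ 1 := by
    rw [pow_one, one_mul]
    push_cast
    exact hxy
  have h2 := tq7_cancel hp hd h1
  rw [pow_one, ← Ideal.eq_top_iff_one] at h2
  rw [h2, Ideal.absNorm_top] at hp
  exact Nat.not_prime_one hp

variable {k} in
/-- a monic polynomial of degree `n` has at most `n` roots modulo `p` -/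
private theorem tq7_res {f : (𝓞 k)[X]} {n : ℕ} (hdeg : f.natDegree = n) (hf : f.Monic)
    (p : HeightOneSpectrum (𝓞 k)) (hp : (Ideal.absNorm p.asIdeal).Prime) (S : Finset ℕ)
    (hS : ∀ r ∈ S, r < Ideal.absNorm p.asIdeal ∧ f.eval (r : 𝓞 k) ∈ p.asIdeal) :
    S.card ≤ n := by
  classical
  have := p.isMaximal
  let _ := Ideal.Quotient.field p.asIdeal
  have hfm : (f.map (Ideal.Quotient.mk p.asIdeal)) ≠ 0 := (hf.map _).ne_zero
  have h1 : S.card ≤ (f.map (Ideal.Quotient.mk p.asIdeal)).roots.toFinset.card := by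
    refine Finset.card_le_card_of_injOn
      (fun r : ℕ => Ideal.Quotient.mk p.asIdeal (r : 𝓞 k)) ?_ ?_
    · intro r hr
      rw [Finset.mem_coe] at hr
      rw [Finset.mem_coe, Multiset.mem_toFinset, Polynomial.mem_roots hfm,
        Polynomial.IsRoot.def, Polynomial.eval_map, Polynomial.eval₂_at_apply]
      exact Ideal.Quotient.eq_zero_iff_mem.mpr (hS r hr).2
    · intro r hr r' hr' hrr
      rw [Finset.mem_coe] at hr hr'
      exact tq7_inj hp (hS r hr).1 (hS r' hr').1 (Ideal.Quotient.eq.mp hrr)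
  refine h1.trans ((Multiset.toFinset_card_le _).trans ((Polynomial.card_roots' _).trans ?_))
  exact (Polynomial.natDegree_map_le).trans hdeg.le

variable {k} in
/-- a monic polynomial of degree `n` has at most `n ^ 2` roots modulo `m l` -/
private theorem tq7_roots {f : (𝓞 k)[X]} {n : ℕ} {m l : HeightOneSpectrum (𝓞 k)}
    (hdeg : f.natDegree = n) (hf : f.Monic) (hm : (Ideal.absNorm m.asIdeal).Prime)
    (hl : (Ideal.absNorm l.asIdeal).Prime)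
    (hne : Ideal.absNorm m.asIdeal ≠ Ideal.absNorm l.asIdeal) (S : Finset ℕ)
    (hS : ∀ x ∈ S, x < Ideal.absNorm m.asIdeal * Ideal.absNorm l.asIdeal ∧
      f.eval (x : 𝓞 k) ∈ m.asIdeal ∧ f.eval (x : 𝓞 k) ∈ l.asIdeal) :
    S.card ≤ n ^ 2 := by
  classical
  have hmod : ∀ (p : Ideal (𝓞 k)) (x : ℕ), f.eval (x : 𝓞 k) ∈ p →
      f.eval ((x % Ideal.absNorm p : ℕ) : 𝓞 k) ∈ p := by
    intro p x hx
    have h1 : ((x : 𝓞 k) - ((x % Ideal.absNorm p : ℕ) : 𝓞 k)) ∣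
        f.eval (x : 𝓞 k) - f.eval ((x % Ideal.absNorm p : ℕ) : 𝓞 k) :=
      sub_dvd_eval_sub _ _ f
    have h2 : (x : 𝓞 k) - ((x % Ideal.absNorm p : ℕ) : 𝓞 k) ∈ p := by
      have h3 := Nat.div_add_mod x (Ideal.absNorm p)
      have h4 : (x : 𝓞 k) = ((Ideal.absNorm p : ℕ) : 𝓞 k) * ((x / Ideal.absNorm p : ℕ) : 𝓞 k) +
          ((x % Ideal.absNorm p : ℕ) : 𝓞 k) := by
        rw [← Nat.cast_mul, ← Nat.cast_add, h3]
      have h5 : (x : 𝓞 k) - ((x % Ideal.absNorm p : ℕ) : 𝓞 k) =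
          ((Ideal.absNorm p : ℕ) : 𝓞 k) * ((x / Ideal.absNorm p : ℕ) : 𝓞 k) := by
        rw [sub_eq_iff_eq_add]; exact h4
      rw [h5]
      exact p.mul_mem_right _ (Ideal.absNorm_mem p)
    have h6 := p.sub_mem hx (p.mem_of_dvd h1 h2)
    rwa [sub_sub_cancel] at h6
  have hinj : S.card ≤
      (((Finset.range (Ideal.absNorm m.asIdeal)).filter
          fun r : ℕ => f.eval (r : 𝓞 k) ∈ m.asIdeal) ×ˢ
        ((Finset.range (Ideal.absNorm l.asIdeal)).filter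
          fun r : ℕ => f.eval (r : 𝓞 k) ∈ l.asIdeal)).card := by
    refine Finset.card_le_card_of_injOn
      (fun x : ℕ => (x % Ideal.absNorm m.asIdeal, x % Ideal.absNorm l.asIdeal)) ?_ ?_
    · intro x hx
      rw [Finset.mem_coe] at hx
      obtain ⟨-, h1, h2⟩ := hS x hx
      rw [Finset.mem_coe, Finset.mem_product, Finset.mem_filter, Finset.mem_filter,
        Finset.mem_range, Finset.mem_range]
      exact ⟨⟨Nat.mod_lt _ hm.pos, hmod _ x h1⟩, ⟨Nat.mod_lt _ hl.pos, hmod _ x h2⟩⟩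
    · intro x hx y hy hxy
      rw [Finset.mem_coe] at hx hy
      rw [Prod.mk.injEq] at hxy
      have hc : Nat.Coprime (Ideal.absNorm m.asIdeal) (Ideal.absNorm l.asIdeal) :=
        (Nat.coprime_primes hm hl).mpr hne
      have h1 : x ≡ y [MOD Ideal.absNorm m.asIdeal * Ideal.absNorm l.asIdeal] :=
        (Nat.modEq_and_modEq_iff_modEq_mul hc).mp ⟨hxy.1, hxy.2⟩
      have h2 := Nat.mod_eq_of_lt (hS x hx).1
      have h3 := Nat.mod_eq_of_lt (hS y hy).1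
      unfold Nat.ModEq at h1
      omega
  refine hinj.trans ?_
  rw [Finset.card_product, pow_two]
  refine Nat.mul_le_mul (tq7_res hdeg hf m hm _ ?_) (tq7_res hdeg hf l hl _ ?_)
  · intro r hr
    rw [Finset.mem_filter, Finset.mem_range] at hr
    exact hr
  · intro r hr
    rw [Finset.mem_filter, Finset.mem_range] at hr
    exact hr

variable {k} in
/-- the ranges of the norms are disjoint -/
private theorem tq7_ne {h u v : ℕ} (huv : u ≠ v) {S T : Finset (HeightOneSpectrum (𝓞 k))}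
    (hS : PS h u S) (hT : PS h v T) {m l : HeightOneSpectrum (𝓞 k)} (hh : 1 ≤ h) (hm : m ∈ S)
    (hl : l ∈ T) : Ideal.absNorm m.asIdeal ≠ Ideal.absNorm l.asIdeal := by
  have h1 := hS.lo m hm
  have h2 := hS.hi m hm
  have h3 := hT.lo l hl
  have h4 := hT.hi l hl
  rcases Nat.lt_or_gt_of_ne huv with hlt | hlt
  · have h5 : h ^ u ≤ h ^ (v - 1) := Nat.pow_le_pow_right (by omega) (by omega)
    omega
  · have h5 : h ^ v ≤ h ^ (u - 1) := Nat.pow_le_pow_right (by omega) (by omega)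
    omega

variable {k} in
open scoped Classical in
/-- each polynomial has few planted triples -/
private theorem tq7_mult {n h u v K1 K2 : ℕ} (hh : 1 ≤ h) (huv : u ≠ v)
    {S T : Finset (HeightOneSpectrum (𝓞 k))} (hS : PS h u S) (hT : PS h v T) {f : (𝓞 k)[X]}
    (hdeg : f.natDegree = n) (hf : f.Monic)
    (h1 : (S.filter fun m => ∃ x : 𝓞 k, Dbl m.asIdeal x f).card ≤ K1)
    (h2 : (T.filter fun l => ∃ x : 𝓞 k, f.eval x ∈ l.asIdeal ∧ f.eval x ∉ l.asIdeal ^ 2 ∧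
        f.derivative.eval x ∈ l.asIdeal).card ≤ K2)
    (G : Finset (Σ _ : HeightOneSpectrum (𝓞 k) × HeightOneSpectrum (𝓞 k), ℕ))
    (hG : ∀ i ∈ G, i.1.1 ∈ S ∧ i.1.2 ∈ T ∧
      i.2 < Ideal.absNorm i.1.1.asIdeal * Ideal.absNorm i.1.2.asIdeal ∧
      Pl f i.1.1.asIdeal i.1.2.asIdeal (i.2 : 𝓞 k)) :
    G.card ≤ K1 * K2 * n ^ 2 := by
  set M := S.filter fun m => ∃ x : 𝓞 k, Dbl m.asIdeal x f with hM
  set L := T.filter fun l => ∃ x : 𝓞 k, f.eval x ∈ l.asIdeal ∧ f.eval x ∉ l.asIdeal ^ 2 ∧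
        f.derivative.eval x ∈ l.asIdeal with hL
  set R : HeightOneSpectrum (𝓞 k) × HeightOneSpectrum (𝓞 k) → Finset ℕ := fun p =>
    (Finset.range (Ideal.absNorm p.1.asIdeal * Ideal.absNorm p.2.asIdeal)).filter fun x : ℕ =>
    f.eval (x : 𝓞 k) ∈ p.1.asIdeal ∧ f.eval (x : 𝓞 k) ∈ p.2.asIdeal with hR
  have hsub : G ⊆ (M ×ˢ L).sigma R := by
    intro i hi
    obtain ⟨a, b, c, d⟩ := hG i hi
    rw [Finset.mem_sigma, Finset.mem_product, hM, hL, Finset.mem_filter, Finset.mem_filter, hR,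
      Finset.mem_filter, Finset.mem_range]
    exact ⟨⟨⟨a, _, d.m2, d.m1⟩, ⟨b, _, d.l1, d.l2, d.l3⟩⟩,
      c, tq7_sq d.m2, d.l1⟩
  refine (Finset.card_le_card hsub).trans ?_
  rw [Finset.card_sigma]
  have hb : ∀ p ∈ M ×ˢ L, (R p).card ≤ n ^ 2 := by
    intro p hp
    rw [Finset.mem_product, hM, hL, Finset.mem_filter, Finset.mem_filter] at hp
    obtain ⟨⟨p1, -⟩, ⟨p2, -⟩⟩ := hp
    refine tq7_roots hdeg hf (hS.prime _ p1) (hT.prime _ p2) (tq7_ne huv hS hT hh p1 p2) (R p) ?_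
    intro x hx
    rw [hR, Finset.mem_filter, Finset.mem_range] at hx
    exact hx
  refine (Finset.sum_le_card_nsmul _ _ _ hb).trans ?_
  rw [Finset.card_product, smul_eq_mul]
  exact Nat.mul_le_mul_right _ (Nat.mul_le_mul h1 h2)

open scoped Classical in
/-- at least half of the triples are good -/
private theorem tq7_many (b u v d1 d2 r1 r2 : ℕ) (hu : 2 ≤ u) (hv : 2 ≤ v) (huv : u ≠ v)
    (hr1 : Module.finrank ℚ k * (2 * r1 * (d1 + 1) + b * d1 * (d1 + 1)) + 16 ≤ 2 * (u + v))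
    (hr2 : Module.finrank ℚ k * (2 * r2 * (d2 + 1) + b * d2 * (d2 + 1)) + 16 ≤ 2 * (u + v)) :
    ∃ h0 : ℕ, ∀ h ≥ h0, ∀ S T : Finset (HeightOneSpectrum (𝓞 k)), PS h u S → PS h v T →
      h ^ (u - 1) ≤ S.card → h ^ (v - 1) ≤ T.card → h ^ (2 * (u + v) - 4) ≤
      2 * ((S ×ˢ T).sigma fun p => (Finset.range (Ideal.absNorm p.1.asIdeal *
          Ideal.absNorm p.2.asIdeal)).filter fun x : ℕ =>
        (¬ ∃ g : (𝓞 k)[X], g ≠ 0 ∧ InBox h b d1 r1 g ∧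
          g.eval (x : 𝓞 k) ∈ p.1.asIdeal * p.2.asIdeal) ∧
        (¬ ∃ g : (𝓞 k)[X], g ≠ 0 ∧ InBox h b d2 r2 g ∧
          g.eval (x : 𝓞 k) ∈ p.1.asIdeal * p.2.asIdeal)).card := by
  obtain ⟨h01, H1⟩ := bad_triples k d1 r1 b u v hu hv huv hr1
  obtain ⟨h02, H2⟩ := bad_triples k d2 r2 b u v hu hv huv hr2
  refine ⟨max (max h01 h02) 4, fun h hh S T hS hT b3 b4 => ?_⟩
  have a1 : h01 ≤ h := le_trans (le_trans (le_max_left _ _) (le_max_left _ _)) hh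
  have a2 : h02 ≤ h := le_trans (le_trans (le_max_right _ _) (le_max_left _ _)) hh
  have a5 : 4 ≤ h := le_trans (le_max_right _ _) hh
  have b1 := H1 h a1 S T hS hT
  have b2 := H2 h a2 S T hS hT
  rw [Finset.card_sigma, Finset.sum_product]
  dsimp only
  set B1 : HeightOneSpectrum (𝓞 k) → HeightOneSpectrum (𝓞 k) → Finset ℕ := fun m l =>
    (Finset.range (Ideal.absNorm m.asIdeal * Ideal.absNorm l.asIdeal)).filter fun x : ℕ =>
    ∃ g : (𝓞 k)[X], g ≠ 0 ∧ InBox h b d1 r1 g ∧ g.eval (x : 𝓞 k) ∈ m.asIdeal * l.asIdeal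
    with hB1
  set B2 : HeightOneSpectrum (𝓞 k) → HeightOneSpectrum (𝓞 k) → Finset ℕ := fun m l =>
    (Finset.range (Ideal.absNorm m.asIdeal * Ideal.absNorm l.asIdeal)).filter fun x : ℕ =>
    ∃ g : (𝓞 k)[X], g ≠ 0 ∧ InBox h b d2 r2 g ∧ g.eval (x : 𝓞 k) ∈ m.asIdeal * l.asIdeal
    with hB2
  set G : HeightOneSpectrum (𝓞 k) → HeightOneSpectrum (𝓞 k) → Finset ℕ := fun m l =>
    (Finset.range (Ideal.absNorm m.asIdeal * Ideal.absNorm l.asIdeal)).filter fun x : ℕ =>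
    (¬ ∃ g : (𝓞 k)[X], g ≠ 0 ∧ InBox h b d1 r1 g ∧
      g.eval (x : 𝓞 k) ∈ m.asIdeal * l.asIdeal) ∧
    (¬ ∃ g : (𝓞 k)[X], g ≠ 0 ∧ InBox h b d2 r2 g ∧
      g.eval (x : 𝓞 k) ∈ m.asIdeal * l.asIdeal) with hG
  have hone : ∀ m ∈ S, ∀ l ∈ T,
      h ^ (u + v - 2) ≤ (G m l).card + ((B1 m l).card + (B2 m l).card) := by
    intro m hm l hl
    have hmm := hS.lo m hm
    have hll := hT.lo l hl
    have hsub : Finset.range (Ideal.absNorm m.asIdeal * Ideal.absNorm l.asIdeal) ⊆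
        G m l ∪ (B1 m l ∪ B2 m l) := by
      intro x hx
      rw [Finset.mem_union, Finset.mem_union, hG, hB1, hB2]
      dsimp only
      rw [Finset.mem_filter, Finset.mem_filter, Finset.mem_filter]
      by_cases p1 : ∃ g : (𝓞 k)[X], g ≠ 0 ∧ InBox h b d1 r1 g ∧
          g.eval (x : 𝓞 k) ∈ m.asIdeal * l.asIdeal
      · exact Or.inr (Or.inl ⟨hx, p1⟩)
      · by_cases p2 : ∃ g : (𝓞 k)[X], g ≠ 0 ∧ InBox h b d2 r2 g ∧
          g.eval (x : 𝓞 k) ∈ m.asIdeal * l.asIdeal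
        · exact Or.inr (Or.inr ⟨hx, p2⟩)
        · exact Or.inl ⟨hx, p1, p2⟩
    have h1 := Finset.card_le_card hsub
    rw [Finset.card_range] at h1
    have h2 := Finset.card_union_le (G m l) (B1 m l ∪ B2 m l)
    have h3 := Finset.card_union_le (B1 m l) (B2 m l)
    have h4 : h ^ (u + v - 2) ≤ Ideal.absNorm m.asIdeal * Ideal.absNorm l.asIdeal := by
      have h5 : u + v - 2 = (u - 1) + (v - 1) := by omega
      rw [h5, pow_add]; exact Nat.mul_le_mul hmm.le hll.le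
    omega
  have hsum : S.card * (T.card * h ^ (u + v - 2)) ≤
      ∑ m ∈ S, ∑ l ∈ T, ((G m l).card + ((B1 m l).card + (B2 m l).card)) := by
    calc S.card * (T.card * h ^ (u + v - 2))
        = ∑ m ∈ S, ∑ l ∈ T, h ^ (u + v - 2) := by
          rw [Finset.sum_const, Finset.sum_const, smul_eq_mul, smul_eq_mul]
      _ ≤ _ := Finset.sum_le_sum fun m hm => Finset.sum_le_sum fun l hl => hone m hm l hl
  simp only [Finset.sum_add_distrib] at hsum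
  have e1 : h ^ (2 * (u + v) - 4) ≤ S.card * (T.card * h ^ (u + v - 2)) := by
    calc h ^ (2 * (u + v) - 4) = h ^ (u - 1) * (h ^ (v - 1) * h ^ (u + v - 2)) := by
          rw [← pow_add, ← pow_add]; congr 1; omega
      _ ≤ _ := Nat.mul_le_mul b3 (Nat.mul_le_mul_right _ b4)
  have e2 : 4 * h ^ (2 * (u + v) - 7) ≤ h ^ (2 * (u + v) - 4) := by
    calc 4 * h ^ (2 * (u + v) - 7) ≤ h * h ^ (2 * (u + v) - 7) := Nat.mul_le_mul_right _ a5
      _ = h ^ (2 * (u + v) - 7 + 1) := by rw [pow_succ, mul_comm]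
      _ ≤ _ := Nat.pow_le_pow_right (by omega) (by omega)
  have f1 : ∑ m ∈ S, ∑ l ∈ T, (B1 m l).card ≤ h ^ (2 * (u + v) - 7) := b1
  have f2 : ∑ m ∈ S, ∑ l ∈ T, (B2 m l).card ≤ h ^ (2 * (u + v) - 7) := b2
  have f3 : h ^ (2 * (u + v) - 4) ≤ 2 * ∑ m ∈ S, ∑ l ∈ T, (G m l).card := by omega
  exact f3

open scoped Classical in
theorem fam_count (n N0 b u v K1 K2 : ℕ) (s : (𝓞 k)[X]) (hn : 4 ≤ n) (hN0 : 0 < N0)
    (hs : s.Monic) (hsn : s.natDegree = n) (hb : 1 ≤ b) (hu : 2 ≤ u) (hv : 2 ≤ v) (huv : u ≠ v)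
    (hc1 : Module.finrank ℚ k * (b * (n - 2 - (n - 2) / 2) * (n - 2 - (n - 2) / 2 + 1)) + 16 ≤
      2 * (u + v))
    (hc2 : 2 * n * (u + v) + 2 * (n + 20) *
        (Module.finrank ℚ k * (((n - 2) / 2 + 1) * (n - 2 - (n - 2) / 2 + 1))) ≤
      b * (n + 2) * (Module.finrank ℚ k * (((n - 2) / 2 + 1) * (n - 2 - (n - 2) / 2 + 1))))
    (hfew : ∃ h0 : ℕ, ∀ h ≥ h0, ∀ S T : Finset (HeightOneSpectrum (𝓞 k)), PS h u S → PS h v T →
      ∀ f : (𝓞 k)[X], Fam n N0 s b h f →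
      (S.filter fun m => ∃ x : 𝓞 k, Dbl m.asIdeal x f).card ≤ K1 ∧
      (T.filter fun l => ∃ x : 𝓞 k, f.eval x ∈ l.asIdeal ∧ f.eval x ∉ l.asIdeal ^ 2 ∧
        f.derivative.eval x ∈ l.asIdeal).card ≤ K2) :
    ∃ c : ℝ, 0 < c ∧ ∃ h0 : ℕ, ∀ h ≥ h0, ∃ T : Finset (𝓞 k)[X],
      (∀ f ∈ T, Fam n N0 s b h f ∧ ∃ m l : HeightOneSpectrum (𝓞 k),
        (Ideal.absNorm m.asIdeal).Prime ∧ (Ideal.absNorm l.asIdeal).Prime ∧
        h ^ (u - 1) < Ideal.absNorm m.asIdeal ∧ h ^ (v - 1) < Ideal.absNorm l.asIdeal ∧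
        ∃ x : 𝓞 k, Pl f m.asIdeal l.asIdeal x) ∧
      c * (h : ℝ) ^ (Module.finrank ℚ k * (b * (n * (n + 1) / 2 - 1)) - u - 4) ≤ T.card := by
  obtain ⟨r1, r2, hr1, hr2, h01, H1⟩ := tq7_good k n b u v ((n - 2) / 2)
    (n - 2 - (n - 2) / 2) hn (by omega) (by omega) hc1 hc2
  obtain ⟨c0, hc0, h02, H2⟩ := tq7_sets k n N0 b u v s hn hN0 hs hsn hb
  obtain ⟨h03, H3⟩ := tq7_many k b u v ((n - 2) / 2) (n - 2 - (n - 2) / 2) r1 r2 hu hv huv hr1 hr2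
  obtain ⟨h04, H4⟩ := hfew
  obtain ⟨h05, H5⟩ := exists_ps k u (by omega)
  obtain ⟨h06, H6⟩ := exists_ps k v (by omega)
  set W : ℕ := Module.finrank ℚ k * (b * (n * (n + 1) / 2 - 1)) with hW
  set K : ℝ := 4 * ((K1 * K2 * n ^ 2 : ℕ) + 1) with hK
  have hKn : (0 : ℝ) ≤ ((K1 * K2 * n ^ 2 : ℕ) : ℝ) := Nat.cast_nonneg _
  have hK0 : 0 < K := by rw [hK]; positivity
  refine ⟨min 1 (c0 / K), lt_min one_pos (div_pos hc0 hK0),
    h01 + h02 + h03 + h04 + h05 + h06 + 2, fun h hh => ?_⟩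
  have a1 : h01 ≤ h := by omega
  have a2 : h02 ≤ h := by omega
  have a3 : h03 ≤ h := by omega
  have a4 : h04 ≤ h := by omega
  have a5 : 2 ≤ h := by omega
  obtain ⟨S1, hS1, hS1c⟩ := H5 h (by omega)
  obtain ⟨S2, hS2, hS2c⟩ := H6 h (by omega)
  set G : Finset (Σ _ : HeightOneSpectrum (𝓞 k) × HeightOneSpectrum (𝓞 k), ℕ) :=
    (S1 ×ˢ S2).sigma fun p => (Finset.range (Ideal.absNorm p.1.asIdeal *
          Ideal.absNorm p.2.asIdeal)).filter fun x : ℕ =>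
        (¬ ∃ g : (𝓞 k)[X], g ≠ 0 ∧ InBox h b ((n - 2) / 2) r1 g ∧
          g.eval (x : 𝓞 k) ∈ p.1.asIdeal * p.2.asIdeal) ∧
        (¬ ∃ g : (𝓞 k)[X], g ≠ 0 ∧ InBox h b (n - 2 - (n - 2) / 2) r2 g ∧
          g.eval (x : 𝓞 k) ∈ p.1.asIdeal * p.2.asIdeal) with hG
  have hGc : h ^ (2 * (u + v) - 4) ≤ 2 * G.card := H3 h a3 S1 S2 hS1 hS2 hS1c hS2c
  have hGm : ∀ i ∈ G, i.1.1 ∈ S1 ∧ i.1.2 ∈ S2 ∧
      i.2 < Ideal.absNorm i.1.1.asIdeal * Ideal.absNorm i.1.2.asIdeal ∧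
      ∃ T : Finset (𝓞 k)[X],
        (∀ f ∈ T, Fam n N0 s b h f ∧ Pl f i.1.1.asIdeal i.1.2.asIdeal (i.2 : 𝓞 k)) ∧
        c0 * (h : ℝ) ^ W ≤ 2 * (h : ℝ) ^ (3 * u + 2 * v) * T.card := by
    intro i hi
    rw [hG, Finset.mem_sigma, Finset.mem_product, Finset.mem_filter, Finset.mem_range] at hi
    obtain ⟨⟨p1, p2⟩, p3, p4, p5⟩ := hi
    have q1 := hS1.hi _ p1
    have q2 := hS2.hi _ p2
    have q3 : h < Ideal.absNorm i.1.1.asIdeal :=
      lt_of_le_of_lt (Nat.le_self_pow (by omega) h) (hS1.lo _ p1)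
    have q4 : h < Ideal.absNorm i.1.2.asIdeal :=
      lt_of_le_of_lt (Nat.le_self_pow (by omega) h) (hS2.lo _ p2)
    obtain ⟨y, hy, hy'⟩ := H1 h a1 (i.1.1.asIdeal * i.1.2.asIdeal)
      (mul_ne_zero i.1.1.ne_bot i.1.2.ne_bot)
      (by rw [map_mul, pow_add]; exact Nat.mul_le_mul q1 q2) (i.2 : 𝓞 k) p4 p5
    exact ⟨p1, p2, p3, H2 h a2 i.1.1 i.1.2 (hS1.prime _ p1) (hS2.prime _ p2)
      (tq7_ne huv hS1 hS2 (by omega) p1 p2) q3 q4 q1 q2 (i.2 : 𝓞 k) y hy hy'⟩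
  have hex : ∀ i : (Σ _ : HeightOneSpectrum (𝓞 k) × HeightOneSpectrum (𝓞 k), ℕ),
      ∃ T : Finset (𝓞 k)[X], i ∈ G →
      (∀ f ∈ T, Fam n N0 s b h f ∧ Pl f i.1.1.asIdeal i.1.2.asIdeal (i.2 : 𝓞 k)) ∧
        c0 * (h : ℝ) ^ W ≤ 2 * (h : ℝ) ^ (3 * u + 2 * v) * T.card := by
    intro i
    by_cases hi : i ∈ G
    · obtain ⟨-, -, -, T, hT⟩ := hGm i hi
      exact ⟨T, fun _ => hT⟩
    · exact ⟨∅, fun hi' => absurd hi' hi⟩
  choose T hT using hex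
  have hh0 : (0 : ℝ) < h := by
    have : 0 < h := by omega
    exact_mod_cast this
  have hh1 : (1 : ℝ) ≤ h := by
    have : 1 ≤ h := by omega
    exact_mod_cast this
  have hD : (0 : ℝ) < 2 * (h : ℝ) ^ (3 * u + 2 * v) := by positivity
  have hdc := tq7_double G T (c0 * (h : ℝ) ^ W / (2 * (h : ℝ) ^ (3 * u + 2 * v)))
    ((K1 * K2 * n ^ 2 : ℕ) : ℝ)
    (fun i hi => by
      rw [div_le_iff₀ hD, mul_comm ((T i).card : ℝ)]
      exact (hT i hi).2)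
    (fun f hf => by
      rw [Finset.mem_biUnion] at hf
      obtain ⟨i, hi, hfi⟩ := hf
      have hF := ((hT i hi).1 f hfi).1
      obtain ⟨q1, q2⟩ := H4 h a4 S1 S2 hS1 hS2 f hF
      have := tq7_mult (by omega) huv hS1 hS2 hF.deg hF.monic q1 q2
        (G.filter fun i => f ∈ T i) (by
          intro j hj
          rw [Finset.mem_filter] at hj
          obtain ⟨p1, p2, p3, -⟩ := hGm j hj.1
          exact ⟨p1, p2, p3, ((hT j hj.1).1 f hj.2).2⟩)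
      exact_mod_cast this)
  refine ⟨G.biUnion T, ?_, ?_⟩
  · intro f hf
    rw [Finset.mem_biUnion] at hf
    obtain ⟨i, hi, hfi⟩ := hf
    obtain ⟨p1, p2, -, -⟩ := hGm i hi
    exact ⟨((hT i hi).1 f hfi).1, i.1.1, i.1.2, hS1.prime _ p1, hS2.prime _ p2, hS1.lo _ p1,
      hS2.lo _ p2, _, ((hT i hi).1 f hfi).2⟩
  · set N : ℝ := ((G.biUnion T).card : ℝ) with hN
    have hN0' : 0 ≤ N := Nat.cast_nonneg _
    have hGr : (h : ℝ) ^ (2 * (u + v) - 4) ≤ 2 * (G.card : ℝ) := by exact_mod_cast hGc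
    rw [div_mul_eq_mul_div, div_le_iff₀ hD] at hdc
    have e1 : (h : ℝ) ^ (3 * u + 2 * v) = (h : ℝ) ^ (2 * (u + v) - 4) * (h : ℝ) ^ (u + 4) := by
      rw [← pow_add]; congr 1; omega
    have hX : (0 : ℝ) < (h : ℝ) ^ (2 * (u + v) - 4) := by positivity
    have e2 : (h : ℝ) ^ (2 * (u + v) - 4) * (c0 * (h : ℝ) ^ W) ≤
        (h : ℝ) ^ (2 * (u + v) - 4) * (K * (h : ℝ) ^ (u + 4) * N) := by
      have e3 : (h : ℝ) ^ (2 * (u + v) - 4) * (c0 * (h : ℝ) ^ W) ≤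
          2 * (c0 * (h : ℝ) ^ W * G.card) := by
        have : 0 ≤ c0 * (h : ℝ) ^ W := by positivity
        nlinarith
      refine e3.trans ?_
      rw [e1] at hdc
      have e4 : ((K1 * K2 * n ^ 2 : ℕ) : ℝ) * N *
          (2 * ((h : ℝ) ^ (2 * (u + v) - 4) * (h : ℝ) ^ (u + 4))) * 2 ≤
          (h : ℝ) ^ (2 * (u + v) - 4) * (K * (h : ℝ) ^ (u + 4) * N) := by
        rw [hK]
        have e5 : 0 ≤ (h : ℝ) ^ (2 * (u + v) - 4) * (4 * (h : ℝ) ^ (u + 4) * N) := by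
          positivity
        nlinarith [e5]
      linarith
    have e6 : c0 * (h : ℝ) ^ W ≤ K * (h : ℝ) ^ (u + 4) * N := le_of_mul_le_mul_left e2 hX
    by_cases hcase : u + 4 ≤ W
    · have e7 : (h : ℝ) ^ W = (h : ℝ) ^ (W - u - 4) * (h : ℝ) ^ (u + 4) := by
        rw [← pow_add]; congr 1; omega
      have e9 : (h : ℝ) ^ (u + 4) * (c0 * (h : ℝ) ^ (W - u - 4)) ≤
          (h : ℝ) ^ (u + 4) * (K * N) := by
        calc (h : ℝ) ^ (u + 4) * (c0 * (h : ℝ) ^ (W - u - 4)) = c0 * (h : ℝ) ^ W := by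
              rw [e7]; ring
          _ ≤ K * (h : ℝ) ^ (u + 4) * N := e6
          _ = (h : ℝ) ^ (u + 4) * (K * N) := by ring
      have e10 := le_of_mul_le_mul_left e9 (by positivity)
      calc min 1 (c0 / K) * (h : ℝ) ^ (W - u - 4) ≤ c0 / K * (h : ℝ) ^ (W - u - 4) := by
            gcongr; exact min_le_right _ _
        _ = (c0 * (h : ℝ) ^ (W - u - 4)) / K := by ring
        _ ≤ N := by rw [div_le_iff₀ hK0]; linarith
    · have e11 : W - u - 4 = 0 := by omega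
      rw [e11, pow_zero, mul_one]
      refine (min_le_left _ _).trans ?_
      have e12 : 0 < N := by
        by_contra hcon
        have : N = 0 := le_antisymm (not_lt.mp hcon) hN0'
        rw [this, mul_zero] at e6
        have : 0 < c0 * (h : ℝ) ^ W := by positivity
        linarith
      rw [hN] at e12 ⊢
      exact_mod_cast Nat.cast_pos.mp e12

end

end Pool.Agent.H98.TQ
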