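import Pool.Agent.H98.TQ.ShCard

/-!
# Project TQ, row TQ-27: the number of polynomials in the box with a root in a given field
-/

set_option autoImplicit false

open Polynomial IsDedekindDomain NumberField Pool.Agent.H35.AN
open Pool.Agent.H67.MU (Bdd)
open Pool.Agent.H92.SQ2 (gg WW DD mu ee)

namespace Pool.Agent.H98.TQ

section

variable (k : Type) [Field k] [NumberField k]

variable {k} in
private theorem tq27_minpoly {n : ℕ} {R : ℝ} {a : 𝓞 k} {g : (𝓞 k)[X]} (hg : Mb n R a g)
    {K : Type} [Field K] [NumberField K] [Algebra k K] {y : K} (hy : aeval y (FK g) = 0) :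
    minpoly k y = FK g :=
  (minpoly.eq_of_irreducible_of_monic hg.irr hy (hg.monic.map _)).symm

variable {k} in
private theorem tq27_trace {n : ℕ} (hn : 2 ≤ n) {R : ℝ} {a : 𝓞 k} {g : (𝓞 k)[X]}
    (hg : Mb n R a g) {K : Type} [Field K] [NumberField K] [Algebra k K]
    (hK : Module.finrank k K = n) {y : K} (hy : aeval y (FK g) = 0) :
    Algebra.trace k K y = -(a : k) := by
  have hfd : FiniteDimensional k K := FiniteDimensional.of_finrank_pos (by omega)
  have hm := tq27_minpoly hg hy
  have hdeg : (FK g).natDegree = n := by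
    rw [FK, hg.monic.natDegree_map]
    exact hg.deg
  have hint : IsIntegral k y := Algebra.IsIntegral.isIntegral y
  have h1 : Module.finrank k (IntermediateField.adjoin k {y}) = n := by
    rw [IntermediateField.adjoin.finrank hint, hm, hdeg]
  have h2 : Module.finrank (IntermediateField.adjoin k {y}) K = 1 := by
    have h3 := Module.finrank_mul_finrank k (IntermediateField.adjoin k {y}) K
    rw [h1, hK] at h3
    have h4 : 0 < n := by omega
    exact Nat.eq_of_mul_eq_mul_left h4 (by rw [h3, mul_one])
  rw [trace_eq_finrank_mul_minpoly_nextCoeff, h2, hm, nextCoeff_of_natDegree_pos (by omega), hdeg,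
    FK, coeff_map, hg.snd]
  simp

theorem mult_bound (n r : ℕ) (hn : 2 ≤ n) : ∃ C : ℝ, 1 ≤ C ∧
    ∀ (K : Type) [Field K] [NumberField K] [Algebra k K], Module.finrank k K = n →
      ∀ (R ρ : ℝ) (a : 𝓞 k), 0 < ρ → ρ ≤ R → Thin k r (2 * n * R) K →
        (∀ z : K, Sh k ρ z → z = 0) →
        ∀ G : Finset (𝓞 k)[X], (∀ g ∈ G, Mb n R a g ∧ ∃ y : K, aeval y (FK g) = 0) →
          (G.card : ℝ) ≤ (C * R / ρ) ^ (Module.finrank ℚ k * r) := by
  classical
  obtain ⟨C, hC, hcard⟩ := sh_card k n r
  have hn2 : (2 : ℝ) ≤ n := by exact_mod_cast hn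
  refine ⟨C * (2 * n), by nlinarith, ?_⟩
  intro K _ _ _ hK R ρ a hρ hρR hthin hsmall G hG
  have hfd : FiniteDimensional k K := FiniteDimensional.of_finrank_pos (by omega)
  have hR : 0 < R := lt_of_lt_of_le hρ hρR
  have hex : ∀ g : (𝓞 k)[X], ∃ y : K, g ∈ G → aeval y (FK g) = 0 := by
    intro g
    by_cases hg : g ∈ G
    · obtain ⟨y, hy⟩ := (hG g hg).2
      exact ⟨y, fun _ => hy⟩
    · exact ⟨0, fun h => absurd h hg⟩
  choose y hy using hex
  set z : (𝓞 k)[X] → K := fun g => (n : K) * y g + algebraMap k K (a : k) with hz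
  have hinj : Set.InjOn z G := by
    intro g hg h hh hgh
    have h1 : (n : K) * y g = (n : K) * y h := by
      have h2 : (n : K) * y g + algebraMap k K (a : k) = (n : K) * y h + algebraMap k K (a : k) :=
        hgh
      exact add_right_cancel h2
    have h3 : (n : K) ≠ 0 := by
      have : n ≠ 0 := by omega
      exact_mod_cast this
    have h4 : y g = y h := mul_left_cancel₀ h3 h1
    have h5 : FK g = FK h := by
      rw [← tq27_minpoly (hG g hg).1 (hy g hg), ← tq27_minpoly (hG h hh).1 (hy h hh), h4]
    exact Polynomial.map_injective (algebraMap (𝓞 k) k)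
      (FaithfulSMul.algebraMap_injective (𝓞 k) k) h5
  have hsh : ∀ g ∈ G, Sh k (2 * n * R) (z g) := by
    intro g hg
    have hM := (hG g hg).1
    have hyg := hy g hg
    have hyi : IsIntegral ℤ (y g) := by
      have h1 : IsIntegral (𝓞 k) (y g) := by
        refine ⟨g, hM.monic, ?_⟩
        rw [FK, aeval_map_algebraMap] at hyg
        exact hyg
      exact isIntegral_trans (R := ℤ) (A := 𝓞 k) _ h1
    have htr := tq27_trace hn hM hK hyg
    have hroot : ∀ φ : K →+* ℂ, ‖φ (y g)‖ ≤ R := by
      intro φ
      refine hM.rt (φ.comp (algebraMap k K)) _ ?_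
      have h1 := congrArg φ hyg
      rw [map_zero, aeval_def, hom_eval₂] at h1
      rw [FC, eval_map]
      exact h1
    refine ⟨?_, ?_, ?_⟩
    · have h1 : IsIntegral ℤ ((n : K)) := by
        have := isIntegral_algebraMap (R := ℤ) (A := K) (x := (n : ℤ))
        simpa using this
      have h2 : IsIntegral ℤ (algebraMap k K (a : k)) :=
        (RingOfIntegers.isIntegral_coe a).map (algebraMap k K).toIntAlgHom
      exact (h1.mul hyi).add h2
    · have h1 : z g = (n : k) • y g + algebraMap k K (a : k) := by
        rw [hz, Algebra.smul_def]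
        simp
      rw [h1, map_add, map_smul, htr, Algebra.trace_algebraMap, hK]
      simp
    · intro φ
      have h1 : φ (z g) = n * φ (y g) + φ (algebraMap k K (a : k)) := by
        rw [hz]
        simp
      have ha : ‖φ (algebraMap k K (a : k))‖ ≤ n * R := by
        letI : Algebra k ℂ := (φ.comp (algebraMap k K)).toAlgebra
        have h1 := trace_eq_sum_embeddings (K := k) (L := K) (E := ℂ) (x := y g)
        rw [htr] at h1
        have h2 : ‖(algebraMap k ℂ) (-(a : k))‖ = ‖φ (algebraMap k K (a : k))‖ := by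
          rw [map_neg, norm_neg]
          rfl
        rw [← h2, h1]
        refine (norm_sum_le _ _).trans ?_
        refine (Finset.sum_le_card_nsmul _ _ R fun σ _ => hroot σ.toRingHom).trans ?_
        rw [Finset.card_univ, nsmul_eq_mul, AlgHom.card k K ℂ, hK]
      rw [h1]
      refine (norm_add_le _ _).trans ?_
      rw [norm_mul, Complex.norm_natCast]
      have h2 := hroot φ
      have h3 : (n : ℝ) * ‖φ (y g)‖ ≤ n * R := mul_le_mul_of_nonneg_left h2 (by positivity)
      linarith
  have key := hcard K hK (2 * n * R) ρ hρ (by nlinarith) hthin hsmall (G.image z) (by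
    intro w hw
    obtain ⟨g, hg, rfl⟩ := Finset.mem_image.1 hw
    exact hsh g hg)
  rw [Finset.card_image_of_injOn hinj] at key
  refine key.trans (le_of_eq ?_)
  congr 1
  ring

end

end Pool.Agent.H98.TQ
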