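import Pool.Agent.H98.TQ.Defs
import Pool.Agent.H41.RG.Pack

/-!
# Project TQ (MP_a3214d), row TQ-24: elements of bounded size

`sh_small`: an integral element all of whose conjugates have absolute value at most `ρ < 1` is
zero.  `sh_card`: a packing bound for the integral elements of trace zero and size at most `R`
when these elements span a space of dimension at most `r` over `k` and there is none of size at
most `ρ`.
-/

set_option autoImplicit false

open Polynomial IsDedekindDomain NumberField

namespace Pool.Agent.H98.TQ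

section

variable (k : Type) [Field k] [NumberField k]

/-- the vector of all conjugates -/
private noncomputable def tq24_emb (K : Type) [Field K] [NumberField K] :
    K →ₗ[ℚ] ((K →+* ℂ) → ℂ) :=
  LinearMap.pi fun φ => φ.toRatAlgHom.toLinearMap

theorem sh_small {K : Type} [Field K] [NumberField K] [Algebra k K] {ρ : ℝ} (hρ : ρ < 1) {z : K}
    (hz : Sh k ρ z) : z = 0 := by
  by_contra hz0
  obtain ⟨m, hm, h1⟩ := NumberField.Embeddings.pow_eq_one_of_norm_le_one K ℂ hz0 hz.int
    (fun φ => (hz.sz φ).trans hρ.le)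
  obtain ⟨φ⟩ : Nonempty (K →+* ℂ) := inferInstance
  have h2 : ‖φ z‖ ^ m = 1 := by
    rw [← norm_pow, ← map_pow, h1, map_one, norm_one]
  have h3 : ‖φ z‖ < 1 := (hz.sz φ).trans_lt hρ
  have h4 : ‖φ z‖ ^ m < 1 := pow_lt_one₀ (norm_nonneg _) h3 hm.ne'
  rw [h2] at h4
  exact lt_irrefl _ h4

theorem sh_card (n r : ℕ) : ∃ C : ℝ, 1 ≤ C ∧ ∀ (K : Type) [Field K] [NumberField K]
    [Algebra k K], Module.finrank k K = n → ∀ R ρ : ℝ, 0 < ρ → ρ ≤ R → Thin k r R K →
    (∀ z : K, Sh k ρ z → z = 0) → ∀ S : Finset K, (∀ z ∈ S, Sh k R z) →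
    (S.card : ℝ) ≤ (C * R / ρ) ^ (Module.finrank ℚ k * r) := by
  refine ⟨3, by norm_num, ?_⟩
  intro K _ _ _ _ R ρ hρ hρR hthin hno S hS
  classical
  have hR : 0 < R := hρ.trans_le hρR
  have hfin : Module.Finite k K := Module.Finite.of_restrictScalars_finite ℚ k K
  -- a maximal independent subset
  obtain ⟨b, hbS, hbspan, hbli⟩ := exists_linearIndependent k (S : Set K)
  have hbfin : b.Finite := S.finite_toSet.subset hbS
  have hbcard : hbfin.toFinset.card ≤ r := by
    by_contra hlt
    rw [not_le] at hlt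
    have : Fintype b := hbfin.fintype
    have hc : Fintype.card (Fin (r + 1)) ≤ Fintype.card b := by
      rw [Fintype.card_fin]
      have : Fintype.card b = hbfin.toFinset.card := by
        rw [← Set.toFinset_card]; congr 1; ext x; simp
      omega
    obtain ⟨g⟩ := Function.Embedding.nonempty_of_card_le hc
    exact hthin (fun i => ((g i : b) : K)) (fun i => hS _ (hbS (g i).2))
      (hbli.comp g g.injective)
  let W : Submodule k K := Submodule.span k (hbfin.toFinset : Set K)
  have hWr : Module.finrank k W ≤ r := (finrank_span_finset_le_card _).trans hbcard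
  have hSW : ∀ z ∈ S, z ∈ W := by
    intro z hz
    have h1 : z ∈ Submodule.span k b := by
      rw [hbspan]; exact Submodule.subset_span hz
    show z ∈ Submodule.span k _
    rw [hbfin.coe_toFinset]
    exact h1
  have hWQ : Module.finrank ℚ W ≤ Module.finrank ℚ k * r := by
    rw [← Module.finrank_mul_finrank ℚ k W]
    exact Nat.mul_le_mul le_rfl hWr
  let ι := tq24_emb K
  have hcl : ∀ x ∈ AddSubgroup.closure (S : Set K),
      x ∈ W ∧ IsIntegral ℤ x ∧ Algebra.trace k K x = 0 := by
    intro x hx
    induction hx using AddSubgroup.closure_induction with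
    | mem x hx => exact ⟨hSW x hx, (hS x hx).int, (hS x hx).tr⟩
    | zero => exact ⟨W.zero_mem, isIntegral_zero, map_zero _⟩
    | add x y _ _ hx hy =>
      exact ⟨W.add_mem hx.1 hy.1, hx.2.1.add hy.2.1, by rw [map_add, hx.2.2, hy.2.2, add_zero]⟩
    | neg x _ hx => exact ⟨W.neg_mem hx.1, hx.2.1.neg, by rw [map_neg, hx.2.2, neg_zero]⟩
  have key := Pool.Agent.H41.RG.card_le_pack (G := K) (fun z => ‖ι z‖)
    (fun x y => by rw [map_sub]; exact norm_sub_le _ _)
    (fun N x => by
      show ‖ι (N • x)‖ = N * ‖ι x‖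
      rw [map_nsmul, ← Nat.cast_smul_eq_nsmul ℝ, norm_smul, Real.norm_natCast])
    hρ hR.le S
    (fun x hx hx0 => by
      by_contra hlt
      rw [not_le] at hlt
      apply hx0
      refine hno x ⟨(hcl x hx).2.1, (hcl x hx).2.2, fun φ => ?_⟩
      exact (norm_le_pi_norm (ι x) φ).trans hlt.le)
    (fun x hx => by
      show ‖ι x‖ ≤ R
      rw [pi_norm_le_iff_of_nonneg hR.le]
      exact fun φ => (hS x hx).sz φ)
    (Module.finrank ℚ k * r)
    (fun m v hv hli => by
      have h1 : LinearIndependent ℚ v := by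
        rw [← LinearIndependent.iff_fractionRing ℤ ℚ]
        exact hli
      let v' : Fin m → W := fun i => ⟨v i, (hcl _ (hv i)).1⟩
      have h2 : LinearIndependent ℚ v' := by
        have h3 : v = (W.restrictScalars ℚ).subtype ∘ v' := by
          funext i; rfl
        rw [h3] at h1
        exact h1.of_comp _
      have h5 : Module.Finite ℚ W := Module.Finite.trans k W
      have h4 := h2.fintype_card_le_finrank
      rw [Fintype.card_fin] at h4
      exact h4.trans hWQ)
  refine key.trans ?_
  have h1 : 1 ≤ R / ρ := (one_le_div hρ).2 hρR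
  have h2 : (0 : ℝ) ≤ 1 + 2 * R / ρ := by
    have : 0 ≤ 2 * R / ρ := by positivity
    linarith
  refine pow_le_pow_left₀ h2 ?_ _
  have e1 : 2 * R / ρ = 2 * (R / ρ) := by ring
  have e2 : 3 * R / ρ = 3 * (R / ρ) := by ring
  rw [e1, e2]
  linarith

end

end Pool.Agent.H98.TQ
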