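import Pool.Agent.H98.TQ.Defs

/-!
# Project TQ (MP_a3214d), row TQ-25: the minimal polynomial of a short element of trace zero
-/

set_option autoImplicit false

open Polynomial IsDedekindDomain NumberField Pool.Agent.H35.AN
open Pool.Agent.H67.MU (Bdd)
open Pool.Agent.H92.SQ2 (gg WW DD mu ee)

namespace Pool.Agent.H98.TQ

variable (k : Type) [Field k] [NumberField k]

/-- The conjugates of a nonzero element of trace zero are pairwise distinct. -/
theorem tq25_inj {n : ℕ} (hn : 2 ≤ n) {K : Type} [Field K] [NumberField K] [Algebra k K]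
    (hK : SymK k n K) {z : K} (htr : Algebra.trace k K z = 0) (hz0 : z ≠ 0) :
    Function.Injective (fun φ : K →ₐ[k] AlgebraicClosure k => φ z) := by
  obtain ⟨hfin, e, he⟩ := hK
  have : FiniteDimensional k K := Module.finite_of_finrank_pos (by omega)
  intro φ ψ hφψ
  by_contra hne
  dsimp only at hφψ
  have hev : e φ ≠ e ψ := fun h => hne (e.injective h)
  -- all conjugates are equal
  have hall : ∀ χ : K →ₐ[k] AlgebraicClosure k, χ z = φ z := by
    intro χ
    by_cases hχ : χ = φ
    · rw [hχ]
    have hev2 : e χ ≠ e φ := fun h => hχ (e.injective h)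
    -- a permutation sending `φ ↦ φ`, `ψ ↦ χ`
    obtain ⟨σ, hσ⟩ := he (Equiv.swap (e ψ) (e χ))
    have h1 : σ.toAlgHom.comp φ = φ := by
      apply e.injective
      rw [hσ φ, Equiv.swap_apply_of_ne_of_ne hev (Ne.symm hev2)]
    have h2 : σ.toAlgHom.comp ψ = χ := by
      apply e.injective
      rw [hσ ψ, Equiv.swap_apply_left]
    calc χ z = (σ.toAlgHom.comp ψ) z := by rw [h2]
      _ = σ (ψ z) := rfl
      _ = σ (φ z) := by rw [hφψ]
      _ = (σ.toAlgHom.comp φ) z := rfl
      _ = φ z := by rw [h1]
  have hsum := trace_eq_sum_embeddings (K := k) (L := K) (AlgebraicClosure k) (x := z)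
  rw [htr, map_zero, Finset.sum_congr rfl fun χ _ => hall χ, Finset.sum_const, Finset.card_univ,
    nsmul_eq_mul, eq_comm, mul_eq_zero] at hsum
  rcases hsum with h | h
  · rw [Nat.cast_eq_zero, AlgHom.card, hfin] at h
    omega
  · exact hz0 (by simpa using h)

theorem shp_of_sh {n : ℕ} (hn : 2 ≤ n) {K : Type} [Field K] [NumberField K] [Algebra k K]
    (hK : SymK k n K) {L : ℝ} {z : K} (hz : Sh k L z) (hz0 : z ≠ 0) :
    ∃ P : (𝓞 k)[X], ShP n L P ∧ Irreducible (FK P) ∧ aeval z (FK P) = 0 := by
  have : FiniteDimensional k K := Module.finite_of_finrank_pos (by rw [hK.1]; omega)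
  have hint : IsIntegral (𝓞 k) z := hz.int.tower_top
  have hQ : minpoly k z = FK (minpoly (𝓞 k) z) :=
    minpoly.isIntegrallyClosed_eq_field_fractions' k hint
  have hintQ : IsIntegral k z := hint.tower_top
  have hinj := tq25_inj k hn hK hz.tr hz0
  have hdegQ : (minpoly k z).natDegree = n := by
    apply le_antisymm
    · rw [← hK.1]
      exact minpoly.natDegree_le z
    · -- distinct roots
      have h1 : Fintype.card (K →ₐ[k] AlgebraicClosure k) = n := by
        rw [AlgHom.card, hK.1]
      classical
      have h2 : (Finset.univ.image (fun φ : K →ₐ[k] AlgebraicClosure k => φ z)).card = n := by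
        rw [Finset.card_image_of_injective _ hinj, Finset.card_univ, h1]
      have h3 : Finset.univ.image (fun φ : K →ₐ[k] AlgebraicClosure k => φ z) ⊆
          ((minpoly k z).map (algebraMap k (AlgebraicClosure k))).roots.toFinset := by
        intro w hw
        rw [Finset.mem_image] at hw
        obtain ⟨φ, -, rfl⟩ := hw
        rw [Multiset.mem_toFinset, mem_roots', IsRoot.def, eval_map_algebraMap]
        refine ⟨Polynomial.map_ne_zero (minpoly.ne_zero hintQ), ?_⟩
        rw [aeval_algHom_apply, minpoly.aeval, map_zero]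
      calc n = _ := h2.symm
        _ ≤ _ := Finset.card_le_card h3
        _ ≤ Multiset.card ((minpoly k z).map (algebraMap k (AlgebraicClosure k))).roots :=
          Multiset.toFinset_card_le _
        _ ≤ ((minpoly k z).map (algebraMap k (AlgebraicClosure k))).natDegree := card_roots' _
        _ = (minpoly k z).natDegree := natDegree_map _
  have hdeg : (minpoly (𝓞 k) z).natDegree = n := by
    rw [← hdegQ, hQ]
    exact ((minpoly.monic hint).natDegree_map _).symm
  refine ⟨minpoly (𝓞 k) z, ⟨hdeg, minpoly.monic hint, ?_, ?_⟩, ?_, ?_⟩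
  · -- trace
    have h1 := trace_eq_finrank_mul_minpoly_nextCoeff k z
    rw [hz.tr, eq_comm, mul_eq_zero] at h1
    have h2 : (minpoly k z).nextCoeff = 0 := by
      rcases h1 with h | h
      · exfalso
        have : 0 < Module.finrank (IntermediateField.adjoin k {z}) K := Module.finrank_pos
        rw [Nat.cast_eq_zero] at h
        omega
      · exact neg_eq_zero.mp h
    rw [nextCoeff_of_natDegree_pos (by omega), hdegQ, hQ] at h2
    unfold FK at h2
    rw [coeff_map] at h2
    exact (FaithfulSMul.algebraMap_eq_zero_iff (𝓞 k) k).mp h2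
  · intro σ w hw
    let : Algebra k ℂ := σ.toAlgebra
    have h1 : w ∈ (minpoly k z).rootSet ℂ := by
      rw [mem_rootSet]
      refine ⟨minpoly.ne_zero hintQ, ?_⟩
      rw [hQ, ← eval_map_algebraMap]
      exact hw
    rw [← Algebra.IsAlgebraic.range_eval_eq_rootSet_minpoly ℂ z] at h1
    obtain ⟨φ, hφ⟩ := h1
    rw [← hφ]
    exact hz.sz (φ : K →+* ℂ)
  · rw [← hQ]
    exact minpoly.irreducible hintQ
  · rw [← hQ]
    exact minpoly.aeval k z

end Pool.Agent.H98.TQ
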