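import Pool.Agent.H98.TQ.Defs
import Pool.Agent.H67.MU.Pack
import Pool.Agent.H92.SQ2.ShPC

/-!
# Project TQ (MP_a3214d), row TQ-26: number of polynomials over the integers of `k` with small roots
-/

set_option autoImplicit false

open Polynomial IsDedekindDomain NumberField Pool.Agent.H35.AN
open Pool.Agent.H67.MU (Bdd)
open Pool.Agent.H92.SQ2 (gg WW DD mu ee)

namespace Pool.Agent.H98.TQ

section

variable {k : Type} [Field k] [NumberField k]

theorem tq26_coeff {n : ℕ} {L : ℝ} {P : (𝓞 k)[X]} (hP : ShP n L P) (i : ℕ) :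
    Bdd (L ^ (n - i) * (n.choose i : ℝ)) (P.coeff i) := by
  intro σ
  have hm : (FK P).Monic := hP.monic.map _
  have hd : (FK P).natDegree = n := by
    rw [← hP.deg]
    exact hP.monic.natDegree_map _
  have h := coeff_le_of_roots_le (p := FK P) (f := σ) (B := L) i hm
    (IsAlgClosed.splits _) (fun z hz => hP.sz σ z (by
      have h1 := isRoot_of_mem_roots hz
      rw [IsRoot.def] at h1
      exact h1))
  rw [hd, coeff_map] at h
  have h2 : (FK P).coeff i = ((P.coeff i : 𝓞 k) : k) := by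
    unfold FK
    rw [coeff_map]
  rwa [h2] at h

end

variable (k : Type) [Field k] [NumberField k]

theorem shp_card (n : ℕ) (hn : 2 ≤ n) : ∃ C : ℝ, 0 < C ∧ ∀ L : ℝ, 1 ≤ L →
    {P : (𝓞 k)[X] | ShP n L P}.Finite ∧
      ({P : (𝓞 k)[X] | ShP n L P}.ncard : ℝ) ≤
        C * L ^ (Module.finrank ℚ k * (n * (n + 1) / 2 - 1)) := by
  classical
  refine ⟨∏ i : Fin (n - 1), (3 * (n.choose i : ℝ)) ^ Module.finrank ℚ k, ?_, fun L hL => ?_⟩
  · refine Finset.prod_pos fun i _ => ?_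
    have h1 : 0 < n.choose i := Nat.choose_pos (by omega)
    positivity
  have hT1 : ∀ i : Fin (n - 1), (1 : ℝ) ≤ L ^ (n - (i : ℕ)) * (n.choose i : ℝ) := by
    intro i
    have h3 : (1 : ℝ) ≤ n.choose i := by
      exact_mod_cast Nat.choose_pos (show (i : ℕ) ≤ n by omega)
    have h4 : (1 : ℝ) ≤ L ^ (n - (i : ℕ)) := one_le_pow₀ hL
    nlinarith
  have hB := fun i : Fin (n - 1) => Pool.Agent.H67.MU.box_count k
    (L ^ (n - (i : ℕ)) * (n.choose i : ℝ)) (by linarith [hT1 i])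
  set A : Finset (Fin (n - 1) → 𝓞 k) :=
    Fintype.piFinset fun i => (hB i).1.toFinset with hA
  have hmaps : ∀ P ∈ {P : (𝓞 k)[X] | ShP n L P}, (fun i : Fin (n - 1) => P.coeff (i : ℕ)) ∈
      (A : Set (Fin (n - 1) → 𝓞 k)) := by
    intro P hP
    rw [Finset.mem_coe, hA, Fintype.mem_piFinset]
    intro i
    rw [Set.Finite.mem_toFinset]
    exact tq26_coeff hP (i : ℕ)
  have hinj : Set.InjOn (fun (P : (𝓞 k)[X]) (i : Fin (n - 1)) => P.coeff (i : ℕ))
      {P : (𝓞 k)[X] | ShP n L P} := by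
    intro P hP Q hQ hPQ
    apply Polynomial.ext
    intro i
    rcases lt_trichotomy i (n - 1) with hi | hi | hi
    · exact congrFun hPQ ⟨i, hi⟩
    · rw [hi, hP.snd, hQ.snd]
    · rcases eq_or_lt_of_le (show n ≤ i by omega) with h2 | h2
      · have h3 := hP.monic.coeff_natDegree
        have h4 := hQ.monic.coeff_natDegree
        rw [hP.deg] at h3
        rw [hQ.deg] at h4
        rw [← h2, h3, h4]
      · rw [coeff_eq_zero_of_natDegree_lt (by rw [hP.deg]; exact h2),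
          coeff_eq_zero_of_natDegree_lt (by rw [hQ.deg]; exact h2)]
  refine ⟨Set.Finite.of_injOn hmaps hinj A.finite_toSet, ?_⟩
  have h1 : {P : (𝓞 k)[X] | ShP n L P}.ncard ≤ (A : Set (Fin (n - 1) → 𝓞 k)).ncard :=
    Set.ncard_le_ncard_of_injOn _ hmaps hinj A.finite_toSet
  rw [Set.ncard_coe_finset, hA, Fintype.card_piFinset] at h1
  have h2 : ({P : (𝓞 k)[X] | ShP n L P}.ncard : ℝ) ≤
      ∏ i : Fin (n - 1), (((hB i).1.toFinset).card : ℝ) := by
    exact_mod_cast h1
  refine h2.trans ?_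
  rw [← Pool.Agent.H92.SQ2.s2_19_sum n hn, pow_mul, ← Finset.prod_pow_eq_pow_sum,
    ← Finset.prod_mul_distrib]
  refine Finset.prod_le_prod (fun _ _ => by positivity) fun i _ => ?_
  have h3 : (((hB i).1.toFinset).card : ℝ) ≤
      (1 + 2 * (L ^ (n - (i : ℕ)) * (n.choose i : ℝ))) ^ Module.finrank ℚ k := by
    have h4 := (hB i).2
    rwa [Set.ncard_eq_toFinset_card _ (hB i).1] at h4
  refine h3.trans ?_
  have h5 : (3 * (n.choose i : ℝ)) ^ Module.finrank ℚ k *
      (L ^ Module.finrank ℚ k) ^ (n - (i : ℕ)) =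
        (3 * (L ^ (n - (i : ℕ)) * (n.choose i : ℝ))) ^ Module.finrank ℚ k := by
    rw [← pow_mul, mul_comm (Module.finrank ℚ k) (n - (i : ℕ)), pow_mul, ← mul_pow]
    congr 1
    ring
  rw [h5]
  exact pow_le_pow_left₀ (by linarith [hT1 i]) (by linarith [hT1 i]) _

end Pool.Agent.H98.TQ
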