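import Pool.Agent.H98.TQ.Defs
import Pool.Agent.H98.TQ.ShCard
import Pool.Agent.H98.TQ.ShP
import Pool.Agent.H98.TQ.Mult
import Pool.Agent.H98.TQ.ShPC

/-! Row TQ-28: fields with a short element. -/

set_option autoImplicit false

open Polynomial IsDedekindDomain NumberField Pool.Agent.H35.AN
open Pool.Agent.H67.MU (Bdd)
open Pool.Agent.H92.SQ2 (gg WW DD mu ee)

namespace Pool.Agent.H98.TQ

section

variable (k : Type) [Field k] [NumberField k]

/-! ### TQ-28 Low.lean (uses TQ-24 sh_small, TQ-25, 26, 27) -/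

theorem root_in {n : ℕ} {f g : (𝓞 k)[X]} {K K' : Type} [Field K] [NumberField K] [Algebra k K]
    [Field K'] [NumberField K'] [Algebra k K'] (hf : f.natDegree = n)
    (hfi : Irreducible (FK f)) (hK : Module.finrank k K = n) (hK' : Module.finrank k K' = n)
    {x : K} (hx : aeval x (FK f) = 0) {x' y' : K'} (hx' : aeval x' (FK f) = 0)
    (hy' : aeval y' (FK g) = 0) : ∃ y : K, aeval y (FK g) = 0 := by
  have hfact : Fact (Irreducible (FK f)) := ⟨hfi⟩
  let φ : AdjoinRoot (FK f) →ₐ[k] K := AdjoinRoot.liftAlgHom (FK f) (Algebra.ofId k K) x hx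
  let ψ : AdjoinRoot (FK f) →ₐ[k] K' := AdjoinRoot.liftAlgHom (FK f) (Algebra.ofId k K') x' hx'
  have hdeg : (FK f).natDegree = n := by
    unfold FK
    rw [natDegree_map_eq_of_injective (FaithfulSMul.algebraMap_injective (𝓞 k) k), hf]
  have hfin : Module.Finite k (AdjoinRoot (FK f)) := (AdjoinRoot.powerBasis hfi.ne_zero).finite
  have hrank : Module.finrank k (AdjoinRoot (FK f)) = Module.finrank k K' := by
    rw [(AdjoinRoot.powerBasis hfi.ne_zero).finrank, AdjoinRoot.powerBasis_dim, hdeg, hK']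
  have hfin' : Module.Finite k K' := by
    have : IsScalarTower ℚ k K' := inferInstance
    exact Module.Finite.of_restrictScalars_finite ℚ k K'
  have hinj : Function.Injective ψ := ψ.toRingHom.injective
  have hsurj : Function.Surjective ψ :=
    (LinearMap.injective_iff_surjective_of_finrank_eq_finrank hrank (f := ψ.toLinearMap)).1 hinj
  obtain ⟨t, ht⟩ := hsurj y'
  refine ⟨φ t, ?_⟩
  have h3 : aeval t (FK g) = 0 := by
    apply hinj
    rw [map_zero, ← aeval_algHom_apply ψ t (FK g), ht, hy']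
  rw [aeval_algHom_apply φ t (FK g), h3, map_zero]

theorem low_count (n r : ℕ) (hn : 2 ≤ n) (hr : r ≤ n * (n + 1) / 2 - 1) (C0 : ℝ) (hC0 : 1 ≤ C0) :
    ∃ C : ℝ, 0 < C ∧ ∀ (h b w : ℕ) (a : 𝓞 k), 2 ≤ h → w ≤ b → ∀ T : Finset (𝓞 k)[X],
      (∀ f ∈ T, Mb n (C0 * (h : ℝ) ^ b) a f ∧ ∃ (K : Type) (_ : Field K) (_ : NumberField K)
        (_ : Algebra k K) (y : K), aeval y (FK f) = 0 ∧ SymK k n K ∧
        Thin k r (2 * n * (C0 * (h : ℝ) ^ b)) K ∧ ∃ z : K, z ≠ 0 ∧ Sh k ((h : ℝ) ^ w) z) →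
      (T.card : ℝ) ≤ C * (w + 1) * (h : ℝ) ^ (Module.finrank ℚ k *
        (w * (n * (n + 1) / 2 - 1) + (b - w + 1) * r)) := by
  classical
  obtain ⟨C1, hC1, hmult⟩ := mult_bound k n r hn
  obtain ⟨C2, hC2, hshp⟩ := shp_card k n hn
  set W : ℕ := n * (n + 1) / 2 - 1 with hW
  set δ : ℕ := Module.finrank ℚ k with hδ
  have hC10 : 0 < C1 * C0 := by nlinarith
  refine ⟨C2 * (C1 * C0) ^ (δ * r), by positivity, ?_⟩
  intro h b w a hh hwb T hT
  have hh1 : (2 : ℝ) ≤ h := by exact_mod_cast hh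
  have hh0 : (0 : ℝ) < h := by linarith
  have hh1' : (1 : ℝ) ≤ h := by linarith
  let Good : (𝓞 k)[X] → ℕ → (𝓞 k)[X] → Prop := fun f j P =>
    Irreducible (FK P) ∧ P.natDegree = n ∧ ∃ (K : Type) (_ : Field K) (_ : NumberField K)
      (_ : Algebra k K) (x y : K), aeval x (FK P) = 0 ∧ aeval y (FK f) = 0 ∧
      Module.finrank k K = n ∧ Thin k r (2 * n * (C0 * (h : ℝ) ^ b)) K ∧
      ∀ z : K, Sh k ((h : ℝ) ^ j / h) z → z = 0
  have hgood : ∀ f ∈ T, ∃ j ≤ w, ∃ P : (𝓞 k)[X], ShP n ((h : ℝ) ^ j) P ∧ Good f j P := by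
    intro f hf
    obtain ⟨-, K, hK1, hK2, hK3, y, hy, hsym, hthin, hz⟩ := hT f hf
    have hex : ∃ j : ℕ, ∃ z : K, z ≠ 0 ∧ Sh k ((h : ℝ) ^ j) z := ⟨w, hz⟩
    obtain ⟨z, hz0, hzs⟩ := Nat.find_spec hex
    obtain ⟨P, hP1, hP2, hP3⟩ := shp_of_sh k hn hsym hzs hz0
    refine ⟨Nat.find hex, Nat.find_min' hex hz, P, hP1, hP2, hP1.deg, K, hK1, hK2, hK3, z, y, hP3,
      hy, hsym.1, hthin, ?_⟩
    intro z' hz'
    by_contra hne
    rcases Nat.eq_zero_or_pos (Nat.find hex) with h0 | hpos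
    · rw [h0, pow_zero] at hz'
      refine hne (sh_small k ?_ hz')
      rw [div_lt_one hh0]
      linarith
    · have h1 : (h : ℝ) ^ (Nat.find hex) / h = (h : ℝ) ^ (Nat.find hex - 1) := by
        rw [div_eq_iff hh0.ne', ← pow_succ]
        congr 1
        omega
      rw [h1] at hz'
      have := Nat.find_min' hex ⟨z', hne, hz'⟩
      omega
  have hfib : ∀ j ≤ w, ∀ P : (𝓞 k)[X],
      ((T.filter fun f => Good f j P).card : ℝ) ≤
        (C1 * C0) ^ (δ * r) * (h : ℝ) ^ (δ * ((b - j + 1) * r)) := by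
    intro j hj P
    rcases (T.filter fun f => Good f j P).eq_empty_or_nonempty with he | ⟨f0, hf0⟩
    · rw [he, Finset.card_empty, Nat.cast_zero]
      positivity
    · obtain ⟨hP1, hP2, K, hK1, hK2, hK3, x, y, hx, hy, hfr, hthin, hsm⟩ :=
        (Finset.mem_filter.1 hf0).2
      have hle : (h : ℝ) ^ j / h ≤ C0 * (h : ℝ) ^ b := by
        rw [div_le_iff₀ hh0]
        have h1 : (h : ℝ) ^ j ≤ (h : ℝ) ^ b := pow_le_pow_right₀ hh1' (hj.trans hwb)
        have h2 : (0 : ℝ) < (h : ℝ) ^ b := by positivity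
        calc (h : ℝ) ^ j ≤ (h : ℝ) ^ b := h1
          _ ≤ C0 * (h : ℝ) ^ b := le_mul_of_one_le_left h2.le hC0
          _ ≤ C0 * (h : ℝ) ^ b * h := le_mul_of_one_le_right (by positivity) hh1'
      have h3 := hmult K hfr (C0 * (h : ℝ) ^ b) ((h : ℝ) ^ j / h) a (by positivity) hle hthin hsm
        (T.filter fun f => Good f j P) (by
          intro g hg
          obtain ⟨hgT, -, -, K', hK1', hK2', hK3', x', y', hx', hy', hfr', -, -⟩ :=
            Finset.mem_filter.1 hg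
          exact ⟨(hT g hgT).1, root_in k hP2 hP1 hfr hfr' hx hx' hy'⟩)
      refine h3.trans (le_of_eq ?_)
      have h4 : C1 * (C0 * (h : ℝ) ^ b) / ((h : ℝ) ^ j / h) = C1 * C0 * (h : ℝ) ^ (b - j + 1) := by
        have h5 : (h : ℝ) ^ b * h = (h : ℝ) ^ (b - j + 1) * (h : ℝ) ^ j := by
          rw [← pow_succ, ← pow_add]
          congr 1
          omega
        rw [div_div_eq_mul_div, div_eq_iff (by positivity)]
        calc C1 * (C0 * (h : ℝ) ^ b) * h = C1 * C0 * ((h : ℝ) ^ b * h) := by ring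
          _ = _ := by rw [h5]; ring
      rw [h4, mul_pow, ← pow_mul]
      congr 2
      ring
  have hLj : ∀ j : ℕ, (1 : ℝ) ≤ (h : ℝ) ^ j := fun j => one_le_pow₀ hh1'
  have hsub : T ⊆ (Finset.range (w + 1)).biUnion fun j =>
      ((hshp _ (hLj j)).1.toFinset).biUnion fun P => T.filter fun f => Good f j P := by
    intro f hf
    obtain ⟨j, hj, P, hP, hg⟩ := hgood f hf
    rw [Finset.mem_biUnion]
    refine ⟨j, Finset.mem_range.2 (Nat.lt_succ_of_le hj), ?_⟩
    rw [Finset.mem_biUnion]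
    exact ⟨P, (Set.Finite.mem_toFinset _).2 hP, Finset.mem_filter.2 ⟨hf, hg⟩⟩
  have hcard : (T.card : ℝ) ≤ ∑ j ∈ Finset.range (w + 1),
      ∑ P ∈ (hshp _ (hLj j)).1.toFinset, ((T.filter fun f => Good f j P).card : ℝ) := by
    have h1 := (Finset.card_le_card hsub).trans (Finset.card_biUnion_le.trans
      (Finset.sum_le_sum fun j _ => Finset.card_biUnion_le))
    exact_mod_cast h1
  have hj : ∀ j ∈ Finset.range (w + 1),
      ∑ P ∈ (hshp _ (hLj j)).1.toFinset, ((T.filter fun f => Good f j P).card : ℝ) ≤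
        C2 * (C1 * C0) ^ (δ * r) * (h : ℝ) ^ (δ * (w * W + (b - w + 1) * r)) := by
    intro j hjr
    have hjw : j ≤ w := Nat.lt_succ_iff.1 (Finset.mem_range.1 hjr)
    have h1 : ∑ P ∈ (hshp _ (hLj j)).1.toFinset, ((T.filter fun f => Good f j P).card : ℝ) ≤
        ∑ _P ∈ (hshp _ (hLj j)).1.toFinset,
          (C1 * C0) ^ (δ * r) * (h : ℝ) ^ (δ * ((b - j + 1) * r)) :=
      Finset.sum_le_sum fun P _ => hfib j hjw P
    rw [Finset.sum_const, nsmul_eq_mul, ← Set.ncard_eq_toFinset_card _ (hshp _ (hLj j)).1] at h1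
    have h2 := (hshp _ (hLj j)).2
    have h3 : (0 : ℝ) ≤ (C1 * C0) ^ (δ * r) * (h : ℝ) ^ (δ * ((b - j + 1) * r)) := by positivity
    refine h1.trans ((mul_le_mul_of_nonneg_right h2 h3).trans ?_)
    rw [← pow_mul]
    have h4 : C2 * (h : ℝ) ^ (j * (δ * W)) *
        ((C1 * C0) ^ (δ * r) * (h : ℝ) ^ (δ * ((b - j + 1) * r))) =
        C2 * (C1 * C0) ^ (δ * r) * (h : ℝ) ^ (δ * (j * W + (b - j + 1) * r)) := by
      rw [mul_add δ, pow_add, mul_left_comm j δ W]
      ring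
    rw [h4]
    refine mul_le_mul_of_nonneg_left (pow_le_pow_right₀ hh1' (Nat.mul_le_mul_left δ ?_))
      (by positivity)
    obtain ⟨d, rfl⟩ := Nat.exists_eq_add_of_le hjw
    have h5 : b - j + 1 = (b - (j + d) + 1) + d := by omega
    rw [h5]
    have h6 : d * r ≤ d * W := Nat.mul_le_mul_left d hr
    nlinarith
  refine hcard.trans ((Finset.sum_le_sum hj).trans (le_of_eq ?_))
  rw [Finset.sum_const, Finset.card_range, nsmul_eq_mul]
  push_cast
  ring

end

end Pool.Agent.H98.TQ
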