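import Pool.Agent.H98.TQ.Mult
import Pool.Agent.H98.TQ.Low

/-!
# Project TQ (MP_a3214d): row TQ-29

Few members of the family belong to a field without small elements.
-/

set_option autoImplicit false

open Polynomial IsDedekindDomain NumberField Pool.Agent.H35.AN

namespace Pool.Agent.H98.TQ

section

variable (k : Type) [Field k] [NumberField k]

theorem high_mult (n r : ℕ) (hn : 2 ≤ n) (C0 : ℝ) (hC0 : 1 ≤ C0) :
    ∃ C : ℝ, 1 ≤ C ∧ ∀ (h b w : ℕ) (a : 𝓞 k), 1 ≤ h → w ≤ b → ∀ f : (𝓞 k)[X],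
      f.natDegree = n → Irreducible (FK f) →
      (∃ (K : Type) (_ : Field K) (_ : NumberField K) (_ : Algebra k K) (y : K),
        aeval y (FK f) = 0 ∧ SymK k n K ∧ Thin k r (2 * n * (C0 * (h : ℝ) ^ b)) K ∧
        ∀ z : K, Sh k ((h : ℝ) ^ w) z → z = 0) →
      ∀ G : Finset (𝓞 k)[X], (∀ g ∈ G, Mb n (C0 * (h : ℝ) ^ b) a g ∧ Iso n f g) →
        (G.card : ℝ) ≤ C * (h : ℝ) ^ (Module.finrank ℚ k * ((b - w) * r)) := by
  obtain ⟨C, hC1, hC⟩ := mult_bound k n r hn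
  refine ⟨(C * C0) ^ (Module.finrank ℚ k * r),
    one_le_pow₀ (one_le_mul_of_one_le_of_one_le hC1 hC0), ?_⟩
  intro h b w a hh hwb f hfn hfi hK G hG
  obtain ⟨K, iF, iN, iA, y, hy, hS, hT, hz⟩ := hK
  have hhR : (1 : ℝ) ≤ h := by exact_mod_cast hh
  have h0 : (0 : ℝ) < h := by linarith
  have hρ : (0 : ℝ) < (h : ℝ) ^ w := by positivity
  have hρR : (h : ℝ) ^ w ≤ C0 * (h : ℝ) ^ b := by
    have h1 : (h : ℝ) ^ w ≤ (h : ℝ) ^ b := pow_le_pow_right₀ hhR hwb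
    have h2 : (0 : ℝ) ≤ (h : ℝ) ^ b := by positivity
    nlinarith
  have h1 := hC K hS.1 (C0 * (h : ℝ) ^ b) ((h : ℝ) ^ w) a hρ hρR hT hz G (by
    intro g hg
    obtain ⟨hMb, K', iF', iN', iA', x', y', hK'n, hx', hy'⟩ := hG g hg
    exact ⟨hMb, root_in k hfn hfi hS.1 hK'n hy hx' hy'⟩)
  have h2 : C * (C0 * (h : ℝ) ^ b) / (h : ℝ) ^ w = C * C0 * (h : ℝ) ^ (b - w) := by
    rw [div_eq_iff hρ.ne', mul_assoc (C * C0), ← pow_add, Nat.sub_add_cancel hwb]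
    ring
  rw [h2, mul_pow, ← pow_mul] at h1
  have h3 : (b - w) * (Module.finrank ℚ k * r) = Module.finrank ℚ k * ((b - w) * r) := by ring
  rw [h3] at h1
  exact h1

end

end Pool.Agent.H98.TQ
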