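import Pool.Agent.H98.TQ.Defs

/-!
# Project TQ, row 9: the discriminant of a relative integral family
-/

set_option autoImplicit false

open Polynomial IsDedekindDomain NumberField Pool.Agent.H35.AN
open Pool.Agent.H67.MU (Bdd)
open Pool.Agent.H92.SQ2 (gg WW DD mu ee)

namespace Pool.Agent.H98.TQ

/-- the discriminant of a family of integers is a nonzero square times the discriminant -/
theorem tq9_family {K : Type} [Field K] [NumberField K] {ι : Type} [Fintype ι] [DecidableEq ι]
    (hn : Module.finrank ℚ K = Fintype.card ι) (ω : ι → K) (hω : ∀ j, IsIntegral ℤ (ω j))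
    (hli : LinearIndependent ℚ ω) :
    |(NumberField.discr K : ℝ)| ≤ |((Algebra.discr ℚ ω : ℚ) : ℝ)| := by
  classical
  have hcard : Fintype.card (Module.Free.ChooseBasisIndex ℤ (𝓞 K)) = Fintype.card ι := by
    rw [← hn, Module.finrank_eq_card_basis (integralBasis K)]
  let e : Module.Free.ChooseBasisIndex ℤ (𝓞 K) ≃ ι := Fintype.equivOfCardEq hcard
  let b : Module.Basis ι ℚ K := (integralBasis K).reindex e
  have hint : ∀ j i, ∃ m : ℤ, b.repr (ω j) i = (m : ℚ) := by
    intro j i
    refine ⟨(RingOfIntegers.basis K).repr (⟨ω j, hω j⟩ : 𝓞 K) (e.symm i), ?_⟩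
    have := integralBasis_repr_apply K (⟨ω j, hω j⟩ : 𝓞 K) (e.symm i)
    simpa [b] using this
  choose m hm using hint
  let P : Matrix ι ι ℤ := Matrix.of fun i j => m j i
  have hP : ω = Matrix.vecMul (b : ι → K) ((P.map (Int.castRingHom ℚ)).map (algebraMap ℚ K)) := by
    funext j
    have h1 : ω j = ∑ i, b.repr (ω j) i • b i := (b.sum_repr (ω j)).symm
    rw [h1]
    simp only [Matrix.vecMul, dotProduct, Matrix.map_apply, P, Matrix.of_apply]
    refine Finset.sum_congr rfl fun i _ => ?_
    rw [hm j i, Algebra.smul_def, mul_comm]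
    rfl
  have hdisc : Algebra.discr ℚ ω = ((P.det : ℤ) : ℚ) ^ 2 * (NumberField.discr K : ℚ) := by
    rw [hP, Algebra.discr_of_matrix_vecMul]
    congr 1
    · congr 1
      exact ((Int.castRingHom ℚ).map_det P).symm
    · rw [coe_discr]
      have h5 := Algebra.discr_reindex ℚ (integralBasis K) e
      rwa [← Module.Basis.coe_reindex] at h5
  have hne : Algebra.discr ℚ ω ≠ 0 := by
    have : Nonempty ι := by
      rw [← Fintype.card_pos_iff, ← hn]
      exact Module.finrank_pos
    have h1 := Algebra.discr_not_zero_of_basis ℚ (basisOfLinearIndependentOfCardEqFinrank hli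
      (by rw [hn]))
    rwa [coe_basisOfLinearIndependentOfCardEqFinrank] at h1
  have hdet : P.det ≠ 0 := by
    intro h
    rw [hdisc, h] at hne
    simp at hne
  have hdet1 : (1 : ℝ) ≤ ((P.det : ℤ) : ℝ) ^ 2 := by
    have : (1 : ℤ) ≤ P.det ^ 2 := by
      have h0 : 0 < P.det ^ 2 := by positivity
      omega
    exact_mod_cast this
  have h3 : |((Algebra.discr ℚ ω : ℚ) : ℝ)| = ((P.det : ℤ) : ℝ) ^ 2 * |(NumberField.discr K : ℝ)| := by
    rw [hdisc]
    rw [Rat.cast_mul, Rat.cast_pow, Rat.cast_intCast, Rat.cast_intCast, abs_mul,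
      abs_of_nonneg (sq_nonneg _)]
  rw [h3]
  nlinarith [abs_nonneg (NumberField.discr K : ℝ)]

/-- the discriminant of a product family in a tower -/
theorem tq9_tower {k K : Type} [Field k] [NumberField k] [Field K] [NumberField K] [Algebra k K]
    {n : ℕ} {ι : Type} [Fintype ι] [DecidableEq ι] (β : Module.Basis ι ℚ k) (ω : Fin n → K) :
    Algebra.discr ℚ (fun p : Fin n × ι => β p.2 • ω p.1) =
      Algebra.discr ℚ β ^ n * Algebra.norm ℚ (Algebra.discr k ω) := by
  classical
  have : FiniteDimensional k K := Module.Finite.of_restrictScalars_finite ℚ k K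
  set M : Matrix (Fin n) (Fin n) k := Algebra.traceMatrix k ω with hM
  set f : k →+* Matrix ι ι ℚ := (Algebra.leftMulMatrix β : k →ₐ[ℚ] Matrix ι ι ℚ).toRingHom with hf
  have h1 : Algebra.traceMatrix ℚ (fun p : Fin n × ι => β p.2 • ω p.1) =
      (Matrix.kroneckerMap (fun a b => a * b) (1 : Matrix (Fin n) (Fin n) ℚ)
        (Algebra.traceMatrix ℚ β)) * (Matrix.comp (Fin n) (Fin n) ι ι ℚ (M.map f)) := by
    ext ⟨j, i⟩ ⟨j', i'⟩
    rw [Matrix.mul_apply, Fintype.sum_prod_type]
    have h2 : ∀ x : Fin n, ∑ y : ι, Matrix.kroneckerMap (fun a b => a * b)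
        (1 : Matrix (Fin n) (Fin n) ℚ) (Algebra.traceMatrix ℚ β) (j, i) (x, y) *
        Matrix.comp (Fin n) (Fin n) ι ι ℚ (M.map f) (x, y) (j', i') =
        if j = x then ∑ y : ι, Algebra.traceMatrix ℚ β i y * f (M x j') y i' else 0 := by
      intro x
      split_ifs with hx
      · subst hx
        refine Finset.sum_congr rfl fun y _ => ?_
        rw [Matrix.kroneckerMap_apply, Matrix.one_apply_eq, one_mul]
        rfl
      · refine Finset.sum_eq_zero fun y _ => ?_
        rw [Matrix.kroneckerMap_apply, Matrix.one_apply_ne hx, zero_mul, zero_mul]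
    rw [Finset.sum_congr rfl fun x _ => h2 x, Finset.sum_ite_eq]
    simp only [Finset.mem_univ, if_true]
    have h3 : ∑ y : ι, Algebra.traceMatrix ℚ β i y * f (M j j') y i' =
        Algebra.trace ℚ k (β i * (M j j' * β i')) := by
      have h4 : M j j' * β i' = ∑ y, (f (M j j') y i') • β y := by
        rw [← β.sum_repr (M j j' * β i')]
        refine Finset.sum_congr rfl fun y _ => ?_
        rw [hf]
        change _ = (Algebra.leftMulMatrix β (M j j')) y i' • β y
        rw [Algebra.leftMulMatrix_eq_repr_mul]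
      rw [h4, Finset.mul_sum, map_sum]
      refine Finset.sum_congr rfl fun y _ => ?_
      rw [Algebra.traceMatrix_apply, Algebra.traceForm_apply, mul_smul_comm, map_smul,
        smul_eq_mul, mul_comm]
    rw [h3, Algebra.traceMatrix_apply, Algebra.traceForm_apply, hM, Algebra.traceMatrix_apply,
      Algebra.traceForm_apply]
    have h5 : (β i • ω j) * (β i' • ω j') = (β i * β i') • (ω j * ω j') := by
      rw [smul_mul_smul_comm]
    have h6 : Algebra.trace ℚ K ((β i * β i') • (ω j * ω j')) =
        Algebra.trace ℚ k (Algebra.trace k K ((β i * β i') • (ω j * ω j'))) :=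
      (Algebra.trace_trace (S := k) _).symm
    simp only
    rw [h5, h6, map_smul, smul_eq_mul]
    congr 1
    ring
  rw [Algebra.discr_def, h1, Matrix.det_mul]
  have h7 : (Matrix.kroneckerMap (fun a b => a * b) (1 : Matrix (Fin n) (Fin n) ℚ)
        (Algebra.traceMatrix ℚ β)).det = Algebra.discr ℚ β ^ n := by
    have h8 := Matrix.det_kronecker (1 : Matrix (Fin n) (Fin n) ℚ) (Algebra.traceMatrix ℚ β)
    rw [Matrix.det_one, one_pow, one_mul, Fintype.card_fin] at h8
    exact h8
  rw [h7]
  congr 1
  have h9 := Matrix.det_det (m := Fin n) (n := ι) (M := M) f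
  rw [← h9, Algebra.norm_eq_matrix_det β, Algebra.discr_def]
  rfl

section

variable (k : Type) [Field k] [NumberField k]

theorem discr_le_norm (n : ℕ) (K : Type) [Field K] [NumberField K] [Algebra k K]
    (hK : Module.finrank k K = n) (ω : Fin n → K) (hω : ∀ j, IsIntegral ℤ (ω j))
    (hli : LinearIndependent k ω) :
    |(NumberField.discr K : ℝ)| ≤ |(NumberField.discr k : ℝ)| ^ n *
      |((Algebra.norm ℚ (Algebra.discr k ω) : ℚ) : ℝ)| := by
  classical
  have : FiniteDimensional k K := Module.Finite.of_restrictScalars_finite ℚ k K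
  let ι := Module.Free.ChooseBasisIndex ℤ (𝓞 k)
  let β : Module.Basis ι ℚ k := integralBasis k
  let W : Fin n × ι → K := fun p => β p.2 • ω p.1
  have hcardι : Fintype.card ι = Module.finrank ℚ k :=
    (Module.finrank_eq_card_basis β).symm
  have hWli : LinearIndependent ℚ W := by
    have h1 := linearIndependent_smul β.linearIndependent hli
    exact h1.comp (fun p : Fin n × ι => (p.2, p.1)) (fun p q h => by
      rw [Prod.mk.injEq] at h
      exact Prod.ext h.2 h.1)
  have hWfin : Module.finrank ℚ K = Fintype.card (Fin n × ι) := by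
    rw [← Module.finrank_mul_finrank ℚ k K, hK, Fintype.card_prod, Fintype.card_fin, hcardι,
      mul_comm]
  have hWint : ∀ p, IsIntegral ℤ (W p) := by
    intro p
    simp only [W]
    rw [Algebra.smul_def]
    refine IsIntegral.mul ?_ (hω _)
    have h1 : IsIntegral ℤ (β p.2) := by
      have : β p.2 = algebraMap (𝓞 k) k (RingOfIntegers.basis k p.2) := integralBasis_apply k p.2
      rw [this]
      exact (RingOfIntegers.basis k p.2).isIntegral_coe
    exact h1.map (IsScalarTower.toAlgHom ℤ k K)
  have h1 := tq9_family hWfin W hWint hWli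
  have h2 : Algebra.discr ℚ W = Algebra.discr ℚ β ^ n * Algebra.norm ℚ (Algebra.discr k ω) :=
    tq9_tower β ω
  have h3 : Algebra.discr ℚ β = (NumberField.discr k : ℚ) := (coe_discr k).symm
  rw [h2, h3] at h1
  refine h1.trans (le_of_eq ?_)
  rw [Rat.cast_mul, Rat.cast_pow, Rat.cast_intCast, abs_mul, abs_pow]

end

end Pool.Agent.H98.TQ
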