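import Pool.Agent.H98.TQ.Defs

/-!
# Project TQ, row TQ-10: `β c(θ)` is integral

Let `a_j` be the Taylor coefficients of `f` at `r` and `y = c(θ)`, so `(θ - r) y = - a_0`.  If
`a_0 ≠ 0`, then `y ^ n = ∑ a_(j+1) (- a_0) ^ j y ^ (n-1-j)`; after multiplication with `β ^ n` the
coefficients are integral.
-/

set_option autoImplicit false

open Polynomial IsDedekindDomain NumberField Pool.Agent.H35.AN
open Pool.Agent.H67.MU (Bdd)
open Pool.Agent.H92.SQ2 (gg WW DD mu ee)

namespace Pool.Agent.H98.TQ

/-- a root of a monic equation with integral coefficients is integral -/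
theorem tq10_int {K : Type} [Field K] {z : K} {n : ℕ} {D : ℕ → K}
    (hD : ∀ j < n, IsIntegral ℤ (D j))
    (h : z ^ n = ∑ j ∈ Finset.range n, D j * z ^ (n - 1 - j)) : IsIntegral ℤ z := by
  rcases n with _ | n
  · simp at h
  let A := integralClosure ℤ K
  let D' : Fin (n + 1) → A := fun j => ⟨D j, hD j j.2⟩
  have hz : IsIntegral A z := by
    refine ⟨X ^ (n + 1) - ∑ j : Fin (n + 1), C (D' j) * X ^ (n - (j : ℕ)), ?_, ?_⟩
    · apply monic_X_pow_sub
      have h1 : (∑ j : Fin (n + 1), C (D' j) * X ^ (n - (j : ℕ))).degree ≤ (n : WithBot ℕ) := by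
        refine (degree_sum_le (Finset.univ)
          (fun j : Fin (n + 1) => C (D' j) * X ^ (n - (j : ℕ)))).trans
          (Finset.sup_le fun j _ => ?_)
        refine (degree_C_mul_X_pow_le _ _).trans ?_
        exact_mod_cast Nat.sub_le n j
      refine h1.trans_lt ?_
      exact_mod_cast Nat.lt_succ_self n
    · rw [eval₂_sub, eval₂_pow, eval₂_X, eval₂_finsetSum, h, Finset.sum_range]
      rw [sub_eq_zero]
      apply Finset.sum_congr rfl
      intro j _
      rw [eval₂_mul, eval₂_C, eval₂_pow, eval₂_X]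
      rfl
  exact isIntegral_trans z hz

section

variable (k : Type) [Field k] [NumberField k]

omit [NumberField k] in
variable {k} in
theorem tq10_sq {m : Ideal (𝓞 k)} {β : k} (hβ : ∀ a ∈ m, IsIntegral ℤ (β * (a : k))) {a : 𝓞 k}
    (ha : a ∈ m ^ 2) : IsIntegral ℤ (β ^ 2 * (a : k)) := by
  rw [pow_two] at ha
  refine Submodule.mul_induction_on ha ?_ ?_
  · intro x hx y hy
    have h := (hβ x hx).mul (hβ y hy)
    have e : β ^ 2 * ((x * y : 𝓞 k) : k) = β * (x : k) * (β * (y : k)) := by
      show β ^ 2 * algebraMap (𝓞 k) k (x * y) =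
        β * algebraMap (𝓞 k) k x * (β * algebraMap (𝓞 k) k y)
      rw [map_mul]
      ring
    rw [e]
    exact h
  · intro x y hx hy
    show IsIntegral ℤ (β ^ 2 * algebraMap (𝓞 k) k (x + y))
    rw [map_add, mul_add]
    exact hx.add hy

variable {k} in
theorem psi_int {K : Type} [Field K] [Algebra k K] {f c : (𝓞 k)[X]} {m : Ideal (𝓞 k)} {r : 𝓞 k}
    (hf : f.Monic) (hc : f - C (f.eval r) = (X - C r) * c) (h0 : f.eval r ∈ m ^ 2)
    (h1 : f.derivative.eval r ∈ m) {β : k} (hβ : ∀ a ∈ m, IsIntegral ℤ (β * (a : k))) {θ : K}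
    (hθ : aeval θ (FK f) = 0) : IsIntegral ℤ (algebraMap k K β * aeval θ (FK c)) := by
  set φ : 𝓞 k →+* K := (algebraMap k K).comp (algebraMap (𝓞 k) k) with hφ
  have hFK : ∀ g : (𝓞 k)[X], aeval θ (FK g) = g.eval₂ φ θ := by
    intro g
    unfold FK
    rw [aeval_def, eval₂_map]
  have hinj : Function.Injective φ := by
    rw [hφ, RingHom.coe_comp]
    exact (algebraMap k K).injective.comp (RingOfIntegers.coe_injective)
  have hφi : ∀ x : 𝓞 k, IsIntegral ℤ (φ x) := fun x =>
    map_isIntegral_int φ (RingOfIntegers.isIntegral x)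
  have hint : ∀ x : k, IsIntegral ℤ x → IsIntegral ℤ (algebraMap k K x) := by
    intro x hx
    exact map_isIntegral_int (algebraMap k K) hx
  rw [hFK] at hθ
  rw [hFK]
  set y : K := c.eval₂ φ θ with hy
  set B : K := algebraMap k K β with hB
  have e1 : (θ - φ r) * y = -φ (f.eval r) := by
    have h := congrArg (fun g : (𝓞 k)[X] => g.eval₂ φ θ) hc
    simp only [eval₂_sub, eval₂_mul, eval₂_C, eval₂_X, hθ, zero_sub] at h
    rw [hy, ← h]
  by_cases hz : f.eval r = 0
  · rw [hz, map_zero, neg_zero] at e1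
    rcases mul_eq_zero.mp e1 with h2 | h2
    · have h3 : θ = φ r := sub_eq_zero.mp h2
      have h4 : y = φ (f.derivative.eval r) := by
        rw [hy, h3, eval₂_at_apply]
        congr 1
        have h5 := congrArg derivative hc
        rw [derivative_sub, derivative_C, sub_zero, derivative_mul, derivative_sub, derivative_X,
          derivative_C, sub_zero, one_mul] at h5
        rw [h5]
        simp
      rw [h4]
      have h6 := hint _ (hβ _ h1)
      rw [map_mul] at h6
      exact h6
    · rw [h2, mul_zero]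
      exact isIntegral_zero
  · have ha0 : φ (f.eval r) ≠ 0 := by
      intro h
      exact hz (hinj (by rw [h, map_zero]))
    set a0 : K := φ (f.eval r) with ha0'
    set n := f.natDegree with hn
    set g : (𝓞 k)[X] := taylor r f with hg
    have hgn : g.natDegree = n := natDegree_taylor f r
    have hroot : ∑ j ∈ Finset.range (n + 1), φ (g.coeff j) * (θ - φ r) ^ j = 0 := by
      rw [← hgn, ← eval₂_eq_sum_range, hg, taylor_apply, eval₂_comp]
      simp only [eval₂_add, eval₂_X, eval₂_C, sub_add_cancel]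
      exact hθ
    have hg0 : φ (g.coeff 0) = a0 := by
      rw [hg, taylor_coeff_zero]
    have hy0 : y ≠ 0 := by
      intro h
      rw [h, mul_zero] at e1
      exact ha0 (neg_eq_zero.mp e1.symm)
    have e2 : a0 * (y ^ n - ∑ j ∈ Finset.range n,
        φ (g.coeff (j + 1)) * (-a0) ^ j * y ^ (n - 1 - j)) = 0 := by
      have h3 : y ^ n * ∑ j ∈ Finset.range (n + 1), φ (g.coeff j) * (θ - φ r) ^ j = 0 := by
        rw [hroot, mul_zero]
      rw [Finset.sum_range_succ', mul_add, pow_zero, mul_one, hg0, Finset.mul_sum] at h3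
      rw [mul_sub, Finset.mul_sum, ← h3]
      have h4 : ∀ j ∈ Finset.range n, y ^ n * (φ (g.coeff (j + 1)) * (θ - φ r) ^ (j + 1)) =
          -(a0 * (φ (g.coeff (j + 1)) * (-a0) ^ j * y ^ (n - 1 - j))) := by
        intro j hj
        have hj' := Finset.mem_range.mp hj
        have h5 : y ^ n = y ^ (n - 1 - j) * y ^ (j + 1) := by
          rw [← pow_add]
          congr 1
          omega
        have h6 : (θ - φ r) ^ (j + 1) * y ^ (j + 1) = (-a0) ^ (j + 1) := by
          rw [← mul_pow, e1]
        calc y ^ n * (φ (g.coeff (j + 1)) * (θ - φ r) ^ (j + 1))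
            = φ (g.coeff (j + 1)) * y ^ (n - 1 - j) *
                ((θ - φ r) ^ (j + 1) * y ^ (j + 1)) := by
              rw [h5]
              ring
          _ = _ := by
              rw [h6]
              ring
      rw [Finset.sum_congr rfl h4, Finset.sum_neg_distrib]
      ring
    have e3 : y ^ n = ∑ j ∈ Finset.range n,
        φ (g.coeff (j + 1)) * (-a0) ^ j * y ^ (n - 1 - j) := by
      rcases mul_eq_zero.mp e2 with h | h
      · exact absurd h ha0
      · exact sub_eq_zero.mp h
    refine tq10_int (n := n) (D := fun j => B ^ (j + 1) * (φ (g.coeff (j + 1)) * (-a0) ^ j))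
      ?_ ?_
    · intro j _
      rcases j with _ | j
      · have h5 : B ^ (0 + 1) * (φ (g.coeff (0 + 1)) * (-a0) ^ 0) =
            algebraMap k K (β * ((f.derivative.eval r : 𝓞 k) : k)) := by
          rw [map_mul, hg, zero_add, taylor_coeff_one, pow_zero, mul_one, pow_one]
          rfl
        show IsIntegral ℤ (B ^ (0 + 1) * (φ (g.coeff (0 + 1)) * (-a0) ^ 0))
        rw [h5]
        exact hint _ (hβ _ h1)
      · have h5 : B ^ (j + 1 + 1) * (φ (g.coeff (j + 1 + 1)) * (-a0) ^ (j + 1)) =
            (-1) ^ (j + 1) * (φ (g.coeff (j + 1 + 1)) *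
              (algebraMap k K (β ^ 2 * ((f.eval r : 𝓞 k) : k)) *
                algebraMap k K (β * ((f.eval r : 𝓞 k) : k)) ^ j)) := by
          have h6 : a0 = algebraMap k K ((f.eval r : 𝓞 k) : k) := rfl
          rw [map_mul, map_mul, map_pow, ← h6, ← hB]
          rw [neg_pow a0]
          ring
        show IsIntegral ℤ (B ^ (j + 1 + 1) * (φ (g.coeff (j + 1 + 1)) * (-a0) ^ (j + 1)))
        rw [h5]
        refine IsIntegral.mul ?_ ((hφi _).mul ((hint _ (tq10_sq hβ h0)).mul
          ((hint _ (hβ _ (Ideal.pow_le_self two_ne_zero h0))).pow j)))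
        exact (isIntegral_one.neg).pow _
    · rw [mul_pow, e3, Finset.mul_sum]
      apply Finset.sum_congr rfl
      intro j hj
      have hj' := Finset.mem_range.mp hj
      have h5 : B ^ n = B ^ (j + 1) * B ^ (n - 1 - j) := by
        rw [← pow_add]
        congr 1
        omega
      rw [h5, mul_pow]
      ring

end

end Pool.Agent.H98.TQ
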