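import Pool.Agent.H98.TQ.Defs
import Pool.Agent.H35.AN.DiscLe
import Pool.Agent.H98.TQ.DiscRel
import Pool.Agent.H98.TQ.Psi

/-!
# Project TQ, row TQ-11: the discriminant bound for a polynomial with a double root modulo `m`

Let `f - f(r) = (X - r) c` and `β ∈ m⁻¹` nonzero of norm at most `C / N(m)` (Minkowski).  The family
`1, θ, …, θ^(n-2), β c(θ)` is integral, and its relative discriminant is `β²` times the one of
`1, θ, …, θ^(n-1)`.
-/

set_option autoImplicit false

open Polynomial IsDedekindDomain NumberField Pool.Agent.H35.AN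
open Pool.Agent.H67.MU (Bdd)
open Pool.Agent.H92.SQ2 (gg WW DD mu ee)

namespace Pool.Agent.H98.TQ

section

variable (k : Type) [Field k] [NumberField k]

open Module Matrix in
/-- a nonzero element of the inverse of an ideal of small norm -/
theorem tq11_beta : ∃ C : ℝ, 0 < C ∧ ∀ m : Ideal (𝓞 k), m ≠ ⊥ → ∃ β : k, β ≠ 0 ∧
    (∀ a ∈ m, IsIntegral ℤ (β * (a : k))) ∧
    |((Algebra.norm ℚ β : ℚ) : ℝ)| * (Ideal.absNorm m : ℝ) ≤ C := by
  classical
  let M : ℝ := (4 / Real.pi) ^ InfinitePlace.nrComplexPlaces k *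
    ((finrank ℚ k).factorial : ℝ) / ((finrank ℚ k : ℕ) : ℝ) ^ (finrank ℚ k) *
      Real.sqrt |(NumberField.discr k : ℝ)|
  have hM : 0 < M := by
    have h1 : 0 < |(NumberField.discr k : ℝ)| := by
      rw [abs_pos]
      exact_mod_cast NumberField.discr_ne_zero k
    have h2 : (0 : ℝ) < ((finrank ℚ k : ℕ) : ℝ) := by exact_mod_cast finrank_pos
    have h3 := Real.pi_pos
    have h4 := Real.sqrt_pos.2 h1
    have h5 : (0 : ℝ) < ((finrank ℚ k).factorial : ℝ) := by
      exact_mod_cast Nat.factorial_pos _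
    positivity
  refine ⟨M, hM, ?_⟩
  intro m hm
  let J : (nonZeroDivisors (Ideal (𝓞 k))) := ⟨m, mem_nonZeroDivisors_iff_ne_zero.mpr hm⟩
  obtain ⟨β, hβ, hβ0, hN⟩ :=
    exists_ne_zero_mem_ideal_of_norm_le_mul_sqrt_discr k (FractionalIdeal.mk0 k J)⁻¹
  have hmk : ((FractionalIdeal.mk0 k J : (FractionalIdeal (nonZeroDivisors (𝓞 k)) k)ˣ) :
      FractionalIdeal (nonZeroDivisors (𝓞 k)) k) = (m : FractionalIdeal (nonZeroDivisors (𝓞 k)) k) :=
    FractionalIdeal.coe_mk0 (K := k) J
  rw [Units.val_inv_eq_inv_val, hmk] at hβ hN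
  have hm0 : (m : FractionalIdeal (nonZeroDivisors (𝓞 k)) k) ≠ 0 := by
    rw [Ne, FractionalIdeal.coeIdeal_eq_zero]
    exact hm
  have hNm : (0 : ℝ) < (Ideal.absNorm m : ℝ) := by
    have : Ideal.absNorm m ≠ 0 := by
      rw [Ne, Ideal.absNorm_eq_zero_iff]
      exact hm
    exact_mod_cast Nat.pos_of_ne_zero this
  refine ⟨β, hβ0, ?_, ?_⟩
  · intro a ha
    rw [FractionalIdeal.mem_inv_iff hm0] at hβ
    have h1 := hβ (algebraMap (𝓞 k) k a) (FractionalIdeal.mem_coeIdeal_of_mem _ ha)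
    rw [FractionalIdeal.mem_one_iff] at h1
    obtain ⟨y, hy⟩ := h1
    have h2 : β * (a : k) = (y : k) := hy.symm
    rw [h2]
    exact y.isIntegral_coe
  · rw [map_inv₀, FractionalIdeal.coeIdeal_absNorm] at hN
    have h1 : |((Algebra.norm ℚ β : ℚ) : ℝ)| ≤ (Ideal.absNorm m : ℝ)⁻¹ * M := by
      refine (le_of_eq ?_).trans (hN.trans (le_of_eq ?_))
      · push_cast
        rfl
      · simp only [M]
        push_cast
        ring
    calc |((Algebra.norm ℚ β : ℚ) : ℝ)| * (Ideal.absNorm m : ℝ)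
        ≤ ((Ideal.absNorm m : ℝ)⁻¹ * M) * (Ideal.absNorm m : ℝ) :=
          mul_le_mul_of_nonneg_right h1 hNm.le
      _ = M := by
          field_simp

/-- the size of the norm of the relative discriminant of a family -/
theorem tq11_norm {n : ℕ} {K : Type} [Field K] [NumberField K] [Algebra k K]
    (hK : Module.finrank k K = n) (τ : Fin n → K) (B : Fin n → ℝ)
    (hB : ∀ (φ : K →+* ℂ) (j : Fin n), ‖φ (τ j)‖ ≤ B j) :
    |((Algebra.norm ℚ (Algebra.discr k τ) : ℚ) : ℝ)| ≤
      (((n.factorial : ℝ) * ∏ j, B j) ^ 2) ^ Module.finrank ℚ k := by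
  classical
  have hfd : FiniteDimensional k K := Module.Finite.of_restrictScalars_finite ℚ k K
  have h1 : |((Algebra.norm ℚ (Algebra.discr k τ) : ℚ) : ℝ)| =
      ∏ σ : k →ₐ[ℚ] ℂ, ‖σ (Algebra.discr k τ)‖ := by
    have h2 := Algebra.norm_eq_prod_embeddings ℚ ℂ (Algebra.discr k τ)
    have h3 : algebraMap ℚ ℂ (Algebra.norm ℚ (Algebra.discr k τ)) =
        (((Algebra.norm ℚ (Algebra.discr k τ) : ℚ) : ℝ) : ℂ) := by simp
    rw [h3] at h2
    rw [← norm_prod, ← h2, Complex.norm_real, Real.norm_eq_abs]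
  have hone : ∀ σ : k →ₐ[ℚ] ℂ, ‖σ (Algebra.discr k τ)‖ ≤ ((n.factorial : ℝ) * ∏ j, B j) ^ 2 := by
    intro σ
    let _ : Algebra k ℂ := σ.toRingHom.toAlgebra
    have hcard2 : Fintype.card (Fin n) = Fintype.card (K →ₐ[k] ℂ) := by
      rw [AlgHom.card, hK, Fintype.card_fin]
    let e2 : Fin n ≃ (K →ₐ[k] ℂ) := Fintype.equivOfCardEq hcard2
    have hE := Algebra.discr_eq_det_embeddingsMatrixReindex_pow_two k ℂ τ e2
    have h4 : algebraMap k ℂ (Algebra.discr k τ) = σ (Algebra.discr k τ) := rfl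
    rw [h4] at hE
    rw [hE, norm_pow]
    refine pow_le_pow_left₀ (norm_nonneg _) ?_ 2
    have h5 := an20_norm_det_le (Algebra.embeddingsMatrixReindex k ℂ τ e2) B fun i j =>
      hB (e2 j : K →+* ℂ) i
    rwa [Fintype.card_fin] at h5
  rw [h1]
  calc ∏ σ : k →ₐ[ℚ] ℂ, ‖σ (Algebra.discr k τ)‖
      ≤ ∏ _σ : k →ₐ[ℚ] ℂ, ((n.factorial : ℝ) * ∏ j, B j) ^ 2 :=
        Finset.prod_le_prod (fun σ _ => norm_nonneg _) fun σ _ => hone σ
    _ = _ := by
        rw [Finset.prod_const, Finset.card_univ, AlgHom.card]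

omit [NumberField k] in
/-- replacing one member of a family -/
theorem tq11_update {ι : Type} [Fintype ι] [DecidableEq ι] {K : Type} [Field K] [Algebra k K]
    (τ : ι → K) (i : ι) (x : K) (c : ι → k) (h : x = ∑ j, τ j * algebraMap k K (c j)) :
    Algebra.discr k (Function.update τ i x) = (c i) ^ 2 * Algebra.discr k τ := by
  have hdet : ((1 : Matrix ι ι k).updateCol i c).det = c i := by
    rw [← Matrix.cramer_apply, Matrix.cramer_one]
    rfl
  have hτ : Function.update τ i x = Matrix.vecMul τ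
      (((1 : Matrix ι ι k).updateCol i c).map (algebraMap k K)) := by
    funext l
    simp only [Matrix.vecMul, dotProduct, Matrix.map_apply]
    by_cases hl : l = i
    · subst hl
      rw [Function.update_self, h]
      refine Finset.sum_congr rfl fun j _ => ?_
      rw [Matrix.updateCol_self]
    · rw [Function.update_of_ne hl, Finset.sum_eq_single l]
      · rw [Matrix.updateCol_ne hl, Matrix.one_apply_eq, map_one, mul_one]
      · intro j _ hj
        rw [Matrix.updateCol_ne hl, Matrix.one_apply_ne hj, map_zero, mul_zero]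
      · intro h
        exact absurd (Finset.mem_univ l) h
  rw [hτ, Algebra.discr_of_matrix_vecMul, hdet]

variable {k} in
/-- the powers of a root of an irreducible polynomial are independent -/
theorem tq11_li {n : ℕ} {K : Type} [Field K] [Algebra k K] {f : (𝓞 k)[X]} {θ : K}
    (hdeg : f.natDegree = n) (hm : f.Monic) (hirr : Irreducible (FK f))
    (hθ : aeval θ (FK f) = 0) : LinearIndependent k (fun j : Fin n => θ ^ (j : ℕ)) := by
  have hFm : (FK f).Monic := by
    rw [FK]
    exact hm.map _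
  have hFd : (FK f).natDegree = n := by
    rw [FK, hm.natDegree_map, hdeg]
  have hmin : minpoly k θ = FK f := (minpoly.eq_of_irreducible_of_monic hirr hθ hFm).symm
  have h1 := linearIndependent_pow (K := k) θ
  rw [hmin, hFd] at h1
  exact h1

theorem disc_bound2 (n : ℕ) (hn : 2 ≤ n) : ∃ C : ℝ, 0 < C ∧ ∀ (K : Type) [Field K]
    [NumberField K] [Algebra k K] (f : (𝓞 k)[X]) (θ : K) (R : ℝ) (m : Ideal (𝓞 k)) (r : 𝓞 k),
    f.natDegree = n → f.Monic → Module.finrank k K = n → Irreducible (FK f) →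
    aeval θ (FK f) = 0 → 1 ≤ R → (∀ φ : K →+* ℂ, ‖φ θ‖ ≤ R) → m ≠ ⊥ → Dbl m r f →
    |(NumberField.discr K : ℝ)| * (Ideal.absNorm m : ℝ) ^ 2 ≤
      C * R ^ (Module.finrank ℚ k * (n * (n - 1))) := by
  classical
  obtain ⟨M, hM0, hM⟩ := tq11_beta k
  have hdk : 0 < |(NumberField.discr k : ℝ)| := by
    rw [abs_pos]
    exact_mod_cast NumberField.discr_ne_zero k
  refine ⟨|(NumberField.discr k : ℝ)| ^ n * M ^ 2 * ((n.factorial : ℝ) ^ 2) ^ Module.finrank ℚ k,
    by positivity, ?_⟩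
  intro K _ _ _ f θ R m r hdeg hmon hfin hirr hθ hR hconj hm hdbl
  obtain ⟨β, hβ0, hβ, hβN⟩ := hM m hm
  obtain ⟨c, hc⟩ : ∃ c : (𝓞 k)[X], f - C (f.eval r) = (X - C r) * c := by
    have h1 : (f - C (f.eval r)).IsRoot r := by
      rw [IsRoot.def, eval_sub, eval_C, sub_self]
    exact dvd_iff_isRoot.2 h1
  -- `c` is monic of degree `n - 1`
  have hfs : (f - C (f.eval r)).Monic := by
    refine hmon.sub_of_left ?_
    refine (degree_C_le).trans_lt ?_
    rw [← natDegree_pos_iff_degree_pos, hdeg]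
    omega
  have hcm : c.Monic := by
    rw [hc] at hfs
    exact (monic_X_sub_C r).of_mul_monic_left hfs
  have hcd : c.natDegree = n - 1 := by
    have h1 : (f - C (f.eval r)).natDegree = n := by
      rw [natDegree_sub_C, hdeg]
    rw [hc, (monic_X_sub_C r).natDegree_mul hcm, natDegree_X_sub_C] at h1
    omega
  -- the family
  let l0 : Fin n := ⟨n - 1, by omega⟩
  let τ : Fin n → K := fun j => θ ^ (j : ℕ)
  let e : Fin n → k := fun j => β * (FK c).coeff (j : ℕ)
  have he : e l0 = β := by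
    simp only [e, l0]
    have h1 : c.coeff (n - 1) = 1 := by
      rw [← hcd]
      exact hcm
    rw [FK, coeff_map, h1, map_one, mul_one]
  have hrel : algebraMap k K β * aeval θ (FK c) = ∑ j, τ j * algebraMap k K (e j) := by
    have h1 : (FK c).natDegree < n := by
      rw [FK, hcm.natDegree_map, hcd]
      omega
    rw [aeval_eq_sum_range' h1, Finset.sum_range, Finset.mul_sum]
    refine Finset.sum_congr rfl fun j _ => ?_
    simp only [τ, e]
    rw [Algebra.smul_def, map_mul]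
    ring
  let ω : Fin n → K := Function.update τ l0 (algebraMap k K β * aeval θ (FK c))
  have hdisc : Algebra.discr k ω = β ^ 2 * Algebra.discr k τ := by
    have h1 := tq11_update k τ l0 _ e hrel
    rwa [he] at h1
  have hfd : FiniteDimensional k K := Module.Finite.of_restrictScalars_finite ℚ k K
  have hτli : LinearIndependent k τ := tq11_li hdeg hmon hirr hθ
  have hcard : Fintype.card (Fin n) = Module.finrank k K := by rw [hfin, Fintype.card_fin]
  have hne : Algebra.discr k τ ≠ 0 := by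
    have : Nonempty (Fin n) := ⟨l0⟩
    have h1 := Algebra.discr_not_zero_of_basis k (basisOfLinearIndependentOfCardEqFinrank hτli
      hcard)
    rwa [coe_basisOfLinearIndependentOfCardEqFinrank] at h1
  have hωli : LinearIndependent k ω := by
    by_contra h
    have h1 := Algebra.discr_zero_of_not_linearIndependent k h
    rw [hdisc] at h1
    rcases mul_eq_zero.1 h1 with h2 | h2
    · exact hβ0 (pow_eq_zero_iff (two_ne_zero) |>.1 h2)
    · exact hne h2
  have hθint : IsIntegral ℤ θ := by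
    have h1 : IsIntegral (𝓞 k) θ := by
      refine ⟨f, hmon, ?_⟩
      rw [FK, aeval_map_algebraMap] at hθ
      exact hθ
    exact isIntegral_trans θ h1
  have hωint : ∀ j, IsIntegral ℤ (ω j) := by
    intro j
    by_cases hj : j = l0
    · subst hj
      simp only [ω]
      rw [Function.update_self]
      exact psi_int hmon hc hdbl.1 hdbl.2 hβ hθ
    · simp only [ω]
      rw [Function.update_of_ne hj]
      exact hθint.pow _
  have hle := discr_le_norm k n K hfin ω hωint hωli
  -- sizes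
  have hB : ∀ (φ : K →+* ℂ) (j : Fin n), ‖φ (τ j)‖ ≤ R ^ (j : ℕ) := by
    intro φ j
    simp only [τ]
    rw [map_pow, norm_pow]
    exact pow_le_pow_left₀ (norm_nonneg _) (hconj φ) _
  have hnorm := tq11_norm k hfin τ (fun j => R ^ (j : ℕ)) hB
  have hprod : (∏ j : Fin n, R ^ (j : ℕ)) ^ 2 = R ^ (n * (n - 1)) := by
    rw [Finset.prod_pow_eq_pow_sum, ← pow_mul, ← Finset.sum_range (fun j => j),
      Finset.sum_range_id_mul_two]
  rw [mul_pow (n.factorial : ℝ), hprod, mul_pow ((n.factorial : ℝ) ^ 2), ← pow_mul R] at hnorm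
  have hcomm : n * (n - 1) * Module.finrank ℚ k = Module.finrank ℚ k * (n * (n - 1)) :=
    Nat.mul_comm _ _
  rw [hcomm] at hnorm
  rw [hdisc, map_mul, map_pow, Rat.cast_mul, Rat.cast_pow, abs_mul, abs_pow] at hle
  set Nβ : ℝ := |((Algebra.norm ℚ β : ℚ) : ℝ)| with hNβ
  set Nm : ℝ := (Ideal.absNorm m : ℝ) with hNm
  set Nτ : ℝ := |((Algebra.norm ℚ (Algebra.discr k τ) : ℚ) : ℝ)| with hNτ
  have hNm0 : 0 ≤ Nm := by positivity
  have hNβ0 : 0 ≤ Nβ := abs_nonneg _
  have hsq : (Nβ * Nm) ^ 2 ≤ M ^ 2 := pow_le_pow_left₀ (mul_nonneg hNβ0 hNm0) hβN 2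
  calc |(NumberField.discr K : ℝ)| * Nm ^ 2
      ≤ (|(NumberField.discr k : ℝ)| ^ n * (Nβ ^ 2 * Nτ)) * Nm ^ 2 :=
        mul_le_mul_of_nonneg_right hle (sq_nonneg _)
    _ = |(NumberField.discr k : ℝ)| ^ n * ((Nβ * Nm) ^ 2 * Nτ) := by ring
    _ ≤ |(NumberField.discr k : ℝ)| ^ n * (M ^ 2 * (((n.factorial : ℝ) ^ 2) ^
          Module.finrank ℚ k * R ^ (Module.finrank ℚ k * (n * (n - 1))))) := by
        refine mul_le_mul_of_nonneg_left ?_ (by positivity)
        exact mul_le_mul hsq hnorm (abs_nonneg _) (by positivity)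
    _ = _ := by ring

end

end Pool.Agent.H98.TQ
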