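import Pool.Agent.H98.TQ.Defs
import Pool.Agent.H92.SQ.PrimLoc

/-!
# Project TQ, row 16: primitivity from one prime
-/

set_option autoImplicit false

open Polynomial IsDedekindDomain NumberField Pool.Agent.H35.AN

namespace Pool.Agent.H98.TQ

section tq16

variable {k : Type} [Field k] [NumberField k] {L : Type} [Field L] [NumberField L] [Algebra k L]

theorem tq16_below (P : HeightOneSpectrum (𝓞 L)) {l : HeightOneSpectrum (𝓞 k)}
    (hP : below k P = l) (c : k) : ord P (algebraMap k L c) = erel k P * ord l c := by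
  rw [ord_algebraMap, hP]

theorem tq16_unit (P : HeightOneSpectrum (𝓞 L)) {l : HeightOneSpectrum (𝓞 k)}
    (hP : below k P = l) {c : 𝓞 k} (hc : c ∉ l.asIdeal) :
    ord P (algebraMap k L (c : k)) = 0 := by
  rw [tq16_below P hP, an1_ord_coe_eq_zero l hc, mul_zero]

theorem tq16_coeff_ge (P : HeightOneSpectrum (𝓞 L)) {l : HeightOneSpectrum (𝓞 k)}
    (hP : below k P = l) {c : 𝓞 k} (hc : c ∈ l.asIdeal) :
    Ge P (erel k P) (algebraMap k L (c : k)) := by
  have h1 := (mem_iff_ge_one l c).mp hc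
  have h2 := ge_algebraMap (k := k) P (x := (c : k)) (m := 1) (by rw [hP]; exact h1)
  rwa [mul_one] at h2

theorem tq16_coeff_eq (P : HeightOneSpectrum (𝓞 L)) {l : HeightOneSpectrum (𝓞 k)}
    (hP : below k P = l) {c : 𝓞 k} (hc : c ∈ l.asIdeal) (hc2 : c ∉ l.asIdeal ^ 2) :
    ord P (algebraMap k L (c : k)) = erel k P := by
  have hc0 : c ≠ 0 := by
    rintro rfl
    exact hc2 (Ideal.zero_mem _)
  have hck : (c : k) ≠ 0 := by simpa using hc0
  have h1 : ord l (c : k) = 1 := by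
    have h2 := (mem_iff_ge_one l c).mp hc
    have h3 : ¬ Ge l ((2 : ℕ) : ℤ) (c : k) := fun h => hc2 ((mem_pow_iff l c 2).mpr h)
    rw [ge_iff l hck] at h2 h3
    push_cast at h3
    omega
  rw [tq16_below P hP, h1, mul_one]

omit [NumberField L] in
theorem tq16_eval {n : ℕ} {f : (𝓞 k)[X]} (hdeg : f.natDegree = n) (x : L) :
    ((FK f).map (algebraMap k L)).eval x =
      ∑ i ∈ Finset.range (n + 1), algebraMap k L (f.coeff i : k) * x ^ i := by
  unfold FK
  rw [Polynomial.map_map, eval_map, eval₂_eq_sum_range, hdeg]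
  rfl

omit [NumberField L] in
theorem tq16_stable_image {n : ℕ} {F : k[X]} (R : Roots k L n F) (D : Subgroup (L ≃ₐ[k] L))
    {S : Finset (Fin n)} [DecidableEq L] (hS : ∀ σ ∈ D, ∀ x ∈ S, R.permHom σ x ∈ S) :
    ∀ σ ∈ D, ∀ x ∈ S.image R.θ, σ x ∈ S.image R.θ := by
  intro σ hσ x hx
  obtain ⟨i, hi, rfl⟩ := Finset.mem_image.mp hx
  exact Finset.mem_image.mpr ⟨R.permHom σ i, hS σ hσ i hi, (R.permHom_spec σ i).symm⟩

/-- If the decomposition group of `P` stabilises a set of roots of equal valuation `t`, then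
`e(P)` divides `|S| t`. -/
theorem tq16_orbit [IsGalois k L] {n : ℕ} {F : k[X]} (R : Roots k L n F)
    (P : HeightOneSpectrum (𝓞 L)) :
    ∃ D : Subgroup (L ≃ₐ[k] L), (∀ σ ∈ D, ∀ x : L, ord P (σ x) = ord P x) ∧
      ∀ (S : Finset (Fin n)), (∀ σ ∈ D, ∀ x ∈ S, R.permHom σ x ∈ S) →
        (∀ x ∈ S, R.θ x ≠ 0) → ∀ t : ℤ, (∀ x ∈ S, ord P (R.θ x) = t) →
          (erel k P : ℤ) ∣ S.card * t := by
  classical
  obtain ⟨D, hD, hD2⟩ := exists_decomp (k := k) P
  refine ⟨D, hD, fun S hS h0 t ht => ?_⟩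
  have h := hD2 (S.image R.θ) (tq16_stable_image R D hS) (by
    intro x hx
    obtain ⟨i, hi, rfl⟩ := Finset.mem_image.mp hx
    exact h0 i hi) t (by
    intro x hx
    obtain ⟨i, hi, rfl⟩ := Finset.mem_image.mp hx
    exact ht i hi)
  rwa [Finset.card_image_of_injective _ R.inj] at h

end tq16

variable {k : Type} [Field k] [NumberField k]

theorem prim_loc {L : Type} [Field L] [NumberField L] [Algebra k L] [IsGalois k L]
    {n : ℕ} (hn : 2 ≤ n) {f : (𝓞 k)[X]} {l : HeightOneSpectrum (𝓞 k)} (hdeg : f.natDegree = n)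
    (hm : f.Monic) (hlc' : f.coeff (n - 1) ∉ l.asIdeal)
    (hmid : ∀ i < n - 1, f.coeff i ∈ l.asIdeal) (h0 : f.coeff 0 ∉ l.asIdeal ^ 2)
    (R : Roots k L n (FK f)) (htr : MulAction.IsPretransitive R.permHom.range (Fin n)) :
    MulAction.IsPreprimitive R.permHom.range (Fin n) := by
  classical
  obtain ⟨P, hP⟩ := exists_above L l
  obtain ⟨D, hD, hD2⟩ := tq16_orbit R P
  have he : (0 : ℤ) < erel k P := by exact_mod_cast erel_pos P
  set e : ℤ := ((erel k P : ℕ) : ℤ) with hedef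
  have hinj : ∀ c : 𝓞 k, algebraMap k L (c : k) = 0 → c = 0 := by
    intro c hc
    rw [map_eq_zero] at hc
    simpa using hc
  have hne : ∀ {c : 𝓞 k}, c ∉ l.asIdeal → algebraMap k L (c : k) ≠ 0 := by
    intro c hc h
    exact hc (hinj c h ▸ Ideal.zero_mem _)
  have hlc : f.coeff n ∉ l.asIdeal := by
    rw [← hdeg, hm.coeff_natDegree]
    intro h
    exact l.isPrime.ne_top ((Ideal.eq_top_iff_one _).mpr h)
  have h00 : algebraMap k L ((f.coeff 0 : 𝓞 k) : k) ≠ 0 := by
    intro h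
    exact h0 (hinj _ h ▸ Ideal.zero_mem _)
  have h0e : ord P (algebraMap k L ((f.coeff 0 : 𝓞 k) : k)) = e :=
    tq16_coeff_eq P hP (hmid 0 (by omega)) h0
  have hroot : ∀ i, R.θ i ≠ 0 ∧ (ord P (R.θ i) = 0 ∨ ((n : ℤ) - 1) * ord P (R.θ i) = e) := by
    intro i
    refine Pool.Agent.H92.SQ.sq3_root P hn (fun j => algebraMap k L ((f.coeff j : 𝓞 k) : k)) e he
      (hne hlc) (tq16_unit P hP hlc) (hne hlc') (tq16_unit P hP hlc')
      (fun j hj => tq16_coeff_ge P hP (hmid j hj)) h00 h0e ?_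
    rw [← tq16_eval hdeg]
    exact R.eval_root i
  -- the product of the roots
  have hlead : (FK f).leadingCoeff = 1 := (hm.map _).leadingCoeff
  have hprod : ∑ i, ord P (R.θ i) = e := by
    have h1 := R.eval_eq 0
    rw [tq16_eval hdeg, Finset.sum_range_succ', Finset.sum_eq_zero, zero_add, pow_zero, mul_one,
      hlead, map_one, one_mul] at h1
    · have h2 := congrArg (ord P) h1
      have hθ : ∀ i ∈ (Finset.univ : Finset (Fin n)), (0 : L) - R.θ i ≠ 0 := fun i _ => by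
        rw [zero_sub]
        exact neg_ne_zero.mpr (hroot i).1
      rw [h0e, ord_prod P _ _ hθ] at h2
      rw [h2]
      refine Finset.sum_congr rfl fun i _ => ?_
      rw [zero_sub, ord_neg]
    · intro i _
      rw [zero_pow (by omega), mul_zero]
  set A : Finset (Fin n) := Finset.univ.filter fun i => ord P (R.θ i) ≠ 0 with hA
  have hAmem : ∀ i ∈ A, ((n : ℤ) - 1) * ord P (R.θ i) = e := by
    intro i hi
    rcases (hroot i).2 with h | h
    · exact absurd h (Finset.mem_filter.mp hi).2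
    · exact h
  have hAcard : (A.card : ℤ) = (n : ℤ) - 1 := by
    have h1 : ((n : ℤ) - 1) * ∑ i, ord P (R.θ i) = A.card * e := by
      have h2 : ∑ i, ord P (R.θ i) = ∑ i ∈ A, ord P (R.θ i) := by
        rw [hA, Finset.sum_filter_ne_zero]
      rw [h2, Finset.mul_sum, Finset.sum_congr rfl hAmem, Finset.sum_const, nsmul_eq_mul]
    rw [hprod] at h1
    exact (mul_right_cancel₀ he.ne' h1).symm
  -- the unit root
  have hcompl : (Finset.univ \ A).card = 1 := by
    have h1 := Finset.card_sdiff_add_card_eq_card (Finset.subset_univ A)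
    rw [Finset.card_univ, Fintype.card_fin] at h1
    omega
  obtain ⟨r, hr⟩ := Finset.card_eq_one.mp hcompl
  have hrA : ∀ i, i ≠ r → i ∈ A := by
    intro i hi
    by_contra hc
    have : i ∈ Finset.univ \ A := Finset.mem_sdiff.mpr ⟨Finset.mem_univ _, hc⟩
    rw [hr, Finset.mem_singleton] at this
    exact hi this
  have hr0 : ord P (R.θ r) = 0 := by
    have h1 : r ∈ Finset.univ \ A := by rw [hr]; exact Finset.mem_singleton_self r
    have h2 := (Finset.mem_sdiff.mp h1).2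
    by_contra hc
    exact h2 (Finset.mem_filter.mpr ⟨Finset.mem_univ _, hc⟩)
  refine isPreprimitive_of_orbits (m := n - 1) R.permHom.range (D.map R.permHom) htr ?_ r ?_ ?_ ?_
  · rintro _ ⟨σ, -, rfl⟩
    exact ⟨σ, rfl⟩
  · rintro _ ⟨σ, hσ, rfl⟩
    by_contra hne'
    refine (Finset.mem_filter.mp (hrA _ hne')).2 ?_
    change ord P (R.θ (R.permHom σ r)) = 0
    rw [← R.permHom_spec, hD σ hσ, hr0]
  · intro S hS hrS
    rcases S.eq_empty_or_nonempty with rfl | ⟨i0, hi0⟩
    · simp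
    have hmem : ∀ i ∈ S, i ∈ A := fun i hi => hrA i fun h' => hrS (h' ▸ hi)
    have hn1 : ((n - 1 : ℕ) : ℤ) = (n : ℤ) - 1 := by omega
    have hn1' : (n : ℤ) - 1 ≠ 0 := by omega
    have h1 : e ∣ S.card * ord P (R.θ i0) := by
      refine hD2 S (fun σ hσ x hx => hS _ ⟨σ, hσ, rfl⟩ x hx) (fun i _ => (hroot i).1) _ ?_
      intro i hi
      have h2 := hAmem i (hmem i hi)
      rw [← hAmem i0 (hmem i0 hi0)] at h2
      exact mul_left_cancel₀ hn1' h2
    obtain ⟨w, hw⟩ := h1
    have h2 : (S.card : ℤ) * e = ((n : ℤ) - 1) * w * e := by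
      calc (S.card : ℤ) * e = S.card * (((n : ℤ) - 1) * ord P (R.θ i0)) := by
            rw [hAmem i0 (hmem i0 hi0)]
        _ = ((n : ℤ) - 1) * (S.card * ord P (R.θ i0)) := by ring
        _ = ((n : ℤ) - 1) * w * e := by rw [hw]; ring
    have h3 : (S.card : ℤ) = ((n : ℤ) - 1) * w := mul_right_cancel₀ he.ne' h2
    have h4 : ((n - 1 : ℕ) : ℤ) ∣ (S.card : ℤ) := ⟨w, by rw [h3, hn1]⟩
    exact_mod_cast h4
  · intro j hj
    rcases Nat.lt_or_ge j 2 with h | h
    · interval_cases j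
      · left; simp
      · right; omega
    · exfalso
      have h1 := Nat.le_of_dvd (by omega) hj
      have h2 : 2 * (n - 1) ≤ j * (n - 1) := Nat.mul_le_mul_right _ h
      omega

end Pool.Agent.H98.TQ
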