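import Pool.Agent.H98.TQ.Defs
import Pool.Agent.H92.SQ.Swap

/-!
# Project TQ, row 17: a prime with a double root gives a transposition
-/

set_option autoImplicit false
set_option linter.unusedSectionVars false

open Polynomial IsDedekindDomain NumberField Pool.Agent.H35.AN
open Pool.Agent.H92.SQ (sq4_two sq4_factor sq4_deriv sq4_small)

namespace Pool.Agent.H98.TQ

section tq17

variable {k : Type} [Field k] [NumberField k]

/-- the residue characteristic: integers prime to `r` are units at `l` -/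
theorem tq17_int {l : HeightOneSpectrum (𝓞 k)} {r : ℕ} (hr : r.Prime)
    (hrl : (r : 𝓞 k) ∈ l.asIdeal) {m : ℤ} (hm : ¬ (r : ℤ) ∣ m) : (m : 𝓞 k) ∉ l.asIdeal :=
  an1_coprime_not_mem l hrl
    ((Prime.coprime_iff_not_dvd (Nat.prime_iff_prime_int.mp hr)).mpr hm)

/-- small nonzero integers are units at `l` -/
theorem tq17_small {l : HeightOneSpectrum (𝓞 k)} {r : ℕ} (hr : r.Prime)
    (hrl : (r : 𝓞 k) ∈ l.asIdeal) {m : ℤ} (h0 : m ≠ 0) (h : |m| < r) :
    (m : 𝓞 k) ∉ l.asIdeal :=
  tq17_int hr hrl (sq4_small h0 h)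

theorem tq17_ge_one {l : HeightOneSpectrum (𝓞 k)} {a : 𝓞 k} (ha : a ∈ l.asIdeal) :
    Ge l 1 (a : k) := by
  have h := (mem_pow_iff l a 1).mp (by simpa using ha)
  simpa using h

theorem tq17_not_ge_one {l : HeightOneSpectrum (𝓞 k)} {a : 𝓞 k} (ha : a ∉ l.asIdeal) :
    ¬ Ge l 1 (a : k) := by
  intro h
  apply ha
  have h1 := (mem_pow_iff l a 1).mpr (by simpa using h)
  simpa using h1

variable {L : Type} [Field L] [NumberField L] [Algebra k L] (P : HeightOneSpectrum (𝓞 L))

/-- integers of `k` are integral at `P` -/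
theorem tq17_ge_zero (a : 𝓞 k) : Ge P 0 (algebraMap k L (a : k)) := by
  have h := ge_algebraMap (k := k) P (an1_ge_coe (below k P) a)
  simpa using h

theorem tq17_ge {l : HeightOneSpectrum (𝓞 k)} (hP : below k P = l) {a : 𝓞 k}
    (ha : a ∈ l.asIdeal) : Ge P (erel k P) (algebraMap k L (a : k)) := by
  have h := ge_algebraMap (k := k) P (x := (a : k)) (m := 1) (by rw [hP]; exact tq17_ge_one ha)
  simpa using h

theorem tq17_ne {l : HeightOneSpectrum (𝓞 k)} {a : 𝓞 k} {j : ℕ} (ha : a ∉ l.asIdeal ^ j) :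
    algebraMap k L (a : k) ≠ 0 := by
  intro h
  apply ha
  rw [map_eq_zero] at h
  have h1 : a = 0 := by
    apply RingOfIntegers.ext
    rw [h]
    rfl
  rw [h1]
  exact Submodule.zero_mem _

theorem tq17_unit {l : HeightOneSpectrum (𝓞 k)} (hP : below k P = l) {a : 𝓞 k}
    (ha : a ∉ l.asIdeal) : ord P (algebraMap k L (a : k)) = 0 := by
  rw [ord_algebraMap (k := k) P, hP, an1_ord_coe_eq_zero l ha, mul_zero]

theorem tq17_eq {l : HeightOneSpectrum (𝓞 k)} (hP : below k P = l) {a : 𝓞 k}
    (ha : a ∈ l.asIdeal) (ha2 : a ∉ l.asIdeal ^ 2) :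
    ord P (algebraMap k L (a : k)) = erel k P := by
  have hne : (a : k) ≠ 0 := by
    have := tq17_ne (L := k) ha2
    simpa using this
  have h1 : (1 : ℤ) ≤ ord l (a : k) := (ge_iff l hne).mp (tq17_ge_one ha)
  have h2 : ¬ ((2 : ℕ) : ℤ) ≤ ord l (a : k) := by
    intro h
    exact ha2 ((mem_pow_iff l a 2).mpr ((ge_iff l hne).mpr h))
  have h3 : ord l (a : k) = 1 := by
    push_cast at h2
    omega
  rw [ord_algebraMap (k := k) P, hP, h3, mul_one]

theorem tq17_map (f : (𝓞 k)[X]) (i : ℕ) :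
    ((FK f).map (algebraMap k L)).coeff i = algebraMap k L (f.coeff i : k) := by
  rw [coeff_map, FK, coeff_map]

theorem tq17_eval (f : (𝓞 k)[X]) (a : 𝓞 k) :
    ((FK f).map (algebraMap k L)).eval (algebraMap k L (a : k)) =
      algebraMap k L ((f.eval a : 𝓞 k) : k) := by
  rw [eval_map_algebraMap, aeval_algebraMap_apply, FK, coe_aeval_eq_eval]
  congr 1
  rw [eval_map]
  exact eval₂_at_apply (algebraMap (𝓞 k) k) a

end tq17

section

variable (k : Type) [Field k] [NumberField k]

variable {k} in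
theorem swap_loc {L : Type} [Field L] [NumberField L] [Algebra k L] [IsGalois k L]
    {n : ℕ} (hn : 2 ≤ n) {f : (𝓞 k)[X]} {l : HeightOneSpectrum (𝓞 k)} {r : ℕ} (hr : r.Prime)
    (hrl : (r : 𝓞 k) ∈ l.asIdeal) (hrn : n < r) (hdeg : f.natDegree = n) (hm : f.Monic)
    {ϖ : 𝓞 k} (h1 : ϖ ∈ l.asIdeal) (h2 : ϖ ∉ l.asIdeal ^ 2)
    (hcong : ∀ i, f.coeff i - ((X ^ 2 + C ϖ) *
      ∏ t ∈ Finset.range (n - 2), (X - C ((t : 𝓞 k) + 1))).coeff i ∈ l.asIdeal ^ 2)
    (R : Roots k L n (FK f)) (hgen : IntermediateField.adjoin k (Set.range R.θ) = ⊤) :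
    ∃ σ : L ≃ₐ[k] L, (R.permHom σ).IsSwap := by
  classical
  obtain ⟨P, hP⟩ := exists_above (k := k) L l
  have hlp : l.asIdeal.IsPrime := l.isPrime
  have he0 : (0 : ℤ) < erel k P := by exact_mod_cast erel_pos P
  set e : ℤ := ((erel k P : ℕ) : ℤ) with hedef
  have hsq : ∀ a ∈ l.asIdeal ^ 2, a ∈ l.asIdeal := fun a ha =>
    Ideal.pow_le_self (by norm_num) ha
  -- the polynomial modulo `l²`
  set B : (𝓞 k)[X] := ∏ t ∈ Finset.range (n - 2), (X - C ((t : 𝓞 k) + 1)) with hB
  set h : (𝓞 k)[X] := f - (X ^ 2 + C ϖ) * B with hh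
  have hfh : f = (X ^ 2 + C ϖ) * B + h := by rw [hh]; ring
  have hhc : ∀ i, h.coeff i ∈ l.asIdeal ^ 2 := fun i => by rw [hh, coeff_sub]; exact hcong i
  have hcast : ∀ t : ℕ, (t : 𝓞 k) + 1 = (((t : ℤ) + 1 : ℤ) : 𝓞 k) := fun t => by push_cast; ring
  have hB0 : B.coeff 0 ∉ l.asIdeal := by
    rw [coeff_zero_eq_eval_zero, hB, eval_prod]
    intro hd
    obtain ⟨t, ht, hd⟩ := (Ideal.IsPrime.prod_mem_iff).mp hd
    rw [Finset.mem_range] at ht
    rw [eval_sub, eval_X, eval_C, zero_sub, neg_mem_iff, hcast] at hd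
    refine tq17_small hr hrl (m := (t : ℤ) + 1) (by omega) ?_ hd
    rw [abs_of_nonneg (by omega)]
    omega
  -- coefficients
  have hcf : ∀ i, f.coeff i = (X ^ 2 * B).coeff i + ϖ * B.coeff i + h.coeff i := fun i => by
    conv_lhs => rw [hfh]
    rw [coeff_add, add_mul, coeff_add, coeff_C_mul]
  have hc0 : f.coeff 0 = ϖ * B.coeff 0 + h.coeff 0 := by
    rw [hcf, coeff_X_pow_mul', if_neg (by norm_num), zero_add]
  have hc1 : f.coeff 1 = ϖ * B.coeff 1 + h.coeff 1 := by
    rw [hcf, coeff_X_pow_mul', if_neg (by norm_num), zero_add]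
  have hc2 : f.coeff 2 = B.coeff 0 + ϖ * B.coeff 2 + h.coeff 2 := by
    rw [hcf, coeff_X_pow_mul', if_pos le_rfl]
  have hd0 : f.coeff 0 ∈ l.asIdeal := by
    rw [hc0]
    exact add_mem (Ideal.mul_mem_right _ _ h1) (hsq _ (hhc 0))
  have hd0' : f.coeff 0 ∉ l.asIdeal ^ 2 := by
    rw [hc0]
    intro hd
    have hd' : ϖ * B.coeff 0 ∈ l.asIdeal ^ 2 := by
      have := sub_mem hd (hhc 0)
      simpa using this
    have hϖ0 : (ϖ : k) ≠ 0 := by
      have := tq17_ne (L := L) h2
      simpa using this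
    have hB00 : ((B.coeff 0 : 𝓞 k) : k) ≠ 0 := by
      have := tq17_ne (L := L) (j := 1) (by simpa using hB0)
      simpa using this
    have h3 := (mem_pow_iff l _ 2).mp hd'
    have h5 : ((ϖ * B.coeff 0 : 𝓞 k) : k) = (ϖ : k) * ((B.coeff 0 : 𝓞 k) : k) := rfl
    rw [h5, ge_iff l (mul_ne_zero hϖ0 hB00), ord_mul l hϖ0 hB00,
      an1_ord_coe_eq_zero l hB0, add_zero] at h3
    exact h2 ((mem_pow_iff l ϖ 2).mpr ((ge_iff l hϖ0).mpr h3))
  have hd1 : f.coeff 1 ∈ l.asIdeal := by
    rw [hc1]
    exact add_mem (Ideal.mul_mem_right _ _ h1) (hsq _ (hhc 1))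
  have hd2 : f.coeff 2 ∉ l.asIdeal := by
    rw [hc2]
    intro hd
    apply hB0
    have := sub_mem (sub_mem hd (hsq _ (hhc 2))) (Ideal.mul_mem_right (B.coeff 2) _ h1)
    ring_nf at this
    exact this
  -- the polynomial over `L`
  set G : L[X] := (FK f).map (algebraMap k L) with hG
  have hGc : ∀ i, G.coeff i = algebraMap k L (f.coeff i : k) := fun i => tq17_map f i
  have hG0 : ∀ i, Ge P 0 (G.coeff i) := fun i => by rw [hGc]; exact tq17_ge_zero P _
  have hFm : (FK f).Monic := hm.map _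
  have hGm : G.Monic := hFm.map _
  have hint : ∀ i, Ge P 0 (R.θ i) := fun i =>
    an15_integral P hG0 (by rw [hGm.leadingCoeff, ord_one]) (by rw [hGm.leadingCoeff]; exact
      one_ne_zero) (R.eval_root i)
  have hfac : G = ∏ i, (X - C (R.θ i)) := by
    have h3 := R.fac
    rw [hFm.leadingCoeff, map_one, map_one, one_mul] at h3
    exact h3
  have h0n : G.coeff 0 ≠ 0 := by rw [hGc]; exact tq17_ne hd0'
  have h0e : ord P (G.coeff 0) = e := by rw [hGc]; exact tq17_eq P hP hd0 hd0'
  have h1e : Ge P e (G.coeff 1) := by rw [hGc]; exact tq17_ge P hP hd1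
  have h2n : G.coeff 2 ≠ 0 := by
    rw [hGc]
    exact tq17_ne (j := 1) (by simpa using hd2)
  have h2e : ord P (G.coeff 2) = 0 := by rw [hGc]; exact tq17_unit P hP hd2
  have hGz : G.coeff 0 = ∏ i, (-R.θ i) := by
    rw [coeff_zero_eq_eval_zero, hfac, eval_prod]
    simp
  have hθ0 : ∀ i, R.θ i ≠ 0 := by
    intro i h3
    apply h0n
    rw [hGz, Finset.prod_eq_zero (Finset.mem_univ i) (by rw [h3, neg_zero])]
  have hge : ∀ i, 0 ≤ ord P (R.θ i) := fun i => (ge_iff P (hθ0 i)).mp (hint i)
  have htwo : ∀ i, 0 < ord P (R.θ i) → 2 * ord P (R.θ i) = e := fun i hi =>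
    sq4_two P hG0 h0n h0e h1e h2n h2e (hθ0 i) (R.eval_root i) hi
  have hsum : ∑ i, ord P (R.θ i) = e := by
    have hne' : ∀ i ∈ (Finset.univ : Finset (Fin n)), -R.θ i ≠ 0 := fun i _ =>
      neg_ne_zero.mpr (hθ0 i)
    rw [← h0e, hGz, ord_prod P _ _ hne']
    exact Finset.sum_congr rfl fun i _ => (ord_neg P _).symm
  set T : Finset (Fin n) := Finset.univ.filter (fun i => 0 < ord P (R.θ i)) with hT
  have hTsum : ∑ i ∈ T, ord P (R.θ i) = e := by
    rw [← hsum, hT, Finset.sum_filter]
    refine Finset.sum_congr rfl fun i _ => ?_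
    split_ifs with h
    · rfl
    · have := hge i
      omega
  have hTcard : T.card = 2 := by
    have h4 : 2 * ∑ i ∈ T, ord P (R.θ i) = T.card * e := by
      rw [Finset.mul_sum, Finset.sum_congr rfl fun i hi => htwo i (Finset.mem_filter.mp hi).2,
        Finset.sum_const, nsmul_eq_mul]
    rw [hTsum] at h4
    have h5 : ((2 : ℤ) - T.card) * e = 0 := by linear_combination h4
    rcases mul_eq_zero.mp h5 with h6 | h6
    · omega
    · omega
  have he2 : 2 ≤ erel k P := by
    obtain ⟨i, hi⟩ := Finset.card_pos.mp (by omega : 0 < T.card)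
    have h1 := htwo i (Finset.mem_filter.mp hi).2
    have h2 := (Finset.mem_filter.mp hi).2
    omega
  -- elements of `l` at `P`
  have hl1 : ∀ a ∈ l.asIdeal, Ge P 1 (algebraMap k L (a : k)) := fun a ha =>
    ge_mono P (by omega) (tq17_ge P hP ha)
  have hmapint : ∀ g : (𝓞 k)[X], ∀ x : L, Ge P 0 x →
      Ge P 0 (((FK g).map (algebraMap k L)).eval x) := by
    intro g x hx
    rw [eval_eq_sum_range]
    refine ge_sum P _ _ fun m _ => ?_
    rw [tq17_map]
    have h3 := ge_mul P (tq17_ge_zero P (g.coeff m)) (ge_pow P hx m)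
    simpa using h3
  have hmapl : ∀ g : (𝓞 k)[X], (∀ i, g.coeff i ∈ l.asIdeal) → ∀ x : L, Ge P 0 x →
      Ge P 1 (((FK g).map (algebraMap k L)).eval x) := by
    intro g hg x hx
    rw [eval_eq_sum_range]
    refine ge_sum P _ _ fun m _ => ?_
    rw [tq17_map]
    have h3 := ge_mul P (hl1 _ (hg m)) (ge_pow P hx m)
    simpa using h3
  -- unit roots are close to integers
  have hunit : ∀ i, i ∉ T → ∃ t < n - 2,
      Ge P 1 (algebraMap k L (((t : 𝓞 k) + 1 : 𝓞 k) : k) - R.θ i) := by
    intro i hi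
    have ho : ord P (R.θ i) = 0 := by
      have h9 : ¬ 0 < ord P (R.θ i) := fun h => hi (Finset.mem_filter.mpr ⟨Finset.mem_univ i, h⟩)
      have := hge i
      omega
    set b : L := ((FK B).map (algebraMap k L)).eval (R.θ i) with hb
    have h3 : R.θ i ^ 2 * b = -(algebraMap k L (ϖ : k) * b +
        ((FK h).map (algebraMap k L)).eval (R.θ i)) := by
      have h4 := R.eval_root i
      have h5 : (FK f).map (algebraMap k L) = (X ^ 2 + C (algebraMap k L (ϖ : k))) *
          (FK B).map (algebraMap k L) + (FK h).map (algebraMap k L) := by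
        unfold FK
        conv_lhs => rw [hfh]
        simp only [Polynomial.map_add, Polynomial.map_mul, Polynomial.map_pow,
          Polynomial.map_X, Polynomial.map_C]
      rw [h5] at h4
      simp only [eval_add, eval_mul, eval_pow, eval_X, eval_C] at h4
      linear_combination h4
    have h4 : Ge P 1 (R.θ i ^ 2 * b) := by
      rw [h3]
      refine ge_neg P (ge_add P ?_ (hmapl h (fun j => hsq _ (hhc j)) _ (hint i)))
      have h6 := ge_mul P (hl1 _ h1) (hmapint B _ (hint i))
      rw [add_zero] at h6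
      exact h6
    have h5 : Ge P 1 b := by
      rcases eq_or_ne b 0 with h6 | h6
      · rw [h6]; exact ge_zero P 1
      · have hθ2 : R.θ i ^ 2 ≠ 0 := pow_ne_zero _ (hθ0 i)
        rw [ge_iff P (mul_ne_zero hθ2 h6), ord_mul P hθ2 h6, ord_pow, ho] at h4
        rw [ge_iff P h6]
        simpa using h4
    have h7 : b = ∏ t ∈ Finset.range (n - 2),
        (R.θ i - algebraMap k L (((t : 𝓞 k) + 1 : 𝓞 k) : k)) := by
      rw [hb]
      unfold FK
      rw [hB, Polynomial.map_prod, Polynomial.map_prod, eval_prod]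
      refine Finset.prod_congr rfl fun t _ => ?_
      rw [Polynomial.map_sub, Polynomial.map_X, Polynomial.map_C, Polynomial.map_sub,
        Polynomial.map_X, Polynomial.map_C, eval_sub, eval_X, eval_C]
    rw [h7] at h5
    obtain ⟨t, ht, ht1⟩ := sq4_factor P _ _
      (fun t _ => ge_sub P (hint i) (tq17_ge_zero P _)) h5
    refine ⟨t, Finset.mem_range.mp ht, ?_⟩
    rw [← neg_sub]
    exact ge_neg P ht1
  -- an element of the inertia group
  obtain ⟨I, hIcard, -, hI⟩ := exists_inertia (k := k) P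
  obtain ⟨s, hs⟩ : ∃ s : I, s ≠ 1 := by
    have : Finite I := Nat.finite_of_card_ne_zero (by omega)
    have : Nontrivial I := by
      rw [← Finite.one_lt_card_iff_nontrivial]
      omega
    exact exists_ne 1
  have hs1 : R.permHom s.1 ≠ 1 := fun h => hs (Subtype.ext (an15_faithful R hgen h))
  have hfix : ∀ i, i ∉ T → R.permHom s.1 i = i := by
    intro i hi
    by_contra hne'
    obtain ⟨t, ht, ht1⟩ := hunit i hi
    have h10 := hI s.1 s.2 (R.θ i) (hint i)
    rw [R.permHom_spec] at h10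
    set j := R.permHom s.1 i
    set a : 𝓞 k := (t : 𝓞 k) + 1 with ha
    set x : L := algebraMap k L (a : k) with hx
    have hj1 : Ge P 1 (x - R.θ j) := by
      have : x - R.θ j = (x - R.θ i) - (R.θ j - R.θ i) := by ring
      rw [this]
      exact ge_sub P ht1 h10
    have h11 := sq4_deriv P 1 (by simpa using ge_nat P 1) R.θ x
      (fun m => ge_sub P (tq17_ge_zero P _) (hint m)) (fun h : i = j => hne' h.symm) ht1 hj1
    rw [map_one, one_mul, ← hfac] at h11
    have hGd : G.derivative = (FK f.derivative).map (algebraMap k L) := by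
      rw [hG, derivative_map, FK, FK, derivative_map]
    rw [hGd, hx, tq17_eval] at h11
    have h12 : f.derivative.eval a ∉ l.asIdeal := by
      have hmem : t ∈ Finset.range (n - 2) := Finset.mem_range.mpr ht
      have b1 : B.eval a = 0 := by
        rw [hB, eval_prod]
        exact Finset.prod_eq_zero hmem (by simp [ha])
      have b2 : B.derivative.eval a =
          ∏ j ∈ (Finset.range (n - 2)).erase t, (((t : ℤ) - j : ℤ) : 𝓞 k) := by
        rw [hB, derivative_prod_finset, eval_finsetSum, Finset.sum_eq_single t]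
        · rw [eval_mul, eval_prod]
          simp [ha]
        · intro j _ hj
          rw [eval_mul, eval_prod, Finset.prod_eq_zero (Finset.mem_erase.mpr ⟨hj.symm, hmem⟩)
            (by simp [ha]), zero_mul]
        · intro h
          exact absurd hmem h
      have h13 : f.derivative.eval a = a ^ 2 * B.derivative.eval a +
          (ϖ * B.derivative.eval a + h.derivative.eval a) := by
        conv_lhs => rw [hfh]
        simp only [derivative_add, derivative_mul, derivative_C, derivative_X_pow, eval_add,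
          eval_mul, eval_C, eval_pow, eval_X, b1]
        ring
      intro hd
      rw [h13] at hd
      have hhd : h.derivative.eval a ∈ l.asIdeal := by
        rw [eval_eq_sum_range]
        refine sum_mem fun j _ => Ideal.mul_mem_right _ _ ?_
        rw [coeff_derivative]
        exact Ideal.mul_mem_right _ _ (hsq _ (hhc _))
      have h14 : a ^ 2 * B.derivative.eval a ∈ l.asIdeal := by
        have h15 := sub_mem hd (add_mem (Ideal.mul_mem_right (B.derivative.eval a) _ h1) hhd)
        rwa [add_sub_cancel_right] at h15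
      rcases hlp.mem_or_mem h14 with h15 | h15
      · have h16 := hlp.mem_of_pow_mem _ h15
        rw [ha, hcast] at h16
        refine tq17_small hr hrl (m := (t : ℤ) + 1) (by omega) ?_ h16
        rw [abs_of_nonneg (by omega)]
        omega
      · rw [b2] at h15
        obtain ⟨m, hm', hd'⟩ := (Ideal.IsPrime.prod_mem_iff).mp h15
        rw [Finset.mem_erase, Finset.mem_range] at hm'
        refine tq17_small hr hrl (m := (t : ℤ) - m) (by omega) ?_ hd'
        rw [abs_lt]
        omega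
    have h14 := tq17_unit P hP h12
    rw [ge_iff P (tq17_ne (j := 1) (by simpa using h12))] at h11
    omega
  refine ⟨s.1, ?_⟩
  rw [← Equiv.Perm.card_support_eq_two]
  have hsub : (R.permHom s.1).support ⊆ T := by
    intro i hi
    by_contra hiT
    exact (Equiv.Perm.mem_support.mp hi) (hfix i hiT)
  have h3 : (R.permHom s.1).support.card ≤ 2 := hTcard ▸ Finset.card_le_card hsub
  have h4 := Equiv.Perm.two_le_card_support_of_ne_one hs1
  omega

end

end Pool.Agent.H98.TQ
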