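import Pool.Agent.H98.TQ.Eis
import Pool.Agent.H98.TQ.PrimLoc
import Pool.Agent.H98.TQ.Swap

/-!
# Project TQ (MP_a3214d), row TQ-18: a class of polynomials with group `S_n` over a number field

Chinese remainder theorem on the coefficients, and the theorem of Jordan on primitive groups with
a transposition.
-/

set_option autoImplicit false

open Polynomial IsDedekindDomain NumberField Pool.Agent.H35.AN

namespace Pool.Agent.H98.TQ

theorem tq18_idem (l : ℤ) (h2 : IsCoprime (2 : ℤ) l) (h3 : IsCoprime (3 : ℤ) l) :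
    ∃ e1 e2 e3 : ℤ, e1 + e2 + e3 = 1 ∧ ((2 : ℤ) ^ 2 ∣ e1 - 1 ∧ (2 : ℤ) ^ 2 ∣ e2 ∧
      (2 : ℤ) ^ 2 ∣ e3) ∧ ((3 : ℤ) ^ 2 ∣ e1 ∧ (3 : ℤ) ^ 2 ∣ e2 - 1 ∧ (3 : ℤ) ^ 2 ∣ e3) ∧
      (l ^ 2 ∣ e1 ∧ l ^ 2 ∣ e2 ∧ l ^ 2 ∣ e3 - 1) := by
  have h23 : IsCoprime (2 : ℤ) 3 := ⟨-1, 1, by norm_num⟩
  have c1 : IsCoprime ((2 : ℤ) ^ 2) (3 ^ 2 * l ^ 2) :=
    IsCoprime.mul_right h23.pow h2.pow
  have c2 : IsCoprime ((3 : ℤ) ^ 2) (2 ^ 2 * l ^ 2) :=
    IsCoprime.mul_right h23.symm.pow h3.pow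
  obtain ⟨u, v, huv⟩ := c1
  obtain ⟨u', v', huv'⟩ := c2
  refine ⟨v * (3 ^ 2 * l ^ 2), v' * (2 ^ 2 * l ^ 2),
    1 - v * (3 ^ 2 * l ^ 2) - v' * (2 ^ 2 * l ^ 2), by ring, ⟨⟨-u, by linear_combination huv⟩,
      ⟨v' * l ^ 2, by ring⟩, ⟨u - v' * l ^ 2, by linear_combination -huv⟩⟩,
      ⟨⟨v * l ^ 2, by ring⟩, ⟨-u', by linear_combination huv'⟩,
        ⟨u' - v * l ^ 2, by linear_combination -huv'⟩⟩,
      ⟨⟨v * 3 ^ 2, by ring⟩, ⟨v' * 2 ^ 2, by ring⟩,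
        ⟨-(v * 3 ^ 2) - v' * 2 ^ 2, by ring⟩⟩⟩

section

variable {k : Type} [Field k] [NumberField k]

/-- a prime ideal above a rational prime -/
theorem tq18_above {r : ℕ} (hr : r.Prime) :
    ∃ (l : HeightOneSpectrum (𝓞 k)) (ϖ : 𝓞 k), (r : 𝓞 k) ∈ l.asIdeal ∧ ϖ ∈ l.asIdeal ∧
      ϖ ∉ l.asIdeal ^ 2 := by
  have hr0 : (r : 𝓞 k) ≠ 0 := by
    exact_mod_cast hr.ne_zero
  have hne : Ideal.span {(r : 𝓞 k)} ≠ ⊤ := by
    intro h
    have h1 : Ideal.absNorm (Ideal.span {(r : 𝓞 k)}) = 1 := by rw [h, Ideal.absNorm_top]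
    rw [Ideal.absNorm_span_singleton] at h1
    have h2 : (Algebra.norm ℤ (r : 𝓞 k)) = (r : ℤ) ^ Module.finrank ℤ (𝓞 k) := by
      have h3 := Algebra.norm_algebraMap (S := 𝓞 k) (r : ℤ)
      simpa using h3
    rw [h2, Int.natAbs_pow, Int.natAbs_natCast] at h1
    have h4 : Module.finrank ℤ (𝓞 k) ≠ 0 := Module.finrank_pos.ne'
    rcases (Nat.pow_eq_one.1 h1) with h5 | h5
    · exact hr.one_lt.ne' h5
    · exact h4 h5
  obtain ⟨P, hP, hle⟩ := Ideal.exists_le_maximal _ hne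
  have hmem : (r : 𝓞 k) ∈ P := hle (Ideal.mem_span_singleton_self _)
  have hbot : P ≠ ⊥ := by
    intro h
    rw [h, Ideal.mem_bot] at hmem
    exact hr0 hmem
  obtain ⟨ϖ, h1, h2⟩ := Ideal.exists_mem_pow_notMem_pow_succ P hbot hP.ne_top 1
  rw [pow_one] at h1
  exact ⟨⟨P, hP.isPrime, hbot⟩, ϖ, hmem, h1, h2⟩

omit [NumberField k] in
theorem tq18_sq {l : HeightOneSpectrum (𝓞 k)} {r : ℕ} (h : (r : 𝓞 k) ∈ l.asIdeal) :
    ((((r : ℕ) : ℤ) ^ 2 : ℤ) : 𝓞 k) ∈ l.asIdeal ^ 2 := by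
  rw [Int.cast_pow, Int.cast_natCast]
  exact Ideal.pow_mem_pow h 2

omit [NumberField k] in
theorem tq18_third {n : ℕ} (hn : 3 ≤ n) (ϖ : 𝓞 k) :
    ((X ^ 2 + C ϖ) * ∏ t ∈ Finset.range (n - 2), (X - C ((t : 𝓞 k) + 1))).Monic ∧
    ((X ^ 2 + C ϖ) * ∏ t ∈ Finset.range (n - 2), (X - C ((t : 𝓞 k) + 1))).natDegree = n := by
  have h1 : (X ^ 2 + C ϖ : (𝓞 k)[X]).Monic := monic_X_pow_add_C ϖ (by norm_num)
  have h2 : (∏ t ∈ Finset.range (n - 2), (X - C ((t : 𝓞 k) + 1))).Monic :=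
    monic_prod_of_monic _ _ fun _ _ => monic_X_sub_C _
  refine ⟨h1.mul h2, ?_⟩
  rw [h1.natDegree_mul h2, natDegree_X_pow_add_C, natDegree_prod_of_monic _ _ fun _ _ =>
    monic_X_sub_C _]
  simp only [natDegree_X_sub_C, Finset.sum_const, Finset.card_range, smul_eq_mul, mul_one]
  omega

omit [NumberField k] in
/-- reduction modulo one of the three squares -/
theorem tq18_red {I : Ideal (𝓞 k)} {m : ℤ} (hm : (m : 𝓞 k) ∈ I) {M : ℕ} (hM : m ∣ M)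
    {a x y z : 𝓞 k} {e1 e2 e3 : ℤ} (h : (M : 𝓞 k) ∣ a - (e1 * x + e2 * y + e3 * z))
    (h1 : m ∣ e1 - 1) (h2 : m ∣ e2) (h3 : m ∣ e3) : a - x ∈ I := by
  have key : ∀ t : ℤ, m ∣ t → (t : 𝓞 k) ∈ I := by
    rintro t ⟨u, rfl⟩
    rw [Int.cast_mul]
    exact I.mul_mem_right _ hm
  have hMI : (M : 𝓞 k) ∈ I := by
    have := key M hM
    simpa using this
  have e : a - x = (a - (e1 * x + e2 * y + e3 * z)) +
      (((e1 - 1 : ℤ) : 𝓞 k) * x + (e2 : 𝓞 k) * y + (e3 : 𝓞 k) * z) := by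
    push_cast
    ring
  rw [e]
  obtain ⟨c, hc⟩ := h
  rw [hc]
  exact I.add_mem (I.mul_mem_right _ hMI) (I.add_mem (I.add_mem
    (I.mul_mem_right _ (key _ h1)) (I.mul_mem_right _ (key _ h2))) (I.mul_mem_right _ (key _ h3)))

theorem tq18_first {n : ℕ} (hn : 3 ≤ n) {f : (𝓞 k)[X]} {l : HeightOneSpectrum (𝓞 k)} {ϖ : 𝓞 k}
    (h1 : ϖ ∈ l.asIdeal) (h2 : ϖ ∉ l.asIdeal ^ 2) (hf : f.natDegree = n) (hm : f.Monic)
    (h : ∀ i, f.coeff i - (X ^ n + C ϖ : (𝓞 k)[X]).coeff i ∈ l.asIdeal ^ 2) :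
    Irreducible (FK f) := by
  have hs : ∀ i, (X ^ n + C ϖ : (𝓞 k)[X]).coeff i =
      (if i = n then 1 else 0) + (if i = 0 then ϖ else 0) := by
    intro i
    rw [coeff_add, coeff_X_pow, coeff_C]
  have hle : l.asIdeal ^ 2 ≤ l.asIdeal := Ideal.pow_le_self (by norm_num)
  refine irreducible_eis (l := l) (by omega) hf hm ?_ ?_
  · intro i hi
    have h3 := h i
    rw [hs, if_neg (by omega), zero_add] at h3
    by_cases h0 : i = 0
    · rw [if_pos h0] at h3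
      have h4 := l.asIdeal.add_mem (hle h3) h1
      rwa [sub_add_cancel] at h4
    · rw [if_neg h0, sub_zero] at h3
      exact hle h3
  · intro h0
    have h3 := h 0
    rw [hs, if_neg (by omega), if_pos rfl, zero_add] at h3
    have h4 := (l.asIdeal ^ 2).sub_mem h0 h3
    rw [sub_sub_cancel] at h4
    exact h2 h4

theorem tq18_second {n : ℕ} (hn : 3 ≤ n) {f : (𝓞 k)[X]} {l : HeightOneSpectrum (𝓞 k)} {ϖ : 𝓞 k}
    (h1 : ϖ ∈ l.asIdeal) (h2 : ϖ ∉ l.asIdeal ^ 2) (hf : f.natDegree = n) (hm : f.Monic)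
    (h : ∀ i, f.coeff i - (X ^ n + X ^ (n - 1) + C ϖ : (𝓞 k)[X]).coeff i ∈ l.asIdeal ^ 2)
    {L : Type} [Field L] [NumberField L] [Algebra k L] [IsGalois k L]
    (R : Roots k L n (FK f)) (htr : MulAction.IsPretransitive R.permHom.range (Fin n)) :
    MulAction.IsPreprimitive R.permHom.range (Fin n) := by
  have hs : ∀ i, (X ^ n + X ^ (n - 1) + C ϖ : (𝓞 k)[X]).coeff i =
      (if i = n then 1 else 0) + (if i = n - 1 then 1 else 0) + (if i = 0 then ϖ else 0) := by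
    intro i
    rw [coeff_add, coeff_add, coeff_X_pow, coeff_X_pow, coeff_C]
  have hle : l.asIdeal ^ 2 ≤ l.asIdeal := Ideal.pow_le_self (by norm_num)
  have hone : (1 : 𝓞 k) ∉ l.asIdeal := fun h => l.isPrime.ne_top ((Ideal.eq_top_iff_one _).2 h)
  refine prim_loc (l := l) (by omega) hf hm ?_ ?_ ?_ R htr
  · intro h0
    have h3 := h (n - 1)
    rw [hs, if_neg (by omega), if_pos rfl, if_neg (by omega), zero_add, add_zero] at h3
    have h4 := l.asIdeal.sub_mem h0 (hle h3)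
    rw [sub_sub_cancel] at h4
    exact hone h4
  · intro i hi
    have h3 := h i
    rw [hs, if_neg (by omega), if_neg (by omega), add_zero, zero_add] at h3
    by_cases h0 : i = 0
    · rw [if_pos h0] at h3
      have h4 := l.asIdeal.add_mem (hle h3) h1
      rwa [sub_add_cancel] at h4
    · rw [if_neg h0, sub_zero] at h3
      exact hle h3
  · intro h0
    have h3 := h 0
    rw [hs, if_neg (by omega), if_neg (by omega), if_pos rfl, add_zero, zero_add] at h3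
    have h4 := (l.asIdeal ^ 2).sub_mem h0 h3
    rw [sub_sub_cancel] at h4
    exact h2 h4

end

section

variable (k : Type) [Field k] [NumberField k]

/-! ### TQ-18 Group.lean (uses TQ-15, 16, 17) -/

theorem group_key (n : ℕ) (hn : 3 ≤ n) : ∃ (M : ℕ) (s : (𝓞 k)[X]), 0 < M ∧ s.natDegree = n ∧
    s.Monic ∧ ∀ f : (𝓞 k)[X], f.natDegree = n → f.Monic →
      (∀ i, (M : 𝓞 k) ∣ f.coeff i - s.coeff i) → Irreducible (FK f) ∧
      ∀ (L : Type) [Field L] [NumberField L] [Algebra k L] [IsGalois k L]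
        (R : Roots k L n (FK f)), IntermediateField.adjoin k (Set.range R.θ) = ⊤ →
          R.permHom.range = ⊤ := by
  obtain ⟨l, hnl, hl⟩ := Nat.exists_infinite_primes (n + 1)
  have h2l : IsCoprime (2 : ℤ) l := by
    have h := (Nat.coprime_primes Nat.prime_two hl).mpr (by omega)
    exact_mod_cast Nat.isCoprime_iff_coprime.mpr h
  have h3l : IsCoprime (3 : ℤ) l := by
    have h := (Nat.coprime_primes Nat.prime_three hl).mpr (by omega)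
    exact_mod_cast Nat.isCoprime_iff_coprime.mpr h
  obtain ⟨e1, e2, e3, hsum, ⟨a1, a2, a3⟩, ⟨b1, b2, b3⟩, ⟨c1, c2, c3⟩⟩ := tq18_idem l h2l h3l
  obtain ⟨l1, w1, p1, q1, t1⟩ := tq18_above (k := k) Nat.prime_two
  obtain ⟨l2, w2, p2, q2, t2⟩ := tq18_above (k := k) Nat.prime_three
  obtain ⟨l3, w3, p3, q3, t3⟩ := tq18_above (k := k) hl
  set s1 : (𝓞 k)[X] := X ^ n + C w1 with hs1
  set s2 : (𝓞 k)[X] := X ^ n + X ^ (n - 1) + C w2 with hs2
  set s3 : (𝓞 k)[X] := (X ^ 2 + C w3) *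
    ∏ t ∈ Finset.range (n - 2), (X - C ((t : 𝓞 k) + 1)) with hs3
  obtain ⟨hm3, hd3⟩ := tq18_third hn w3
  have hcoeff : ∀ i, (C (e1 : 𝓞 k) * s1 + C (e2 : 𝓞 k) * s2 + C (e3 : 𝓞 k) * s3).coeff i =
      e1 * s1.coeff i + e2 * s2.coeff i + e3 * s3.coeff i := by
    intro i
    rw [coeff_add, coeff_add, coeff_C_mul, coeff_C_mul, coeff_C_mul]
  have hn1 : s1.coeff n = 1 := by
    rw [hs1, coeff_add, coeff_X_pow, coeff_C, if_pos rfl, if_neg (by omega), add_zero]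
  have hn2 : s2.coeff n = 1 := by
    rw [hs2, coeff_add, coeff_add, coeff_X_pow, coeff_X_pow, coeff_C, if_pos rfl,
      if_neg (by omega), if_neg (by omega), add_zero, add_zero]
  have hn3 : s3.coeff n = 1 := by
    have h := hm3.coeff_natDegree
    rw [hd3] at h
    exact h
  have hn0 : (C (e1 : 𝓞 k) * s1 + C (e2 : 𝓞 k) * s2 + C (e3 : 𝓞 k) * s3).coeff n = 1 := by
    rw [hcoeff, hn1, hn2, hn3, mul_one, mul_one, mul_one]
    exact_mod_cast hsum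
  have hle : (C (e1 : 𝓞 k) * s1 + C (e2 : 𝓞 k) * s2 + C (e3 : 𝓞 k) * s3).natDegree ≤ n := by
    have k1 : s1.natDegree ≤ n := by
      rw [hs1]
      exact natDegree_add_le_of_degree_le (natDegree_X_pow_le n)
        (by rw [natDegree_C]; exact Nat.zero_le _)
    have k2 : s2.natDegree ≤ n := by
      rw [hs2]
      exact natDegree_add_le_of_degree_le (natDegree_add_le_of_degree_le (natDegree_X_pow_le n)
        (le_trans (natDegree_X_pow_le _) (by omega)))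
        (by rw [natDegree_C]; exact Nat.zero_le _)
    exact natDegree_add_le_of_degree_le (natDegree_add_le_of_degree_le
      (le_trans (natDegree_C_mul_le _ _) k1) (le_trans (natDegree_C_mul_le _ _) k2))
      (le_trans (natDegree_C_mul_le _ _) hd3.le)
  have hdeg : (C (e1 : 𝓞 k) * s1 + C (e2 : 𝓞 k) * s2 + C (e3 : 𝓞 k) * s3).natDegree = n := by
    refine natDegree_eq_of_le_of_coeff_ne_zero hle ?_
    rw [hn0]
    exact one_ne_zero
  refine ⟨(2 * 3 * l) ^ 2, C (e1 : 𝓞 k) * s1 + C (e2 : 𝓞 k) * s2 + C (e3 : 𝓞 k) * s3, ?_, hdeg,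
    ?_, ?_⟩
  · have := hl.pos
    positivity
  · unfold Monic leadingCoeff
    rw [hdeg, hn0]
  intro f hf hfm hcong
  have m1 : (2 : ℤ) ^ 2 ∣ (((2 * 3 * l) ^ 2 : ℕ) : ℤ) := by
    push_cast
    exact ⟨3 ^ 2 * (l : ℤ) ^ 2, by ring⟩
  have m2 : (3 : ℤ) ^ 2 ∣ (((2 * 3 * l) ^ 2 : ℕ) : ℤ) := by
    push_cast
    exact ⟨2 ^ 2 * (l : ℤ) ^ 2, by ring⟩
  have m3 : (l : ℤ) ^ 2 ∣ (((2 * 3 * l) ^ 2 : ℕ) : ℤ) := by
    push_cast
    exact ⟨2 ^ 2 * 3 ^ 2, by ring⟩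
  have i1 : (((2 : ℤ) ^ 2 : ℤ) : 𝓞 k) ∈ l1.asIdeal ^ 2 := by
    simpa using tq18_sq p1
  have i2 : (((3 : ℤ) ^ 2 : ℤ) : 𝓞 k) ∈ l2.asIdeal ^ 2 := by
    simpa using tq18_sq p2
  have i3 : (((l : ℤ) ^ 2 : ℤ) : 𝓞 k) ∈ l3.asIdeal ^ 2 := by
    simpa using tq18_sq p3
  have r1 : ∀ i, f.coeff i - s1.coeff i ∈ l1.asIdeal ^ 2 := by
    intro i
    have h := hcong i
    rw [hcoeff] at h
    exact tq18_red i1 m1 h a1 a2 a3
  have r2 : ∀ i, f.coeff i - s2.coeff i ∈ l2.asIdeal ^ 2 := by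
    intro i
    have h := hcong i
    rw [hcoeff, add_comm ((e1 : 𝓞 k) * _) ((e2 : 𝓞 k) * _)] at h
    exact tq18_red i2 m2 h b2 b1 b3
  have r3 : ∀ i, f.coeff i - s3.coeff i ∈ l3.asIdeal ^ 2 := by
    intro i
    have h := hcong i
    rw [hcoeff, add_comm ((e1 : 𝓞 k) * _ + (e2 : 𝓞 k) * _) ((e3 : 𝓞 k) * _), ← add_assoc] at h
    exact tq18_red i3 m3 h c3 c1 c2
  have hirr : Irreducible (FK f) := tq18_first hn q1 t1 hf hfm r1
  refine ⟨hirr, ?_⟩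
  intro L _ _ _ _ R hgen
  have htr := trans_of_irreducible (by omega) hirr R
  have hprim := tq18_second hn q2 t2 hf hfm r2 R htr
  obtain ⟨σ, hσ⟩ := swap_loc (by omega) hl p3 (by omega) hf hfm q3 t3 r3 R hgen
  exact Equiv.Perm.subgroup_eq_top_of_isPreprimitive_of_isSwap_mem hprim (R.permHom σ) hσ ⟨σ, rfl⟩

end

end Pool.Agent.H98.TQ
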