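import Pool.Agent.H98.TQ.Defs

/-! Row TQ-12: size of the roots. -/

set_option autoImplicit false

open Polynomial IsDedekindDomain NumberField Pool.Agent.H35.AN
open Pool.Agent.H67.MU (Bdd)
open Pool.Agent.H92.SQ2 (gg WW DD mu ee)

namespace Pool.Agent.H98.TQ

section

variable (k : Type) [Field k] [NumberField k]

theorem root_bound (n N0 : ℕ) (s : (𝓞 k)[X]) (hn : 2 ≤ n) : ∃ C : ℝ, 1 ≤ C ∧ ∀ b h : ℕ, 1 ≤ h →
    ∀ f : (𝓞 k)[X], Fam n N0 s b h f → ∀ (σ : k →+* ℂ) (z : ℂ), (FC σ f).eval z = 0 →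
      ‖z‖ ≤ C * (h : ℝ) ^ b := by
  classical
  refine ⟨(∑ τ : k →+* ℂ, ‖τ (s.coeff (n - 1) : k)‖) + n, ?_, ?_⟩
  · have h1 : (2 : ℝ) ≤ n := by exact_mod_cast hn
    have h2 : 0 ≤ ∑ τ : k →+* ℂ, ‖τ (s.coeff (n - 1) : k)‖ :=
      Finset.sum_nonneg fun _ _ => norm_nonneg _
    linarith
  intro b h hh f hf σ z hz
  set H : ℝ := (h : ℝ) ^ b with hH
  have hH1 : 1 ≤ H := one_le_pow₀ (by exact_mod_cast hh)
  have hH0 : 0 < H := by linarith
  set S : ℝ := ∑ τ : k →+* ℂ, ‖τ (s.coeff (n - 1) : k)‖ with hS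
  have hS0 : 0 ≤ S := Finset.sum_nonneg fun _ _ => norm_nonneg _
  have hSs : ‖σ (s.coeff (n - 1) : k)‖ ≤ S :=
    Finset.single_le_sum (f := fun τ : k →+* ℂ => ‖τ (s.coeff (n - 1) : k)‖)
      (fun _ _ => norm_nonneg _) (Finset.mem_univ σ)
  by_contra hlt
  rw [not_le] at hlt
  have hn1 : (2 : ℝ) ≤ n := by exact_mod_cast hn
  have hzH : H ≤ ‖z‖ := by nlinarith
  have hz0 : 0 < ‖z‖ := by linarith
  have hco : ∀ i, (FC σ f).coeff i = σ (f.coeff i : k) := by
    intro i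
    simp only [FC, FK, coeff_map]
  have hmon : (FC σ f).Monic := (hf.monic.map _).map _
  have hdeg : (FC σ f).natDegree = n := by
    have h1 : (FC σ f).natDegree = (FK f).natDegree := natDegree_map _
    have h2 : (FK f).natDegree = f.natDegree :=
      natDegree_map_eq_of_injective (FaithfulSMul.algebraMap_injective (𝓞 k) k) f
    rw [h1, h2, hf.deg]
  -- the equation
  have heq : z ^ n = -∑ i ∈ Finset.range n, σ (f.coeff i : k) * z ^ i := by
    have h1 := hz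
    rw [eval_eq_sum_range, hdeg, Finset.sum_range_succ] at h1
    have h2 : (FC σ f).coeff n = 1 := by
      rw [← hdeg]
      exact hmon
    rw [h2] at h1
    simp only [hco, one_mul] at h1
    exact (neg_eq_of_add_eq_zero_right h1).symm
  have hle : ‖z‖ ^ n ≤ ∑ i ∈ Finset.range n, ‖σ (f.coeff i : k)‖ * ‖z‖ ^ i := by
    rw [← norm_pow, heq, norm_neg]
    refine (norm_sum_le _ _).trans (le_of_eq (Finset.sum_congr rfl fun i _ => ?_))
    rw [norm_mul, norm_pow]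
  obtain ⟨m, rfl⟩ : ∃ m, n = m + 1 := ⟨n - 1, by omega⟩
  simp only [Nat.add_sub_cancel] at hSs
  rw [Finset.sum_range_succ] at hle
  have hlast : ‖σ (f.coeff m : k)‖ * ‖z‖ ^ m ≤ S * H * ‖z‖ ^ m := by
    have h1 : f.coeff m = s.coeff m := by
      have := hf.snd
      simpa using this
    rw [h1]
    refine mul_le_mul_of_nonneg_right ?_ (by positivity)
    nlinarith
  have hrest : ∑ i ∈ Finset.range m, ‖σ (f.coeff i : k)‖ * ‖z‖ ^ i ≤
      ∑ i ∈ Finset.range m, H * ‖z‖ ^ m := by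
    refine Finset.sum_le_sum fun i hi => ?_
    have him : i < m := Finset.mem_range.1 hi
    have h1 : ‖σ (f.coeff i : k)‖ ≤ H ^ (m + 1 - i) := by
      have h2 := hf.ht i (by omega) σ
      rw [hH, ← pow_mul]
      exact h2
    have h4 : H ^ (m + 1 - i) = H * H ^ (m - i) := by
      rw [← pow_succ']
      congr 1
      omega
    have h5 : H ^ (m - i) ≤ ‖z‖ ^ (m - i) := pow_le_pow_left₀ hH0.le hzH _
    have h6 : ‖z‖ ^ m = ‖z‖ ^ (m - i) * ‖z‖ ^ i := by
      rw [← pow_add]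
      congr 1
      omega
    rw [h6, ← mul_assoc]
    refine mul_le_mul_of_nonneg_right ?_ (by positivity)
    rw [h4] at h1
    exact h1.trans (mul_le_mul_of_nonneg_left h5 hH0.le)
  rw [Finset.sum_const, Finset.card_range, nsmul_eq_mul] at hrest
  have hfin : ‖z‖ ^ m * ‖z‖ ≤ ‖z‖ ^ m * ((S + m) * H) := by
    rw [← pow_succ]
    calc ‖z‖ ^ (m + 1) ≤ (m : ℝ) * (H * ‖z‖ ^ m) + S * H * ‖z‖ ^ m :=
          hle.trans (add_le_add hrest hlast)
      _ = _ := by ring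
  have h7 : ‖z‖ ≤ (S + m) * H := le_of_mul_le_mul_left hfin (by positivity)
  push_cast at hlt
  nlinarith

end

end Pool.Agent.H98.TQ
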