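import Pool.Agent.H98.TQ.Defs
import Pool.Agent.H92.SQ.Trans

/-!
# Project TQ (MP_a3214d), TQ-14: from the splitting field to `IsSymF`
-/

set_option autoImplicit false

open Polynomial IsDedekindDomain NumberField Pool.Agent.H35.AN
open Pool.Agent.H67.MU (Bdd)
open Pool.Agent.H92.SQ2 (gg WW DD mu ee)

namespace Pool.Agent.H98.TQ

section

variable (k : Type) [Field k] [NumberField k]

theorem transport_sym {n : ℕ} (hn : 2 ≤ n) {F : k[X]} (R : Roots k (AlgebraicClosure k) n F)
    (hG : ∀ (L : Type) [Field L] [NumberField L] [Algebra k L] [IsGalois k L]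
      (R' : Roots k L n F), IntermediateField.adjoin k (Set.range R'.θ) = ⊤ →
        R'.permHom.range = ⊤) (i : Fin n) :
    IsSymF k n (IntermediateField.adjoin k {R.θ i}) := by
  have _h := hn
  exact Pool.Agent.H92.SQ.sq1_gen k R hG i

end

end Pool.Agent.H98.TQ
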