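import Pool.Agent.H98.TQ.Ram
import Pool.Agent.H98.TQ.Disc2
import Pool.Agent.H98.TQ.Root
import Pool.Agent.H98.TQ.Trans
import Pool.Agent.H98.TQ.Group
import Pool.Agent.H35.AN.Basic

/-!
# Project TQ (MP_a3214d), TQ-19: everything about one member of the family
-/

set_option autoImplicit false
set_option maxHeartbeats 400000

open Polynomial IsDedekindDomain NumberField Pool.Agent.H35.AN
open Pool.Agent.H67.MU (Bdd)
open Pool.Agent.H92.SQ2 (gg WW DD mu ee)

namespace Pool.Agent.H98.TQ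

section

variable (k : Type) [Field k] [NumberField k]

variable {k} in
private theorem tq19_roots {n : ℕ} {f : (𝓞 k)[X]} (hf : f.natDegree = n)
    (hirr : Irreducible (FK f)) : Nonempty (Roots k (AlgebraicClosure k) n (FK f)) := by
  have hinj : Function.Injective (algebraMap (𝓞 k) k) := FaithfulSMul.algebraMap_injective _ _
  have hd : (FK f).natDegree = n := by
    unfold FK
    rw [natDegree_map_eq_of_injective hinj, hf]
  have hsep : (FK f).Separable := hirr.separable
  refine an8_roots hd (leadingCoeff_ne_zero.2 hirr.ne_zero) ?_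
  intro x hx hx'
  rw [eval_map_algebraMap] at hx hx'
  obtain ⟨u, v, huv⟩ := hsep
  have h1 := congrArg (aeval x) huv
  rw [map_add, map_mul, map_mul, hx, hx', mul_zero, mul_zero, add_zero, map_one] at h1
  exact zero_ne_one h1

theorem mem_key (n : ℕ) (hn : 3 ≤ n) : ∃ (N0 : ℕ) (s : (𝓞 k)[X]) (C : ℝ), 0 < N0 ∧ s.Monic ∧
    s.natDegree = n ∧ 1 ≤ C ∧ ∀ b h : ℕ, 1 ≤ h → ∀ f : (𝓞 k)[X], Fam n N0 s b h f →
      Irreducible (FK f) ∧
      (∀ (σ : k →+* ℂ) (z : ℂ), (FC σ f).eval z = 0 → ‖z‖ ≤ C * (h : ℝ) ^ b) ∧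
      (∀ (m : Ideal (𝓞 k)) (r : 𝓞 k), m ≠ ⊥ → Dbl m r f →
        (Ideal.absNorm m : ℝ) ^ 2 ≤ C * (h : ℝ) ^ (Module.finrank ℚ k * (b * n * (n - 1)))) ∧
      ∃ x : AlgebraicClosure k, aeval x (FK f) = 0 ∧
        IsSymF k n (IntermediateField.adjoin k {x}) ∧
        ∃ _ : NumberField (IntermediateField.adjoin k {x}),
          SymK k n (IntermediateField.adjoin k {x}) ∧
          |(NumberField.discr (IntermediateField.adjoin k {x}) : ℝ)| ≤
            C * (h : ℝ) ^ (Module.finrank ℚ k * (b * n * (n - 1))) ∧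
          (∀ (m : Ideal (𝓞 k)) (r : 𝓞 k), m ≠ ⊥ → Dbl m r f →
            |(NumberField.discr (IntermediateField.adjoin k {x}) : ℝ)| *
                (Ideal.absNorm m : ℝ) ^ 2 ≤
              C * (h : ℝ) ^ (Module.finrank ℚ k * (b * n * (n - 1)))) ∧
          (∀ (l : HeightOneSpectrum (𝓞 k)) (r : 𝓞 k), (Ideal.absNorm l.asIdeal).Prime →
            f.eval r ∈ l.asIdeal → f.eval r ∉ l.asIdeal ^ 2 → f.derivative.eval r ∈ l.asIdeal →
            ((Ideal.absNorm l.asIdeal : ℕ) : ℤ) ∣
              NumberField.discr (IntermediateField.adjoin k {x})) := by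
  obtain ⟨M, s, hM, hsn, hsm, hkey⟩ := group_key k n hn
  obtain ⟨C1, hC1, hroot⟩ := root_bound k n M s (by omega)
  obtain ⟨C2, hC2, hdisc⟩ := disc_bound2 k n (by omega)
  set d0 : ℕ := Module.finrank ℚ k with hd0
  set C : ℝ := C1 + C2 * C1 ^ (d0 * (n * (n - 1))) with hC
  have hC1p : 0 < C1 := by linarith
  have hpos : 0 < C2 * C1 ^ (d0 * (n * (n - 1))) := by positivity
  refine ⟨M, s, C, hM, hsm, hsn, by linarith, ?_⟩
  intro b h hh f hf
  obtain ⟨hirr, hgrp⟩ := hkey f hf.deg hf.monic hf.cong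
  have hhR : (1 : ℝ) ≤ (h : ℝ) ^ b := one_le_pow₀ (by exact_mod_cast hh)
  have hR1 : 1 ≤ C1 * (h : ℝ) ^ b := by nlinarith
  obtain ⟨R⟩ := tq19_roots hf.deg hirr
  have hn0 : 0 < n := by omega
  set x : AlgebraicClosure k := R.θ ⟨0, hn0⟩ with hx
  have hxf : aeval x (FK f) = 0 := by
    have h1 := R.eval_root ⟨0, hn0⟩
    rw [eval_map_algebraMap] at h1
    exact h1
  have hsym : IsSymF k n (IntermediateField.adjoin k {x}) :=
    transport_sym k (by omega) R hgrp ⟨0, hn0⟩
  have hfr : Module.finrank k (IntermediateField.adjoin k {x}) = n := hsym.1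
  have hNF : NumberField (IntermediateField.adjoin k {x}) :=
    { to_charZero := charZero_of_injective_algebraMap
        (algebraMap k (IntermediateField.adjoin k {x})).injective
      to_finiteDimensional := by
        have h1 : Module.Finite k (IntermediateField.adjoin k {x}) :=
          Module.finite_of_finrank_pos (by
            rw [hfr]
            exact hn0)
        exact Module.Finite.trans k _ }
  set K := IntermediateField.adjoin k {x} with hK
  set θ : K := ⟨x, IntermediateField.mem_adjoin_simple_self k x⟩ with hθ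
  have hθf : aeval θ (FK f) = 0 := by
    have h1 : aeval (algebraMap K (AlgebraicClosure k) θ) (FK f) = 0 := hxf
    rw [aeval_algebraMap_apply] at h1
    exact (map_eq_zero _).1 h1
  have hθR : ∀ φ : K →+* ℂ, ‖φ θ‖ ≤ C1 * (h : ℝ) ^ b := by
    intro φ
    refine hroot b h hh f hf (φ.comp (algebraMap k K)) (φ θ) ?_
    have h1 : φ (aeval θ (FK f)) = 0 := by
      rw [hθf, map_zero]
    rw [aeval_def, hom_eval₂] at h1
    unfold FC
    rw [eval_map]
    exact h1
  have hfin : NumberField K := hNF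
  have hmain : ∀ (m : Ideal (𝓞 k)) (r : 𝓞 k), m ≠ ⊥ → Dbl m r f →
      |(NumberField.discr K : ℝ)| * (Ideal.absNorm m : ℝ) ^ 2 ≤
        C * (h : ℝ) ^ (d0 * (b * n * (n - 1))) := by
    intro m r hm h1
    have h3 := hdisc K f θ (C1 * (h : ℝ) ^ b) m r hf.deg hf.monic hfr hirr hθf hR1 hθR hm h1
    refine le_trans h3 ?_
    have h4 : b * (d0 * (n * (n - 1))) = d0 * (b * n * (n - 1)) := by ring
    rw [mul_pow, ← pow_mul, h4, ← mul_assoc]
    apply mul_le_mul_of_nonneg_right _ (by positivity)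
    rw [hC]
    linarith
  have hdisc1 : (1 : ℝ) ≤ |(NumberField.discr K : ℝ)| := by
    have h1 : (1 : ℤ) ≤ |NumberField.discr K| := Int.one_le_abs (NumberField.discr_ne_zero K)
    exact_mod_cast h1
  refine ⟨hirr, ?_, ?_, x, hxf, hsym, hNF, hsym, ?_, hmain, ?_⟩
  · intro σ z hz
    refine le_trans (hroot b h hh f hf σ z hz) ?_
    apply mul_le_mul_of_nonneg_right _ (by positivity)
    linarith
  · intro m r hm h1
    refine le_trans ?_ (hmain m r hm h1)
    have : 0 ≤ (Ideal.absNorm m : ℝ) ^ 2 := by positivity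
    nlinarith
  · have h1 := hmain ⊤ 0 top_ne_bot ⟨by rw [Ideal.top_pow]; exact Submodule.mem_top,
      Submodule.mem_top⟩
    simpa using h1
  · intro l r hl h1 h2 h3
    exact ramified (by omega) K hfr hf.deg hf.monic hirr hθf hl h1 h2 h3

end

end Pool.Agent.H98.TQ
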