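import Pool.Agent.H98.TQ.Defs

/-!
# Project TQ (MP_a3214d): row TQ-13

Boundedly many large prime ideals can be planted in a polynomial over the integers of a number
field, and boundedly many large primes divide the discriminant.
-/

set_option autoImplicit false

open Polynomial IsDedekindDomain NumberField Pool.Agent.H35.AN
open Pool.Agent.H67.MU (Bdd)
open Pool.Agent.H92.SQ2 (gg WW DD mu ee)

namespace Pool.Agent.H98.TQ

section

variable (k : Type) [Field k] [NumberField k]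

private theorem tq13_lt (C : ℝ) (h : ℕ) (hh : h ≥ ⌈C⌉₊ + 1) : C < h := by
  have h2 : C ≤ (⌈C⌉₊ : ℝ) := Nat.le_ceil C
  have h3 : ((⌈C⌉₊ + 1 : ℕ) : ℝ) ≤ h := by exact_mod_cast hh
  push_cast at h3
  linarith

/-- The product of the norms of `K` members of a set as in `PS h u` is at least `h ^ K`. -/
private theorem tq13_prod {h u : ℕ} (hu : 2 ≤ u) {S U : Finset (HeightOneSpectrum (𝓞 k))}
    (hS : PS h u S) (hU : U ⊆ S) :
    (h : ℝ) ^ U.card ≤ ∏ p ∈ U, (Ideal.absNorm p.asIdeal : ℝ) := by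
  rw [← Finset.prod_const]
  apply Finset.prod_le_prod
  · intro p _
    positivity
  · intro p hp
    have h1 : h ^ (u - 1) < Ideal.absNorm p.asIdeal := hS.lo p (hU hp)
    have h2 : h ≤ h ^ (u - 1) := Nat.le_self_pow (by omega) h
    exact_mod_cast (h2.trans h1.le)

/-- Double roots modulo finitely many prime ideals can be glued. -/
private theorem tq13_glue (f : (𝓞 k)[X]) (U : Finset (HeightOneSpectrum (𝓞 k)))
    (hp : ∀ p ∈ U, ∃ x : 𝓞 k, Dbl p.asIdeal x f) :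
    ∃ r : 𝓞 k, Dbl (∏ p ∈ U, p.asIdeal) r f := by
  choose! g hg using hp
  obtain ⟨r, hr⟩ := IsDedekindDomain.exists_forall_sub_mem_ideal (s := U)
    (fun p : HeightOneSpectrum (𝓞 k) => p.asIdeal) (fun _ => 2)
    (fun p _ => Ideal.prime_of_isPrime p.ne_bot p.isPrime)
    (fun p _ q _ hpq hh => hpq (HeightOneSpectrum.ext hh)) (fun p => g p)
  refine ⟨r, ?_, ?_⟩
  · rw [← Ideal.dvd_span_singleton, ← Finset.prod_pow]
    apply Finset.prod_dvd_of_coprime
    · intro p _ q _ hpq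
      exact HeightOneSpectrum.isCoprime_pow_of_ne p q hpq 2 2
    · intro p hp
      rw [Ideal.dvd_span_singleton]
      have h1 : f.eval r - f.eval (g p) ∈ p.asIdeal ^ 2 :=
        Ideal.mem_of_dvd _ (sub_dvd_eval_sub r (g p) f) (hr p hp)
      have h2 := Ideal.add_mem _ h1 (hg p hp).1
      rwa [sub_add_cancel] at h2
  · rw [← Ideal.dvd_span_singleton]
    apply Finset.prod_dvd_of_coprime
    · intro p _ q _ hpq
      exact HeightOneSpectrum.isCoprime_of_ne p q hpq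
    · intro p hp
      rw [Ideal.dvd_span_singleton]
      have h0 : r - g p ∈ p.asIdeal := Ideal.pow_le_self two_ne_zero (hr p hp)
      have h1 : f.derivative.eval r - f.derivative.eval (g p) ∈ p.asIdeal :=
        Ideal.mem_of_dvd _ (sub_dvd_eval_sub r (g p) f.derivative) h0
      have h2 := Ideal.add_mem _ h1 (hg p hp).2
      rwa [sub_add_cancel] at h2

open scoped Classical in
theorem few_m (n b u : ℕ) (hu : 2 ≤ u) (C : ℝ) : ∃ h0 : ℕ, ∀ h ≥ h0,
    ∀ S : Finset (HeightOneSpectrum (𝓞 k)), PS h u S → ∀ f : (𝓞 k)[X],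
    (∀ (m : Ideal (𝓞 k)) (r : 𝓞 k), m ≠ ⊥ → Dbl m r f →
      (Ideal.absNorm m : ℝ) ^ 2 ≤ C * (h : ℝ) ^ (Module.finrank ℚ k * (b * n * (n - 1)))) →
    (S.filter fun m => ∃ x : 𝓞 k, Dbl m.asIdeal x f).card ≤
      Module.finrank ℚ k * (b * n * (n - 1)) := by
  refine ⟨⌈C⌉₊ + 1, ?_⟩
  intro h hh S hS f hf
  by_contra hcon
  obtain ⟨U, hUS, hUc⟩ := Finset.exists_subset_card_eq
    (show Module.finrank ℚ k * (b * n * (n - 1)) + 1 ≤
      (S.filter fun m => ∃ x : 𝓞 k, Dbl m.asIdeal x f).card by omega)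
  have hUP : U ⊆ S := hUS.trans (Finset.filter_subset _ _)
  obtain ⟨r, hr⟩ := tq13_glue k f U (fun p hp => (Finset.mem_filter.1 (hUS hp)).2)
  have hne : (∏ p ∈ U, p.asIdeal) ≠ ⊥ := by
    rw [← Ideal.zero_eq_bot]
    exact Finset.prod_ne_zero_iff.2 fun p _ => p.ne_bot
  have h1 := hf _ r hne hr
  have hh1 : 1 ≤ h := by omega
  have hhR : (1 : ℝ) ≤ h := by exact_mod_cast hh1
  have hhC : C < h := tq13_lt C h hh
  have hbig := tq13_prod k hu hS hUP
  have hcast : ((Ideal.absNorm (∏ p ∈ U, p.asIdeal) : ℕ) : ℝ) =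
      ∏ p ∈ U, (Ideal.absNorm p.asIdeal : ℝ) := by
    rw [map_prod, Nat.cast_prod]
  rw [hcast] at h1
  rw [hUc] at hbig
  have hP1 : (1 : ℝ) ≤ ∏ p ∈ U, (Ideal.absNorm p.asIdeal : ℝ) :=
    le_trans (one_le_pow₀ hhR) hbig
  have h2 : (h : ℝ) ^ (Module.finrank ℚ k * (b * n * (n - 1)) + 1) ≤
      (∏ p ∈ U, (Ideal.absNorm p.asIdeal : ℝ)) ^ 2 :=
    hbig.trans (le_self_pow₀ hP1 two_ne_zero)
  rw [pow_succ] at h2
  have h4 : C * (h : ℝ) ^ (Module.finrank ℚ k * (b * n * (n - 1))) <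
      (h : ℝ) ^ (Module.finrank ℚ k * (b * n * (n - 1))) * h := by
    rw [mul_comm]
    exact mul_lt_mul_of_pos_left hhC (by positivity)
  linarith

open scoped Classical in
theorem few_l (n b v : ℕ) (hv : 2 ≤ v) (C : ℝ) : ∃ h0 : ℕ, ∀ h ≥ h0, ∀ D : ℤ, D ≠ 0 →
    |(D : ℝ)| ≤ C * (h : ℝ) ^ (Module.finrank ℚ k * (b * n * (n - 1))) →
    ∀ S : Finset (HeightOneSpectrum (𝓞 k)), PS h v S →
    (S.filter fun l => ((Ideal.absNorm l.asIdeal : ℕ) : ℤ) ∣ D).card ≤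
      Module.finrank ℚ k * (b * n * (n - 1)) + 1 := by
  refine ⟨⌈C⌉₊ + 1, ?_⟩
  intro h hh D hD hDC S hS
  by_contra hcon
  obtain ⟨U, hUS, hUc⟩ := Finset.exists_subset_card_eq
    (show Module.finrank ℚ k * (b * n * (n - 1)) + 2 ≤
      (S.filter fun l => ((Ideal.absNorm l.asIdeal : ℕ) : ℤ) ∣ D).card by omega)
  have hUP : U ⊆ S := hUS.trans (Finset.filter_subset _ _)
  have hh1 : 1 ≤ h := by omega
  have hhR : (1 : ℝ) ≤ h := by exact_mod_cast hh1
  have hhC : C < h := tq13_lt C h hh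
  have hcop : (U : Set (HeightOneSpectrum (𝓞 k))).Pairwise
      (Function.onFun IsCoprime fun p => ((Ideal.absNorm p.asIdeal : ℕ) : ℤ)) := by
    intro p hp q hq hpq
    exact Nat.isCoprime_iff_coprime.2 ((Nat.coprime_primes (hS.prime p (hUP hp))
      (hS.prime q (hUP hq))).2 fun hh => hpq (hS.inj p (hUP hp) q (hUP hq) hh))
  have hdvd : (∏ p ∈ U, ((Ideal.absNorm p.asIdeal : ℕ) : ℤ)) ∣ D :=
    Finset.prod_dvd_of_coprime hcop (fun p hp => (Finset.mem_filter.1 (hUS hp)).2)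
  have hle : |∏ p ∈ U, ((Ideal.absNorm p.asIdeal : ℕ) : ℤ)| ≤ |D| :=
    Int.le_of_dvd (abs_pos.mpr hD) ((abs_dvd_abs _ _).mpr hdvd)
  have hcast : (((∏ p ∈ U, ((Ideal.absNorm p.asIdeal : ℕ) : ℤ) : ℤ)) : ℝ) =
      ∏ p ∈ U, (Ideal.absNorm p.asIdeal : ℝ) := by
    push_cast
    rfl
  have hleR : |∏ p ∈ U, (Ideal.absNorm p.asIdeal : ℝ)| ≤ |(D : ℝ)| := by
    rw [← hcast, ← Int.cast_abs, ← Int.cast_abs]
    exact_mod_cast hle
  have hbig := tq13_prod k hv hS hUP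
  rw [hUc] at hbig
  have h2 : (h : ℝ) ^ (Module.finrank ℚ k * (b * n * (n - 1)) + 2) ≤
      C * (h : ℝ) ^ (Module.finrank ℚ k * (b * n * (n - 1))) :=
    hbig.trans ((le_abs_self _).trans (hleR.trans hDC))
  have h3 : (h : ℝ) ^ (Module.finrank ℚ k * (b * n * (n - 1)) + 1) ≤
      (h : ℝ) ^ (Module.finrank ℚ k * (b * n * (n - 1)) + 2) :=
    pow_le_pow_right₀ hhR (by omega)
  rw [pow_succ (h : ℝ) (Module.finrank ℚ k * (b * n * (n - 1)))] at h3
  have h4 : C * (h : ℝ) ^ (Module.finrank ℚ k * (b * n * (n - 1))) <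
      (h : ℝ) ^ (Module.finrank ℚ k * (b * n * (n - 1))) * h := by
    rw [mul_comm]
    exact mul_lt_mul_of_pos_left hhC (by positivity)
  linarith

end

end Pool.Agent.H98.TQ
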