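import Pool.Agent.H98.TQ.DefsL

/-!
# Project TQ (MP_a3214d), row TQL-1

The number of independent short integers of trace zero.
-/

set_option autoImplicit false

open Polynomial IsDedekindDomain NumberField Pool.Agent.H35.AN
open Pool.Agent.H67.MU (Bdd)
open Pool.Agent.H92.SQ2 (gg WW DD mu ee)

namespace Pool.Agent.H98.TQ

section

variable (k : Type) [Field k] [NumberField k]

/-- independent elements of trace zero, together with `1`, are independent -/
private theorem tql1_le {n : ℕ} {K : Type} [Field K] [NumberField K] [Algebra k K]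
    (hK : Module.finrank k K = n) {s : ℕ} (z : Fin s → K)
    (hz : ∀ i, Algebra.trace k K (z i) = 0) (hi : LinearIndependent k z) : s + 1 ≤ n := by
  have hfin : FiniteDimensional k K := Module.Finite.of_restrictScalars_finite ℚ k K
  have hpos : 0 < Module.finrank k K := Module.finrank_pos
  have h1 : (1 : K) ∉ Submodule.span k (Set.range z) := by
    intro h
    have h2 : Submodule.span k (Set.range z) ≤ LinearMap.ker (Algebra.trace k K) := by
      rw [Submodule.span_le]
      rintro _ ⟨i, rfl⟩
      exact LinearMap.mem_ker.2 (hz i)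
    have h3 := LinearMap.mem_ker.1 (h2 h)
    rw [← map_one (algebraMap k K), Algebra.trace_algebraMap, nsmul_eq_mul, mul_one,
      Nat.cast_eq_zero] at h3
    omega
  have h4 : LinearIndependent k (Fin.cons 1 z : Fin (s + 1) → K) :=
    linearIndependent_finCons.2 ⟨hi, h1⟩
  have h5 := h4.fintype_card_le_finrank
  rwa [Fintype.card_fin, hK] at h5

theorem rank_split {n : ℕ} {K : Type} [Field K] [NumberField K] [Algebra k K]
    (hK : Module.finrank k K = n) (R : ℝ) : ∃ s : ℕ, s ≤ n - 1 ∧ Thin k s R K ∧
      ∃ z : Fin s → K, (∀ i, Sh k R (z i)) ∧ LinearIndependent k z := by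
  classical
  set Q : ℕ → Prop := fun s => ∃ z : Fin s → K, (∀ i, Sh k R (z i)) ∧ LinearIndependent k z
    with hQ
  have h0 : Q 0 := ⟨fun i => i.elim0, fun i => i.elim0, linearIndependent_empty_type⟩
  have hle : ∀ s, Q s → s + 1 ≤ n := by
    rintro s ⟨z, hz, hi⟩
    exact tql1_le k hK z (fun i => (hz i).tr) hi
  refine ⟨Nat.findGreatest Q (n - 1), Nat.findGreatest_le _, ?_, ?_⟩
  · intro z hz hi
    have h1 : Q (Nat.findGreatest Q (n - 1) + 1) := ⟨z, hz, hi⟩
    have h2 := hle _ h1
    have h3 := Nat.le_findGreatest (P := Q) (show Nat.findGreatest Q (n - 1) + 1 ≤ n - 1 by omega)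
      h1
    omega
  · exact Nat.findGreatest_spec (P := Q) (Nat.zero_le _) h0

end

end Pool.Agent.H98.TQ
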