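import Pool.Agent.H98.TQ.DefsL

/-!
# Project TQ (MP_a3214d), row TQL-5

From lower bounds along all large `h` to infinitely many (arbitrarily large) `B`.
-/

set_option autoImplicit false

open Filter

namespace Pool.Agent.H98.TQ

private theorem tql5_pow (θ c C : ℝ) (hc : 0 < c) (hC : 0 < C) (a b : ℕ) (h : θ * b < a) :
    ∀ᶠ x : ℝ in atTop, (C * x ^ b) ^ θ ≤ c * x ^ a := by
  have h1 : Tendsto (fun x : ℝ => x ^ (-((a : ℝ) - θ * b))) atTop (nhds 0) :=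
    tendsto_rpow_neg_atTop (by linarith)
  have h2 : Tendsto (fun x : ℝ => C ^ θ * x ^ (-((a : ℝ) - θ * b))) atTop (nhds (C ^ θ * 0)) :=
    h1.const_mul _
  rw [mul_zero] at h2
  filter_upwards [h2.eventually (gt_mem_nhds hc), eventually_gt_atTop (0 : ℝ)] with x hx hx0
  have h3 : (C * x ^ b) ^ θ = C ^ θ * x ^ (θ * b) := by
    rw [Real.mul_rpow hC.le (pow_nonneg hx0.le _), ← Real.rpow_natCast x b,
      ← Real.rpow_mul hx0.le, mul_comm (b : ℝ) θ]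
  have h4 : C ^ θ * x ^ (θ * b) = (C ^ θ * x ^ (-((a : ℝ) - θ * b))) * x ^ a := by
    rw [mul_assoc, ← Real.rpow_natCast x a, ← Real.rpow_add hx0]
    ring_nf
  rw [h3, h4]
  exact mul_le_mul_of_nonneg_right hx.le (pow_nonneg hx0.le _)

theorem final_limsup (N : ℝ → ℕ) (S : Finset ℕ) (e1 e2 : ℕ → ℕ) (θ c C : ℝ) (hc : 0 < c)
    (hC : 0 < C) (he2 : ∀ s ∈ S, 0 < e2 s) (hθ : ∀ s ∈ S, θ * e2 s < e1 s) (h0 : ℕ)
    (hN : ∀ h : ℕ, h0 ≤ h → ∃ s ∈ S, c * (h : ℝ) ^ (e1 s) ≤ (N (C * (h : ℝ) ^ (e2 s)) : ℝ)) :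
    ∃ᶠ B : ℝ in Filter.atTop, B ^ θ ≤ (N B : ℝ) := by
  rw [frequently_atTop]
  intro B0
  have h1 : ∀ s ∈ S, ∀ᶠ x : ℝ in atTop, (C * x ^ (e2 s)) ^ θ ≤ c * x ^ (e1 s) ∧
      B0 ≤ C * x ^ (e2 s) := by
    intro s hs
    refine (tql5_pow θ c C hc hC (e1 s) (e2 s) (hθ s hs)).and ?_
    have h2 : Tendsto (fun x : ℝ => C * x ^ (e2 s)) atTop atTop :=
      (tendsto_pow_atTop (he2 s hs).ne').const_mul_atTop hC
    exact h2.eventually (eventually_ge_atTop B0)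
  have h2 : ∀ᶠ x : ℝ in atTop, ∀ s ∈ S, (C * x ^ (e2 s)) ^ θ ≤ c * x ^ (e1 s) ∧
      B0 ≤ C * x ^ (e2 s) := (Filter.eventually_all_finset S).2 h1
  have h3 := tendsto_natCast_atTop_atTop (R := ℝ)
  obtain ⟨h, hh1, hh2⟩ := ((h3.eventually h2).and (eventually_ge_atTop h0)).exists
  obtain ⟨s, hs, hs2⟩ := hN h hh2
  exact ⟨C * (h : ℝ) ^ (e2 s), (hh1 s hs).2, (hh1 s hs).1.trans hs2⟩

end Pool.Agent.H98.TQ
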