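import Pool.Agent.H41.Rel.Count

/-!
# Projects TQ, T3, RL (MP_a3214d): the counting function

The number of extensions of degree `n` with group `S_n` of a number field `k`.
-/

set_option autoImplicit false

open NumberField Pool.Agent.H35.AN

namespace Pool.Agent.H98.TQ

/-- the count is monotone in the bound -/
theorem count_mono (k : Type) [Field k] [NumberField k] (n : ℕ) : Monotone (malleCount k n ⊤) :=
  fun _ _ h => Pool.Agent.H41.Rel.malleCount_mono k n ⊤ h

/-- `M` has degree `n` over `k` and every permutation of its `n` embeddings over `k` is induced by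
an automorphism, that is, the Galois closure of `M` over `k` has the group `S_n` -/
def IsSn (k : Type) [Field k] (n : ℕ) (M : IntermediateField k (AlgebraicClosure k)) : Prop :=
  Module.finrank k M = n ∧
    ∃ e : (M →ₐ[k] AlgebraicClosure k) ≃ Fin n, ∀ π : Equiv.Perm (Fin n),
      ∃ σ : AlgebraicClosure k ≃ₐ[k] AlgebraicClosure k,
        ∀ φ : M →ₐ[k] AlgebraicClosure k, e (σ.toAlgHom.comp φ) = π (e φ)

/-- `M` is a number field with `|disc M| ≤ B |disc k| ^ n`, that is, if the degree of `M` over `k`
is `n`, the relative discriminant of `M` over `k` has norm at most `B` -/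
def DiscLe (k : Type) [Field k] [NumberField k] (n : ℕ)
    (M : IntermediateField k (AlgebraicClosure k)) (B : ℝ) : Prop :=
  ∃ h : NumberField M, ((|@NumberField.discr M _ h| : ℤ) : ℝ) ≤
    B * ((|NumberField.discr k| : ℤ) : ℝ) ^ n

/-- `M` and `M'` are isomorphic over `k` -/
def IsoOver (k : Type) [Field k] (M M' : IntermediateField k (AlgebraicClosure k)) : Prop :=
  Nonempty (M ≃ₐ[k] M')

/-- the number of extensions of `k` of degree `n`, up to isomorphism over `k`, whose Galois closure
over `k` has the group `S_n` acting on the `n` embeddings, and whose relative discriminant has norm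
at most `B` -/
noncomputable def NSym (k : Type) [Field k] [NumberField k] (n : ℕ) (B : ℝ) : ℕ :=
  Nat.card (Quot (fun L L' : {M : IntermediateField k (AlgebraicClosure k) //
    IsSn k n M ∧ DiscLe k n M B} => IsoOver k L.1 L'.1))

theorem nsym_eq (k : Type) [Field k] [NumberField k] (n : ℕ) (B : ℝ) :
    NSym k n B = malleCount k n ⊤ B := by
  have gen : ∀ P Q : IntermediateField k (AlgebraicClosure k) → Prop, P = Q →
      Nat.card (Quot (fun L L' : {M // P M} => IsoOver k L.1 L'.1)) =
        Nat.card (Quot (fun L L' : {M // Q M} => IsoOver k L.1 L'.1)) := by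
    rintro P Q rfl
    rfl
  refine gen _ _ (funext fun M => ?_)
  simp only [Subgroup.mem_top, true_iff, IsSn, DiscLe, and_assoc]

end Pool.Agent.H98.TQ
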