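import Pool.Agent.H98.TQ.Defs

/-!
# Project TQ, row TQ-33: the exponent for `r = n - 2`
-/

set_option autoImplicit false

open Pool.Agent.H92.SQ2 (gg WW DD mu ee)

namespace Pool.Agent.H98.TQ

theorem tq33_gg (m : ℕ) (hm : 1 ≤ m) : gg (m + 1) m = m := by
  have h : ∀ j ≤ m, ∑ i ∈ Finset.range (j + 1), (i + m - 1) / m = j := by
    intro j
    induction j with
    | zero =>
      intro _
      rw [Finset.sum_range_one]
      exact Nat.div_eq_of_lt (by omega)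
    | succ j ih =>
      intro hj
      rw [Finset.sum_range_succ, ih (by omega)]
      congr 1
      rw [show j + 1 + m - 1 = j + m by omega, Nat.add_div_right _ (by omega),
        Nat.div_eq_of_lt (by omega)]
  exact h m le_rfl

theorem tq33_mu (n : ℕ) (hn : 13 ≤ n) :
    mu n (n - 2) = ((n : ℝ) + 2) * ((n ^ 2 / 4 : ℕ) : ℝ) / (2 * n) - 2 * ((n : ℝ) - 1) := by
  obtain ⟨m, rfl⟩ : ∃ m, n = m + 1 := ⟨n - 1, by omega⟩
  rw [mu, DD, show m + 1 - 2 + 1 = m by omega, tq33_gg m (by omega)]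
  push_cast
  ring

theorem tq33_sq (n : ℕ) (hn : 13 ≤ n) : 4 * n * (n - 1) < (n + 2) * (n ^ 2 / 4) := by
  rcases eq_or_lt_of_le hn with h | h
  · subst h
    norm_num
  · have h1 : n ^ 2 < 4 * (n ^ 2 / 4) + 4 := by omega
    obtain ⟨m, rfl⟩ : ∃ m, n = m + 14 := ⟨n - 14, by omega⟩
    set q := (m + 14) ^ 2 / 4 with hq
    have h2 : (m + 14) ^ 2 ≤ 4 * q + 3 := by omega
    rw [show m + 14 - 1 = m + 13 by omega]
    have h3 : 4 * (4 * (m + 14) * (m + 13)) < (m + 14 + 2) * (4 * q) := by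
      have h4 : (m + 14 + 2) * ((m + 14) ^ 2) ≤ (m + 14 + 2) * (4 * q + 3) :=
        Nat.mul_le_mul_left _ h2
      nlinarith
    nlinarith

theorem ineq13 (n : ℕ) (hn : 13 ≤ n) : 0 < mu n (n - 2) ∧
    1 / 2 + 1 / (n : ℝ) < ee n (n - 2) := by
  have hn' : (13 : ℝ) ≤ n := by exact_mod_cast hn
  have hn0 : (0 : ℝ) < n := by linarith
  have hmu := tq33_mu n hn
  have hr : ((n - 2 : ℕ) : ℝ) = (n : ℝ) - 2 := by
    rw [Nat.cast_sub (by omega)]; norm_num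
  have hq1 : 4 * (n : ℝ) * (n - 1) < (n + 2) * ((n ^ 2 / 4 : ℕ) : ℝ) := by
    have := tq33_sq n hn
    have h1 : ((4 * n * (n - 1) : ℕ) : ℝ) < (((n + 2) * (n ^ 2 / 4) : ℕ) : ℝ) := by
      exact_mod_cast this
    push_cast [Nat.cast_sub (by omega : 1 ≤ n)] at h1
    push_cast
    exact h1
  have hq2 : ((n ^ 2 / 4 : ℕ) : ℝ) ≤ (n : ℝ) ^ 2 / 4 := by
    have := @Nat.cast_div_le ℝ _ _ _ (n ^ 2) 4
    push_cast at this ⊢
    exact this
  have hmu0 : 0 < mu n (n - 2) := by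
    rw [hmu, sub_pos, lt_div_iff₀ (by positivity)]
    linarith
  refine ⟨hmu0, ?_⟩
  have hW : WW n = ((n : ℝ) - 1) * (n + 2) / 2 := rfl
  have hWr : 0 < WW n - ((n - 2 : ℕ) : ℝ) := by
    rw [hW, hr]; nlinarith
  have hX : 0 < (n : ℝ) * (n - 1) - 2 * mu n (n - 2) := by
    rw [hmu]
    have h1 : ((n : ℝ) + 2) * ((n ^ 2 / 4 : ℕ) : ℝ) / (2 * n) ≤ (n + 2) * n / 8 := by
      rw [div_le_div_iff₀ (by positivity) (by norm_num)]
      nlinarith [mul_le_mul_of_nonneg_left hq2 (by linarith : (0 : ℝ) ≤ (n : ℝ) + 2)]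
    nlinarith
  rw [ee, lt_div_iff₀ hX]
  have h1 : mu n (n - 2) * WW n / (WW n - ((n - 2 : ℕ) : ℝ)) <
      mu n (n - 2) * (((n : ℝ) + 2) / n) := by
    rw [mul_div_assoc]
    apply mul_lt_mul_of_pos_left _ hmu0
    rw [div_lt_div_iff₀ hWr hn0, hW, hr]
    nlinarith
  have h2 : (1 / 2 + 1 / (n : ℝ)) * ((n : ℝ) * (n - 1) - 2 * mu n (n - 2)) =
      WW n - mu n (n - 2) * (((n : ℝ) + 2) / n) := by
    rw [hW]
    field_simp
  rw [h2]
  linarith

end Pool.Agent.H98.TQ
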