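import Pool.Agent.H98.TQ.Defs

/-!
# Project TQ (MP_a3214d), TQ-15: Eisenstein polynomials, transitivity
-/

set_option autoImplicit false

open Polynomial IsDedekindDomain NumberField Pool.Agent.H35.AN
open Pool.Agent.H67.MU (Bdd)
open Pool.Agent.H92.SQ2 (gg WW DD mu ee)

namespace Pool.Agent.H98.TQ

section

variable (k : Type) [Field k] [NumberField k]

variable {k} in
theorem irreducible_eis {n : ℕ} (hn : 1 ≤ n) {f : (𝓞 k)[X]} {l : HeightOneSpectrum (𝓞 k)}
    (hdeg : f.natDegree = n) (hm : f.Monic) (hmid : ∀ i < n, f.coeff i ∈ l.asIdeal)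
    (h0 : f.coeff 0 ∉ l.asIdeal ^ 2) : Irreducible (FK f) := by
  have hE : f.IsEisensteinAt l.asIdeal := by
    refine ⟨?_, ?_, h0⟩
    · rw [hm.leadingCoeff]
      exact fun h => l.isPrime.ne_top ((Ideal.eq_top_iff_one _).mpr h)
    · intro i hi
      rw [hdeg] at hi
      exact hmid i hi
  have hirr : Irreducible f := hE.irreducible l.isPrime hm.isPrimitive (by rw [hdeg]; exact hn)
  exact (hm.irreducible_iff_irreducible_map_fraction_map (K := k)).mp hirr

variable {k} in
theorem trans_of_irreducible {L : Type} [Field L] [NumberField L] [Algebra k L] [IsGalois k L]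
    {n : ℕ} (hn : 1 ≤ n) {F : k[X]} (hF : Irreducible F) (R : Roots k L n F) :
    MulAction.IsPretransitive R.permHom.range (Fin n) := by
  refine ⟨fun i j => ?_⟩
  have hmin : ∀ i, minpoly k (R.θ i) = F * C F.leadingCoeff⁻¹ := by
    intro i
    refine (minpoly.eq_of_irreducible hF ?_).symm
    have := R.eval_root i
    rwa [eval_map_algebraMap] at this
  have hconj : IsConjRoot k (R.θ j) (R.θ i) := by
    rw [IsConjRoot, hmin, hmin]
  obtain ⟨σ, hσ⟩ := hconj.exists_algEquiv
  refine ⟨⟨R.permHom σ, ⟨σ, rfl⟩⟩, ?_⟩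
  change R.permHom σ i = j
  apply R.inj
  rw [← R.permHom_spec, hσ]

end

end Pool.Agent.H98.TQ
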