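import Pool.Agent.H98.TQ.Defs
import Pool.Agent.H67.MU.Bdd

/-!
# Project TQ (MP_a3214d), row TQ-2

A fixed nonzero polynomial in the box vanishes at few residues modulo products of two primes.
-/

set_option autoImplicit false

open Polynomial IsDedekindDomain NumberField

namespace Pool.Agent.H98.TQ

open Pool.Agent.H67.MU (Bdd)

variable {k : Type} [Field k] [NumberField k]

/-- few large primes contain a fixed nonzero integer -/
private theorem tq2_few_dvd {h j K : ℕ} (hh : 2 ≤ h) (hj : 2 ≤ j) {a : 𝓞 k} (ha : a ≠ 0)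
    (hK : Bdd ((h : ℝ) ^ K) a) {S : Finset (HeightOneSpectrum (𝓞 k))} (hS : PS h j S)
    (T : Finset (HeightOneSpectrum (𝓞 k))) (hTS : T ⊆ S) (hT : ∀ p ∈ T, a ∈ p.asIdeal) :
    T.card ≤ Module.finrank ℚ k * K := by
  classical
  set N : HeightOneSpectrum (𝓞 k) → ℕ := fun p => Ideal.absNorm p.asIdeal with hN
  have hinj : Set.InjOn N (T : Set (HeightOneSpectrum (𝓞 k))) := fun p hp q hq h =>
    hS.inj p (hTS hp) q (hTS hq) h
  have h1 : (∏ p ∈ T.image N, p) ∣ Ideal.absNorm (Ideal.span {a}) := by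
    refine Finset.prod_primes_dvd _ (fun p hp => ?_) fun p hp => ?_
    · obtain ⟨q, hq, rfl⟩ := Finset.mem_image.1 hp
      exact (hS.prime q (hTS hq)).prime
    · obtain ⟨q, hq, rfl⟩ := Finset.mem_image.1 hp
      refine Ideal.absNorm_dvd_absNorm_of_le ?_
      rw [Ideal.span_singleton_le_iff_mem]
      exact hT q hq
  have h0 : Ideal.absNorm (Ideal.span {a}) ≠ 0 := by
    intro h
    rw [Ideal.absNorm_eq_zero_iff, Ideal.span_singleton_eq_bot] at h
    exact ha h
  have h2 : (∏ p ∈ T.image N, p) ≤ Ideal.absNorm (Ideal.span {a}) :=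
    Nat.le_of_dvd (Nat.pos_of_ne_zero h0) h1
  have h3 : h ^ (T.image N).card ≤ ∏ p ∈ T.image N, p := by
    refine Finset.pow_card_le_prod _ _ _ fun p hp => ?_
    obtain ⟨q, hq, rfl⟩ := Finset.mem_image.1 hp
    have h4 := hS.lo q (hTS hq)
    have h5 : h ^ 1 ≤ h ^ (j - 1) := Nat.pow_le_pow_right (by omega) (by omega)
    rw [pow_one] at h5
    exact (h5.trans h4.le)
  rw [Finset.card_image_of_injOn hinj] at h3
  have h4 : (Ideal.absNorm (Ideal.span {a}) : ℝ) ≤ ((h : ℝ) ^ K) ^ Module.finrank ℚ k :=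
    Pool.Agent.H67.MU.mu8_norm _ a (Ideal.mem_span_singleton_self a) ha _ hK
  have h5 : Ideal.absNorm (Ideal.span {a}) ≤ h ^ (Module.finrank ℚ k * K) := by
    have h6 : ((h : ℝ) ^ K) ^ Module.finrank ℚ k = ((h ^ (Module.finrank ℚ k * K) : ℕ) : ℝ) := by
      push_cast
      rw [← pow_mul, mul_comm]
    rw [h6] at h4
    exact_mod_cast h4
  exact (Nat.pow_le_pow_iff_right (by omega)).mp (h3.trans (h2.trans h5))

/-- residues modulo an ideal of prime norm -/
private theorem tq2_inj {m : Ideal (𝓞 k)} (hp : (Ideal.absNorm m).Prime) {x y : ℕ}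
    (hx : x < Ideal.absNorm m) (hy : y < Ideal.absNorm m)
    (h : Ideal.Quotient.mk m (x : 𝓞 k) = Ideal.Quotient.mk m (y : 𝓞 k)) : x = y := by
  have hne : m ≠ ⊤ := by
    intro h0
    rw [h0, Ideal.absNorm_top] at hp
    exact Nat.not_prime_one hp
  have : Nontrivial (𝓞 k ⧸ m) := Ideal.Quotient.nontrivial_iff.2 hne
  have hchar : CharP (𝓞 k ⧸ m) (Ideal.absNorm m) := by
    rw [CharP.charP_iff_prime_eq_zero hp]
    have h1 := Ideal.absNorm_mem m
    have h2 := Ideal.Quotient.eq_zero_iff_mem.2 h1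
    rwa [map_natCast] at h2
  rw [map_natCast, map_natCast, CharP.natCast_eq_natCast (𝓞 k ⧸ m) (Ideal.absNorm m)] at h
  have h3 : x % Ideal.absNorm m = y % Ideal.absNorm m := h
  rwa [Nat.mod_eq_of_lt hx, Nat.mod_eq_of_lt hy] at h3

open scoped Classical in
/-- a polynomial which is not zero modulo `m` has few roots modulo `m` -/
private theorem tq2_few_roots {m : HeightOneSpectrum (𝓞 k)} {d : ℕ}
    (hp : (Ideal.absNorm m.asIdeal).Prime) {g : (𝓞 k)[X]} (hd : g.natDegree ≤ d) {i : ℕ}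
    (hi : g.coeff i ∉ m.asIdeal) :
    ((Finset.range (Ideal.absNorm m.asIdeal)).filter
      fun x : ℕ => g.eval (x : 𝓞 k) ∈ m.asIdeal).card ≤ d := by
  have hprime : m.asIdeal.IsPrime := m.isPrime
  have hdom : IsDomain (𝓞 k ⧸ m.asIdeal) := Ideal.Quotient.isDomain m.asIdeal
  set G : (𝓞 k ⧸ m.asIdeal)[X] := g.map (Ideal.Quotient.mk m.asIdeal) with hG
  have hG0 : G ≠ 0 := by
    intro h0
    apply hi
    have h1 : G.coeff i = 0 := by rw [h0, coeff_zero]
    rw [hG, coeff_map] at h1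
    exact Ideal.Quotient.eq_zero_iff_mem.1 h1
  have h1 : ((Finset.range (Ideal.absNorm m.asIdeal)).filter
      fun x : ℕ => g.eval (x : 𝓞 k) ∈ m.asIdeal).card ≤ G.roots.toFinset.card := by
    refine Finset.card_le_card_of_injOn
      (fun x : ℕ => Ideal.Quotient.mk m.asIdeal (x : 𝓞 k)) ?_ ?_
    · intro x hx
      rw [Finset.mem_coe, Finset.mem_filter] at hx
      rw [Finset.mem_coe, Multiset.mem_toFinset, mem_roots hG0, IsRoot.def, hG, eval_map,
        eval₂_hom]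
      exact Ideal.Quotient.eq_zero_iff_mem.2 hx.2
    · intro x hx y hy hxy
      rw [Finset.mem_coe, Finset.mem_filter, Finset.mem_range] at hx hy
      exact tq2_inj hp hx.1 hy.1 hxy
  have h2 : G.roots.toFinset.card ≤ G.natDegree :=
    (Multiset.toFinset_card_le _).trans (card_roots' G)
  have h3 : G.natDegree ≤ g.natDegree := natDegree_map_le
  omega

open scoped Classical in
/-- the sum over one family of primes -/
private theorem tq2_sum {h b d ρ u : ℕ} (hu : 2 ≤ u) (hh : 2 ≤ h)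
    {S : Finset (HeightOneSpectrum (𝓞 k))} (hS : PS h u S) {g : (𝓞 k)[X]} (hg : g ≠ 0)
    (hbox : InBox h b d ρ g) :
    ∑ m ∈ S, ((Finset.range (Ideal.absNorm m.asIdeal)).filter
      fun x : ℕ => g.eval (x : 𝓞 k) ∈ m.asIdeal).card ≤
      (d + Module.finrank ℚ k * (ρ + b * d)) * h ^ u := by
  rw [← Finset.sum_filter_add_sum_filter_not S
    (fun m : HeightOneSpectrum (𝓞 k) => ∀ i, g.coeff i ∈ m.asIdeal)]
  have hlc : g.leadingCoeff ≠ 0 := leadingCoeff_ne_zero.mpr hg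
  -- the primes which contain the coefficients of `g`
  have h1 : (S.filter fun m : HeightOneSpectrum (𝓞 k) => ∀ i, g.coeff i ∈ m.asIdeal).card ≤
      Module.finrank ℚ k * (ρ + b * d) := by
    refine tq2_few_dvd hh hu (a := g.leadingCoeff) hlc ?_ hS _ (Finset.filter_subset _ _) ?_
    · intro φ
      refine (hbox.2 _ hbox.1 φ).trans ?_
      refine pow_le_pow_right₀ (by exact_mod_cast (by omega : 1 ≤ h)) ?_
      have : b * (d - g.natDegree) ≤ b * d := Nat.mul_le_mul_left _ (Nat.sub_le _ _)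
      omega
    · intro p hp
      rw [Finset.mem_filter] at hp
      exact hp.2 _
  have h2 : ∑ m ∈ S.filter (fun m : HeightOneSpectrum (𝓞 k) => ∀ i, g.coeff i ∈ m.asIdeal),
      ((Finset.range (Ideal.absNorm m.asIdeal)).filter
        fun x : ℕ => g.eval (x : 𝓞 k) ∈ m.asIdeal).card ≤
      (Module.finrank ℚ k * (ρ + b * d)) * h ^ u := by
    refine (Finset.sum_le_card_nsmul _ _ (h ^ u) ?_).trans ?_
    · intro m hm
      rw [Finset.mem_filter] at hm
      refine (Finset.card_filter_le _ _).trans ?_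
      rw [Finset.card_range]
      exact hS.hi m hm.1
    · rw [smul_eq_mul]
      exact Nat.mul_le_mul_right _ h1
  -- the others
  have hcard : S.card ≤ h ^ u := by
    have h5 : S.card ≤ (Finset.Icc 1 (h ^ u)).card := by
      refine Finset.card_le_card_of_injOn (fun p => Ideal.absNorm p.asIdeal) ?_ ?_
      · intro p hp
        rw [Finset.mem_coe, Finset.mem_Icc]
        exact ⟨(hS.prime p hp).one_lt.le, hS.hi p hp⟩
      · intro p hp q hq h
        exact hS.inj p hp q hq h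
    rwa [Nat.card_Icc, Nat.add_sub_cancel] at h5
  have h3 : ∑ m ∈ S.filter (fun m : HeightOneSpectrum (𝓞 k) => ¬ ∀ i, g.coeff i ∈ m.asIdeal),
      ((Finset.range (Ideal.absNorm m.asIdeal)).filter
        fun x : ℕ => g.eval (x : 𝓞 k) ∈ m.asIdeal).card ≤ h ^ u * d := by
    refine (Finset.sum_le_card_nsmul _ _ d ?_).trans ?_
    · intro m hm
      rw [Finset.mem_filter] at hm
      obtain ⟨i, hi⟩ := not_forall.mp hm.2
      exact tq2_few_roots (hS.prime m hm.1) hbox.1 hi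
    · rw [smul_eq_mul]
      exact Nat.mul_le_mul_right _ ((Finset.card_filter_le _ _).trans hcard)
  have h4 : Module.finrank ℚ k * (ρ + b * d) * h ^ u + h ^ u * d =
      (d + Module.finrank ℚ k * (ρ + b * d)) * h ^ u := by ring
  omega

private theorem tq2_mod {I : Ideal (𝓞 k)} {p : ℕ} (hp : (p : 𝓞 k) ∈ I) (g : (𝓞 k)[X]) (x : ℕ)
    (hx : g.eval (x : 𝓞 k) ∈ I) : g.eval ((x % p : ℕ) : 𝓞 k) ∈ I := by
  have h1 : (x : 𝓞 k) - ((x % p : ℕ) : 𝓞 k) ∣
      g.eval (x : 𝓞 k) - g.eval ((x % p : ℕ) : 𝓞 k) := sub_dvd_eval_sub _ _ _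
  have h2 : (x : 𝓞 k) - ((x % p : ℕ) : 𝓞 k) ∈ I := by
    have h3 := Nat.div_add_mod x p
    have h4 : (p : 𝓞 k) * ((x / p : ℕ) : 𝓞 k) + ((x % p : ℕ) : 𝓞 k) = (x : 𝓞 k) := by
      rw [← Nat.cast_mul, ← Nat.cast_add, h3]
    rw [← h4, add_sub_cancel_right]
    exact I.mul_mem_right _ hp
  have h5 : g.eval (x : 𝓞 k) - g.eval ((x % p : ℕ) : 𝓞 k) ∈ I := I.mem_of_dvd h1 h2
  have h6 := I.sub_mem hx h5
  rwa [sub_sub_cancel] at h6

open scoped Classical in
/-- the Chinese remainder theorem -/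
private theorem tq2_crt {m l : Ideal (𝓞 k)} {p r : ℕ} (hpm : (p : 𝓞 k) ∈ m)
    (hrl : (r : 𝓞 k) ∈ l) (hml : Nat.Coprime p r) (hm : 0 < p) (hl : 0 < r) (g : (𝓞 k)[X]) :
    ((Finset.range (p * r)).filter fun x : ℕ => g.eval (x : 𝓞 k) ∈ m * l).card ≤
      ((Finset.range p).filter fun x : ℕ => g.eval (x : 𝓞 k) ∈ m).card *
        ((Finset.range r).filter fun x : ℕ => g.eval (x : 𝓞 k) ∈ l).card := by
  have hm1 : m * l ≤ m := Ideal.mul_le_left
  have hl1 : m * l ≤ l := Ideal.mul_le_right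
  rw [← Finset.card_product]
  refine Finset.card_le_card_of_injOn (fun x : ℕ => (x % p, x % r)) ?_ ?_
  · intro x hx
    rw [Finset.mem_coe, Finset.mem_filter] at hx
    have h1 : g.eval (x : 𝓞 k) ∈ m := hm1 hx.2
    have h2 : g.eval (x : 𝓞 k) ∈ l := hl1 hx.2
    rw [Finset.mem_coe, Finset.mem_product, Finset.mem_filter, Finset.mem_filter,
      Finset.mem_range, Finset.mem_range]
    exact ⟨⟨Nat.mod_lt _ hm, tq2_mod hpm g x h1⟩, ⟨Nat.mod_lt _ hl, tq2_mod hrl g x h2⟩⟩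
  · intro x hx y hy hxy
    rw [Finset.mem_coe, Finset.mem_filter, Finset.mem_range] at hx hy
    simp only [Prod.mk.injEq] at hxy
    have h1 : x ≡ y [MOD p * r] := (Nat.modEq_and_modEq_iff_modEq_mul hml).mp ⟨hxy.1, hxy.2⟩
    have h2 : x % (p * r) = y % (p * r) := h1
    rwa [Nat.mod_eq_of_lt hx.1, Nat.mod_eq_of_lt hy.1] at h2

variable (k) in
open scoped Classical in
theorem pairs_fixed (d ρ b u v : ℕ) (hu : 2 ≤ u) (hv : 2 ≤ v) (huv : u ≠ v) :
    ∃ C h0 : ℕ, ∀ h ≥ h0, ∀ S T : Finset (HeightOneSpectrum (𝓞 k)), PS h u S → PS h v T →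
      ∀ g : (𝓞 k)[X], g ≠ 0 → InBox h b d ρ g →
      (∑ m ∈ S, ∑ l ∈ T, ((Finset.range (Ideal.absNorm m.asIdeal *
        Ideal.absNorm l.asIdeal)).filter fun x : ℕ =>
          g.eval (x : 𝓞 k) ∈ m.asIdeal * l.asIdeal).card) ≤ C * h ^ (u + v) := by
  refine ⟨(d + Module.finrank ℚ k * (ρ + b * d)) * (d + Module.finrank ℚ k * (ρ + b * d)), 2,
    fun h hh S T hS hT g hg hbox => ?_⟩
  have hne : ∀ m ∈ S, ∀ l ∈ T, Ideal.absNorm m.asIdeal ≠ Ideal.absNorm l.asIdeal := by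
    have key : ∀ (a c : ℕ) (A C : Finset (HeightOneSpectrum (𝓞 k))), PS h a A → PS h c C →
        a < c → ∀ m ∈ A, ∀ l ∈ C, Ideal.absNorm m.asIdeal < Ideal.absNorm l.asIdeal := by
      intro a c A C hA hC hac m hm l hl
      have h1 : h ^ a ≤ h ^ (c - 1) := Nat.pow_le_pow_right (by omega) (by omega)
      exact (hA.hi m hm).trans_lt (h1.trans_lt (hC.lo l hl))
    intro m hm l hl
    rcases Nat.lt_or_gt_of_ne huv with h1 | h1
    · exact (key u v S T hS hT h1 m hm l hl).ne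
    · exact (key v u T S hT hS h1 l hl m hm).ne'
  have h1 : (∑ m ∈ S, ∑ l ∈ T, ((Finset.range (Ideal.absNorm m.asIdeal *
      Ideal.absNorm l.asIdeal)).filter fun x : ℕ =>
        g.eval (x : 𝓞 k) ∈ m.asIdeal * l.asIdeal).card) ≤
      ∑ m ∈ S, ∑ l ∈ T,
        ((Finset.range (Ideal.absNorm m.asIdeal)).filter
          fun x : ℕ => g.eval (x : 𝓞 k) ∈ m.asIdeal).card *
        ((Finset.range (Ideal.absNorm l.asIdeal)).filter
          fun x : ℕ => g.eval (x : 𝓞 k) ∈ l.asIdeal).card := by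
    refine Finset.sum_le_sum fun m hm => Finset.sum_le_sum fun l hl => ?_
    exact tq2_crt (Ideal.absNorm_mem m.asIdeal) (Ideal.absNorm_mem l.asIdeal)
      ((Nat.coprime_primes (hS.prime m hm) (hT.prime l hl)).mpr (hne m hm l hl))
      (hS.prime m hm).pos (hT.prime l hl).pos g
  refine h1.trans ?_
  rw [← Finset.sum_mul_sum]
  refine (Nat.mul_le_mul (tq2_sum hu hh hS hg hbox) (tq2_sum hv hh hT hg hbox)).trans ?_
  rw [pow_add]
  apply le_of_eq
  ring

end Pool.Agent.H98.TQ
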