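import Pool.Agent.H98.TQ.DefsL

/-!
# Project TQ (MP_a3214d): the exponents of the limit superior exceed `1/2 + 4/(3n)`
-/

set_option autoImplicit false

namespace Pool.Agent.H98.TQ

open Pool.Agent.H92.SQ2 (gg WW DD)

private theorem tqm_ceil (i s : ℕ) (hs : 2 ≤ s) : (i + s - 1) / s ≤ (i + 1) / 2 := by
  rw [Nat.div_le_iff_le_mul_add_pred (by omega)]
  have h1 : i ≤ 2 * ((i + 1) / 2) := by omega
  have h2 : 2 * ((i + 1) / 2) ≤ s * ((i + 1) / 2) := Nat.mul_le_mul_right _ hs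
  omega

private theorem tqm_sum (n : ℕ) : ∑ i ∈ Finset.range n, (i + 1) / 2 = n * n / 4 := by
  induction n with
  | zero => rfl
  | succ n ih =>
    rw [Finset.sum_range_succ, ih]
    rcases Nat.even_or_odd' n with ⟨m, rfl | rfl⟩
    · have e1 : 2 * m * (2 * m) = 4 * (m * m) := by ring
      have e2 : (2 * m + 1) * (2 * m + 1) = 4 * (m * m + m) + 1 := by ring
      rw [e1, e2]
      omega
    · have e1 : (2 * m + 1) * (2 * m + 1) = 4 * (m * m + m) + 1 := by ring
      have e2 : (2 * m + 1 + 1) * (2 * m + 1 + 1) = 4 * (m * m + 2 * m + 1) := by ring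
      rw [e1, e2]
      omega

private theorem tqm_gg (n s : ℕ) (hs : 2 ≤ s) : gg n s ≤ n * n / 4 := by
  rw [← tqm_sum]
  exact Finset.sum_le_sum fun i _ => tqm_ceil i s hs

private theorem tqm_gg6 : gg 6 2 = 9 ∧ gg 6 3 = 7 ∧ gg 6 4 = 6 ∧ gg 6 5 = 5 := by decide

private theorem tqm_one {n : ℕ} (hn : 6 ≤ n) : 1 / 2 + 4 / (3 * (n : ℝ)) < eL n 1 := by
  have hx : (6 : ℝ) ≤ n := by exact_mod_cast hn
  have hq : ((n : ℝ) ^ 2 - 1) / 4 ≤ ((n ^ 2 / 4 : ℕ) : ℝ) := by
    have h : n ^ 2 ≤ 4 * (n ^ 2 / 4) + 1 := by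
      rcases Nat.even_or_odd' n with ⟨m, rfl | rfl⟩
      · have e1 : (2 * m) ^ 2 = 4 * (m * m) := by ring
        rw [e1]; omega
      · have e1 : (2 * m + 1) ^ 2 = 4 * (m * m + m) + 1 := by ring
        rw [e1]; omega
    have h' : (n : ℝ) ^ 2 ≤ 4 * ((n ^ 2 / 4 : ℕ) : ℝ) + 1 := by exact_mod_cast h
    linarith
  have hq' : ((n ^ 2 / 4 : ℕ) : ℝ) ≤ (n : ℝ) ^ 2 / 4 := by
    have h : 4 * (n ^ 2 / 4) ≤ n ^ 2 := by omega
    have h' : 4 * ((n ^ 2 / 4 : ℕ) : ℝ) ≤ (n : ℝ) ^ 2 := by exact_mod_cast h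
    linarith
  set q : ℝ := ((n ^ 2 / 4 : ℕ) : ℝ) with hqd
  set x : ℝ := (n : ℝ) with hxd
  have hx0 : 0 < x := by linarith
  have hD : DD n = (x + 2) * q / (2 * x) := rfl
  have hW : WW n = (x - 1) * (x + 2) / 2 := rfl
  have hDlo : (x + 2) * (x ^ 2 - 1) / (8 * x) ≤ DD n := by
    rw [hD, div_le_div_iff₀ (by positivity) (by positivity)]
    nlinarith [mul_le_mul_of_nonneg_left hq (show 0 ≤ (x + 2) * x by positivity)]
  have hDup : DD n ≤ x * (x + 2) / 8 := by
    rw [hD, div_le_div_iff₀ (by positivity) (by positivity)]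
    nlinarith [mul_le_mul_of_nonneg_left hq' (show 0 ≤ (x + 2) by positivity)]
  have hW1 : 0 < WW n - 1 := by rw [hW]; nlinarith
  have hW0 : 0 < WW n := by linarith
  have hden : 0 < x * (x - 1) - 2 * DD n := by nlinarith
  have hnum : 0 < WW n - DD n * WW n / (WW n - 1) := by
    have h1 : DD n < WW n - 1 := by
      rw [hW]; nlinarith
    have h2 : DD n * WW n / (WW n - 1) < WW n := by
      rw [div_lt_iff₀ hW1]
      nlinarith
    linarith
  have hkey : (1 / 2 + 4 / (3 * x)) * (x * (x - 1) - 2 * DD n) <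
      WW n - DD n * WW n / (WW n - 1) := by
    have e1 : DD n * WW n / (WW n - 1) = DD n + DD n / (WW n - 1) := by
      field_simp
      ring
    rw [e1]
    have e2 : (1 / 2 + 4 / (3 * x)) * (x * (x - 1) - 2 * DD n) =
        x * (x - 1) / 2 + 4 * (x - 1) / 3 - DD n - 8 * DD n / (3 * x) := by
      field_simp
      ring
    rw [e2, hW]
    have h3 : DD n / ((x - 1) * (x + 2) / 2 - 1) < 8 * DD n / (3 * x) - (x - 1) / 3 := by
      have hDpos : 0 < DD n := lt_of_lt_of_le (by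
        have : 0 < x ^ 2 - 1 := by nlinarith
        positivity) hDlo
      have hp : 0 < (x - 1) * (x + 2) / 2 - 1 := by nlinarith
      have h4 : DD n / ((x - 1) * (x + 2) / 2 - 1) ≤
          (x * (x + 2) / 8) / ((x - 1) * (x + 2) / 2 - 1) :=
        div_le_div_of_nonneg_right hDup hp.le
      have h5 : (x * (x + 2) / 8) / ((x - 1) * (x + 2) / 2 - 1) < 1 / 3 := by
        rw [div_lt_div_iff₀ hp (by norm_num)]
        nlinarith
      have h6 : (x + 2) * (x ^ 2 - 1) / (3 * x ^ 2) ≤ 8 * DD n / (3 * x) := by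
        rw [div_le_div_iff₀ (by positivity) (by positivity)]
        rw [div_le_iff₀ (by positivity)] at hDlo
        nlinarith [mul_le_mul_of_nonneg_left hDlo (show 0 ≤ 3 * x by positivity)]
      have h7 : x / 3 ≤ (x + 2) * (x ^ 2 - 1) / (3 * x ^ 2) := by
        rw [div_le_div_iff₀ (by norm_num) (by positivity)]
        nlinarith [mul_nonneg hx0.le hx0.le]
      linarith
    linarith
  have hrho : 0 < 1 / 2 + 4 / (3 * x) := by positivity
  rw [eL]
  have hcast : (((1 : ℕ) : ℝ)) = 1 := by norm_num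
  rw [hcast]
  have hgg : 0 < (gg n 1 : ℝ) := by
    have : 0 < gg n 1 := by
      unfold gg
      apply Finset.sum_pos'
      · intro i _
        exact Nat.zero_le _
      · exact ⟨1, Finset.mem_range.mpr (by omega), by norm_num⟩
    exact_mod_cast this
  have hmin : 0 < min (x * (x - 1) - 2 * DD n) (2 * (gg n 1 : ℝ)) := lt_min hden (by positivity)
  rw [lt_div_iff₀ hmin]
  refine lt_of_le_of_lt ?_ hkey
  exact mul_le_mul_of_nonneg_left (min_le_left _ _) hrho.le

private theorem tqm_two {n s : ℕ} (hn : 6 ≤ n) (hs : 2 ≤ s) (hsn : s ≤ n - 1) :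
    1 / 2 + 4 / (3 * (n : ℝ)) < eL n s := by
  have hx : (6 : ℝ) ≤ n := by exact_mod_cast hn
  have hq' : ((n ^ 2 / 4 : ℕ) : ℝ) ≤ (n : ℝ) ^ 2 / 4 := by
    have h : 4 * (n ^ 2 / 4) ≤ n ^ 2 := by omega
    have h' : 4 * ((n ^ 2 / 4 : ℕ) : ℝ) ≤ (n : ℝ) ^ 2 := by exact_mod_cast h
    linarith
  have hggq : (gg n s : ℝ) ≤ ((n ^ 2 / 4 : ℕ) : ℝ) := by
    have h := tqm_gg n s hs
    rw [← sq] at h
    exact_mod_cast h
  have hgg0 : 0 < (gg n s : ℝ) := by
    have : 0 < gg n s := by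
      unfold gg
      apply Finset.sum_pos'
      · intro i _
        exact Nat.zero_le _
      · refine ⟨1, Finset.mem_range.mpr (by omega), Nat.div_pos (by omega) (by omega)⟩
    exact_mod_cast this
  have hss : (s : ℝ) ≤ (n : ℝ) - 1 := by
    have h : s + 1 ≤ n := by omega
    have h' : (s : ℝ) + 1 ≤ n := by exact_mod_cast h
    linarith
  set q : ℝ := ((n ^ 2 / 4 : ℕ) : ℝ) with hqd
  set x : ℝ := (n : ℝ) with hxd
  have hx0 : 0 < x := by linarith
  have hD : DD n = (x + 2) * q / (2 * x) := rfl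
  have hW : WW n = (x - 1) * (x + 2) / 2 := rfl
  have hq0 : 0 ≤ q := by rw [hqd]; positivity
  have hD0 : 0 ≤ DD n := by rw [hD]; positivity
  have hDup : DD n ≤ x * (x + 2) / 8 := by
    rw [hD, div_le_div_iff₀ (by positivity) (by positivity)]
    nlinarith [mul_le_mul_of_nonneg_left hq' (show 0 ≤ (x + 2) by positivity)]
  have hden : 0 < x * (x - 1) - 2 * DD n := by nlinarith
  have hW0 : 0 < WW n := by rw [hW]; nlinarith
  have hWs : 0 < WW n - s := by rw [hW]; nlinarith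
  have hmin : 0 < min (x * (x - 1) - 2 * DD n) (2 * (gg n s : ℝ)) := lt_min hden (by positivity)
  have hrho : 0 < 1 / 2 + 4 / (3 * x) := by positivity
  have hnum : WW n - DD n * ((x + 2) / x) ≤ WW n - DD n * WW n / (WW n - s) := by
    have h1 : WW n / (WW n - s) ≤ (x + 2) / x := by
      rw [div_le_div_iff₀ hWs hx0, hW]
      nlinarith
    have h2 : DD n * WW n / (WW n - s) = DD n * (WW n / (WW n - s)) := by ring
    rw [h2]
    have := mul_le_mul_of_nonneg_left h1 hD0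
    linarith
  rw [eL, lt_div_iff₀ hmin]
  have hle : (1 / 2 + 4 / (3 * x)) * min (x * (x - 1) - 2 * DD n) (2 * (gg n s : ℝ)) ≤
      (1 / 2 + 4 / (3 * x)) * (2 * (gg n s : ℝ)) :=
    mul_le_mul_of_nonneg_left (min_le_right _ _) hrho.le
  refine lt_of_le_of_lt hle ?_
  by_cases h8 : 8 ≤ n
  · have hx8 : (8 : ℝ) ≤ x := by rw [hxd]; exact_mod_cast h8
    refine lt_of_lt_of_le ?_ hnum
    have h3 : (1 / 2 + 4 / (3 * x)) * (2 * (gg n s : ℝ)) ≤ x ^ 2 / 4 + 2 * x / 3 := by
      have h4 : (1 / 2 + 4 / (3 * x)) * (2 * (gg n s : ℝ)) ≤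
          (1 / 2 + 4 / (3 * x)) * (2 * (x ^ 2 / 4)) :=
        mul_le_mul_of_nonneg_left (by linarith) hrho.le
      refine h4.trans (le_of_eq ?_)
      field_simp
    have h5 : DD n * ((x + 2) / x) ≤ (x + 2) ^ 2 / 8 := by
      have h6 := mul_le_mul_of_nonneg_right hDup (show 0 ≤ (x + 2) / x by positivity)
      refine h6.trans (le_of_eq ?_)
      field_simp
    rw [hW]
    nlinarith
  · have h67 : n = 6 ∨ n = 7 := by omega
    rcases h67 with h | h
    · subst h
      have hqq : q = 9 := by rw [hqd]; norm_num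
      have hxx : x = 6 := by rw [hxd]; norm_num
      have hDD : DD 6 = 6 := by rw [hD, hqq, hxx]; norm_num
      have hWW : WW 6 = 20 := by rw [hW, hxx]; norm_num
      rw [hDD, hWW, hxx]
      obtain ⟨g2, g3, g4, g5⟩ := tqm_gg6
      have hs5 : s = 2 ∨ s = 3 ∨ s = 4 ∨ s = 5 := by omega
      rcases hs5 with h | h | h | h
      · subst h; rw [g2]; norm_num
      · subst h; rw [g3]; norm_num
      · subst h; rw [g4]; norm_num
      · subst h; rw [g5]; norm_num
    · subst h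
      have hqq : q = 12 := by rw [hqd]; norm_num
      have hxx : x = 7 := by rw [hxd]; norm_num
      have hDD : DD 7 = 54 / 7 := by rw [hD, hqq, hxx]; norm_num
      have hWW : WW 7 = 27 := by rw [hW, hxx]; norm_num
      refine lt_of_lt_of_le ?_ hnum
      rw [hDD, hWW, hxx]
      rw [hqq] at hggq
      have : (1 / 2 + 4 / (3 * (7 : ℝ))) * (2 * (gg 7 s : ℝ)) ≤
          (1 / 2 + 4 / (3 * (7 : ℝ))) * (2 * 12) :=
        mul_le_mul_of_nonneg_left (by linarith) (by norm_num)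
      refine lt_of_le_of_lt this ?_
      norm_num

/-- all exponents of the limit superior exceed `1/2 + 4/(3n)` -/
theorem ineqM (n : ℕ) (hn : 6 ≤ n) (s : ℕ) (hs : 1 ≤ s) (hsn : s ≤ n - 1) :
    1 / 2 + 4 / (3 * (n : ℝ)) < eL n s := by
  rcases Nat.lt_or_ge s 2 with h | h
  · have : s = 1 := by omega
    subst this
    exact tqm_one hn
  · exact tqm_two hn h hsn

end Pool.Agent.H98.TQ
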