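import Pool.Agent.H98.TQ.MainL
import Pool.Agent.H96.T3.FieldC
import Pool.Agent.H96.T3.Ineq17
import Pool.Agent.H96.T3.Params

/-!
# Projects TQ and T3 (MP_a3214d): main theorem

Lower bounds for the number of extensions of degree `n` with group `S_n` of a number field `k`.
-/

set_option autoImplicit false

open Polynomial IsDedekindDomain NumberField Pool.Agent.H35.AN
open Pool.Agent.H92.SQ2 (gg WW final_rpow2)
open Pool.Agent.H96.T3 (mu3 ee3 field_count3 ineq17 params3)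

namespace Pool.Agent.H98.TQ

/-- two steps: exponents less than `ee3 n r` -/
theorem main_two (k : Type) [Field k] [NumberField k] (n r : ℕ) (hn : 12 ≤ n) (hr : 1 ≤ r)
    (hrn : r + 2 ≤ n) (hμ : 0 < mu3 n r) (θ : ℝ) (hθ : θ < ee3 n r) :
    ∀ᶠ B : ℝ in Filter.atTop, B ^ θ ≤ (malleCount k n ⊤ B : ℝ) := by
  obtain ⟨b, u, v, w, d0, ρ0, κ0, ρT, κT, hcond, hv2, hw, hw2, hpos, hlt⟩ :=
    params3 (Module.finrank ℚ k) n r Module.finrank_pos hn hr hrn hμ θ hθ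
  obtain ⟨c, C, hc, hC, h0, h⟩ :=
    field_count3 k n r b u v w d0 ρ0 κ0 ρT κT hr hrn hcond hv2 hw hw2
  exact final_rpow2 (malleCount k n ⊤) (count_mono k n) _ _ hpos θ c C hlt hc hC h0 h

theorem clause17 (n : ℕ) (hn : 17 ≤ n) (k : Type) [Field k] [NumberField k] :
    ∀ᶠ B : ℝ in Filter.atTop, B ^ (1 / 2 + 109 / (100 * (n : ℝ))) ≤ (NSym k n B : ℝ) := by
  obtain ⟨r, hr, hrn, hμ, hθ⟩ := ineq17 n hn
  have h := main_two k n r (by omega) hr hrn hμ _ hθ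
  filter_upwards [h] with B hB
  rw [nsym_eq]
  exact hB

theorem result_aux :
    (∀ n : ℕ, 17 ≤ n → ∀ (k : Type) [Field k] [NumberField k],
      ∀ᶠ B : ℝ in Filter.atTop, B ^ (1 / 2 + 109 / (100 * (n : ℝ))) ≤ (NSym k n B : ℝ)) ∧
    (∀ κ : ℝ, κ < 4 / 3 → ∃ n0 : ℕ, ∀ n : ℕ, n0 ≤ n → ∀ (k : Type) [Field k] [NumberField k],
      ∀ᶠ B : ℝ in Filter.atTop, B ^ (1 / 2 + κ / (n : ℝ)) ≤ (NSym k n B : ℝ)) ∧
    (∀ n : ℕ, 6 ≤ n → ∀ (k : Type) [Field k] [NumberField k],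
      ∃ᶠ B : ℝ in Filter.atTop, B ^ (1 / 2 + 4 / (3 * (n : ℝ))) ≤ (NSym k n B : ℝ)) :=
  ⟨fun n hn k _ _ => clause17 n hn k, fun κ hκ => clauseAs κ hκ,
    fun n hn k _ _ => clauseSup n hn k⟩

end Pool.Agent.H98.TQ
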