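import Pool.Agent.H98.TQ.Defs

/-! Project TQ (MP_a3214d), row TQ-32: choice of the parameters -/

set_option autoImplicit false

open Polynomial
open Pool.Agent.H92.SQ2 (gg WW DD mu ee)

namespace Pool.Agent.H98.TQ

private theorem tq32_Q (n : ℕ) (hn : 4 ≤ n) :
    ((n - 2) / 2 + 1) * (n - 2 - (n - 2) / 2 + 1) = n ^ 2 / 4 := by
  obtain ⟨k, hk | hk⟩ := Nat.even_or_odd' n
  · obtain ⟨j, rfl⟩ : ∃ j, k = j + 1 := ⟨k - 1, by omega⟩
    subst hk
    have h1 : 2 * (j + 1) - 2 = 2 * j := by omega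
    have h2 : 2 * j / 2 = j := by omega
    have h3 : 2 * j - j = j := by omega
    rw [h1, h2, h3]
    have h4 : (2 * (j + 1)) ^ 2 = 4 * ((j + 1) * (j + 1)) := by ring
    rw [h4]; omega
  · obtain ⟨j, rfl⟩ : ∃ j, k = j + 1 := ⟨k - 1, by omega⟩
    subst hk
    have h1 : 2 * (j + 1) + 1 - 2 = 2 * j + 1 := by omega
    have h2 : (2 * j + 1) / 2 = j := by omega
    have h3 : 2 * j + 1 - j = j + 1 := by omega
    rw [h1, h2, h3]
    have h4 : (2 * (j + 1) + 1) ^ 2 = 4 * ((j + 1) * (j + 1 + 1)) + 1 := by ring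
    rw [h4]; omega

private theorem tq32_A (n : ℕ) (hn : 4 ≤ n) :
    n * ((n - 2 - (n - 2) / 2) * (n - 2 - (n - 2) / 2 + 1)) <
      (n + 2) * (((n - 2) / 2 + 1) * (n - 2 - (n - 2) / 2 + 1)) := by
  obtain ⟨k, hk | hk⟩ := Nat.even_or_odd' n
  · obtain ⟨j, rfl⟩ : ∃ j, k = j + 1 := ⟨k - 1, by omega⟩
    subst hk
    have h1 : 2 * (j + 1) - 2 = 2 * j := by omega
    have h2 : 2 * j / 2 = j := by omega
    have h3 : 2 * j - j = j := by omega
    rw [h1, h2, h3]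
    nlinarith [sq_nonneg j, mul_nonneg (Nat.zero_le j) (Nat.zero_le j)]
  · obtain ⟨j, rfl⟩ : ∃ j, k = j + 1 := ⟨k - 1, by omega⟩
    subst hk
    have h1 : 2 * (j + 1) + 1 - 2 = 2 * j + 1 := by omega
    have h2 : (2 * j + 1) / 2 = j := by omega
    have h3 : 2 * j + 1 - j = j + 1 := by omega
    rw [h1, h2, h3]
    have : 0 < (j + 1) * (j + 1 + 1) := by positivity
    nlinarith

private theorem tq32_ev {c d : ℝ} (hc : 0 < c) : ∀ᶠ b : ℕ in Filter.atTop, d < c * (b : ℝ) :=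
  ((tendsto_natCast_atTop_atTop (R := ℝ)).const_mul_atTop hc).eventually_gt_atTop d

theorem params (d n r : ℕ) (hd : 1 ≤ d) (hn : 4 ≤ n) (hr : 1 ≤ r) (hrn : r + 2 ≤ n)
    (hμ : 0 < mu n r) (θ : ℝ) (hθ : θ < ee n r) : ∃ b u v w : ℕ, 1 ≤ b ∧ 2 ≤ u ∧ 2 ≤ v ∧ u ≠ v ∧
      d * (b * (n - 2 - (n - 2) / 2) * (n - 2 - (n - 2) / 2 + 1)) + 16 ≤ 2 * (u + v) ∧
      2 * n * (u + v) + 2 * (n + 20) * (d * (((n - 2) / 2 + 1) * (n - 2 - (n - 2) / 2 + 1))) ≤
        b * (n + 2) * (d * (((n - 2) / 2 + 1) * (n - 2 - (n - 2) / 2 + 1))) ∧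
      d * (2 * b * gg n (r + 1)) + 2 ≤ v ∧ w ≤ b ∧
      d * (w * (n * (n + 1) / 2 - 1) + (b - w + 1) * r) + u + 5 ≤
        d * (b * (n * (n + 1) / 2 - 1)) ∧
      0 < d * (b * n * (n - 1)) - 2 * (u - 1) ∧
      θ * ((d * (b * n * (n - 1)) - 2 * (u - 1) : ℕ) : ℝ) <
        ((d * (b * (n * (n + 1) / 2 - 1)) - u - 4 - d * ((b - w) * r) : ℕ) : ℝ) := by
  have hA := tq32_A n hn
  have hQ4 := tq32_Q n hn
  obtain ⟨Q, hQ⟩ : ∃ Q, Q = ((n - 2) / 2 + 1) * (n - 2 - (n - 2) / 2 + 1) := ⟨_, rfl⟩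
  obtain ⟨a, ha⟩ : ∃ a, a = n - 2 - (n - 2) / 2 := ⟨_, rfl⟩
  obtain ⟨G, hG⟩ : ∃ G, G = gg n (r + 1) := ⟨_, rfl⟩
  rw [← hQ, ← ha] at hA
  rw [← hQ] at hQ4
  -- the integer W
  obtain ⟨W, hW⟩ : ∃ W, W = n * (n + 1) / 2 - 1 := ⟨_, rfl⟩
  have hW2 : 2 * W + 2 = n * (n + 1) := by
    have h1 : 2 ∣ n * (n + 1) := (Nat.even_mul_succ_self n).two_dvd
    obtain ⟨m, hm⟩ := h1
    have h2 : 4 * 5 ≤ n * (n + 1) := Nat.mul_le_mul hn (by omega)
    rw [hW, hm]; omega
  have hnR : (4 : ℝ) ≤ n := by exact_mod_cast hn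
  have hn0 : (0 : ℝ) < n := by linarith
  have hrR : (1 : ℝ) ≤ r := by exact_mod_cast hr
  have hrnR : (r : ℝ) + 2 ≤ n := by exact_mod_cast hrn
  have hdR : (1 : ℝ) ≤ d := by exact_mod_cast hd
  have hd0 : (0 : ℝ) < d := by linarith
  have hWR : WW n = (W : ℝ) := by
    have : (2 : ℝ) * W + 2 = n * (n + 1) := by exact_mod_cast hW2
    unfold WW; linarith
  have hWR2 : (2 : ℝ) * W + 2 = n * (n + 1) := by exact_mod_cast hW2
  obtain ⟨D, hD⟩ : ∃ D, D = DD n := ⟨_, rfl⟩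
  have hDQ : 2 * n * D = ((n : ℝ) + 2) * Q := by
    rw [hD, DD, ← hQ4]; field_simp
  have hQle : 4 * (Q : ℝ) ≤ n ^ 2 := by
    have : 4 * Q ≤ n ^ 2 := by rw [hQ4]; exact Nat.mul_div_le _ _
    exact_mod_cast this
  have hQ0 : (0 : ℝ) ≤ Q := Nat.cast_nonneg _
  have hDle : 8 * D ≤ n * (n + 2) := by
    have h1 : ((n : ℝ) + 2) * (4 * Q) ≤ (n + 2) * n ^ 2 := by gcongr
    have h2 : n * (8 * D) ≤ n * (n * (n + 2)) := by linarith
    exact le_of_mul_le_mul_left h2 hn0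
  obtain ⟨M, hM⟩ : ∃ M, M = mu n r := ⟨_, rfl⟩
  have hMD : M = D - 2 * G := by rw [hM, hD, hG]; rfl
  have hG0 : (0 : ℝ) ≤ G := Nat.cast_nonneg _
  rw [← hM] at hμ
  have hMle : M ≤ D := by linarith
  have hsq : 4 * (n : ℝ) ≤ n * n := mul_le_mul_of_nonneg_right hnR hn0.le
  have hWr : 0 < (W : ℝ) - r := by linarith
  have hWrM : 0 < (W : ℝ) - r - M := by linarith
  have hden : 0 < (n : ℝ) * (n - 1) - 2 * M := by linarith
  -- the gap
  obtain ⟨g, hg⟩ : ∃ g, g = ((W : ℝ) - M * W / (W - r)) - θ * ((n : ℝ) * (n - 1) - 2 * M) :=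
    ⟨_, rfl⟩
  have hg0 : 0 < g := by
    rw [ee, hWR, ← hM, lt_div_iff₀ hden] at hθ
    rw [hg]; linarith
  obtain ⟨E, hE⟩ : ∃ E, E = ((n : ℝ) + 20) * (d * Q) / n := ⟨_, rfl⟩
  have hE0 : 0 ≤ E := by rw [hE]; positivity
  have hEQ : n * E = ((n : ℝ) + 20) * (d * Q) := by rw [hE]; field_simp
  obtain ⟨γ, hγ⟩ : ∃ γ, γ = 2 * D - (a : ℝ) * (a + 1) := ⟨_, rfl⟩
  have hγ0 : 0 < γ := by
    have h1 : (n : ℝ) * (a * (a + 1)) < (n + 2) * Q := by exact_mod_cast hA
    rw [hγ]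
    have h2 : (n : ℝ) * (a * (a + 1)) < n * (2 * D) := by linarith
    have := lt_of_mul_lt_mul_left h2 hn0.le
    linarith
  obtain ⟨K, hK⟩ : ∃ K, K = (5 + (d : ℝ) * r) / (W - r) + d := ⟨_, rfl⟩
  -- choice of b
  obtain ⟨b, hb1, hb2, hb3, hb4, hb5, hb6⟩ : ∃ b : ℕ, E + 6 < M * d * b ∧
      2 * E + 20 < γ * d * b ∧
      |θ| * (2 * E + 10) + 2 + r * K < g * d * b ∧ (5 + (d : ℝ) * r) < (W - r - M) * d * b ∧
      2 * ((n : ℝ) + 20) < 1 * b ∧ (0 : ℝ) < (n * (n - 1) - 2 * M) * d * b := by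
    have := (((((tq32_ev (d := E + 6) (mul_pos hμ hd0)).and
      (tq32_ev (d := 2 * E + 20) (mul_pos hγ0 hd0))).and
      (tq32_ev (d := |θ| * (2 * E + 10) + 2 + r * K) (mul_pos hg0 hd0))).and
      (tq32_ev (d := 5 + (d : ℝ) * r) (mul_pos hWrM hd0))).and
      (tq32_ev (d := 2 * ((n : ℝ) + 20)) one_pos)).and (tq32_ev (d := 0) (mul_pos hden hd0))
    obtain ⟨b, hb⟩ := this.exists
    exact ⟨b, hb.1.1.1.1.1, hb.1.1.1.1.2, hb.1.1.1.2, hb.1.1.2, hb.1.2, hb.2⟩
  have hbn : 2 * (n + 20) < b := by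
    have : (2 * ((n : ℝ) + 20)) < b := by linarith
    exact_mod_cast this
  -- choice of s = u + v (+ 1)
  have hT : 2 * (n + 20) * (d * Q) ≤ b * (n + 2) * (d * Q) := by
    apply Nat.mul_le_mul_right
    exact hbn.le.trans (Nat.le_mul_of_pos_right _ (by omega))
  obtain ⟨T, hT'⟩ : ∃ T, b * (n + 2) * (d * Q) = T + 2 * (n + 20) * (d * Q) :=
    ⟨b * (n + 2) * (d * Q) - 2 * (n + 20) * (d * Q), by omega⟩
  obtain ⟨s, hs1, hs2⟩ : ∃ s, 2 * n * s ≤ T ∧ T < 2 * n * s + 2 * n := by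
    have hpos : 0 < 2 * n := by omega
    exact ⟨T / (2 * n), Nat.mul_div_le _ _, Nat.lt_mul_div_succ _ hpos⟩
  have hTR : (b : ℝ) * (n + 2) * (d * Q) = T + 2 * (n + 20) * (d * Q) := by exact_mod_cast hT'
  have hTD : (T : ℝ) = 2 * n * (d * b * D - E) := by
    have : 2 * n * (d * b * D - E) = d * b * (2 * n * D) - 2 * (n * E) := by ring
    rw [this, hDQ, hEQ]; linarith
  have hsR1 : (s : ℝ) ≤ d * b * D - E := by
    have h1 : 2 * (n : ℝ) * s ≤ T := by exact_mod_cast hs1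
    rw [hTD] at h1
    exact le_of_mul_le_mul_left h1 (by positivity)
  have hsR2 : d * b * D - E - 1 < (s : ℝ) := by
    have h1 : (T : ℝ) < 2 * n * s + 2 * n := by exact_mod_cast hs2
    rw [hTD] at h1
    have h2 : 2 * (n : ℝ) * (d * b * D - E) < 2 * n * (s + 1) := by linarith
    have := lt_of_mul_lt_mul_left h2 (by positivity)
    linarith
  have hbM : d * b * M = d * b * D - d * (2 * b * G) := by rw [hMD]; ring
  -- choice of v, u
  obtain ⟨v, hv⟩ : ∃ v, v = d * (2 * b * G) + 2 := ⟨_, rfl⟩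
  have hvR : (v : ℝ) = d * (2 * b * G) + 2 := by rw [hv]; push_cast; ring
  obtain ⟨u, huv, hu1, hu2⟩ : ∃ u : ℕ, u ≠ v ∧ u + v ≤ s ∧ s ≤ u + v + 1 := by
    have h1 : (v : ℝ) + 1 ≤ s := by linarith
    have h2 : v + 1 ≤ s := by exact_mod_cast h1
    by_cases h : s = v + v
    · exact ⟨s - v - 1, by omega, by omega, by omega⟩
    · exact ⟨s - v, by omega, by omega, by omega⟩
  have huR1 : (u : ℝ) ≤ d * b * M - E - 2 := by
    have h1 : (u : ℝ) + v ≤ s := by exact_mod_cast hu1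
    linarith
  have huR2 : d * b * M - E - 4 < (u : ℝ) := by
    have h1 : (s : ℝ) ≤ u + v + 1 := by exact_mod_cast hu2
    linarith
  have hu0 : 2 ≤ u := by
    have : (2 : ℝ) < u := by linarith
    exact_mod_cast this.le
  -- choice of w
  obtain ⟨R, hR⟩ : ∃ R, W = R + r := by
    have : (r : ℝ) < W := by linarith
    have : r < W := by exact_mod_cast this
    exact ⟨W - r, by omega⟩
  have hRR : (W : ℝ) = R + r := by exact_mod_cast hR
  have hR0 : 0 < R := by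
    have : (0 : ℝ) < R := by linarith
    exact_mod_cast this
  have hR0R : (0 : ℝ) < R := by exact_mod_cast hR0
  obtain ⟨X, hX⟩ : ∃ X, d * (b * W) = X + (u + 5 + d * ((b + 1) * r)) := by
    have h1 : (u : ℝ) + 5 + d * ((b + 1) * r) ≤ d * (b * W) := by
      have : ((W : ℝ) - r - M) * d * b = d * (b * W) - d * (b * r) - d * b * M := by ring
      linarith
    have h2 : u + 5 + d * ((b + 1) * r) ≤ d * (b * W) := by exact_mod_cast h1
    exact ⟨d * (b * W) - (u + 5 + d * ((b + 1) * r)), by omega⟩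
  have hP0 : 0 < d * R := Nat.mul_pos (by omega) hR0
  obtain ⟨w, hw1, hw2⟩ : ∃ w, d * R * w ≤ X ∧ X < d * R * w + d * R :=
    ⟨X / (d * R), Nat.mul_div_le _ _, Nat.lt_mul_div_succ _ hP0⟩
  have hXR : (d : ℝ) * (b * W) = X + (u + 5 + d * ((b + 1) * r)) := by exact_mod_cast hX
  have hXb : X ≤ d * R * b := by
    have h1 : d * (b * W) = d * R * b + d * (b * r) := by rw [hR]; ring
    have h2 : d * ((b + 1) * r) = d * (b * r) + d * r := by ring
    omega
  have hwb : w ≤ b := by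
    have : d * R * w ≤ d * R * b := hw1.trans hXb
    exact Nat.le_of_mul_le_mul_left this hP0
  obtain ⟨z, hz⟩ : ∃ z, b = w + z := ⟨b - w, by omega⟩
  have hzR : (b : ℝ) = w + z := by exact_mod_cast hz
  have hbw : b - w = z := by omega
  have hzle : (d : ℝ) * z ≤ M * d * b / (W - r) + K := by
    have h1 : (X : ℝ) < d * R * w + d * R := by exact_mod_cast hw2
    have h2 : (d : ℝ) * R * z < u + 5 + d * r + d * R := by
      have : (d : ℝ) * R * z = d * R * b - d * R * w := by rw [hzR]; ring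
      rw [hRR] at hXR
      linarith
    have h3 : (d : ℝ) * R * z ≤ M * d * b + (5 + d * r) + d * R := by linarith
    have h4 : (W : ℝ) - r = R := by linarith
    rw [hK, h4]
    have h5 : M * d * b / R + ((5 + (d : ℝ) * r) / R + d) =
        (M * d * b + (5 + d * r) + d * R) / R := by
      field_simp
      ring
    rw [h5, le_div_iff₀ hR0R]
    linarith
  have hmain : d * (w * W + (z + 1) * r) + u + 5 ≤ d * (b * W) := by
    have h1 : d * (w * W + (z + 1) * r) = d * R * w + d * ((b + 1) * r) := by rw [hR, hz]; ring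
    omega
  refine ⟨b, u, v, w, by omega, hu0, by omega, huv, ?_, ?_, ?_, hwb, ?_, ?_, ?_⟩
  · rw [← ha]
    have h1 : (d : ℝ) * (b * a * (a + 1)) + 16 ≤ 2 * (u + v) := by
      have h2 : (s : ℝ) ≤ u + v + 1 := by exact_mod_cast hu2
      have h3 : γ * d * b = 2 * (d * b * D) - d * (b * a * (a + 1)) := by rw [hγ]; ring
      linarith
    exact_mod_cast h1
  · rw [← hQ]
    have h1 : 2 * n * (u + v) ≤ 2 * n * s := Nat.mul_le_mul_left _ hu1
    omega
  · rw [← hG, hv]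
  · rw [← hW, hbw]; exact hmain
  · have h1 : (2 : ℝ) * u < d * (b * n * (n - 1)) := by
      have : ((n : ℝ) * (n - 1) - 2 * M) * d * b =
        d * (b * n * (n - 1)) - 2 * (d * b * M) := by ring
      linarith
    have h2 : ((n - 1 : ℕ) : ℝ) = (n : ℝ) - 1 := by
      rw [Nat.cast_sub (by omega)]; norm_num
    rw [← h2] at h1
    have h3 : 2 * u < d * (b * n * (n - 1)) := by exact_mod_cast h1
    omega
  · have h1 : (2 : ℝ) * u < d * (b * n * (n - 1)) := by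
      have : ((n : ℝ) * (n - 1) - 2 * M) * d * b =
        d * (b * n * (n - 1)) - 2 * (d * b * M) := by ring
      linarith
    have h2 : ((n - 1 : ℕ) : ℝ) = (n : ℝ) - 1 := by
      rw [Nat.cast_sub (by omega)]; norm_num
    have h3 : 2 * (u - 1) ≤ d * (b * n * (n - 1)) := by
      rw [← h2] at h1
      have : 2 * u ≤ d * (b * n * (n - 1)) := by exact_mod_cast h1.le
      omega
    have e1 : ((d * (b * n * (n - 1)) - 2 * (u - 1) : ℕ) : ℝ) =
        d * (b * n * (n - 1)) - 2 * (u - 1) := by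
      rw [Nat.cast_sub h3]; push_cast; rw [h2, Nat.cast_sub (by omega)]; norm_num
    rw [← hW, hbw]
    have e2 : ((d * (b * W) - u - 4 - d * (z * r) : ℕ) : ℝ) =
        d * (b * W) - u - 4 - d * (z * r) := by
      have h4 : d * (w * W + (z + 1) * r) = d * (w * W) + d * (z * r) + d * r := by ring
      have h5 : u + 4 + d * (z * r) ≤ d * (b * W) := by omega
      have h6 : d * (b * W) - u - 4 - d * (z * r) =
        d * (b * W) - (u + 4 + d * (z * r)) := by omega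
      rw [h6, Nat.cast_sub h5]; push_cast; ring
    rw [e1, e2]
    have k1 : θ * (d * (b * n * (n - 1)) - 2 * (u - 1)) ≤
        θ * (d * b * (n * (n - 1) - 2 * M)) + |θ| * (2 * E + 10) := by
      have h7 : θ * (d * (b * n * (n - 1)) - 2 * (u - 1)) =
          θ * (d * b * (n * (n - 1) - 2 * M)) + θ * (2 * (d * b * M - u) + 2) := by ring
      rw [h7]
      have h8 : θ * (2 * (d * b * M - u) + 2) ≤ |θ| * (2 * E + 10) := by
        have h9 : θ * (2 * (d * b * M - u) + 2) ≤ |θ| * (2 * (d * b * M - u) + 2) := by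
          apply mul_le_mul_of_nonneg_right (le_abs_self _)
          linarith
        refine h9.trans ?_
        apply mul_le_mul_of_nonneg_left _ (abs_nonneg _)
        linarith
      linarith
    have k2 : d * b * ((W : ℝ) - M * W / (W - r)) - 2 - r * K ≤
        d * (b * W) - u - 4 - d * (z * r) := by
      have h10 : (d : ℝ) * z * r ≤ (M * d * b / (W - r) + K) * r := by gcongr
      have h11 : M * (W : ℝ) / (W - r) = M + r * M / (W - r) := by
        field_simp; ring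
      have h12 : d * b * ((W : ℝ) - M * W / (W - r)) =
          d * (b * W) - d * b * M - M * d * b / (W - r) * r := by
        rw [h11]; ring
      rw [h12]
      linarith
    have k3 : g * d * b = d * b * ((W : ℝ) - M * W / (W - r)) -
        θ * (d * b * (n * (n - 1) - 2 * M)) := by
      rw [hg]; ring
    linarith

end Pool.Agent.H98.TQ
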