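import Pool.Agent.H98.TQ.DefsL

/-! Project TQ (MP_a3214d), row TQL-3: choice of the parameters (limit superior) -/

set_option autoImplicit false

open Polynomial IsDedekindDomain NumberField Pool.Agent.H35.AN
open Pool.Agent.H67.MU (Bdd)
open Pool.Agent.H92.SQ2 (gg WW DD mu ee)

namespace Pool.Agent.H98.TQ

private theorem tql3_Q (n : ℕ) (hn : 4 ≤ n) :
    ((n - 2) / 2 + 1) * (n - 2 - (n - 2) / 2 + 1) = n ^ 2 / 4 := by
  obtain ⟨k, hk | hk⟩ := Nat.even_or_odd' n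
  · obtain ⟨j, rfl⟩ : ∃ j, k = j + 1 := ⟨k - 1, by omega⟩
    subst hk
    have h1 : 2 * (j + 1) - 2 = 2 * j := by omega
    have h2 : 2 * j / 2 = j := by omega
    have h3 : 2 * j - j = j := by omega
    rw [h1, h2, h3]
    have h4 : (2 * (j + 1)) ^ 2 = 4 * ((j + 1) * (j + 1)) := by ring
    rw [h4]; omega
  · obtain ⟨j, rfl⟩ : ∃ j, k = j + 1 := ⟨k - 1, by omega⟩
    subst hk
    have h1 : 2 * (j + 1) + 1 - 2 = 2 * j + 1 := by omega
    have h2 : (2 * j + 1) / 2 = j := by omega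
    have h3 : 2 * j + 1 - j = j + 1 := by omega
    rw [h1, h2, h3]
    have h4 : (2 * (j + 1) + 1) ^ 2 = 4 * ((j + 1) * (j + 1 + 1)) + 1 := by ring
    rw [h4]; omega

private theorem tql3_A (n : ℕ) (hn : 4 ≤ n) :
    n * ((n - 2 - (n - 2) / 2) * (n - 2 - (n - 2) / 2 + 1)) <
      (n + 2) * (((n - 2) / 2 + 1) * (n - 2 - (n - 2) / 2 + 1)) := by
  obtain ⟨k, hk | hk⟩ := Nat.even_or_odd' n
  · obtain ⟨j, rfl⟩ : ∃ j, k = j + 1 := ⟨k - 1, by omega⟩
    subst hk
    have h1 : 2 * (j + 1) - 2 = 2 * j := by omega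
    have h2 : 2 * j / 2 = j := by omega
    have h3 : 2 * j - j = j := by omega
    rw [h1, h2, h3]
    nlinarith [sq_nonneg j, mul_nonneg (Nat.zero_le j) (Nat.zero_le j)]
  · obtain ⟨j, rfl⟩ : ∃ j, k = j + 1 := ⟨k - 1, by omega⟩
    subst hk
    have h1 : 2 * (j + 1) + 1 - 2 = 2 * j + 1 := by omega
    have h2 : (2 * j + 1) / 2 = j := by omega
    have h3 : 2 * j + 1 - j = j + 1 := by omega
    rw [h1, h2, h3]
    have : 0 < (j + 1) * (j + 1 + 1) := by positivity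
    nlinarith

private theorem tql3_ev {c d : ℝ} (hc : 0 < c) : ∀ᶠ b : ℕ in Filter.atTop, d < c * (b : ℝ) :=
  ((tendsto_natCast_atTop_atTop (R := ℝ)).const_mul_atTop hc).eventually_gt_atTop d

private theorem tql3_gg (n s : ℕ) (hn : 2 ≤ n) (hs : 1 ≤ s) : 1 ≤ gg n s := by
  unfold gg
  have h1 : (1 + s - 1) / s = 1 := by
    have : 1 + s - 1 = s := by omega
    rw [this]; exact Nat.div_self (by omega)
  calc 1 = (1 + s - 1) / s := h1.symm
    _ ≤ ∑ i ∈ Finset.range n, (i + s - 1) / s :=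
        Finset.single_le_sum (f := fun i => (i + s - 1) / s) (fun _ _ => Nat.zero_le _)
          (Finset.mem_range.mpr (by omega))

/-- the choice of `w s` -/
private theorem tql3_one (d n s b u W G : ℕ) (θ D E : ℝ) (hd : 1 ≤ d) (hn : 1 ≤ n)
    (hG : 1 ≤ G) (hsW : (s : ℝ) < W) (hu2 : 2 ≤ u)
    (hm1 : 0 < (n : ℝ) * (n - 1) - 2 * D)
    (hb1 : 1 ≤ b)
    (hb3 : |θ| * (2 * E + 8) + 2 + s * ((5 + (d : ℝ) * s) / (W - s) + d) <
      (((W : ℝ) - D * W / (W - s)) - θ * min ((n : ℝ) * (n - 1) - 2 * D) (2 * (G : ℝ))) * d * b)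
    (hb4 : 5 + (d : ℝ) * s < (W - s - D) * d * b)
    (hu1' : (u : ℝ) ≤ d * b * D - 2) (hu2' : d * b * D - E - 3 < (u : ℝ)) :
    ∃ w : ℕ, w ≤ b ∧ d * (w * W + (b - w + 1) * s) + u + 5 ≤ d * (b * W) ∧
      0 < min (d * (b * n * (n - 1)) - 2 * (u - 1)) (d * (2 * b * G)) ∧
      θ * ((min (d * (b * n * (n - 1)) - 2 * (u - 1)) (d * (2 * b * G)) : ℕ) : ℝ) <
        ((d * (b * W) - u - 4 - d * ((b - w) * s) : ℕ) : ℝ) := by
  have hdR : (1 : ℝ) ≤ d := by exact_mod_cast hd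
  have hd0 : (0 : ℝ) < d := by linarith
  have hbR : (1 : ℝ) ≤ b := by exact_mod_cast hb1
  have hb0 : (0 : ℝ) < b := by linarith
  have hGR : (1 : ℝ) ≤ G := by exact_mod_cast hG
  obtain ⟨K, hK⟩ : ∃ K, K = (5 + (d : ℝ) * s) / (W - s) + d := ⟨_, rfl⟩
  obtain ⟨m, hm⟩ : ∃ m, m = min ((n : ℝ) * (n - 1) - 2 * D) (2 * (G : ℝ)) := ⟨_, rfl⟩
  rw [← hK, ← hm] at hb3
  -- choice of w
  obtain ⟨R, hR⟩ : ∃ R, W = R + s := by
    have : s < W := by exact_mod_cast hsW
    exact ⟨W - s, by omega⟩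
  have hRR : (W : ℝ) = R + s := by exact_mod_cast hR
  have hR0 : 0 < R := by
    have : (0 : ℝ) < R := by linarith
    exact_mod_cast this
  have hR0R : (0 : ℝ) < R := by exact_mod_cast hR0
  obtain ⟨X, hX⟩ : ∃ X, d * (b * W) = X + (u + 5 + d * ((b + 1) * s)) := by
    have h1 : (u : ℝ) + 5 + d * ((b + 1) * s) ≤ d * (b * W) := by
      have : ((W : ℝ) - s - D) * d * b = d * (b * W) - d * (b * s) - d * b * D := by ring
      linarith
    have h2 : u + 5 + d * ((b + 1) * s) ≤ d * (b * W) := by exact_mod_cast h1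
    exact ⟨d * (b * W) - (u + 5 + d * ((b + 1) * s)), by omega⟩
  have hP0 : 0 < d * R := Nat.mul_pos (by omega) hR0
  obtain ⟨w, hw1, hw2⟩ : ∃ w, d * R * w ≤ X ∧ X < d * R * w + d * R :=
    ⟨X / (d * R), Nat.mul_div_le _ _, Nat.lt_mul_div_succ _ hP0⟩
  have hXR : (d : ℝ) * (b * W) = X + (u + 5 + d * ((b + 1) * s)) := by exact_mod_cast hX
  have hXb : X ≤ d * R * b := by
    have h1 : d * (b * W) = d * R * b + d * (b * s) := by rw [hR]; ring
    have h2 : d * ((b + 1) * s) = d * (b * s) + d * s := by ring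
    omega
  have hwb : w ≤ b := by
    have : d * R * w ≤ d * R * b := hw1.trans hXb
    exact Nat.le_of_mul_le_mul_left this hP0
  obtain ⟨z, hz⟩ : ∃ z, b = w + z := ⟨b - w, by omega⟩
  have hzR : (b : ℝ) = w + z := by exact_mod_cast hz
  have hbw : b - w = z := by omega
  have hzle : (d : ℝ) * z ≤ D * d * b / (W - s) + K := by
    have h1 : (X : ℝ) < d * R * w + d * R := by exact_mod_cast hw2
    have h2 : (d : ℝ) * R * z < u + 5 + d * s + d * R := by
      have : (d : ℝ) * R * z = d * R * b - d * R * w := by rw [hzR]; ring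
      rw [hRR] at hXR
      linarith
    have h3 : (d : ℝ) * R * z ≤ D * d * b + (5 + d * s) + d * R := by linarith
    have h4 : (W : ℝ) - s = R := by linarith
    rw [hK, h4]
    have h5 : D * d * b / R + ((5 + (d : ℝ) * s) / R + d) =
        (D * d * b + (5 + d * s) + d * R) / R := by
      field_simp
      ring
    rw [h5, le_div_iff₀ hR0R]
    linarith
  have hmain : d * (w * W + (z + 1) * s) + u + 5 ≤ d * (b * W) := by
    have h1 : d * (w * W + (z + 1) * s) = d * R * w + d * ((b + 1) * s) := by rw [hR, hz]; ring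
    omega
  have hn1 : ((n - 1 : ℕ) : ℝ) = (n : ℝ) - 1 := by
    rw [Nat.cast_sub (by omega)]; norm_num
  have hdb : 0 < (d : ℝ) * b := by positivity
  have hum : (2 : ℝ) * u < d * (b * n * (n - 1)) := by
    have h1 : 0 < ((n : ℝ) * (n - 1) - 2 * D) * (d * b) := mul_pos hm1 hdb
    have : ((n : ℝ) * (n - 1) - 2 * D) * (d * b) =
      d * (b * n * (n - 1)) - 2 * (d * b * D) := by ring
    linarith
  have humN : 2 * u < d * (b * n * (n - 1)) := by
    rw [← hn1] at hum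
    exact_mod_cast hum
  refine ⟨w, hwb, ?_, ?_, ?_⟩
  · rw [hbw]; exact hmain
  · refine lt_min (by omega) ?_
    positivity
  · have h3 : 2 * (u - 1) ≤ d * (b * n * (n - 1)) := by omega
    have e1 : ((d * (b * n * (n - 1)) - 2 * (u - 1) : ℕ) : ℝ) =
        d * (b * n * (n - 1)) - 2 * (u - 1) := by
      rw [Nat.cast_sub h3]; push_cast; rw [hn1, Nat.cast_sub (by omega)]; norm_num
    rw [hbw]
    have e2 : ((d * (b * W) - u - 4 - d * (z * s) : ℕ) : ℝ) =
        d * (b * W) - u - 4 - d * (z * s) := by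
      have h4 : d * (w * W + (z + 1) * s) = d * (w * W) + d * (z * s) + d * s := by ring
      have h5 : u + 4 + d * (z * s) ≤ d * (b * W) := by omega
      have h6 : d * (b * W) - u - 4 - d * (z * s) =
        d * (b * W) - (u + 4 + d * (z * s)) := by omega
      rw [h6, Nat.cast_sub h5]; push_cast; ring
    rw [Nat.cast_min, e1, e2]
    obtain ⟨Y, hY⟩ : ∃ Y : ℝ, Y = min ((d : ℝ) * (b * n * (n - 1)) - 2 * (u - 1))
        ((d * (2 * b * G) : ℕ) : ℝ) := ⟨_, rfl⟩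
    rw [← hY]
    have hY1 : d * b * m ≤ Y := by
      rw [hY]
      refine le_min ?_ ?_
      · have h1 : d * b * m ≤ d * b * ((n : ℝ) * (n - 1) - 2 * D) := by
          rw [hm]
          exact mul_le_mul_of_nonneg_left (min_le_left _ _) hdb.le
        have h2 : d * b * ((n : ℝ) * (n - 1) - 2 * D) =
          d * (b * n * (n - 1)) - 2 * (d * b * D) := by ring
        linarith
      · have h1 : d * b * m ≤ d * b * (2 * (G : ℝ)) := by
          rw [hm]
          exact mul_le_mul_of_nonneg_left (min_le_right _ _) hdb.le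
        have h2 : ((d * (2 * b * G) : ℕ) : ℝ) = d * b * (2 * (G : ℝ)) := by
          push_cast; ring
        linarith
    have hY2 : Y ≤ d * b * m + (2 * E + 8) := by
      have hE : 0 < E + 1 := by linarith
      rcases le_total ((n : ℝ) * (n - 1) - 2 * D) (2 * (G : ℝ)) with h | h
      · have hm' : m = (n : ℝ) * (n - 1) - 2 * D := by rw [hm]; exact min_eq_left h
        have h1 : Y ≤ (d : ℝ) * (b * n * (n - 1)) - 2 * (u - 1) := by rw [hY]; exact min_le_left _ _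
        have h2 : d * b * ((n : ℝ) * (n - 1) - 2 * D) =
          d * (b * n * (n - 1)) - 2 * (d * b * D) := by ring
        rw [hm', h2]
        linarith
      · have hm' : m = 2 * (G : ℝ) := by rw [hm]; exact min_eq_right h
        have h1 : Y ≤ ((d * (2 * b * G) : ℕ) : ℝ) := by rw [hY]; exact min_le_right _ _
        have h2 : ((d * (2 * b * G) : ℕ) : ℝ) = d * b * (2 * (G : ℝ)) := by
          push_cast; ring
        rw [hm']
        linarith
    have k1 : θ * Y ≤ θ * (d * b * m) + |θ| * (2 * E + 8) := by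
      have h7 : θ * Y = θ * (d * b * m) + θ * (Y - d * b * m) := by ring
      rw [h7]
      have h8 : θ * (Y - d * b * m) ≤ |θ| * (2 * E + 8) := by
        have h9 : θ * (Y - d * b * m) ≤ |θ| * (Y - d * b * m) := by
          apply mul_le_mul_of_nonneg_right (le_abs_self _)
          linarith
        refine h9.trans ?_
        apply mul_le_mul_of_nonneg_left _ (abs_nonneg _)
        linarith
      linarith
    have k2 : d * b * ((W : ℝ) - D * W / (W - s)) - 2 - s * K ≤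
        d * (b * W) - u - 4 - d * (z * s) := by
      have h10 : (d : ℝ) * z * s ≤ (D * d * b / (W - s) + K) * s := by gcongr
      have hWs : (W : ℝ) - s ≠ 0 := by
        have : 0 < (W : ℝ) - s := by linarith
        exact this.ne'
      have h11 : D * (W : ℝ) / (W - s) = D + s * D / (W - s) := by
        field_simp; ring
      have h12 : d * b * ((W : ℝ) - D * W / (W - s)) =
          d * (b * W) - d * b * D - D * d * b / (W - s) * s := by
        rw [h11]; ring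
      rw [h12]
      linarith
    have k3 : ((W : ℝ) - D * W / (W - s) - θ * m) * d * b =
        d * b * ((W : ℝ) - D * W / (W - s)) - θ * (d * b * m) := by ring
    linarith

theorem params_sup (d n : ℕ) (hd : 1 ≤ d) (hn : 5 ≤ n) (θ : ℝ)
    (hθ : ∀ s : ℕ, 1 ≤ s → s ≤ n - 1 → θ < eL n s) :
    ∃ (b u v : ℕ) (w : ℕ → ℕ), 1 ≤ b ∧ 2 ≤ u ∧ 2 ≤ v ∧ u ≠ v ∧
      d * (b * (n - 2 - (n - 2) / 2) * (n - 2 - (n - 2) / 2 + 1)) + 16 ≤ 2 * (u + v) ∧
      2 * n * (u + v) + 2 * (n + 20) * (d * (((n - 2) / 2 + 1) * (n - 2 - (n - 2) / 2 + 1))) ≤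
        b * (n + 2) * (d * (((n - 2) / 2 + 1) * (n - 2 - (n - 2) / 2 + 1))) ∧
      ∀ s : ℕ, 1 ≤ s → s ≤ n - 1 → w s ≤ b ∧
        d * (w s * (n * (n + 1) / 2 - 1) + (b - w s + 1) * s) + u + 5 ≤
          d * (b * (n * (n + 1) / 2 - 1)) ∧
        0 < min (d * (b * n * (n - 1)) - 2 * (u - 1)) (d * (2 * b * gg n s)) ∧
        θ * ((min (d * (b * n * (n - 1)) - 2 * (u - 1)) (d * (2 * b * gg n s)) : ℕ) : ℝ) <
          ((d * (b * (n * (n + 1) / 2 - 1)) - u - 4 - d * ((b - w s) * s) : ℕ) : ℝ) := by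
  have hA := tql3_A n (by omega)
  have hQ4 := tql3_Q n (by omega)
  obtain ⟨Q, hQ⟩ : ∃ Q, Q = ((n - 2) / 2 + 1) * (n - 2 - (n - 2) / 2 + 1) := ⟨_, rfl⟩
  obtain ⟨a, ha⟩ : ∃ a, a = n - 2 - (n - 2) / 2 := ⟨_, rfl⟩
  rw [← hQ, ← ha] at hA
  rw [← hQ] at hQ4
  -- the integer W
  obtain ⟨W, hW⟩ : ∃ W, W = n * (n + 1) / 2 - 1 := ⟨_, rfl⟩
  have hW2 : 2 * W + 2 = n * (n + 1) := by
    have h1 : 2 ∣ n * (n + 1) := (Nat.even_mul_succ_self n).two_dvd
    obtain ⟨m, hm⟩ := h1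
    have h2 : 4 * 5 ≤ n * (n + 1) := Nat.mul_le_mul (by omega) (by omega)
    rw [hW, hm]; omega
  have hnR : (5 : ℝ) ≤ n := by exact_mod_cast hn
  have hn0 : (0 : ℝ) < n := by linarith
  have hdR : (1 : ℝ) ≤ d := by exact_mod_cast hd
  have hd0 : (0 : ℝ) < d := by linarith
  have hWR : WW n = (W : ℝ) := by
    have : (2 : ℝ) * W + 2 = n * (n + 1) := by exact_mod_cast hW2
    unfold WW; linarith
  have hWR2 : (2 : ℝ) * W + 2 = n * (n + 1) := by exact_mod_cast hW2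
  obtain ⟨D, hD⟩ : ∃ D, D = DD n := ⟨_, rfl⟩
  have hDQ : 2 * n * D = ((n : ℝ) + 2) * Q := by
    rw [hD, DD, ← hQ4]; field_simp
  have hQle : 4 * (Q : ℝ) ≤ n ^ 2 := by
    have : 4 * Q ≤ n ^ 2 := by rw [hQ4]; exact Nat.mul_div_le _ _
    exact_mod_cast this
  have hQ0 : (0 : ℝ) ≤ Q := Nat.cast_nonneg _
  have hDle : 8 * D ≤ n * (n + 2) := by
    have h1 : ((n : ℝ) + 2) * (4 * Q) ≤ (n + 2) * n ^ 2 := by gcongr
    have h2 : n * (8 * D) ≤ n * (n * (n + 2)) := by linarith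
    exact le_of_mul_le_mul_left h2 hn0
  have hsq : 5 * (n : ℝ) ≤ n * n := mul_le_mul_of_nonneg_right hnR hn0.le
  have hQ1 : 0 < Q := by rw [hQ]; positivity
  have hQ1R : (0 : ℝ) < Q := by exact_mod_cast hQ1
  have hD0 : 0 < D := by
    have h1 : 0 < 2 * (n : ℝ) * D := by rw [hDQ]; positivity
    exact pos_of_mul_pos_right h1 (by positivity)
  have hden : 0 < (n : ℝ) * (n - 1) - 2 * D := by linarith
  have hn1 : ((n - 1 : ℕ) : ℝ) = (n : ℝ) - 1 := by
    rw [Nat.cast_sub (by omega)]; norm_num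
  have hsn : ∀ s ∈ Finset.Icc 1 (n - 1), 1 ≤ s ∧ s ≤ n - 1 ∧ (1 : ℝ) ≤ s ∧ (s : ℝ) ≤ n - 1 := by
    intro s hs
    rw [Finset.mem_Icc] at hs
    refine ⟨hs.1, hs.2, by exact_mod_cast hs.1, ?_⟩
    rw [← hn1]
    exact_mod_cast hs.2
  have hWs : ∀ s ∈ Finset.Icc 1 (n - 1), 0 < (W : ℝ) - s := by
    intro s hs
    obtain ⟨h1, h2, h3, h4⟩ := hsn s hs
    linarith
  have hWsD : ∀ s ∈ Finset.Icc 1 (n - 1), 0 < (W : ℝ) - s - D := by
    intro s hs
    obtain ⟨h1, h2, h3, h4⟩ := hsn s hs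
    linarith
  -- the gap
  have hg0 : ∀ s ∈ Finset.Icc 1 (n - 1), 0 <
      (((W : ℝ) - D * W / (W - s)) -
        θ * min ((n : ℝ) * (n - 1) - 2 * D) (2 * (gg n s : ℝ))) := by
    intro s hs
    obtain ⟨h1, h2, h3, h4⟩ := hsn s hs
    have h5 := hθ s h1 h2
    have hgg : (1 : ℝ) ≤ gg n s := by exact_mod_cast tql3_gg n s (by omega) h1
    have hmin : 0 < min ((n : ℝ) * (n - 1) - 2 * D) (2 * (gg n s : ℝ)) :=
      lt_min hden (by linarith)
    rw [eL, hWR, ← hD, lt_div_iff₀ hmin] at h5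
    linarith
  obtain ⟨E, hE⟩ : ∃ E, E = ((n : ℝ) + 20) * (d * Q) / n := ⟨_, rfl⟩
  have hE0 : 0 ≤ E := by rw [hE]; positivity
  have hEQ : n * E = ((n : ℝ) + 20) * (d * Q) := by rw [hE]; field_simp
  obtain ⟨γ, hγ⟩ : ∃ γ, γ = 2 * D - (a : ℝ) * (a + 1) := ⟨_, rfl⟩
  have hγ0 : 0 < γ := by
    have h1 : (n : ℝ) * (a * (a + 1)) < (n + 2) * Q := by exact_mod_cast hA
    rw [hγ]
    have h2 : (n : ℝ) * (a * (a + 1)) < n * (2 * D) := by linarith
    have := lt_of_mul_lt_mul_left h2 hn0.le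
    linarith
  -- choice of b
  obtain ⟨b, hb0, hb1, hb2, hb3, hb5⟩ : ∃ b : ℕ, 1 ≤ b ∧ E + 6 < D * d * b ∧
      2 * E + 20 < γ * d * b ∧
      (∀ s ∈ Finset.Icc 1 (n - 1),
        (|θ| * (2 * E + 8) + 2 + s * ((5 + (d : ℝ) * s) / (W - s) + d) <
        (((W : ℝ) - D * W / (W - s)) -
          θ * min ((n : ℝ) * (n - 1) - 2 * D) (2 * (gg n s : ℝ))) * d * b) ∧
        (5 + (d : ℝ) * s < (W - s - D) * d * b)) ∧
      2 * ((n : ℝ) + 20) < 1 * b := by
    have hall : ∀ᶠ b : ℕ in Filter.atTop, ∀ s ∈ Finset.Icc 1 (n - 1),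
        (|θ| * (2 * E + 8) + 2 + s * ((5 + (d : ℝ) * s) / (W - s) + d) <
        (((W : ℝ) - D * W / (W - s)) -
          θ * min ((n : ℝ) * (n - 1) - 2 * D) (2 * (gg n s : ℝ))) * d * b) ∧
        (5 + (d : ℝ) * s < (W - s - D) * d * b) := by
      rw [Filter.eventually_all_finset]
      intro s hs
      exact (tql3_ev (mul_pos (hg0 s hs) hd0)).and (tql3_ev (mul_pos (hWsD s hs) hd0))
    have := ((((Filter.eventually_ge_atTop 1).and (tql3_ev (d := E + 6) (mul_pos hD0 hd0))).and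
      (tql3_ev (d := 2 * E + 20) (mul_pos hγ0 hd0))).and hall).and
      (tql3_ev (d := 2 * ((n : ℝ) + 20)) one_pos)
    obtain ⟨b, hb⟩ := this.exists
    exact ⟨b, hb.1.1.1.1, hb.1.1.1.2, hb.1.1.2, hb.1.2, hb.2⟩
  have hbn : 2 * (n + 20) < b := by
    have : (2 * ((n : ℝ) + 20)) < b := by linarith
    exact_mod_cast this
  -- choice of u + v
  have hT : 2 * (n + 20) * (d * Q) ≤ b * (n + 2) * (d * Q) := by
    apply Nat.mul_le_mul_right
    exact hbn.le.trans (Nat.le_mul_of_pos_right _ (by omega))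
  obtain ⟨T, hT'⟩ : ∃ T, b * (n + 2) * (d * Q) = T + 2 * (n + 20) * (d * Q) :=
    ⟨b * (n + 2) * (d * Q) - 2 * (n + 20) * (d * Q), by omega⟩
  obtain ⟨t, hs1, hs2⟩ : ∃ t, 2 * n * t ≤ T ∧ T < 2 * n * t + 2 * n := by
    have hpos : 0 < 2 * n := by omega
    exact ⟨T / (2 * n), Nat.mul_div_le _ _, Nat.lt_mul_div_succ _ hpos⟩
  have hTR : (b : ℝ) * (n + 2) * (d * Q) = T + 2 * (n + 20) * (d * Q) := by exact_mod_cast hT'
  have hTD : (T : ℝ) = 2 * n * (d * b * D - E) := by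
    have : 2 * n * (d * b * D - E) = d * b * (2 * n * D) - 2 * (n * E) := by ring
    rw [this, hDQ, hEQ]; linarith
  have hsR1 : (t : ℝ) ≤ d * b * D - E := by
    have h1 : 2 * (n : ℝ) * t ≤ T := by exact_mod_cast hs1
    rw [hTD] at h1
    exact le_of_mul_le_mul_left h1 (by positivity)
  have hsR2 : d * b * D - E - 1 < (t : ℝ) := by
    have h1 : (T : ℝ) < 2 * n * t + 2 * n := by exact_mod_cast hs2
    rw [hTD] at h1
    have h2 : 2 * (n : ℝ) * (d * b * D - E) < 2 * n * (t + 1) := by linarith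
    have := lt_of_mul_lt_mul_left h2 (by positivity)
    linarith
  have ht5 : 5 ≤ t := by
    have : (5 : ℝ) < t := by linarith
    exact_mod_cast this.le
  obtain ⟨u, hu⟩ : ∃ u, t = u + 2 := ⟨t - 2, by omega⟩
  have huR : (t : ℝ) = u + 2 := by exact_mod_cast hu
  have hw : ∀ s : ℕ, ∃ w : ℕ, s ∈ Finset.Icc 1 (n - 1) →
      w ≤ b ∧ d * (w * W + (b - w + 1) * s) + u + 5 ≤ d * (b * W) ∧
      0 < min (d * (b * n * (n - 1)) - 2 * (u - 1)) (d * (2 * b * gg n s)) ∧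
      θ * ((min (d * (b * n * (n - 1)) - 2 * (u - 1)) (d * (2 * b * gg n s)) : ℕ) : ℝ) <
        ((d * (b * W) - u - 4 - d * ((b - w) * s) : ℕ) : ℝ) := by
    intro s
    by_cases hs : s ∈ Finset.Icc 1 (n - 1)
    · obtain ⟨h1, h2, h3, h4⟩ := hsn s hs
      obtain ⟨w, hw⟩ := tql3_one d n s b u W (gg n s) θ D E hd (by omega)
        (tql3_gg n s (by omega) h1) (by linarith [hWs s hs]) (by omega) hden hb0
        (hb3 s hs).1 (hb3 s hs).2 (by linarith) (by linarith)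
      exact ⟨w, fun _ => hw⟩
    · exact ⟨0, fun h => absurd h hs⟩
  choose w hw using hw
  refine ⟨b, u, 2, w, hb0, by omega, le_rfl, by omega, ?_, ?_, ?_⟩
  · rw [← ha]
    have h1 : (d : ℝ) * (b * a * (a + 1)) + 16 ≤ 2 * (u + 2) := by
      have h3 : γ * d * b = 2 * (d * b * D) - d * (b * a * (a + 1)) := by rw [hγ]; ring
      linarith
    exact_mod_cast h1
  · rw [← hQ]
    have h1 : 2 * n * (u + 2) ≤ T := by rw [← hu]; exact hs1
    omega
  · intro s hs1 hs2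
    rw [← hW]
    exact hw s (Finset.mem_Icc.mpr ⟨hs1, hs2⟩)

end Pool.Agent.H98.TQ
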