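import Pool.Agent.H98.TQ.FieldC
import Pool.Agent.H98.TQ.FieldL
import Pool.Agent.H98.TQ.Params
import Pool.Agent.H98.TQ.ParamsL
import Pool.Agent.H98.TQ.LimSup
import Pool.Agent.H98.TQ.IneqM
import Pool.Agent.H98.TQ.NSym
import Pool.Agent.H92.SQ2.Rpow
import Pool.Agent.H92.SQ2.IneqAs
import Pool.Agent.H92.SQ2.Ineq31

/-!
# Project TQ (MP_a3214d): main theorems

Lower bounds for the number of extensions of degree `n` with group `S_n` of a number field `k`: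
for all large bounds, and for arbitrarily large bounds.
-/

set_option autoImplicit false

open Polynomial IsDedekindDomain NumberField Pool.Agent.H35.AN
open Pool.Agent.H92.SQ2 (gg WW DD mu ee final_rpow2 ineq_as ineq31)

namespace Pool.Agent.H98.TQ

/-- one step: exponents less than `ee n r` -/
theorem main_one (k : Type) [Field k] [NumberField k] (n r : ℕ) (hn : 4 ≤ n) (hr : 1 ≤ r)
    (hrn : r + 2 ≤ n) (hμ : 0 < mu n r) (θ : ℝ) (hθ : θ < ee n r) :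
    ∀ᶠ B : ℝ in Filter.atTop, B ^ θ ≤ (malleCount k n ⊤ B : ℝ) := by
  obtain ⟨b, u, v, w, hb, hu, hv, huv, hc1, hc2, hv2, hw, hw2, hpos, hlt⟩ :=
    params (Module.finrank ℚ k) n r Module.finrank_pos hn hr hrn hμ θ hθ
  obtain ⟨c, C, hc, hC, h0, h⟩ :=
    field_count k n r b u v w hn hr hrn hb hu hv huv hc1 hc2 hv2 hw hw2
  exact final_rpow2 (malleCount k n ⊤) (count_mono k n) _ _ hpos θ c C hlt hc hC h0 h

/-- infinitely many `B`: exponents less than every `eL n s` -/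
theorem main_sup (k : Type) [Field k] [NumberField k] (n : ℕ) (hn : 5 ≤ n) (θ : ℝ)
    (hθ : ∀ s : ℕ, 1 ≤ s → s ≤ n - 1 → θ < eL n s) :
    ∃ᶠ B : ℝ in Filter.atTop, B ^ θ ≤ (malleCount k n ⊤ B : ℝ) := by
  obtain ⟨b, u, v, w, hb, hu, hv, huv, hc1, hc2, hs⟩ :=
    params_sup (Module.finrank ℚ k) n Module.finrank_pos hn θ hθ
  obtain ⟨c, C, hc, hC, h0, h⟩ :=
    field_count_sup k n b u v w (by omega) hb hu hv huv hc1 hc2
      fun s h1 h2 => ⟨(hs s h1 h2).1, (hs s h1 h2).2.1⟩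
  refine final_limsup (malleCount k n ⊤) (Finset.Icc 1 (n - 1))
    (fun s => Module.finrank ℚ k * (b * (n * (n + 1) / 2 - 1)) - u - 4 -
      Module.finrank ℚ k * ((b - w s) * s))
    (fun s => min (Module.finrank ℚ k * (b * n * (n - 1)) - 2 * (u - 1))
      (Module.finrank ℚ k * (2 * b * gg n s))) θ c C hc hC ?_ ?_ h0 ?_
  · intro s h1
    rw [Finset.mem_Icc] at h1
    exact (hs s h1.1 h1.2).2.2.1
  · intro s h1
    rw [Finset.mem_Icc] at h1
    exact (hs s h1.1 h1.2).2.2.2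
  · intro x hx
    obtain ⟨s, h1, h2, h3⟩ := h x hx
    exact ⟨s, Finset.mem_Icc.mpr ⟨h1, h2⟩, h3⟩

theorem clause31 (n : ℕ) (hn : 31 ≤ n) (k : Type) [Field k] [NumberField k] :
    ∀ᶠ B : ℝ in Filter.atTop, B ^ (1 / 2 + 1 / ((n : ℝ) - 4 / 3)) ≤ (NSym k n B : ℝ) := by
  obtain ⟨hμ, hθ⟩ := ineq31 n hn
  have h := main_one k n ((n + 1) / 2 - 1) (by omega) (by omega) (by omega) hμ _ hθ
  filter_upwards [h] with B hB
  rw [nsym_eq]
  exact hB

theorem clauseAs (κ : ℝ) (hκ : κ < 4 / 3) : ∃ n0 : ℕ, ∀ n : ℕ, n0 ≤ n →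
    ∀ (k : Type) [Field k] [NumberField k],
      ∀ᶠ B : ℝ in Filter.atTop, B ^ (1 / 2 + κ / (n : ℝ)) ≤ (NSym k n B : ℝ) := by
  obtain ⟨n0, h0⟩ := ineq_as κ hκ
  refine ⟨max n0 4, fun n hn k _ _ => ?_⟩
  obtain ⟨r, hr, hrn, hμ, hθ⟩ := h0 n (le_trans (le_max_left _ _) hn)
  have h := main_one k n r (le_trans (le_max_right _ _) hn) hr hrn hμ _ hθ
  filter_upwards [h] with B hB
  rw [nsym_eq]
  exact hB

theorem clauseSup (n : ℕ) (hn : 6 ≤ n) (k : Type) [Field k] [NumberField k] :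
    ∃ᶠ B : ℝ in Filter.atTop, B ^ (1 / 2 + 4 / (3 * (n : ℝ))) ≤ (NSym k n B : ℝ) := by
  have h := main_sup k n (by omega) (1 / 2 + 4 / (3 * (n : ℝ)))
    fun s h1 h2 => ineqM n hn s h1 h2
  refine h.mono fun B hB => ?_
  rw [nsym_eq]
  exact hB

end Pool.Agent.H98.TQ
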