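import Pool.Agent.H98.TQ.Defs

/-!
# Project TQ (MP_a3214d), row TQ-20: all minors of the embedding matrix are nonzero
-/

set_option autoImplicit false

open Polynomial IsDedekindDomain NumberField

namespace Pool.Agent.H98.TQ

variable {k : Type} [Field k] [NumberField k]

omit [NumberField k] in
theorem tq20_inl {t : ℕ} {K : Type} [Field K] [NumberField K] [Algebra k K] (z : Fin t → K)
    (hz : LinearIndependent k z) (j : Fin t) :
    Module.Basis.sumExtend hz (Sum.inl j) = z j := by
  classical
  simp only [Module.Basis.sumExtend, Module.Basis.reindex_apply, Equiv.symm_symm]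
  rw [Module.Basis.extend_apply_self]
  erw [Equiv.trans_apply]
  erw [Equiv.Set.sumDiffSubset_apply_inl]
  rfl

/-- the vectors of conjugates of `k`-independent elements are independent -/
theorem tq20_indep {t : ℕ} {K : Type} [Field K] [NumberField K] [Algebra k K] (z : Fin t → K)
    (hz : LinearIndependent k z) :
    LinearIndependent (AlgebraicClosure k)
      (fun j : Fin t => fun φ : K →ₐ[k] AlgebraicClosure k => φ (z j)) := by
  classical
  let b := Module.Basis.sumExtend hz
  have : Fintype (Fin t ⊕ Module.Basis.sumExtendIndex hz) :=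
    FiniteDimensional.fintypeBasisIndex b
  have hcard : Fintype.card (Fin t ⊕ Module.Basis.sumExtendIndex hz) =
      Fintype.card (K →ₐ[k] AlgebraicClosure k) := by
    rw [AlgHom.card, Module.finrank_eq_card_basis b]
  let e : (Fin t ⊕ Module.Basis.sumExtendIndex hz) ≃ (K →ₐ[k] AlgebraicClosure k) :=
    Fintype.equivOfCardEq hcard
  have hd : (Algebra.embeddingsMatrixReindex k (AlgebraicClosure k) b e).det ≠ 0 := by
    intro h0
    have h1 := Algebra.discr_eq_det_embeddingsMatrixReindex_pow_two k (AlgebraicClosure k)
      (b := b) e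
    rw [h0, zero_pow two_ne_zero] at h1
    have h2 : Algebra.discr k b = 0 := by
      apply (algebraMap k (AlgebraicClosure k)).injective
      rw [h1, map_zero]
    exact Algebra.discr_not_zero_of_basis k b h2
  have hrow := Matrix.linearIndependent_rows_of_det_ne_zero hd
  have hrow2 := hrow.comp (Sum.inl : Fin t → _) Sum.inl_injective
  rw [Fintype.linearIndependent_iff] at hrow2 ⊢
  intro g hg i
  refine hrow2 g ?_ i
  funext y
  have h3 := congrFun hg (e y)
  simp only [Finset.sum_apply, Pi.smul_apply, Pi.zero_apply, smul_eq_mul] at h3 ⊢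
  rw [← h3]
  refine Finset.sum_congr rfl fun j _ => ?_
  congr 1
  simp only [Algebra.embeddingsMatrixReindex, Algebra.embeddingsMatrix, Function.comp_apply,
    Matrix.reindex_apply, Matrix.submatrix_apply, Equiv.refl_symm, Equiv.refl_apply,
    Equiv.symm_symm, Matrix.of_apply]
  rw [show b (Sum.inl j) = z j from tq20_inl z hz j]

/-- some minor is nonzero -/
theorem tq20_some {t : ℕ} {K : Type} [Field K] [NumberField K] [Algebra k K] (z : Fin t → K)
    (hz : LinearIndependent k z) :
    ∃ S : Fin t → (K →ₐ[k] AlgebraicClosure k), Function.Injective S ∧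
      (Matrix.of fun i j => S i (z j)).det ≠ 0 := by
  classical
  have hind := tq20_indep z hz
  let r : (K →ₐ[k] AlgebraicClosure k) → (Fin t → AlgebraicClosure k) := fun φ j => φ (z j)
  have hspan : Submodule.span (AlgebraicClosure k) (Set.range r) = ⊤ := by
    by_contra hne
    obtain ⟨f, hf0, hf⟩ := Submodule.exists_le_ker_of_lt_top _ (lt_top_iff_ne_top.mpr hne)
    apply hf0
    have hc : ∀ j, f (Pi.single j 1) = 0 := by
      rw [Fintype.linearIndependent_iff] at hind
      refine hind (fun j => f (Pi.single j 1)) ?_
      funext φ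
      have h1 : f (r φ) = 0 := hf (Submodule.subset_span ⟨φ, rfl⟩)
      have h2 : r φ = ∑ j, (r φ j) • (Pi.single j 1 : Fin t → AlgebraicClosure k) := by
        funext l
        simp [Finset.sum_apply, Pi.single_apply]
      rw [h2, map_sum] at h1
      simp only [Finset.sum_apply, Pi.smul_apply, Pi.zero_apply, smul_eq_mul]
      rw [← h1]
      refine Finset.sum_congr rfl fun j _ => ?_
      rw [map_smul, smul_eq_mul, mul_comm]
    refine LinearMap.pi_ext' fun j => ?_
    refine LinearMap.ext_ring ?_
    simpa using hc j
  obtain ⟨f, hf1, hf2, hf3⟩ := Submodule.exists_fun_fin_finrank_span_eq (AlgebraicClosure k)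
    (Set.range r)
  have hfr : Module.finrank (AlgebraicClosure k)
      (Submodule.span (AlgebraicClosure k) (Set.range r)) = t := by
    rw [hspan, finrank_top, Module.finrank_fin_fun]
  choose S0 hS0 using hf1
  refine ⟨fun i => S0 (Fin.cast hfr.symm i), ?_, ?_⟩
  · intro i j hij
    have h1 : f (Fin.cast hfr.symm i) = f (Fin.cast hfr.symm j) := by
      rw [← hS0, ← hS0]
      exact congrArg r hij
    have h2 := hf3.injective h1
    simpa using h2
  · have hli : LinearIndependent (AlgebraicClosure k)
        (fun i : Fin t => f (Fin.cast hfr.symm i)) :=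
      hf3.comp _ (fun i j h => by simpa using h)
    have h1 : (Matrix.of fun i j => S0 (Fin.cast hfr.symm i) (z j)) =
        Matrix.of fun i => f (Fin.cast hfr.symm i) := by
      ext i j
      simp only [Matrix.of_apply]
      rw [← hS0]
    rw [h1]
    intro h0
    have h2 := Matrix.linearIndependent_rows_iff_isUnit.mp
      (show LinearIndependent (AlgebraicClosure k)
        (Matrix.of fun i => f (Fin.cast hfr.symm i)).row from hli)
    rw [Matrix.isUnit_iff_isUnit_det, h0] at h2
    exact not_isUnit_zero h2

theorem minor_ne {n t : ℕ} {K : Type} [Field K] [NumberField K] [Algebra k K] (hK : SymK k n K) (z : Fin t → K)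
    (hz : LinearIndependent k z) (S : Fin t → (K →ₐ[k] AlgebraicClosure k))
    (hS : Function.Injective S) :
    (Matrix.of fun i j => S i (z j)).det ≠ 0 := by
  classical
  obtain ⟨_, e, he⟩ := hK
  obtain ⟨S0, hS0, hd⟩ := tq20_some z hz
  obtain ⟨π, hπ⟩ := Equiv.Perm.exists_extending_pair (fun i => e (S0 i)) (fun i => e (S i))
    (e.injective.comp hS0) (e.injective.comp hS)
  obtain ⟨σ, hσ⟩ := he π
  have h1 : ∀ i, σ.toAlgHom.comp (S0 i) = S i := fun i => by
    apply e.injective
    rw [hσ]
    exact hπ i
  have h2 : (Matrix.of fun i j => S i (z j)) =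
      (Matrix.of fun i j => S0 i (z j)).map (σ : AlgebraicClosure k → AlgebraicClosure k) := by
    ext i j
    simp only [Matrix.of_apply, Matrix.map_apply]
    rw [← h1]
    rfl
  rw [h2]
  intro h0
  apply hd
  have h3 := AlgEquiv.map_det σ (Matrix.of fun i j => S0 i (z j))
  apply σ.injective
  rw [map_zero, h3]
  exact h0

end Pool.Agent.H98.TQ
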