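import Pool.Agent.H98.TQ.Defs

/-!
# Project TQ (MP_a3214d), row TQ-8: double roots modulo `l` which are not double modulo `l²` in
the value give ramification

If `f (x)` lies in `l` and not in `l²` and `f' (x)` lies in `l`, then the rational prime below `l`
divides the discriminant of `K = k(θ)`. Proof: by lying over there is a prime `Q` of `K` above `l`
that contains `θ - x`. As `0 = f (θ) = f (x) + f' (x) (θ - x) + (θ - x)² h`, the value `f (x)` lies
in `Q²`, and as `(f (x)) = l J` with `J` not inside `l`, the prime `l` lies in `Q²`.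
-/

set_option autoImplicit false

open Polynomial IsDedekindDomain NumberField

namespace Pool.Agent.H98.TQ

variable {k : Type} [Field k] [NumberField k]

/-- lying over for the homomorphism `X ↦ t` -/
private theorem tq8_over {K : Type} [Field K] [NumberField K] [Algebra k K] (t : 𝓞 K)
    (P : Ideal (𝓞 k)[X]) [P.IsPrime]
    (hP : ∀ g : (𝓞 k)[X], aeval t g = 0 → g ∈ P) :
    ∃ Q : Ideal (𝓞 K), Q.IsPrime ∧ ∀ g : (𝓞 k)[X], aeval t g ∈ Q ↔ g ∈ P := by
  letI alg : Algebra (𝓞 k)[X] (𝓞 K) := (aeval t : (𝓞 k)[X] →ₐ[𝓞 k] 𝓞 K).toRingHom.toAlgebra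
  haveI : IsScalarTower (𝓞 k) (𝓞 k)[X] (𝓞 K) := IsScalarTower.of_algebraMap_eq fun y => by
    change _ = aeval t (C y)
    rw [aeval_C]
  haveI : Algebra.IsIntegral (𝓞 k)[X] (𝓞 K) :=
    ⟨fun y => (Algebra.IsIntegral.isIntegral (R := 𝓞 k) y).tower_top⟩
  obtain ⟨Q, hQ, hQP⟩ := Ideal.exists_ideal_over_prime_of_isIntegral_of_isDomain
    (S := 𝓞 K) P (fun g hg => hP g hg)
  refine ⟨Q, hQ, fun g => ?_⟩
  rw [← hQP]
  exact Iff.rfl

theorem ramified {n : ℕ} (hn : 2 ≤ n) (K : Type) [Field K] [NumberField K] [Algebra k K]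
    (hK : Module.finrank k K = n) {f : (𝓞 k)[X]} (hf : f.natDegree = n) (hm : f.Monic)
    (hirr : Irreducible (FK f)) {θ : K} (hθ : aeval θ (FK f) = 0) {l : HeightOneSpectrum (𝓞 k)}
    (hl : (Ideal.absNorm l.asIdeal).Prime) {x : 𝓞 k}
    (h1 : f.eval x ∈ l.asIdeal) (h2 : f.eval x ∉ l.asIdeal ^ 2)
    (h3 : f.derivative.eval x ∈ l.asIdeal) :
    ((Ideal.absNorm l.asIdeal : ℕ) : ℤ) ∣ NumberField.discr K := by
  classical
  have _ := hn
  have _ := hK
  have _ := hf
  by_contra hnd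
  have hℓp : Prime ((Ideal.absNorm l.asIdeal : ℕ) : ℤ) := Nat.prime_iff_prime_int.1 hl
  have hℓl : ((Ideal.absNorm l.asIdeal : ℕ) : 𝓞 k) ∈ l.asIdeal := Ideal.absNorm_mem l.asIdeal
  -- the integer `t = θ`
  have hθ' : aeval θ f = 0 := by
    have h := hθ
    unfold FK at h
    rwa [aeval_map_algebraMap] at h
  have hint : IsIntegral ℤ θ := by
    have h : IsIntegral (𝓞 k) θ := ⟨f, hm, by rw [← aeval_def]; exact hθ'⟩
    exact isIntegral_trans θ h
  let t : 𝓞 K := ⟨θ, hint⟩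
  have ht : (algebraMap (𝓞 K) K) t = θ := rfl
  have hev : ∀ g : (𝓞 k)[X], algebraMap (𝓞 K) K (aeval t g) = aeval θ g := by
    intro g
    rw [← ht]
    exact (aeval_algebraMap_apply K t g).symm
  have hft : aeval t f = 0 := by
    apply FaithfulSMul.algebraMap_injective (𝓞 K) K
    rw [hev, hθ', map_zero]
  -- the kernel
  have hFm : (FK f).Monic := hm.map _
  have hmin : FK f = minpoly k θ := minpoly.eq_of_irreducible_of_monic hirr hθ hFm
  have hker : ∀ g : (𝓞 k)[X], aeval t g = 0 → f ∣ g := by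
    intro g hg
    have h4 : aeval θ (g.map (algebraMap (𝓞 k) k)) = 0 := by
      rw [aeval_map_algebraMap, ← hev, hg, map_zero]
    have h5 : f.map (algebraMap (𝓞 k) k) ∣ g.map (algebraMap (𝓞 k) k) := by
      have h6 := minpoly.dvd k θ h4
      rw [← hmin] at h6
      exact h6
    exact (map_dvd_map _ (FaithfulSMul.algebraMap_injective (𝓞 k) k) hm).1 h5
  have hlp : l.asIdeal.IsPrime := l.isPrime
  haveI : (l.asIdeal.comap (evalRingHom x)).IsPrime := Ideal.comap_isPrime _ _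
  obtain ⟨Q, hQ, hQP⟩ := tq8_over (k := k) t (l.asIdeal.comap (evalRingHom x)) (fun g hg => by
    obtain ⟨q, rfl⟩ := hker g hg
    rw [Ideal.mem_comap, coe_evalRingHom, eval_mul]
    exact Ideal.mul_mem_right _ _ h1)
  have hQl : ∀ a : 𝓞 k, algebraMap (𝓞 k) (𝓞 K) a ∈ Q ↔ a ∈ l.asIdeal := by
    intro a
    have h := hQP (C a)
    rw [aeval_C, Ideal.mem_comap, coe_evalRingHom, eval_C] at h
    exact h
  have hQt : t - algebraMap (𝓞 k) (𝓞 K) x ∈ Q := by
    have h := (hQP (X - C x)).2 (by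
      rw [Ideal.mem_comap, coe_evalRingHom, eval_sub, eval_X, eval_C, sub_self]
      exact Ideal.zero_mem _)
    rwa [map_sub, aeval_X, aeval_C] at h
  -- `f (x)` lies in `Q²`
  have hfx : algebraMap (𝓞 k) (𝓞 K) (f.eval x) ∈ Q ^ 2 := by
    obtain ⟨q, hq⟩ := X_sub_C_dvd_sub_C_eval (p := f) (a := x)
    have hder : q.eval x = f.derivative.eval x := by
      have h := congrArg (fun p : (𝓞 k)[X] => p.derivative.eval x) hq
      simp only [derivative_sub, derivative_C, sub_zero, derivative_mul, derivative_X, one_mul,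
        eval_add, eval_mul, eval_sub, eval_X, eval_C, sub_self, zero_mul, add_zero] at h
      exact h.symm
    have hqQ : aeval t q ∈ Q := by
      refine (hQP q).2 ?_
      rw [Ideal.mem_comap, coe_evalRingHom, hder]
      exact h3
    have h4 := congrArg (aeval t) hq
    rw [map_sub, hft, aeval_C, map_mul, map_sub, aeval_X, aeval_C] at h4
    have h5 : algebraMap (𝓞 k) (𝓞 K) (f.eval x) =
        -((t - algebraMap (𝓞 k) (𝓞 K) x) * aeval t q) := by
      linear_combination -h4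
    rw [h5, pow_two]
    exact neg_mem (Ideal.mul_mem_mul hQt hqQ)
  -- `l` lies in `Q²`
  obtain ⟨J, hJ⟩ := Ideal.dvd_span_singleton.2 h1
  have hJl : ¬ J ≤ l.asIdeal := by
    intro h
    apply h2
    have h4 : f.eval x ∈ Ideal.span {f.eval x} := Ideal.mem_span_singleton_self _
    rw [hJ] at h4
    rw [pow_two]
    exact Ideal.mul_mono_right h h4
  obtain ⟨j, hjJ, hjl⟩ := SetLike.not_le_iff_exists.1 hJl
  have hlQ : ∀ a ∈ l.asIdeal, algebraMap (𝓞 k) (𝓞 K) a ∈ Q ^ 2 := by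
    intro a ha
    have h4 : a * j ∈ Ideal.span {f.eval x} := by
      rw [hJ]
      exact Ideal.mul_mem_mul ha hjJ
    obtain ⟨b, hb⟩ := Ideal.mem_span_singleton.1 h4
    have h5 : algebraMap (𝓞 k) (𝓞 K) j * algebraMap (𝓞 k) (𝓞 K) a ∈ Q ^ 2 := by
      rw [← map_mul, mul_comm, hb, map_mul]
      exact Ideal.mul_mem_right _ _ hfx
    have h6 : algebraMap (𝓞 k) (𝓞 K) j ∉ Q := fun h => hjl ((hQl j).1 h)
    haveI := hQ
    exact (Ideal.IsPrime.mul_mem_pow Q h5).resolve_left h6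
  -- the rational prime below `l` lies in `Q²`
  have hℓQ2 : ((Ideal.absNorm l.asIdeal : ℕ) : 𝓞 K) ∈ Q ^ 2 := by
    have h := hlQ _ hℓl
    rwa [map_natCast] at h
  have hℓQ : (((Ideal.absNorm l.asIdeal : ℕ) : ℤ) : 𝓞 K) ∈ Q := by
    have h := Ideal.pow_le_self two_ne_zero hℓQ2
    simpa using h
  haveI := hQ
  have hunr := (NumberField.not_dvd_discr_iff_forall_mem K (𝓞 K) hℓp).1 hnd Q hQ hℓQ
  have hidx : Q.ramificationIdx ℤ = 1 := Ideal.ramificationIdx_eq_one Q ℤ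
  haveI : Q.LiesOver (Ideal.span {((Ideal.absNorm l.asIdeal : ℕ) : ℤ)}) :=
    (Ideal.liesOver_span_iff hQ.ne_top hℓp).mpr hℓQ
  have hmap : (Ideal.span {((Ideal.absNorm l.asIdeal : ℕ) : ℤ)}).map (algebraMap ℤ (𝓞 K)) =
      Ideal.span {((Ideal.absNorm l.asIdeal : ℕ) : 𝓞 K)} := by
    rw [Ideal.map_span, Set.image_singleton]
    simp
  have hne : (Ideal.span {((Ideal.absNorm l.asIdeal : ℕ) : ℤ)}).map (algebraMap ℤ (𝓞 K)) ≠ ⊥ := by
    rw [hmap, Ne, Ideal.span_singleton_eq_bot]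
    exact_mod_cast hl.ne_zero
  have hmul := Ideal.IsDedekindDomain.ramificationIdx_eq_multiplicity
    (Ideal.span {((Ideal.absNorm l.asIdeal : ℕ) : ℤ)}) Q hne
  have hQ0 : Q ≠ ⊥ := by
    rintro rfl
    rw [Ideal.mem_bot] at hℓQ
    exact hl.ne_zero (by exact_mod_cast hℓQ)
  have hfin : FiniteMultiplicity Q
      ((Ideal.span {((Ideal.absNorm l.asIdeal : ℕ) : ℤ)}).map (algebraMap ℤ (𝓞 K))) :=
    FiniteMultiplicity.of_prime_left (Ideal.prime_of_isPrime hQ0 hQ) hne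
  have hdvd : Q ^ 2 ∣ (Ideal.span {((Ideal.absNorm l.asIdeal : ℕ) : ℤ)}).map
      (algebraMap ℤ (𝓞 K)) := by
    rw [Ideal.dvd_iff_le, hmap, Ideal.span_singleton_le_iff_mem]
    exact hℓQ2
  have h7 := hfin.le_multiplicity_of_pow_dvd hdvd
  rw [← hmul, hidx] at h7
  omega

end Pool.Agent.H98.TQ
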